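import Pool.Agent.LibCov74.Defs

/-!
# Elementary facts on the data
-/

set_option autoImplicit false

namespace Pool.Agent.LibCov74

open Finset
open Pool.Agent.LibVol74 (HS)

variable {ι κ : Type} [Fintype ι] [Fintype κ]

theorem mem_P (D : Dt ι κ) (Z : Finset ι) (j : κ) :
    j ∈ D.P Z ↔ ∀ i, i ∉ Z → ¬ D.Tch i (D.b j) := by
  classical
  unfold Dt.P
  rw [Finset.mem_filter]
  exact ⟨fun h => h.2, fun h => ⟨Finset.mem_univ _, h⟩⟩

theorem g_mem (D : Dt ι κ) (i : ι) : D.g i ∈ D.S := by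
  have h : D.g i ∈ AddSubmonoid.closure (Set.range D.g) := AddSubmonoid.subset_closure ⟨i, rfl⟩
  rwa [D.gen] at h

theorem Mon_mono {α : Type} (g : α → ℕ) {X Y : Finset α} (h : X ⊆ Y) : Mon g X ≤ Mon g Y :=
  AddSubmonoid.closure_mono (Set.image_mono (Finset.coe_subset.2 h))

theorem Mon_le (D : Dt ι κ) (X : Finset ι) : Mon D.g X ≤ D.S := by
  unfold Mon
  rw [AddSubmonoid.closure_le]
  rintro _ ⟨i, _, rfl⟩
  exact g_mem D i

theorem Mon_univ (D : Dt ι κ) : Mon D.g Finset.univ = D.S := by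
  unfold Mon
  rw [Finset.coe_univ, Set.image_univ, D.gen]

/-- elements of `⟨X⟩` are combinations -/
theorem mem_Mon_iff {α : Type} [DecidableEq α] (g : α → ℕ) (X : Finset α) (n : ℕ) :
    n ∈ Mon g X ↔ ∃ x : α → ℕ, ∑ i ∈ X, x i * g i = n := by
  constructor
  · intro h
    unfold Mon at h
    induction h using AddSubmonoid.closure_induction with
    | mem n hn =>
      obtain ⟨i, hi, rfl⟩ := hn
      refine ⟨Pi.single i 1, ?_⟩
      rw [Finset.sum_eq_single i]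
      · simp
      · intro j _ hj
        simp [hj]
      · intro hi'
        exact absurd hi hi'
    | zero => exact ⟨0, by simp⟩
    | add a b _ _ ha hb =>
      obtain ⟨x, rfl⟩ := ha
      obtain ⟨y, rfl⟩ := hb
      refine ⟨x + y, ?_⟩
      rw [← Finset.sum_add_distrib]
      exact Finset.sum_congr rfl fun i _ => by rw [Pi.add_apply, add_mul]
  · rintro ⟨x, rfl⟩
    refine AddSubmonoid.sum_mem _ fun i hi => ?_
    have h1 : g i ∈ Mon g X := AddSubmonoid.subset_closure ⟨i, hi, rfl⟩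
    have h2 := AddSubmonoid.nsmul_mem (Mon g X) h1 (x i)
    rwa [smul_eq_mul] at h2

theorem gcd_dvd_of_mem_Mon {α : Type} (g : α → ℕ) (X : Finset α) {n : ℕ} (h : n ∈ Mon g X) :
    X.gcd g ∣ n := by
  classical
  obtain ⟨x, rfl⟩ := (mem_Mon_iff g X n).1 h
  exact Finset.dvd_sum fun i hi => Dvd.dvd.mul_left (Finset.gcd_dvd hi) _

theorem tch_add (D : Dt ι κ) (i : ι) {n m : ℕ} (h : D.Tch i n) (hm : m ∈ D.S) :
    D.Tch i (n + m) := by
  obtain ⟨s, hs, rfl⟩ := h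
  exact ⟨s + m, D.S.add_mem hs hm, by ring⟩

theorem A1_tch_self (D : Dt ι κ) (i : ι) : D.Tch i (D.g i) :=
  ⟨0, D.S.zero_mem, by rw [zero_add]⟩

/-- a nonzero element of `⟨X⟩` is touched by a generator in `X` -/
theorem tch_of_mem_Mon (D : Dt ι κ) {X : Finset ι} {n : ℕ} (h : n ∈ Mon D.g X) (h0 : 0 < n) :
    ∃ i ∈ X, D.Tch i n := by
  have key : n = 0 ∨ ∃ i ∈ X, D.Tch i n := by
    clear h0
    have h' := h
    unfold Mon at h'
    induction h' using AddSubmonoid.closure_induction with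
    | mem n hn =>
      obtain ⟨i, hi, rfl⟩ := hn
      exact Or.inr ⟨i, hi, A1_tch_self D i⟩
    | zero => exact Or.inl rfl
    | add a b ha hb iha ihb =>
      rcases iha ha with h1 | ⟨i, hi, h1⟩
      · rw [h1, zero_add]
        exact ihb hb
      · exact Or.inr ⟨i, hi, tch_add D i h1 (Mon_le D X hb)⟩
  exact key.resolve_left h0.ne'

/-- an element of `S` which is not touched by the generators outside `Z` is in `⟨Z⟩` -/
theorem mem_Mon_of_pure (D : Dt ι κ) (Z : Finset ι) {n : ℕ} (hn : n ∈ D.S)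
    (h : ∀ i, i ∉ Z → ¬ D.Tch i n) : n ∈ Mon D.g Z := by
  have hn' : n ∈ AddSubmonoid.closure (Set.range D.g) := by rw [D.gen]; exact hn
  clear hn
  induction hn' using AddSubmonoid.closure_induction with
  | mem n hn =>
    obtain ⟨i, rfl⟩ := hn
    by_cases hi : i ∈ Z
    · exact AddSubmonoid.subset_closure ⟨i, hi, rfl⟩
    · exact absurd (A1_tch_self D i) (h i hi)
  | zero => exact AddSubmonoid.zero_mem _
  | add a b ha hb iha ihb =>
    rw [D.gen] at ha hb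
    refine AddSubmonoid.add_mem _ (iha fun i hi h1 => h i hi (tch_add D i h1 hb))
      (ihb fun i hi h1 => h i hi ?_)
    rw [add_comm]
    exact tch_add D i h1 ha

theorem tch_of_dvd (D : Dt ι κ) (i : ι) {n : ℕ} (h : D.g i ∣ n) (h0 : 0 < n) : D.Tch i n := by
  obtain ⟨k, rfl⟩ := h
  have hk : 0 < k := Nat.pos_of_ne_zero fun h => by rw [h] at h0; simp at h0
  obtain ⟨l, rfl⟩ := Nat.exists_eq_succ_of_ne_zero hk.ne'
  refine ⟨l * D.g i, ?_, by rw [Nat.succ_eq_add_one]; ring⟩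
  have := AddSubmonoid.nsmul_mem D.S (g_mem D i) l
  rwa [smul_eq_mul] at this

/-- the greatest common divisor of the generators of a numerical semigroup is one -/
theorem gcd_one (D : Dt ι κ) : (Finset.univ : Finset ι).gcd D.g = 1 := by
  obtain ⟨N, hN⟩ := D.fin.bddAbove
  have hmem : ∀ n, N < n → n ∈ D.S := by
    intro n hn
    by_contra h
    exact absurd (hN h) (not_le.2 hn)
  have hd : ∀ n, N < n → (Finset.univ : Finset ι).gcd D.g ∣ n := fun n hn =>
    gcd_dvd_of_mem_Mon D.g Finset.univ (by rw [Mon_univ]; exact hmem n hn)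
  have h1 := Nat.dvd_sub (hd (N + 2) (by omega)) (hd (N + 1) (by omega))
  have h2 : N + 2 - (N + 1) = 1 := by omega
  rw [h2] at h1
  exact Nat.dvd_one.1 h1

theorem inZ_natCast {T : AddSubmonoid ℕ} {n : ℕ} : InZ T (n : ℤ) ↔ n ∈ T := by
  constructor
  · rintro ⟨s, hs, h⟩
    rwa [← Int.natCast_inj.1 h]
  · intro h
    exact ⟨n, h, rfl⟩

theorem InZ.add {T : AddSubmonoid ℕ} {n m : ℤ} (hn : InZ T n) (hm : InZ T m) : InZ T (n + m) := by
  obtain ⟨s, hs, rfl⟩ := hn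
  obtain ⟨t, ht, rfl⟩ := hm
  exact ⟨s + t, T.add_mem hs ht, by push_cast; rfl⟩

theorem InZ.mono {T T' : AddSubmonoid ℕ} (h : T ≤ T') {n : ℤ} (hn : InZ T n) : InZ T' n := by
  obtain ⟨s, hs, rfl⟩ := hn
  exact ⟨s, h hs, rfl⟩

theorem InZ.nonneg {T : AddSubmonoid ℕ} {n : ℤ} (hn : InZ T n) : 0 ≤ n := by
  obtain ⟨s, _, rfl⟩ := hn
  exact Int.natCast_nonneg s

theorem good_iff (D : Dt ι κ) (X : Finset ι) (Y : Finset κ) :
    D.Good X Y ↔ InZ D.S (∑ j ∈ Y, (D.b j : ℤ) - ∑ i ∈ X, (D.g i : ℤ)) := by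
  constructor
  · rintro ⟨s, hs, h⟩
    refine ⟨s, hs, ?_⟩
    have h' : ((∑ j ∈ Y, D.b j : ℕ) : ℤ) = ((s + ∑ i ∈ X, D.g i : ℕ) : ℤ) := by rw [h]
    push_cast at h'
    rw [h']
    ring
  · rintro ⟨s, hs, h⟩
    refine ⟨s, hs, ?_⟩
    have h' : ((∑ j ∈ Y, D.b j : ℕ) : ℤ) = ((s + ∑ i ∈ X, D.g i : ℕ) : ℤ) := by
      push_cast
      rw [h]
      ring
    exact_mod_cast h'

end Pool.Agent.LibCov74
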