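import Pool.Agent.LibCov74.A1

/-!
# The labels are in the semigroup

Suppose not and let `m` be the least `b j ∉ S`. Write `C = ∏ (1 - z^{b j})` over the labels in `S` and
`E = ∏ (1 - z^{b j})` over the labels outside `S`. As a power series `E = HS · ∏_i (1 - z^{g i}) / C`,
and `1 / C = ∏ geo(b j)`; every factor on the right is supported in `S` (product of series supported
in a submonoid is supported in the submonoid), so `coeff m E = 0`. But all labels in `E` are `≥ m`,
hence `coeff m E = - #{j | b j = m} ≠ 0`. (See also `LibVol74/S3.lean`, `b_mem`, for a proof of the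
same statement with sorted labels; its private lemmas can be copied. `HS` here is
`Pool.Agent.LibVol74.HS`.)
-/

set_option autoImplicit false

namespace Pool.Agent.LibCov74

open Finset
open Pool.Agent.LibVol74 (HS)

variable {ι κ : Type} [Fintype ι] [Fintype κ]

section A2_aux

open PowerSeries

/-- a power series whose coefficients outside `S` vanish -/
private def A2_supp (S : AddSubmonoid ℕ) (f : PowerSeries ℤ) : Prop :=
  ∀ N : ℕ, N ∉ S → coeff N f = 0

private theorem A2_supp_one (S : AddSubmonoid ℕ) : A2_supp S 1 := by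
  intro N hN
  rw [PowerSeries.coeff_one, if_neg]
  rintro rfl
  exact hN S.zero_mem

private theorem A2_supp_mul {S : AddSubmonoid ℕ} {f g : PowerSeries ℤ} (hf : A2_supp S f)
    (hg : A2_supp S g) : A2_supp S (f * g) := by
  intro N hN
  rw [PowerSeries.coeff_mul]
  refine Finset.sum_eq_zero fun p hp => ?_
  rw [Finset.HasAntidiagonal.mem_antidiagonal] at hp
  by_cases h1 : p.1 ∈ S
  · by_cases h2 : p.2 ∈ S
    · exact absurd (hp ▸ S.add_mem h1 h2) hN
    · rw [hg _ h2, mul_zero]
  · rw [hf _ h1, zero_mul]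

private theorem A2_supp_prod {α : Type} {S : AddSubmonoid ℕ} {f : α → PowerSeries ℤ}
    (s : Finset α) (hf : ∀ i ∈ s, A2_supp S (f i)) : A2_supp S (∏ i ∈ s, f i) := by
  classical
  induction s using Finset.induction_on with
  | empty => simpa using A2_supp_one S
  | insert a s ha ih =>
    rw [Finset.prod_insert ha]
    exact A2_supp_mul (hf a (Finset.mem_insert_self a s))
      (ih fun i hi => hf i (Finset.mem_insert_of_mem hi))

private theorem A2_supp_one_sub {S : AddSubmonoid ℕ} {m : ℕ} (hm : m ∈ S) :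
    A2_supp S (1 - (X : PowerSeries ℤ) ^ m) := by
  intro N hN
  rw [map_sub, A2_supp_one S N hN, PowerSeries.coeff_X_pow, if_neg, sub_zero]
  rintro rfl
  exact hN hm

private theorem A2_supp_HS (S : AddSubmonoid ℕ) : A2_supp S (HS S) := by
  intro N hN
  rw [HS, PowerSeries.coeff_mk, if_neg hN]

/-- the geometric series -/
private noncomputable def A2_geo (m : ℕ) : PowerSeries ℤ :=
  PowerSeries.mk fun k => if m ∣ k then (1 : ℤ) else 0

private theorem A2_geo_mul {m : ℕ} (hm : 0 < m) :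
    (1 - (X : PowerSeries ℤ) ^ m) * A2_geo m = 1 := by
  ext N
  rw [sub_mul, one_mul, map_sub, PowerSeries.coeff_X_pow_mul', PowerSeries.coeff_one]
  simp only [A2_geo, PowerSeries.coeff_mk]
  by_cases h : m ≤ N
  · rw [if_pos h]
    have h0 : N ≠ 0 := by omega
    rw [if_neg h0]
    have : (m ∣ N) ↔ (m ∣ N - m) := by
      constructor
      · intro hd
        exact Nat.dvd_sub hd (dvd_refl m)
      · intro hd
        have := Nat.dvd_add hd (dvd_refl m)
        rwa [Nat.sub_add_cancel h] at this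
    by_cases hd : m ∣ N
    · rw [if_pos hd, if_pos (this.1 hd), sub_self]
    · rw [if_neg hd, if_neg (fun h' => hd (this.2 h')), sub_self]
  · rw [if_neg h, sub_zero]
    by_cases h0 : N = 0
    · subst h0
      simp
    · rw [if_neg h0, if_neg]
      intro hd
      exact h (Nat.le_of_dvd (Nat.pos_of_ne_zero h0) hd)

private theorem A2_supp_geo {S : AddSubmonoid ℕ} {m : ℕ} (hm : m ∈ S) :
    A2_supp S (A2_geo m) := by
  intro N hN
  rw [A2_geo, PowerSeries.coeff_mk, if_neg]
  rintro ⟨k, rfl⟩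
  apply hN
  have := S.nsmul_mem hm k
  rwa [smul_eq_mul, mul_comm] at this

private theorem A2_coeff_prod {α : Type} (b : α → ℕ) {m : ℕ} (hm : 0 < m) (s : Finset α)
    (hs : ∀ i ∈ s, m ≤ b i) :
    coeff 0 (∏ i ∈ s, (1 - (X : PowerSeries ℤ) ^ b i)) = 1 ∧
    coeff m (∏ i ∈ s, (1 - (X : PowerSeries ℤ) ^ b i)) =
      -(((s.filter fun i => b i = m).card : ℕ) : ℤ) := by
  classical
  induction s using Finset.induction_on with
  | empty =>
    refine ⟨by simp, ?_⟩
    rw [Finset.prod_empty, PowerSeries.coeff_one, if_neg hm.ne']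
    simp
  | insert a s ha ih =>
    obtain ⟨h0, h1⟩ := ih fun i hi => hs i (Finset.mem_insert_of_mem hi)
    have hba : m ≤ b a := hs a (Finset.mem_insert_self a s)
    rw [Finset.prod_insert ha, sub_mul, one_mul, map_sub, map_sub,
      PowerSeries.coeff_X_pow_mul', PowerSeries.coeff_X_pow_mul', h0, h1]
    refine ⟨?_, ?_⟩
    · rw [if_neg (by omega), sub_zero]
    · rw [Finset.filter_insert]
      by_cases hb : b a = m
      · rw [if_pos hb.le, if_pos hb, hb, Nat.sub_self, h0, Finset.card_insert_of_notMem]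
        · push_cast
          ring
        · intro h
          exact ha (Finset.mem_filter.1 h).1
      · rw [if_neg (by omega), if_neg hb, sub_zero]

end A2_aux

/-- general form: `S` a submonoid containing the denominators -/
theorem label_mem {κ' ι' : Type} (S : AddSubmonoid ℕ) (X : Finset ι') (Y : Finset κ') (g : ι' → ℕ)
    (b : κ' → ℕ) (hg : ∀ i ∈ X, g i ∈ S) (hb : ∀ j ∈ Y, 0 < b j)
    (h : HS S * ∏ i ∈ X, (1 - (PowerSeries.X : PowerSeries ℤ) ^ g i) =
      ∏ j ∈ Y, (1 - (PowerSeries.X : PowerSeries ℤ) ^ b j)) :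
    ∀ j ∈ Y, b j ∈ S := by
  classical
  have hK : A2_supp S (∏ j ∈ Y, (1 - (PowerSeries.X : PowerSeries ℤ) ^ b j)) := by
    rw [← h]
    exact A2_supp_mul (A2_supp_HS S)
      (A2_supp_prod _ fun i hi => A2_supp_one_sub (hg i hi))
  by_contra hcon
  push Not at hcon
  obtain ⟨j₁, hj₁, hj₁'⟩ := hcon
  have hne : (Y.filter fun j => b j ∉ S).Nonempty := ⟨j₁, Finset.mem_filter.2 ⟨hj₁, hj₁'⟩⟩
  obtain ⟨j₀, hj₀, hmin⟩ := Finset.exists_min_image _ b hne
  rw [Finset.mem_filter] at hj₀
  have hsplit : (∏ j ∈ Y.filter (fun j => b j ∉ S), (1 - (PowerSeries.X : PowerSeries ℤ) ^ b j)) =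
      (∏ j ∈ Y, (1 - (PowerSeries.X : PowerSeries ℤ) ^ b j)) *
        ∏ j ∈ Y.filter (fun j => b j ∈ S), A2_geo (b j) := by
    rw [← Finset.prod_filter_mul_prod_filter_not Y (fun j => b j ∈ S)]
    have : (∏ j ∈ Y.filter (fun j => b j ∈ S), (1 - (PowerSeries.X : PowerSeries ℤ) ^ b j)) *
        ∏ j ∈ Y.filter (fun j => b j ∈ S), A2_geo (b j) = 1 := by
      rw [← Finset.prod_mul_distrib]
      exact Finset.prod_eq_one fun j hj => A2_geo_mul (hb j (Finset.mem_filter.1 hj).1)
    rw [mul_right_comm, this, one_mul]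
  have hsupp : A2_supp S
      (∏ j ∈ Y.filter (fun j => b j ∉ S), (1 - (PowerSeries.X : PowerSeries ℤ) ^ b j)) := by
    rw [hsplit]
    exact A2_supp_mul hK (A2_supp_prod _ fun j hj => A2_supp_geo (Finset.mem_filter.1 hj).2)
  have h1 := hsupp (b j₀) hj₀.2
  have h2 := (A2_coeff_prod b (hb j₀ hj₀.1) (Y.filter fun j => b j ∉ S) hmin).2
  rw [h1] at h2
  have h3 : 0 < ((Y.filter fun j => b j ∉ S).filter fun i => b i = b j₀).card :=
    Finset.card_pos.2 ⟨j₀, Finset.mem_filter.2 ⟨Finset.mem_filter.2 hj₀, rfl⟩⟩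
  omega

theorem b_mem (D : Dt ι κ) (j : κ) : D.b j ∈ D.S :=
  label_mem D.S Finset.univ Finset.univ D.g D.b (fun i _ => g_mem D i) (fun j _ => D.bpos j) D.H j
    (Finset.mem_univ j)

/-- `Good` is monotone in the labels and antitone in the generators -/
theorem Good.mono (D : Dt ι κ) {X X' : Finset ι} {Y Y' : Finset κ} (hX : X' ⊆ X) (hY : Y ⊆ Y')
    (h : D.Good X Y) : D.Good X' Y' := by
  classical
  obtain ⟨s, hs, h⟩ := h
  refine ⟨s + ∑ j ∈ Y' \ Y, D.b j + ∑ i ∈ X \ X', D.g i, ?_, ?_⟩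
  · exact D.S.add_mem (D.S.add_mem hs (AddSubmonoid.sum_mem _ fun j _ => b_mem D j))
      (AddSubmonoid.sum_mem _ fun i _ => g_mem D i)
  · have h1 := Finset.sum_sdiff hY (f := D.b)
    have h2 := Finset.sum_sdiff hX (f := D.g)
    omega

theorem Good.union [DecidableEq ι] [DecidableEq κ] (D : Dt ι κ) {X X' : Finset ι} {Y Y' : Finset κ}
    (hY : Disjoint Y Y') (h : D.Good X Y) (h' : D.Good X' Y') : D.Good (X ∪ X') (Y ∪ Y') := by
  obtain ⟨s, hs, h⟩ := h
  obtain ⟨t, ht, h'⟩ := h'
  refine ⟨s + t + ∑ i ∈ X ∩ X', D.g i, ?_, ?_⟩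
  · exact D.S.add_mem (D.S.add_mem hs ht) (AddSubmonoid.sum_mem _ fun i _ => g_mem D i)
  · rw [Finset.sum_union hY]
    have h1 := Finset.sum_union_inter (s₁ := X) (s₂ := X') (f := D.g)
    omega

end Pool.Agent.LibCov74
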