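import Pool.Agent.LibCov74.A1
import Pool.Agent.LibVol74.M1
import Pool.Agent.LibVol74.V1

/-!
# The semigroup polynomial and what it gives

`P = 1 - (1 - z) ∑_{n ∉ S} z^n`, `P ∏ (1 - z^{g i}) = (1 - z) ∏ (1 - z^{b j})` in `ℤ[z]`.
-/

set_option autoImplicit false

namespace Pool.Agent.LibCov74

open Finset
open Pool.Agent.LibVol74 (HS)

variable {ι κ : Type} [Fintype ι] [Fintype κ]

/-- the polynomial identity (from `D.H` and `LibVol74.M1_one_sub_mul_HS`, `Polynomial.coe_inj`) -/
theorem poly_id (D : Dt ι κ) :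
    (1 - (1 - Polynomial.X) * ∑ n ∈ D.fin.toFinset, Polynomial.X ^ n : Polynomial ℤ) *
        ∏ i, (1 - Polynomial.X ^ D.g i) = (1 - Polynomial.X) * ∏ j, (1 - Polynomial.X ^ D.b j) := by
  apply Polynomial.coe_injective ℤ
  have h1 := LibVol74.M1_one_sub_mul_HS D.S D.fin
  have h2 := D.H
  rw [← Polynomial.coeToPowerSeries.ringHom_apply, ← Polynomial.coeToPowerSeries.ringHom_apply]
  simp only [map_mul, map_sub, map_one, map_prod, map_sum, map_pow,
    Polynomial.coeToPowerSeries.ringHom_apply, Polynomial.coe_X]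
  rw [← h1, ← h2]
  ring

theorem A3a_P_ne (D : Dt ι κ) :
    (1 - (1 - Polynomial.X) * ∑ n ∈ D.fin.toFinset, Polynomial.X ^ n : Polynomial ℤ) ≠ 0 := by
  intro h
  have h1 := poly_id D
  rw [h, zero_mul] at h1
  have h2 : ∀ k : ℕ, 0 < k → (1 - (Polynomial.X : Polynomial ℤ) ^ k) ≠ 0 := by
    intro k hk h3
    rw [← neg_sub, neg_eq_zero] at h3
    exact Polynomial.X_pow_sub_C_ne_zero hk (1 : ℤ) (by simpa using h3)
  have h3 : (1 - (Polynomial.X : Polynomial ℤ)) ≠ 0 := by
    have := h2 1 one_pos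
    rwa [pow_one] at this
  exact mul_ne_zero h3 (prod_ne_zero_iff.2 fun j _ => h2 _ (D.bpos j)) h1.symm

/-- Multiplicity of the `n`-th cyclotomic polynomial, `n ≥ 2` (it divides `1 - z^a`, `a > 0`, exactly
once if `n ∣ a` and not otherwise, and does not divide `1 - z`). See `LibVol74/V1.lean`,
`card_dvd_le`, for the same statement with sorted labels. -/
theorem cnt_le (D : Dt ι κ) {n : ℕ} (hn : 2 ≤ n) :
    cnt n Finset.univ D.g ≤ cnt n Finset.univ D.b := by
  unfold cnt
  set P : Polynomial ℤ := 1 - (1 - Polynomial.X) * ∑ n ∈ D.fin.toFinset, Polynomial.X ^ n with hPdef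
  have hP0 : P ≠ 0 := A3a_P_ne D
  have hP : P * ∏ i, (1 - Polynomial.X ^ D.g i) = (1 - Polynomial.X) * ∏ j, (1 - Polynomial.X ^ D.b j) :=
    poly_id D
  clear_value P
  have hz : IsPrimitiveRoot (Complex.exp (2 * Real.pi * Complex.I / n)) n :=
    Complex.isPrimitiveRoot_exp n (by omega)
  set z := Complex.exp (2 * Real.pi * Complex.I / n) with hzdef
  have hP' := congrArg (Polynomial.map (Int.castRingHom ℂ)) hP
  rw [Polynomial.map_mul, Polynomial.map_mul, Polynomial.map_prod, Polynomial.map_prod] at hP'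
  simp only [Polynomial.map_sub, Polynomial.map_one, Polynomial.map_pow, Polynomial.map_X] at hP'
  have hPne : P.map (Int.castRingHom ℂ) ≠ 0 := by
    rw [Ne, Polynomial.map_eq_zero_iff (Int.cast_injective)]
    exact hP0
  have h1ne : (1 - (Polynomial.X : Polynomial ℂ)) ≠ 0 := by
    have := LibVol74.V1_ne (k := 1) one_pos
    rwa [pow_one] at this
  have hgne : (∏ i, (1 - (Polynomial.X : Polynomial ℂ) ^ D.g i)) ≠ 0 :=
    prod_ne_zero_iff.2 fun i _ => LibVol74.V1_ne (D.gpos i)
  have hbne : (∏ j, (1 - (Polynomial.X : Polynomial ℂ) ^ D.b j)) ≠ 0 :=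
    prod_ne_zero_iff.2 fun j _ => LibVol74.V1_ne (D.bpos j)
  have hrm := congrArg (Polynomial.rootMultiplicity z) hP'
  rw [Polynomial.rootMultiplicity_mul (mul_ne_zero hPne hgne),
    Polynomial.rootMultiplicity_mul (mul_ne_zero h1ne hbne),
    LibVol74.V1_rm_prod z _ _ (fun i _ => LibVol74.V1_ne (D.gpos i)),
    LibVol74.V1_rm_prod z _ _ (fun j _ => LibVol74.V1_ne (D.bpos j)),
    sum_congr rfl (fun i _ => LibVol74.V1_rm hz (D.gpos i)),
    sum_congr rfl (fun j _ => LibVol74.V1_rm hz (D.bpos j)),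
    ← card_filter, ← card_filter] at hrm
  have h1 : Polynomial.rootMultiplicity z (1 - (Polynomial.X : Polynomial ℂ)) = 0 := by
    have := LibVol74.V1_rm (k := 1) hz one_pos
    rw [pow_one, if_neg] at this
    · exact this
    · intro h
      have := Nat.le_of_dvd one_pos h
      omega
  rw [h1] at hrm
  omega

end Pool.Agent.LibCov74
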