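import Pool.Agent.LibCov74.A1
import Pool.Agent.LibVol74.M1
import Pool.Agent.LibCov74.A3a

/-!
# The semigroup polynomial and what it gives

`P = 1 - (1 - z) ∑_{n ∉ S} z^n`, `P ∏ (1 - z^{g i}) = (1 - z) ∏ (1 - z^{b j})` in `ℤ[z]`.
-/

set_option autoImplicit false

namespace Pool.Agent.LibCov74

open Finset
open Pool.Agent.LibVol74 (HS)

variable {ι κ : Type} [Fintype ι] [Fintype κ]

theorem A3b_geom (a : ℕ) : (1 - Polynomial.X ^ a : Polynomial ℤ) =
    (1 - Polynomial.X) * ∑ i ∈ range a, Polynomial.X ^ i :=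
  (mul_neg_geom_sum _ _).symm

theorem A3b_one_sub_X_ne : (1 - Polynomial.X : Polynomial ℤ) ≠ 0 := by
  intro h
  have := congrArg (Polynomial.eval 0) h
  simp at this

theorem A3b_natDegree {a : ℕ} (_ : 0 < a) : (1 - Polynomial.X ^ a : Polynomial ℤ).natDegree = a := by
  rw [← Polynomial.natDegree_neg, neg_sub, show (1 : Polynomial ℤ) = Polynomial.C 1 from rfl]
  exact Polynomial.natDegree_X_pow_sub_C

theorem A3b_ne {a : ℕ} (ha : 0 < a) : (1 - Polynomial.X ^ a : Polynomial ℤ) ≠ 0 := by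
  intro h
  have := A3b_natDegree ha
  rw [h, Polynomial.natDegree_zero] at this
  omega

/-- `∏ b j = ∏ g i`: write `1 - z^a = (1 - z) [a]` with `[a] = 1 + z + … + z^{a-1}`. The identity
`poly_id` becomes `P (1 - z)^{#ι} ∏ [g i] = (1 - z)^{#κ + 1} ∏ [b j]`; cancel and put `z = 1`:
`P(1) = 1`, `[a](1) = a`. -/
theorem prod_eq (D : Dt ι κ) : ∏ j, D.b j = ∏ i, D.g i := by
  have h := poly_id D
  simp only [A3b_geom] at h
  rw [Finset.prod_mul_distrib, Finset.prod_mul_distrib, Finset.prod_const, Finset.prod_const,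
    Finset.card_univ, Finset.card_univ, ← D.card] at h
  have h2 : (1 - Polynomial.X : Polynomial ℤ) ^ (Fintype.card κ + 1) *
      ((1 - (1 - Polynomial.X) * ∑ n ∈ D.fin.toFinset, Polynomial.X ^ n) *
        ∏ i, ∑ k ∈ range (D.g i), Polynomial.X ^ k) =
      (1 - Polynomial.X : Polynomial ℤ) ^ (Fintype.card κ + 1) *
        ∏ j, ∑ k ∈ range (D.b j), Polynomial.X ^ k := by
    rw [pow_succ] at h ⊢
    linear_combination h
  have h3 := mul_left_cancel₀ (pow_ne_zero _ A3b_one_sub_X_ne) h2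
  have h4 := congrArg (Polynomial.eval 1) h3
  simp only [Polynomial.eval_mul, Polynomial.eval_sub, Polynomial.eval_one, Polynomial.eval_X,
    sub_self, zero_mul, sub_zero, one_mul, Polynomial.eval_prod, Polynomial.eval_finsetSum,
    Polynomial.eval_pow, one_pow, sum_const, card_range, nsmul_eq_mul, mul_one] at h4
  have h5 : ((∏ i, D.g i : ℕ) : ℤ) = ((∏ j, D.b j : ℕ) : ℤ) := by
    push_cast
    exact h4
  exact (Nat.cast_injective h5).symm

/-- `ΣB - ΣG` is not in `S`: suppose `ΣB = s + ΣG` with `s ∈ S`. By `poly_id` the degree of `P` is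
`1 + ΣB - ΣG = s + 1`. The `k`-th coefficient of `P = (1 - z) HS` is `[k ∈ S] - [k - 1 ∈ S]`
(`k ≥ 1`). For `k = s + 1` it is not zero and `s ∈ S`, so `s + 1 ∉ S`; for `k > s + 1` it is zero, so
no `k > s` is in `S`: contradiction to `D.fin`. -/
theorem not_good_univ (D : Dt ι κ) : ¬ D.Good Finset.univ Finset.univ := by
  classical
  rintro ⟨s, hs, hsum⟩
  have h := poly_id D
  set P : Polynomial ℤ := 1 - (1 - Polynomial.X) * ∑ n ∈ D.fin.toFinset, Polynomial.X ^ n with hP
  have hg0 : ∏ i, (1 - Polynomial.X ^ D.g i : Polynomial ℤ) ≠ 0 :=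
    Finset.prod_ne_zero_iff.2 fun i _ => A3b_ne (D.gpos i)
  have hb0 : ∏ j, (1 - Polynomial.X ^ D.b j : Polynomial ℤ) ≠ 0 :=
    Finset.prod_ne_zero_iff.2 fun j _ => A3b_ne (D.bpos j)
  have hP0 : P ≠ 0 := by
    intro h0
    rw [h0, zero_mul] at h
    exact mul_ne_zero A3b_one_sub_X_ne hb0 h.symm
  have hd := congrArg Polynomial.natDegree h
  rw [Polynomial.natDegree_mul hP0 hg0, Polynomial.natDegree_mul A3b_one_sub_X_ne hb0,
    Polynomial.natDegree_prod _ _ (fun i _ => A3b_ne (D.gpos i)),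
    Polynomial.natDegree_prod _ _ (fun j _ => A3b_ne (D.bpos j)),
    Finset.sum_congr rfl (fun i _ => A3b_natDegree (D.gpos i)),
    Finset.sum_congr rfl (fun j _ => A3b_natDegree (D.bpos j))] at hd
  change P.natDegree + ∑ i, D.g i = (1 - Polynomial.X : Polynomial ℤ).natDegree +
    ∑ j, D.b j at hd
  have h1 : (1 - Polynomial.X : Polynomial ℤ).natDegree = 1 := by
    have := A3b_natDegree (a := 1) one_pos
    rwa [pow_one] at this
  rw [h1] at hd
  have hdeg : P.natDegree = s + 1 := by omega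
  -- coefficients
  have hPs : (P : PowerSeries ℤ) = (1 - (PowerSeries.X : PowerSeries ℤ)) * HS D.S := by
    rw [Pool.Agent.LibVol74.M1_one_sub_mul_HS D.S D.fin, hP]
    have e := congrArg (Polynomial.coeToPowerSeries.ringHom (R := ℤ)) hP
    simp only [map_mul, map_sub, map_one, map_sum, map_pow,
      Polynomial.coeToPowerSeries.ringHom_apply, Polynomial.coe_X] at e
    rw [← hP]
    exact e
  have hc : ∀ k, P.coeff (k + 1) = PowerSeries.coeff (k + 1) (HS D.S) -
      PowerSeries.coeff k (HS D.S) := by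
    intro k
    rw [← Polynomial.coeff_coe, hPs, sub_mul, one_mul, map_sub, PowerSeries.coeff_succ_X_mul]
  have hHS : ∀ k, PowerSeries.coeff k (HS D.S) = if k ∈ D.S then (1 : ℤ) else 0 := by
    intro k
    rw [HS, PowerSeries.coeff_mk]
  have hs1 : s + 1 ∉ D.S := by
    intro h2
    have h3 : P.coeff (s + 1) ≠ 0 := by
      rw [← hdeg]
      exact Polynomial.leadingCoeff_ne_zero.2 hP0
    apply h3
    rw [hc, hHS, hHS, if_pos h2, if_pos hs, sub_self]
  have hall : ∀ k, s + 1 + k ∉ D.S := by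
    intro k
    induction k with
    | zero => exact hs1
    | succ k ih =>
      intro h2
      have h3 : P.coeff (s + 1 + k + 1) = 0 :=
        Polynomial.coeff_eq_zero_of_natDegree_lt (by omega)
      rw [hc, hHS, hHS, if_neg ih, if_pos (show s + 1 + k + 1 ∈ D.S from h2)] at h3
      norm_num at h3
  have hinj : Function.Injective fun k : ℕ => s + 1 + k := fun a b hab => by
    have : s + 1 + a = s + 1 + b := hab
    omega
  exact (Set.infinite_of_injective_forall_mem hinj (s := ((D.S : Set ℕ)ᶜ)) hall) D.fin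

end Pool.Agent.LibCov74
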