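import Pool.Agent.LibCov74.A1

/-!
# Cures

If `#{x ∈ X : n ∣ a x} ≤ #{y ∈ Y : n ∣ c y}` for all `n ≥ 1` then `Q = ∏_Y (1 - z^{c y}) / ∏_X (1 - z^{a x})`
is a polynomial; it is palindromic up to sign and its exponents are in every submonoid containing all
`a x` and `c y`. So `ΣY - ΣX - n ∈ T` for every exponent `n` of `Q`.
-/

set_option autoImplicit false

namespace Pool.Agent.LibCov74

open Finset
open Polynomial (X)

theorem A4a_prod {α : Type} (s : Finset α) (f : α → ℕ) (hf : ∀ x ∈ s, 0 < f x) (N : ℕ)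
    (hN : ∀ x ∈ s, f x ≤ N) :
    ∏ x ∈ s, ((X : Polynomial ℤ) ^ f x - 1) =
      ∏ d ∈ range (N + 1), Polynomial.cyclotomic d ℤ ^ cnt d s f := by
  have h1 : ∀ x ∈ s, ((X : Polynomial ℤ) ^ f x - 1) =
      ∏ d ∈ range (N + 1), if d ∣ f x then Polynomial.cyclotomic d ℤ else 1 := by
    intro x hx
    rw [← Polynomial.prod_cyclotomic_eq_X_pow_sub_one (hf x hx) ℤ, ← Finset.prod_filter]
    refine Finset.prod_congr ?_ fun _ _ => rfl
    ext d
    rw [Nat.mem_divisors, Finset.mem_filter, Finset.mem_range]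
    constructor
    · rintro ⟨h, -⟩
      exact ⟨Nat.lt_succ_of_le ((Nat.le_of_dvd (hf x hx) h).trans (hN x hx)), h⟩
    · rintro ⟨-, h⟩
      exact ⟨h, (hf x hx).ne'⟩
  rw [Finset.prod_congr rfl h1, Finset.prod_comm]
  refine Finset.prod_congr rfl fun d _ => ?_
  rw [← Finset.prod_filter, Finset.prod_const]
  rfl

theorem A4a_sign {α : Type} (s : Finset α) (f : α → ℕ) :
    ∏ x ∈ s, (1 - X ^ f x : Polynomial ℤ) =
      (-1) ^ s.card * ∏ x ∈ s, ((X : Polynomial ℤ) ^ f x - 1) := by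
  rw [← Finset.prod_const, ← Finset.prod_mul_distrib]
  refine Finset.prod_congr rfl fun x _ => ?_
  ring

/-- divisibility of products of `1 - z^a`: `z^a - 1 = ∏_{d ∣ a} Φ_d`
(`Polynomial.prod_cyclotomic_eq_X_pow_sub_one`), so `∏_{x ∈ X'} (z^{a x} - 1)` is the product over
`d` in `range (N + 1)` of `Φ_d ^ (cnt d X' a)` (over `d ≥ 1`, `N` large). -/
theorem exists_quot {α β : Type} (X' : Finset α) (a : α → ℕ) (Y : Finset β) (c : β → ℕ)
    (ha : ∀ x ∈ X', 0 < a x) (hc : ∀ y ∈ Y, 0 < c y)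
    (h : ∀ n, 1 ≤ n → cnt n X' a ≤ cnt n Y c) :
    ∃ Q : Polynomial ℤ, ∏ y ∈ Y, (1 - X ^ c y : Polynomial ℤ) = Q * ∏ x ∈ X', (1 - X ^ a x) := by
  obtain ⟨N, hN1, hN2⟩ : ∃ N, (∀ x ∈ X', a x ≤ N) ∧ ∀ y ∈ Y, c y ≤ N := by
    refine ⟨max (X'.sup a) (Y.sup c), fun x hx => ?_, fun y hy => ?_⟩
    · exact (Finset.le_sup hx).trans (le_max_left _ _)
    · exact (Finset.le_sup hy).trans (le_max_right _ _)
  have h' : ∀ n, cnt n X' a ≤ cnt n Y c := by
    intro n
    rcases Nat.eq_zero_or_pos n with hn | hn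
    · have h0 : cnt n X' a = 0 := by
        unfold cnt
        rw [Finset.card_eq_zero, Finset.filter_eq_empty_iff]
        intro x hx hd
        rw [hn, zero_dvd_iff] at hd
        exact (ha x hx).ne' hd
      rw [h0]
      exact Nat.zero_le _
    · exact h n hn
  have h3 : ∏ d ∈ range (N + 1), Polynomial.cyclotomic d ℤ ^ cnt d Y c =
      (∏ d ∈ range (N + 1), Polynomial.cyclotomic d ℤ ^ (cnt d Y c - cnt d X' a)) *
        ∏ d ∈ range (N + 1), Polynomial.cyclotomic d ℤ ^ cnt d X' a := by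
    rw [← Finset.prod_mul_distrib]
    refine Finset.prod_congr rfl fun d _ => ?_
    rw [← pow_add, Nat.sub_add_cancel (h' d)]
  have h4 : ((-1 : Polynomial ℤ)) ^ X'.card * (-1) ^ X'.card = 1 := by
    rw [← pow_add, ← two_mul, pow_mul, neg_one_sq, one_pow]
  refine ⟨(-1) ^ Y.card * (-1) ^ X'.card *
    ∏ d ∈ range (N + 1), Polynomial.cyclotomic d ℤ ^ (cnt d Y c - cnt d X' a), ?_⟩
  rw [A4a_sign, A4a_sign, A4a_prod X' a ha N hN1, A4a_prod Y c hc N hN2, h3]
  linear_combination (-((-1) ^ Y.card) *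
    ((∏ d ∈ range (N + 1), Polynomial.cyclotomic d ℤ ^ (cnt d Y c - cnt d X' a)) *
        ∏ d ∈ range (N + 1), Polynomial.cyclotomic d ℤ ^ cnt d X' a)) * h4

end Pool.Agent.LibCov74
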