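import Pool.Agent.LibCov74.A1

/-!
# Cures

If `#{x ∈ X : n ∣ a x} ≤ #{y ∈ Y : n ∣ c y}` for all `n ≥ 1` then `Q = ∏_Y (1 - z^{c y}) / ∏_X (1 - z^{a x})`
is a polynomial; it is palindromic up to sign and its exponents are in every submonoid containing all
`a x` and `c y`. So `ΣY - ΣX - n ∈ T` for every exponent `n` of `Q`.
-/

set_option autoImplicit false

namespace Pool.Agent.LibCov74

open Finset
open Polynomial (X)

/-- the exponents of the power series `f` are in `T` -/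
def A4b_Sup (T : AddSubmonoid ℕ) (f : PowerSeries ℤ) : Prop :=
  ∀ n, PowerSeries.coeff n f ≠ 0 → n ∈ T

theorem A4b_Sup.mul {T : AddSubmonoid ℕ} {f g : PowerSeries ℤ} (hf : A4b_Sup T f)
    (hg : A4b_Sup T g) : A4b_Sup T (f * g) := by
  intro n hn
  rw [PowerSeries.coeff_mul] at hn
  obtain ⟨p, hp, hne⟩ := Finset.exists_ne_zero_of_sum_ne_zero hn
  rw [Finset.HasAntidiagonal.mem_antidiagonal] at hp
  rw [← hp]
  exact T.add_mem (hf _ (left_ne_zero_of_mul hne)) (hg _ (right_ne_zero_of_mul hne))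

theorem A4b_Sup.one {T : AddSubmonoid ℕ} : A4b_Sup T 1 := by
  intro n hn
  rw [PowerSeries.coeff_one] at hn
  by_cases h : n = 0
  · rw [h]
    exact T.zero_mem
  · rw [if_neg h] at hn
    exact absurd rfl hn

theorem A4b_Sup.prod {T : AddSubmonoid ℕ} {α : Type} (s : Finset α) (f : α → PowerSeries ℤ)
    (h : ∀ x ∈ s, A4b_Sup T (f x)) : A4b_Sup T (∏ x ∈ s, f x) := by
  classical
  induction s using Finset.induction_on with
  | empty => exact A4b_Sup.one
  | insert x s hx ih =>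
    rw [Finset.prod_insert hx]
    exact (h x (Finset.mem_insert_self x s)).mul
      (ih fun y hy => h y (Finset.mem_insert_of_mem hy))

theorem A4b_Sup.one_sub {T : AddSubmonoid ℕ} {c : ℕ} (hc : c ∈ T) :
    A4b_Sup T (1 - (PowerSeries.X : PowerSeries ℤ) ^ c) := by
  intro n hn
  by_cases h0 : n = 0
  · rw [h0]
    exact T.zero_mem
  by_cases h1 : n = c
  · rw [h1]
    exact hc
  exfalso
  apply hn
  rw [map_sub, PowerSeries.coeff_one, PowerSeries.coeff_X_pow, if_neg h0, if_neg h1, sub_zero]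

/-- the geometric series in `z^a` -/
def A4b_geo (a : ℕ) : PowerSeries ℤ := PowerSeries.mk fun n => if a ∣ n then 1 else 0

theorem A4b_Sup.geo {T : AddSubmonoid ℕ} {a : ℕ} (ha : a ∈ T) : A4b_Sup T (A4b_geo a) := by
  intro n hn
  rw [A4b_geo, PowerSeries.coeff_mk] at hn
  by_cases h : a ∣ n
  · obtain ⟨k, hk⟩ := h
    rw [hk, mul_comm, ← smul_eq_mul]
    exact T.nsmul_mem ha k
  · rw [if_neg h] at hn
    exact absurd rfl hn

theorem A4b_geo_mul {a : ℕ} (ha : 0 < a) :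
    (1 - (PowerSeries.X : PowerSeries ℤ) ^ a) * A4b_geo a = 1 := by
  ext n
  rw [sub_mul, one_mul, map_sub, PowerSeries.coeff_X_pow_mul', A4b_geo, PowerSeries.coeff_mk,
    PowerSeries.coeff_mk, PowerSeries.coeff_one]
  by_cases h0 : n = 0
  · subst h0
    simp [Nat.not_le.2 ha]
  · rw [if_neg h0]
    by_cases h1 : a ≤ n
    · rw [if_pos h1]
      have e : a ∣ n - a ↔ a ∣ n := by
        rw [Nat.dvd_sub_iff_left h1 (dvd_refl a)]
      simp only [e, sub_self]
    · rw [if_neg h1, if_neg, sub_zero]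
      intro h2
      exact h1 (Nat.le_of_dvd (Nat.pos_of_ne_zero h0) h2)

/-- the quotient as a power series -/
theorem A4b_eq {α β : Type} (X' : Finset α) (a : α → ℕ) (Y : Finset β) (c : β → ℕ)
    (ha : ∀ x ∈ X', 0 < a x) (Q : Polynomial ℤ)
    (h : ∏ y ∈ Y, (1 - X ^ c y : Polynomial ℤ) = Q * ∏ x ∈ X', (1 - X ^ a x)) :
    (Q : PowerSeries ℤ) = (∏ y ∈ Y, (1 - (PowerSeries.X : PowerSeries ℤ) ^ c y)) *
      ∏ x ∈ X', A4b_geo (a x) := by
  have h1 := congrArg (Polynomial.coeToPowerSeries.ringHom (R := ℤ)) h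
  simp only [map_mul, map_sub, map_one, map_prod, map_pow,
    Polynomial.coeToPowerSeries.ringHom_apply, Polynomial.coe_X] at h1
  rw [h1, mul_assoc, ← Finset.prod_mul_distrib,
    Finset.prod_eq_one fun x hx => A4b_geo_mul (ha x hx), mul_one]

/-- the exponents of `Q` are in `T`: as power series `Q = ∏_Y (1 - z^{c y}) ∏_X geo(a x)` -/
theorem quot_supp {α β : Type} (X' : Finset α) (a : α → ℕ) (Y : Finset β) (c : β → ℕ)
    (ha : ∀ x ∈ X', 0 < a x) (T : AddSubmonoid ℕ) (haT : ∀ x ∈ X', a x ∈ T)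
    (hcT : ∀ y ∈ Y, c y ∈ T) (Q : Polynomial ℤ)
    (h : ∏ y ∈ Y, (1 - X ^ c y : Polynomial ℤ) = Q * ∏ x ∈ X', (1 - X ^ a x)) (n : ℕ)
    (hn : Q.coeff n ≠ 0) : n ∈ T := by
  have h1 : A4b_Sup T (Q : PowerSeries ℤ) := by
    rw [A4b_eq X' a Y c ha Q h]
    exact (A4b_Sup.prod _ _ fun y hy => A4b_Sup.one_sub (hcT y hy)).mul
      (A4b_Sup.prod _ _ fun x hx => A4b_Sup.geo (haT x hx))
  apply h1 n
  rwa [Polynomial.coeff_coe]

theorem A4b_pow {m : ℕ} (hm : 0 < m) (F : PowerSeries ℤ) (k : ℕ) :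
    PowerSeries.coeff 0 ((1 - (PowerSeries.X : PowerSeries ℤ) ^ m) ^ k * F) =
      PowerSeries.coeff 0 F ∧
    PowerSeries.coeff m ((1 - (PowerSeries.X : PowerSeries ℤ) ^ m) ^ k * F) =
      PowerSeries.coeff m F - k * PowerSeries.coeff 0 F := by
  induction k with
  | zero => simp
  | succ k ih =>
    obtain ⟨i1, i2⟩ := ih
    have e : (1 - (PowerSeries.X : PowerSeries ℤ) ^ m) ^ (k + 1) * F =
        (1 - (PowerSeries.X : PowerSeries ℤ) ^ m) ^ k * F -
          PowerSeries.X ^ m * ((1 - (PowerSeries.X : PowerSeries ℤ) ^ m) ^ k * F) := by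
      rw [pow_succ]
      ring
    rw [e, map_sub, map_sub, PowerSeries.coeff_X_pow_mul', PowerSeries.coeff_X_pow_mul',
      if_neg (Nat.not_le.2 hm), if_pos le_rfl, Nat.sub_self, i1, i2]
    constructor
    · ring
    · push_cast
      ring

/-- the coefficient of `Q` at a `c p` which is not generated by the `a x` and the other `c y`:
with `T` the submonoid generated by `a x` (`x ∈ X'`) and the `c y ≠ c p`, `Q` is
`(1 - z^{c p})^k · R` (`k ≥ 1` the number of `y ∈ Y` with `c y = c p`) with `R` supported in `T`,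
constant coefficient `1`; so the coefficient at `c p ∉ T` is `-k`. -/
theorem quot_coeff {α β : Type} (X' : Finset α) (a : α → ℕ) (Y : Finset β) (c : β → ℕ)
    (ha : ∀ x ∈ X', 0 < a x) (hc : ∀ y ∈ Y, 0 < c y) (Q : Polynomial ℤ)
    (h : ∏ y ∈ Y, (1 - X ^ c y : Polynomial ℤ) = Q * ∏ x ∈ X', (1 - X ^ a x)) (p : β) (hp : p ∈ Y)
    (hT : c p ∉ AddSubmonoid.closure (a '' (X' : Set α) ∪ c '' {y | y ∈ Y ∧ c y ≠ c p})) :
    Q.coeff (c p) ≠ 0 := by
  classical
  set T := AddSubmonoid.closure (a '' (X' : Set α) ∪ c '' {y | y ∈ Y ∧ c y ≠ c p}) with hTd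
  have hpos : 0 < c p := hc p hp
  set R : PowerSeries ℤ := (∏ y ∈ Y.filter (fun y => ¬ c y = c p),
    (1 - (PowerSeries.X : PowerSeries ℤ) ^ c y)) * ∏ x ∈ X', A4b_geo (a x) with hR
  have hRT : A4b_Sup T R := by
    refine (A4b_Sup.prod _ _ fun y hy => A4b_Sup.one_sub ?_).mul
      (A4b_Sup.prod _ _ fun x hx => A4b_Sup.geo ?_)
    · rw [Finset.mem_filter] at hy
      exact AddSubmonoid.subset_closure (Or.inr ⟨y, ⟨hy.1, hy.2⟩, rfl⟩)
    · exact AddSubmonoid.subset_closure (Or.inl ⟨x, hx, rfl⟩)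
  have hRm : PowerSeries.coeff (c p) R = 0 := by
    by_contra hne
    exact hT (hRT _ hne)
  have hR0 : PowerSeries.coeff 0 R = 1 := by
    rw [hR, PowerSeries.coeff_zero_eq_constantCoeff_apply, map_mul, map_prod, map_prod,
      Finset.prod_eq_one, Finset.prod_eq_one, one_mul]
    · intro x _
      rw [← PowerSeries.coeff_zero_eq_constantCoeff_apply, A4b_geo, PowerSeries.coeff_mk,
        if_pos (dvd_zero _)]
    · intro y hy
      rw [Finset.mem_filter] at hy
      rw [map_sub, map_one, map_pow, PowerSeries.constantCoeff_X,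
        zero_pow (Nat.pos_iff_ne_zero.1 (hc y hy.1)), sub_zero]
  have hQ : (Q : PowerSeries ℤ) = (1 - (PowerSeries.X : PowerSeries ℤ) ^ c p) ^
      (Y.filter (fun y => c y = c p)).card * R := by
    rw [A4b_eq X' a Y c ha Q h, hR, ← mul_assoc]
    congr 1
    rw [← Finset.prod_filter_mul_prod_filter_not Y (fun y => c y = c p)]
    congr 1
    rw [← Finset.prod_const]
    refine Finset.prod_congr rfl fun y hy => ?_
    rw [(Finset.mem_filter.1 hy).2]
  have hk : 0 < (Y.filter (fun y => c y = c p)).card :=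
    Finset.card_pos.2 ⟨p, Finset.mem_filter.2 ⟨hp, rfl⟩⟩
  rw [← Polynomial.coeff_coe, hQ, (A4b_pow hpos R _).2, hRm, hR0, mul_one, zero_sub]
  rw [neg_ne_zero]
  exact_mod_cast hk.ne'

end Pool.Agent.LibCov74
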