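import Pool.Agent.LibCov74.A1

/-!
# Cures

If `#{x ∈ X : n ∣ a x} ≤ #{y ∈ Y : n ∣ c y}` for all `n ≥ 1` then `Q = ∏_Y (1 - z^{c y}) / ∏_X (1 - z^{a x})`
is a polynomial; it is palindromic up to sign and its exponents are in every submonoid containing all
`a x` and `c y`. So `ΣY - ΣX - n ∈ T` for every exponent `n` of `Q`.
-/

set_option autoImplicit false

namespace Pool.Agent.LibCov74

open Finset
open Polynomial (X)

theorem A4c_factor {k : ℕ} (hk : 0 < k) :
    (1 - X ^ k : Polynomial ℤ).natDegree = k ∧ (1 - X ^ k : Polynomial ℤ) ≠ 0 ∧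
      (1 - X ^ k : Polynomial ℤ).reverse = Polynomial.C (-1) * (1 - X ^ k) := by
  have h1 : (1 - X ^ k : Polynomial ℤ).natDegree = k := by
    rw [Polynomial.natDegree_sub_eq_right_of_natDegree_lt]
    · exact Polynomial.natDegree_X_pow k
    · rw [Polynomial.natDegree_one, Polynomial.natDegree_X_pow]
      exact hk
  refine ⟨h1, ?_, ?_⟩
  · intro h
    rw [h, Polynomial.natDegree_zero] at h1
    omega
  · unfold Polynomial.reverse
    rw [h1, Polynomial.reflect_sub, Polynomial.reflect_one, Polynomial.reflect_monomial,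
      Polynomial.revAt_le le_rfl, Nat.sub_self, pow_zero, Polynomial.C_neg, Polynomial.C_1]
    ring

theorem A4c_prod {α : Type} (S : Finset α) (a : α → ℕ) (ha : ∀ x ∈ S, 0 < a x) :
    (∏ x ∈ S, (1 - X ^ a x : Polynomial ℤ)).natDegree = ∑ x ∈ S, a x ∧
      (∏ x ∈ S, (1 - X ^ a x : Polynomial ℤ)) ≠ 0 ∧
      (∏ x ∈ S, (1 - X ^ a x : Polynomial ℤ)).reverse =
        Polynomial.C ((-1) ^ S.card) * ∏ x ∈ S, (1 - X ^ a x : Polynomial ℤ) := by
  classical
  induction S using Finset.induction_on with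
  | empty =>
    refine ⟨by simp, by simp, ?_⟩
    rw [Finset.prod_empty, Finset.card_empty, pow_zero, mul_one, ← Polynomial.C_1,
      Polynomial.reverse_C]
  | insert x S hx ih =>
    obtain ⟨h1, h2, h3⟩ := ih (fun y hy => ha y (Finset.mem_insert_of_mem hy))
    obtain ⟨g1, g2, g3⟩ := A4c_factor (ha x (Finset.mem_insert_self x S))
    rw [Finset.prod_insert hx, Finset.sum_insert hx, Finset.card_insert_of_notMem hx]
    refine ⟨?_, mul_ne_zero g2 h2, ?_⟩
    · rw [Polynomial.natDegree_mul g2 h2, g1, h1]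
    · rw [Polynomial.reverse_mul_of_domain, g3, h3, pow_succ, Polynomial.C_mul]
      ring

/-- `Q` is palindromic up to sign: take `Polynomial.reverse` (or `reflect`) of the identity -/
theorem quot_pal {α β : Type} (X' : Finset α) (a : α → ℕ) (Y : Finset β) (c : β → ℕ)
    (ha : ∀ x ∈ X', 0 < a x) (hc : ∀ y ∈ Y, 0 < c y) (Q : Polynomial ℤ)
    (h : ∏ y ∈ Y, (1 - X ^ c y : Polynomial ℤ) = Q * ∏ x ∈ X', (1 - X ^ a x)) (n : ℕ)
    (hn : Q.coeff n ≠ 0) :
    ∃ m, Q.coeff m ≠ 0 ∧ n + m + ∑ x ∈ X', a x = ∑ y ∈ Y, c y := by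
  obtain ⟨dX, nX, rX⟩ := A4c_prod X' a ha
  obtain ⟨dY, nY, rY⟩ := A4c_prod Y c hc
  have hQ : Q ≠ 0 := by
    intro h0
    rw [h0, Polynomial.coeff_zero] at hn
    exact hn rfl
  have hdeg : ∑ y ∈ Y, c y = Q.natDegree + ∑ x ∈ X', a x := by
    rw [← dY, h, Polynomial.natDegree_mul hQ nX, dX]
  have hle : n ≤ Q.natDegree := Polynomial.le_natDegree_of_ne_zero hn
  have hrev : Polynomial.C ((-1) ^ Y.card) * Q = Polynomial.C ((-1) ^ X'.card) * Q.reverse := by
    apply mul_right_cancel₀ nX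
    have h1 : (∏ y ∈ Y, (1 - X ^ c y : Polynomial ℤ)).reverse =
        Q.reverse * (∏ x ∈ X', (1 - X ^ a x : Polynomial ℤ)).reverse := by
      rw [h, Polynomial.reverse_mul_of_domain]
    rw [rY, rX, h] at h1
    rw [mul_assoc, h1]
    ring
  refine ⟨Q.natDegree - n, ?_, by omega⟩
  have h2 := congrArg (fun q => Polynomial.coeff q (Q.natDegree - n)) hrev
  simp only [Polynomial.coeff_C_mul] at h2
  rw [Polynomial.coeff_reverse, Polynomial.revAt_le (Nat.sub_le _ _), Nat.sub_sub_self hle] at h2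
  intro h0
  rw [h0, mul_zero] at h2
  have h3 : ((-1 : ℤ) ^ X'.card) * Q.coeff n ≠ 0 :=
    mul_ne_zero (pow_ne_zero _ (by norm_num)) hn
  exact h3 h2.symm

end Pool.Agent.LibCov74
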