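import Pool.Agent.LibCov74.A2
import Pool.Agent.LibCov74.A4a
import Pool.Agent.LibCov74.A4b
import Pool.Agent.LibCov74.A4c

/-!
# Cures

If `#{x ∈ X : n ∣ a x} ≤ #{y ∈ Y : n ∣ c y}` for all `n ≥ 1` then `Q = ∏_Y (1 - z^{c y}) / ∏_X (1 - z^{a x})`
is a polynomial; it is palindromic up to sign and its exponents are in every submonoid containing all
`a x` and `c y`. So `ΣY - ΣX - n ∈ T` for every exponent `n` of `Q`.
-/

set_option autoImplicit false

namespace Pool.Agent.LibCov74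

open Finset
open Polynomial (X)

variable {ι κ : Type} [Fintype ι] [Fintype κ]

private theorem A4d_gmem (D : Dt ι κ) (i : ι) : D.g i ∈ D.S := by
  rw [← D.gen]
  exact AddSubmonoid.subset_closure (Set.mem_range_self i)

/-- (C2) enough labels at every `n` -/
theorem good_of_cnt (D : Dt ι κ) (X' : Finset ι) (Y : Finset κ)
    (h : ∀ n, 1 ≤ n → cnt n X' D.g ≤ cnt n Y D.b) : D.Good X' Y := by
  obtain ⟨Q, hQ⟩ := exists_quot X' D.g Y D.b (fun x _ => D.gpos x) (fun y _ => D.bpos y) h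
  have h0 : Q.coeff 0 ≠ 0 := by
    intro hc
    have h1 := congrArg (fun P : Polynomial ℤ => P.eval 0) hQ
    simp only [Polynomial.eval_mul, Polynomial.eval_prod, Polynomial.eval_sub,
      Polynomial.eval_one, Polynomial.eval_pow, Polynomial.eval_X] at h1
    rw [← Polynomial.coeff_zero_eq_eval_zero, hc, zero_mul,
      Finset.prod_congr rfl fun y _ => by rw [zero_pow (D.bpos y).ne', sub_zero],
      Finset.prod_const_one] at h1
    exact one_ne_zero h1
  obtain ⟨m, hm, hm2⟩ := quot_pal X' D.g Y D.b (fun x _ => D.gpos x) (fun y _ => D.bpos y) Q hQ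
    0 h0
  refine ⟨m, quot_supp X' D.g Y D.b (fun x _ => D.gpos x) D.S (fun x _ => A4d_gmem D x)
    (fun y _ => b_mem D y) Q hQ m hm, ?_⟩
  rw [← hm2, zero_add]

/-- (CURE) one label less is enough if it is independent of the rest -/
theorem good_of_cure [DecidableEq κ] (D : Dt ι κ) (X' : Finset ι) (Y : Finset κ)
    (h : ∀ n, 1 ≤ n → cnt n X' D.g ≤ cnt n Y D.b) (p : κ) (hp : p ∈ Y)
    (hT : D.b p ∉ AddSubmonoid.closure (D.g '' (X' : Set ι) ∪ D.b '' {y | y ∈ Y ∧ D.b y ≠ D.b p})) :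
    D.Good X' (Y.erase p) := by
  obtain ⟨Q, hQ⟩ := exists_quot X' D.g Y D.b (fun x _ => D.gpos x) (fun y _ => D.bpos y) h
  have h0 : Q.coeff (D.b p) ≠ 0 :=
    quot_coeff X' D.g Y D.b (fun x _ => D.gpos x) (fun y _ => D.bpos y) Q hQ p hp hT
  obtain ⟨m, hm, hm2⟩ := quot_pal X' D.g Y D.b (fun x _ => D.gpos x) (fun y _ => D.bpos y) Q hQ
    (D.b p) h0
  refine ⟨m, quot_supp X' D.g Y D.b (fun x _ => D.gpos x) D.S (fun x _ => A4d_gmem D x)
    (fun y _ => b_mem D y) Q hQ m hm, ?_⟩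
  have h1 := Finset.add_sum_erase Y D.b hp
  omega

end Pool.Agent.LibCov74
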