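import Pool.Agent.LibCov74.Defs

/-!
# Strong autarkies: elementary facts

`F j` is the set of values (finite subsets of `ι`) of the label `j`.
-/

set_option autoImplicit false

namespace Pool.Agent.LibCov74

open Finset

variable {ι κ : Type} [DecidableEq ι] [DecidableEq κ]

theorem mem_Nb (F : κ → Set (Finset ι)) (X : Finset ι) (J : Finset κ) (x : ι) :
    x ∈ Nb F X J ↔ x ∈ X ∧ ∃ j ∈ J, ∃ u ∈ F j, x ∈ u := by
  classical
  unfold Nb
  rw [Finset.mem_filter]

theorem Nb_union (F : κ → Set (Finset ι)) (X : Finset ι) (I J : Finset κ) :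
    Nb F X (I ∪ J) = Nb F X I ∪ Nb F X J := by
  ext x
  rw [Finset.mem_union, mem_Nb, mem_Nb, mem_Nb]
  constructor
  · rintro ⟨hx, j, hj, hu⟩
    rcases Finset.mem_union.1 hj with h | h
    · exact Or.inl ⟨hx, j, h, hu⟩
    · exact Or.inr ⟨hx, j, h, hu⟩
  · rintro (⟨hx, j, hj, hu⟩ | ⟨hx, j, hj, hu⟩)
    · exact ⟨hx, j, Finset.mem_union_left _ hj, hu⟩
    · exact ⟨hx, j, Finset.mem_union_right _ hj, hu⟩

theorem aut_empty (F : κ → Set (Finset ι)) (X : Finset ι) : Aut F X ∅ := by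
  refine ⟨fun _ => ∅, fun j hj => ?_, fun x hx => ?_⟩
  · simp at hj
  · obtain ⟨-, j, hj, -⟩ := (mem_Nb F X ∅ x).1 hx
    simp at hj

/-- two disjoint pieces: if `I` is an autarky for `X` and `J` one for `X \ Nb F X I` (disjoint from `I`)
then `I ∪ J` is an autarky for `X` -/
theorem aut_ext (F : κ → Set (Finset ι)) (X : Finset ι) (I J : Finset κ) (hd : Disjoint I J)
    (hI : Aut F X I) (hJ : Aut F (X \ Nb F X I) J) : Aut F X (I ∪ J) := by
  obtain ⟨c, hc, hc'⟩ := hI
  obtain ⟨d, hd1, hd'⟩ := hJ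
  refine ⟨fun j => if j ∈ I then c j else d j, fun j hj => ?_, fun x hx => ?_⟩
  · by_cases h : j ∈ I
    · simp only [if_pos h]
      exact hc j h
    · simp only [if_neg h]
      exact hd1 j ((Finset.mem_union.1 hj).resolve_left h)
  · by_cases hxI : x ∈ Nb F X I
    · obtain ⟨j, hj, hxj⟩ := hc' x hxI
      exact ⟨j, Finset.mem_union_left _ hj, by simp only [if_pos hj]; exact hxj⟩
    · rw [Nb_union, Finset.mem_union] at hx
      have hxJ := (mem_Nb F X J x).1 (hx.resolve_left hxI)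
      obtain ⟨j, hj, hxj⟩ := hd' x ((mem_Nb F _ J x).2
        ⟨Finset.mem_sdiff.2 ⟨hxJ.1, hxI⟩, hxJ.2⟩)
      have hjI : j ∉ I := fun h => Finset.disjoint_left.1 hd h hj
      exact ⟨j, Finset.mem_union_right _ hj, by simp only [if_neg hjI]; exact hxj⟩

/-- autarkies are closed under union (on `I ∩ J` take the choice of `I`: what the choice of `J` covers
with `j ∈ I ∩ J` lies in `Nb F X I`, which is covered by the choice of `I`) -/
theorem aut_union (F : κ → Set (Finset ι)) (X : Finset ι) (I J : Finset κ) (hI : Aut F X I)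
    (hJ : Aut F X J) : Aut F X (I ∪ J) := by
  obtain ⟨c, hc, hc'⟩ := hI
  obtain ⟨d, hd1, hd'⟩ := hJ
  refine ⟨fun j => if j ∈ I then c j else d j, fun j hj => ?_, fun x hx => ?_⟩
  · by_cases h : j ∈ I
    · simp only [if_pos h]
      exact hc j h
    · simp only [if_neg h]
      exact hd1 j ((Finset.mem_union.1 hj).resolve_left h)
  · by_cases hxI : x ∈ Nb F X I
    · obtain ⟨j, hj, hxj⟩ := hc' x hxI
      exact ⟨j, Finset.mem_union_left _ hj, by simp only [if_pos hj]; exact hxj⟩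
    · rw [Nb_union, Finset.mem_union] at hx
      have hxJ := hx.resolve_left hxI
      obtain ⟨j, hj, hxj⟩ := hd' x hxJ
      have hjI : j ∉ I := fun h =>
        hxI ((mem_Nb F X I x).2 ⟨((mem_Nb F X J x).1 hxJ).1, j, h, d j, hd1 j hj, hxj⟩)
      exact ⟨j, Finset.mem_union_right _ hj, by simp only [if_neg hjI]; exact hxj⟩

/-- the largest autarky contained in `Y` -/
theorem exists_max_aut (F : κ → Set (Finset ι)) (X : Finset ι) (Y : Finset κ) :
    ∃ I, I ⊆ Y ∧ Aut F X I ∧ ∀ J, J ⊆ Y → Aut F X J → J ⊆ I := by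
  classical
  obtain ⟨I, hI, hmax⟩ := Finset.exists_max_image (Y.powerset.filter (Aut F X)) Finset.card
    ⟨∅, Finset.mem_filter.2 ⟨Finset.empty_mem_powerset Y, aut_empty F X⟩⟩
  rw [Finset.mem_filter, Finset.mem_powerset] at hI
  refine ⟨I, hI.1, hI.2, fun J hJ hJ' => ?_⟩
  have h1 := hmax (I ∪ J) (Finset.mem_filter.2 ⟨Finset.mem_powerset.2
    (Finset.union_subset hI.1 hJ), aut_union F X I J hI.2 hJ'⟩)
  have h2 : I = I ∪ J := Finset.eq_of_subset_of_card_le Finset.subset_union_left h1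
  rw [h2]
  exact Finset.subset_union_right

/-- what is left after removing the largest autarky is lean -/
theorem ln_of_max (F : κ → Set (Finset ι)) (X : Finset ι) (Y I : Finset κ) (hIY : I ⊆ Y)
    (hI : Aut F X I) (hmax : ∀ J, J ⊆ Y → Aut F X J → J ⊆ I) :
    Ln F (X \ Nb F X I) (Y \ I) := by
  intro J hJ hJ'
  have hd : Disjoint I J := Finset.disjoint_left.2 fun j hj hj' =>
    (Finset.mem_sdiff.1 (hJ hj')).2 hj
  have h1 := hmax (I ∪ J) (Finset.union_subset hIY (hJ.trans Finset.sdiff_subset))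
    (aut_ext F X I J hd hI hJ')
  rw [Finset.eq_empty_iff_forall_notMem]
  intro j hj
  exact (Finset.mem_sdiff.1 (hJ hj)).2 (h1 (Finset.mem_union_right _ hj))

/-- restriction to a subset containing everything that is met -/
theorem ln_restrict (F : κ → Set (Finset ι)) (X Z : Finset ι) (Y I : Finset κ) (hZX : Z ⊆ X)
    (hIY : I ⊆ Y) (hN : Nb F X I ⊆ Z) (h : Ln F X Y) : Ln F Z I := by
  intro J hJ hJ'
  obtain ⟨c, hc, hc'⟩ := hJ'
  refine h J (hJ.trans hIY) ⟨c, hc, fun x hx => hc' x ?_⟩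
  obtain ⟨hxX, j, hj, u, hu, hxu⟩ := (mem_Nb F X J x).1 hx
  exact (mem_Nb F Z J x).2 ⟨hN ((mem_Nb F X I x).2 ⟨hxX, j, hJ hj, u, hu, hxu⟩), j, hj, u, hu, hxu⟩

theorem ln_mono (F : κ → Set (Finset ι)) (X : Finset ι) (Y I : Finset κ)
    (hIY : I ⊆ Y) (h : Ln F X Y) : Ln F X I := by
  exact fun J hJ => h J (hJ.trans hIY)

/-- in a lean system every label has a value meeting `X` -/
theorem exists_meet (F : κ → Set (Finset ι)) (hF : ∀ j, (F j).Nonempty) (X : Finset ι) (Y : Finset κ)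
    (h : Ln F X Y) (j : κ) (hj : j ∈ Y) : ∃ u ∈ F j, (u ∩ X).Nonempty := by
  by_contra hcon
  push Not at hcon
  obtain ⟨u, hu⟩ := hF j
  have h1 : ({j} : Finset κ) = ∅ := h {j} (Finset.singleton_subset_iff.2 hj) ⟨fun _ => u,
    fun i hi => by rw [Finset.mem_singleton.1 hi]; exact hu, fun x hx => by
      obtain ⟨hxX, i, hi, v, hv, hxv⟩ := (mem_Nb F X {j} x).1 hx
      rw [Finset.mem_singleton.1 hi] at hv
      have h2 := hcon v hv
      exact absurd (Finset.mem_inter.2 ⟨hxv, hxX⟩) (by rw [h2]; simp)⟩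
  exact Finset.singleton_ne_empty j h1

end Pool.Agent.LibCov74
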