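import Pool.Agent.LibCov74.B1

/-!
# Counting in lean systems
-/

set_option autoImplicit false

namespace Pool.Agent.LibCov74

open Finset

variable {ι κ : Type} [DecidableEq ι] [DecidableEq κ]

/-- the data of a splitting of the lean system `(X; Y)` by the value `v` of the label `b`:
`I` is the largest autarky of `(X \ v; Y \ b)`, `Z = (v ∩ X) ∪ Nb F (X \ v) I`, `O = X \ Z`,
`C = (Y \ b) \ I`. -/
structure Split (F : κ → Set (Finset ι)) (X : Finset ι) (Y : Finset κ) (b : κ) (v : Finset ι)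
    (Z O : Finset ι) (I C : Finset κ) : Prop where
  hb : b ∈ Y
  hv : v ∈ F b
  hZ : Z = (v ∩ X) ∪ Nb F (X \ v) I
  hO : O = X \ Z
  hI : I ⊆ Y.erase b
  hC : C = (Y.erase b) \ I
  aut : Aut F (X \ v) I
  max : ∀ J, J ⊆ Y.erase b → Aut F (X \ v) J → J ⊆ I

/-- existence of the splitting: `exists_max_aut` for `(X \ v; Y \ b)` -/
theorem exists_split (F : κ → Set (Finset ι)) (X : Finset ι) (Y : Finset κ) (b : κ) (v : Finset ι)
    (hb : b ∈ Y) (hv : v ∈ F b) : ∃ Z O I C, Split F X Y b v Z O I C := by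
  obtain ⟨I, h1, h2, h3⟩ := exists_max_aut F (X \ v) (Y.erase b)
  exact ⟨(v ∩ X) ∪ Nb F (X \ v) I, X \ ((v ∩ X) ∪ Nb F (X \ v) I), I, (Y.erase b) \ I,
    ⟨hb, hv, rfl, rfl, h1, rfl, h2, h3⟩⟩

section
variable {F : κ → Set (Finset ι)} {X : Finset ι} {Y : Finset κ} {b : κ} {v : Finset ι}
  {Z O : Finset ι} {I C : Finset κ}

theorem Split.sub (s : Split F X Y b v Z O I C) : Z ⊆ X ∧ O ⊆ X ∧ v ∩ X ⊆ Z := by
  refine ⟨?_, ?_, ?_⟩
  · rw [s.hZ]
    intro x hx
    rcases mem_union.1 hx with hx | hx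
    · exact (mem_inter.1 hx).2
    · exact (mem_sdiff.1 ((mem_Nb F _ _ x).1 hx).1).1
  · rw [s.hO]
    exact sdiff_subset
  · rw [s.hZ]
    exact subset_union_left

/-- `Nb F X I ⊆ Z`: what is not in `v` is in `Nb F (X \ v) I` -/
theorem Split.nb (s : Split F X Y b v Z O I C) : Nb F X I ⊆ Z := by
  intro x hx
  obtain ⟨hx1, hx2⟩ := (mem_Nb F _ _ x).1 hx
  rw [s.hZ]
  by_cases hxv : x ∈ v
  · exact mem_union_left _ (mem_inter.2 ⟨hxv, hx1⟩)
  · exact mem_union_right _ ((mem_Nb F _ _ x).2 ⟨mem_sdiff.2 ⟨hx1, hxv⟩, hx2⟩)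

theorem Split.lnI (s : Split F X Y b v Z O I C) (h : Ln F X Y) : Ln F Z I :=
  ln_restrict F X Z Y I s.sub.1 (s.hI.trans (erase_subset _ _)) s.nb h

/-- `O = (X \ v) \ Nb F (X \ v) I` and `ln_of_max` -/
theorem Split.lnC (s : Split F X Y b v Z O I C) : Ln F O C := by
  have h1 := ln_of_max F (X \ v) (Y.erase b) I s.hI s.aut s.max
  have h2 : O = (X \ v) \ Nb F (X \ v) I := by
    rw [s.hO, s.hZ]
    ext x
    simp only [mem_sdiff, mem_union, mem_inter]
    tauto
  rw [h2, s.hC]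
  exact h1

/-- if every value of `b` avoids `O` then `insert b I` is an autarky for `X`: `b` takes the value `v`
and the labels of `I` their values; everything met is in `Z = (v ∩ X) ∪ Nb F (X \ v) I`. -/
theorem Split.meetO (s : Split F X Y b v Z O I C) (h : Ln F X Y) :
    ∃ u ∈ F b, (u ∩ O).Nonempty := by
  by_contra hcon
  push Not at hcon
  have hbI : b ∉ I := fun hb => (mem_erase.1 (s.hI hb)).1 rfl
  obtain ⟨c, hc1, hc2⟩ := s.aut
  have hmem : ∀ x ∈ Nb F X (insert b I), x ∈ Z := by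
    intro x hx
    obtain ⟨hx1, j, hj, u, hu, hxu⟩ := (mem_Nb F _ _ x).1 hx
    rcases mem_insert.1 hj with rfl | hj
    · by_contra hxZ
      have h1 : x ∈ u ∩ O := mem_inter.2 ⟨hxu, by rw [s.hO]; exact mem_sdiff.2 ⟨hx1, hxZ⟩⟩
      rw [hcon u hu] at h1
      exact absurd h1 (notMem_empty x)
    · exact s.nb ((mem_Nb F _ _ x).2 ⟨hx1, j, hj, u, hu, hxu⟩)
  have haut : Aut F X (insert b I) := by
    refine ⟨Function.update c b v, ?_, ?_⟩
    · intro j hj
      rcases mem_insert.1 hj with rfl | hj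
      · rw [Function.update_self]
        exact s.hv
      · rw [Function.update_of_ne (fun h0 : j = b => hbI (h0 ▸ hj))]
        exact hc1 j hj
    · intro x hx
      have hxZ := hmem x hx
      rw [s.hZ] at hxZ
      rcases mem_union.1 hxZ with h1 | h1
      · exact ⟨b, mem_insert_self _ _, by
          rw [Function.update_self]
          exact (mem_inter.1 h1).1⟩
      · obtain ⟨j, hj, hxj⟩ := hc2 x h1
        exact ⟨j, mem_insert_of_mem hj, by
          rw [Function.update_of_ne (fun h0 : j = b => hbI (h0 ▸ hj))]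
          exact hxj⟩
  have h2 := h (insert b I) (insert_subset s.hb (s.hI.trans (erase_subset _ _))) haut
  exact insert_ne_empty _ _ h2

theorem Split.cardX (s : Split F X Y b v Z O I C) : X.card = Z.card + O.card := by
  rw [s.hO, add_comm]
  exact (card_sdiff_add_card_eq_card s.sub.1).symm

theorem Split.cardY (s : Split F X Y b v Z O I C) : Y.card = I.card + C.card + 1 := by
  have h1 := card_sdiff_add_card_eq_card s.hI
  have h2 := card_erase_add_one s.hb
  rw [s.hC]
  omega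

end

end Pool.Agent.LibCov74
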