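import Pool.Agent.LibCov74.B2a

/-!
# Counting in lean systems
-/

set_option autoImplicit false

namespace Pool.Agent.LibCov74

open Finset

variable {ι κ : Type} [DecidableEq ι] [DecidableEq κ]

/-- (COUNT) a lean system on a nonempty set has at least one variable more than labels.
Induction on `Y.card`. `Y = ∅`: clear. Otherwise take `b ∈ Y` and a value `v` of `b` meeting `X`
(`exists_meet`), the splitting `(Z, O, I, C)`: `Z` is nonempty (contains `v ∩ X`), `O` is nonempty
(`Split.meetO`); by induction `I.card + 1 ≤ Z.card`, `C.card + 1 ≤ O.card`. -/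
theorem ln_card (F : κ → Set (Finset ι)) (hF : ∀ j, (F j).Nonempty) (X : Finset ι) (Y : Finset κ)
    (hX : X.Nonempty) (h : Ln F X Y) : Y.card + 1 ≤ X.card := by
  induction hn : Y.card using Nat.strong_induction_on generalizing X Y with
  | _ n ih =>
    subst hn
    rcases Y.eq_empty_or_nonempty with hE | ⟨b, hb⟩
    · subst hE
      simpa using hX.card_pos
    · obtain ⟨v, hv, hvX⟩ := exists_meet F hF X Y h b hb
      obtain ⟨Z, O, I, C, s⟩ := exists_split F X Y b v hb hv
      have hZ : Z.Nonempty := hvX.mono s.sub.2.2
      obtain ⟨u, -, huO⟩ := s.meetO h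
      have hO : O.Nonempty := huO.mono inter_subset_right
      have hX' := s.cardX
      have hY' := s.cardY
      have h1 := ih I.card (by omega) Z I hZ (s.lnI h) rfl
      have h2 := ih C.card (by omega) O C hO s.lnC rfl
      omega

/-- in the case of equality, the splitting by a value meeting `X` has equality on both sides -/
theorem Split.card_eq {F : κ → Set (Finset ι)} (hF : ∀ j, (F j).Nonempty) {X : Finset ι}
    {Y : Finset κ} {b : κ} {v : Finset ι} {Z O : Finset ι} {I C : Finset κ}
    (s : Split F X Y b v Z O I C) (h : Ln F X Y) (hc : X.card = Y.card + 1)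
    (hv : (v ∩ X).Nonempty) : Z.card = I.card + 1 ∧ O.card = C.card + 1 ∧ O.Nonempty := by
  have hZ : Z.Nonempty := hv.mono s.sub.2.2
  obtain ⟨u, -, huO⟩ := s.meetO h
  have hO : O.Nonempty := huO.mono inter_subset_right
  have hX' := s.cardX
  have hY' := s.cardY
  have h1 := ln_card F hF Z I hZ (s.lnI h)
  have h2 := ln_card F hF O C hO s.lnC
  exact ⟨by omega, by omega, hO⟩

end Pool.Agent.LibCov74
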