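import Pool.Agent.LibCov74.B2b

/-!
# Counting in lean systems
-/

set_option autoImplicit false

namespace Pool.Agent.LibCov74

open Finset

variable {ι κ : Type} [DecidableEq ι] [DecidableEq κ]

/-- (COV) a lean system with `X.card = Y.card + 1`: everything but one given point can be covered.
Induction on `Y.card`. `Y = ∅`: `X = {x}`. Otherwise take `b ∈ Y`, a value `v` of `b` meeting `X`, the
splitting. If `x ∈ O`: `b` takes the value `v`, the labels of `I` their autarky values (they cover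
`Z \ v`), and by induction `C` covers `O \ x`. If `x ∈ Z`: by induction `I` covers `Z \ x`; there is a
value `u` of `b` meeting `O` in `o` (`Split.meetO`); by induction `C` covers `O \ o`. -/
theorem ln_cover (F : κ → Set (Finset ι)) (hF : ∀ j, (F j).Nonempty) (X : Finset ι) (Y : Finset κ)
    (h : Ln F X Y) (hc : X.card = Y.card + 1) (x : ι) (hx : x ∈ X) :
    ∃ c : κ → Finset ι, (∀ j ∈ Y, c j ∈ F j) ∧ Cov Y c (X.erase x) := by
  obtain ⟨n, hn⟩ : ∃ n, Y.card = n := ⟨_, rfl⟩
  induction n using Nat.strong_induction_on generalizing X Y x with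
  | _ n ih =>
    rcases Y.eq_empty_or_nonempty with rfl | ⟨b, hb⟩
    · refine ⟨fun j => (hF j).choose, fun j hj => absurd hj (Finset.notMem_empty j), ?_⟩
      intro y hy
      have h0 : (X.erase x).card = 0 := by
        rw [Finset.card_erase_of_mem hx, hc]
        simp
      rw [Finset.card_eq_zero] at h0
      rw [h0] at hy
      exact absurd hy (Finset.notMem_empty y)
    · obtain ⟨v, hv, hvX⟩ := exists_meet F hF X Y h b hb
      obtain ⟨Z, O, I, C, s⟩ := exists_split F X Y b v hb hv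
      obtain ⟨hZc, hOc, hOn⟩ := s.card_eq hF h hc hvX
      have hY := s.cardY
      have hbI : b ∉ I := fun hbI => (Finset.mem_erase.1 (s.hI hbI)).1 rfl
      have hbC : b ∉ C := by
        rw [s.hC]
        intro hbC
        exact (Finset.mem_erase.1 (Finset.mem_sdiff.1 hbC).1).1 rfl
      have hCI : ∀ j ∈ C, j ∉ I := by
        rw [s.hC]
        exact fun j hj => (Finset.mem_sdiff.1 hj).2
      have hCY : ∀ j ∈ C, j ∈ Y := by
        rw [s.hC]
        exact fun j hj => Finset.mem_of_mem_erase (Finset.mem_sdiff.1 hj).1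
      have hIY : ∀ j ∈ I, j ∈ Y := fun j hj => Finset.mem_of_mem_erase (s.hI hj)
      have hYIC : ∀ j ∈ Y, j ≠ b → j ∉ I → j ∈ C := by
        intro j hj hjb hjI
        rw [s.hC]
        exact Finset.mem_sdiff.2 ⟨Finset.mem_erase.2 ⟨hjb, hj⟩, hjI⟩
      have hZO : ∀ y ∈ X, y ∉ Z → y ∈ O := by
        intro y hy hyZ
        rw [s.hO]
        exact Finset.mem_sdiff.2 ⟨hy, hyZ⟩
      -- gluing
      have glue : ∀ (w : Finset ι) (c1 c2 : κ → Finset ι), w ∈ F b → (∀ j ∈ C, c1 j ∈ F j) →
          (∀ j ∈ I, c2 j ∈ F j) →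
          ∃ c : κ → Finset ι, (∀ j ∈ Y, c j ∈ F j) ∧ c b = w ∧ (∀ j ∈ I, c j = c2 j) ∧
            ∀ j ∈ C, c j = c1 j := by
        intro w c1 c2 hw h1 h2
        refine ⟨fun j => if j = b then w else if j ∈ I then c2 j else c1 j, ?_, ?_, ?_, ?_⟩
        · intro j hj
          by_cases hjb : j = b
          · subst hjb
            simpa using hw
          · by_cases hjI : j ∈ I
            · simpa [hjb, hjI] using h2 j hjI
            · simpa [hjb, hjI] using h1 j (hYIC j hj hjb hjI)
        · simp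
        · intro j hj
          have hjb : j ≠ b := fun e => hbI (e ▸ hj)
          simp [hjb, hj]
        · intro j hj
          have hjb : j ≠ b := fun e => hbC (e ▸ hj)
          simp [hjb, hCI j hj]
      by_cases hxZ : x ∈ Z
      · obtain ⟨c2, hc2, hcov2⟩ := ih I.card (by omega) Z I (s.lnI h) hZc x hxZ rfl
        obtain ⟨u, hu, o, ho⟩ := s.meetO h
        obtain ⟨huo, hoO⟩ := Finset.mem_inter.1 ho
        obtain ⟨c1, hc1, hcov1⟩ := ih C.card (by omega) O C s.lnC hOc o hoO rfl
        obtain ⟨c, hcF, hcb, hcI, hcC⟩ := glue u c1 c2 hu hc1 hc2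
        refine ⟨c, hcF, fun y hy => ?_⟩
        obtain ⟨hyx, hyX⟩ := Finset.mem_erase.1 hy
        by_cases hyZ : y ∈ Z
        · obtain ⟨j, hj, hyj⟩ := hcov2 y (Finset.mem_erase.2 ⟨hyx, hyZ⟩)
          exact ⟨j, hIY j hj, by rw [hcI j hj]; exact hyj⟩
        · by_cases hyo : y = o
          · exact ⟨b, hb, by rw [hcb, hyo]; exact huo⟩
          · obtain ⟨j, hj, hyj⟩ := hcov1 y (Finset.mem_erase.2 ⟨hyo, hZO y hyX hyZ⟩)
            exact ⟨j, hCY j hj, by rw [hcC j hj]; exact hyj⟩
      · obtain ⟨c1, hc1, hcov1⟩ := ih C.card (by omega) O C s.lnC hOc x (hZO x hx hxZ) rfl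
        obtain ⟨c2, hc2, hcov2⟩ := s.aut
        obtain ⟨c, hcF, hcb, hcI, hcC⟩ := glue v c1 c2 hv hc1 hc2
        refine ⟨c, hcF, fun y hy => ?_⟩
        obtain ⟨hyx, hyX⟩ := Finset.mem_erase.1 hy
        by_cases hyZ : y ∈ Z
        · rw [s.hZ] at hyZ
          rcases Finset.mem_union.1 hyZ with hyv | hyN
          · exact ⟨b, hb, by rw [hcb]; exact (Finset.mem_inter.1 hyv).1⟩
          · obtain ⟨j, hj, hyj⟩ := hcov2 y hyN
            exact ⟨j, hIY j hj, by rw [hcI j hj]; exact hyj⟩
        · obtain ⟨j, hj, hyj⟩ := hcov1 y (Finset.mem_erase.2 ⟨hyx, hZO y hyX hyZ⟩)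
          exact ⟨j, hCY j hj, by rw [hcC j hj]; exact hyj⟩

end Pool.Agent.LibCov74
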