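import Pool.Agent.LibCov74.B2c

/-!
# Lean systems with `X.card = Y.card + 1` are trees
-/

set_option autoImplicit false

namespace Pool.Agent.LibCov74

open Finset

variable {ι κ : Type} [DecidableEq ι] [DecidableEq κ]

/-- Monotonicity of trees in the set of values. -/
theorem Tr.mono {F F' : κ → Set (Finset ι)} {X : Finset ι} {Y : Finset κ}
    (hF : ∀ j ∈ Y, F j ⊆ F' j) (h : Tr F X Y) : Tr F' X Y := by
  induction h with
  | leaf x => exact Tr.leaf x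
  | node b X₁ X₂ Y₁ Y₂ u v hX hY hb₁ hb₂ hu hv hu₁ hv₂ h₁ h₂ ih₁ ih₂ =>
    refine Tr.node b X₁ X₂ Y₁ Y₂ u v hX hY hb₁ hb₂ (hF b (mem_insert_self _ _) hu)
      (hF b (mem_insert_self _ _) hv) hu₁ hv₂ (ih₁ fun j hj => hF j ?_) (ih₂ fun j hj => hF j ?_)
    · exact mem_insert_of_mem (mem_union_left _ hj)
    · exact mem_insert_of_mem (mem_union_right _ hj)

/-- Key step. `(X; Y)` lean with equality, `b, v` with `v ∩ X` nonempty and `(Z, O, I, C)` the splitting.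
Let `c ∈ Y` with `c ∉ I`, and `w` a value of `c` which meets `Z` and `O`. Then the splitting
`(Z', O', I', C')` of `(c, w)` has `Z.card < Z'.card`.
Proof: let `x ∈ w ∩ Z`. By `ln_cover` for `(Z; I)` (`Split.lnI`, `Split.card_eq`) `I` covers `Z \ x`, and
`Nb F (X \ w) I ⊆ Z \ w` (`Split.nb`), so `I` is an autarky of `(X \ w; Y \ c)` and `I ⊆ I'`. If
`I = ∅` then `Z = {x}`; if `I ≠ ∅` then `Z.card ≥ 2` and each `z ∈ Z` is covered by a value of a
label in `I` (use `ln_cover` for another point), so `Z ⊆ w ∪ Nb F (X \ w) I ⊆ Z'` in both cases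
(`Z ⊆ X`; if `Z = {x}` then `Z ⊆ w ∩ X`). And `w` meets `O = X \ Z`, so `Z'` is bigger. -/
theorem Split.bigger {F : κ → Set (Finset ι)} (hF : ∀ j, (F j).Nonempty) {X : Finset ι}
    {Y : Finset κ} (h : Ln F X Y) (hc : X.card = Y.card + 1) {b : κ} {v : Finset ι}
    {Z O : Finset ι} {I C : Finset κ} (s : Split F X Y b v Z O I C) (hv : (v ∩ X).Nonempty)
    {c : κ} {w : Finset ι} {Z' O' : Finset ι} {I' C' : Finset κ} (s' : Split F X Y c w Z' O' I' C')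
    (hcI : c ∉ I) (hwZ : (w ∩ Z).Nonempty) (hwO : (w ∩ O).Nonempty) : Z.card < Z'.card := by
  obtain ⟨x, hx⟩ := hwZ
  rw [mem_inter] at hx
  obtain ⟨o, ho⟩ := hwO
  rw [mem_inter, s.hO, mem_sdiff] at ho
  have hZX : Z ⊆ X := s.sub.1
  obtain ⟨d, hd, hcov⟩ := ln_cover F hF Z I (s.lnI h) (s.card_eq hF h hc hv).1 x hx.2
  have hII : I ⊆ I' := by
    apply s'.max
    · intro j hj
      rw [mem_erase]
      refine ⟨?_, mem_of_mem_erase (s.hI hj)⟩
      rintro rfl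
      exact hcI hj
    · refine ⟨d, hd, ?_⟩
      intro y hy
      rw [mem_Nb, mem_sdiff] at hy
      obtain ⟨⟨hyX, hyw⟩, j, hj, u, hu, hyu⟩ := hy
      have hyZ : y ∈ Z := s.nb ((mem_Nb F X I y).2 ⟨hyX, j, hj, u, hu, hyu⟩)
      refine hcov y (mem_erase.2 ⟨?_, hyZ⟩)
      rintro rfl
      exact hyw hx.1
  have hsub : Z ⊆ Z' := by
    intro z hz
    rw [s'.hZ, mem_union]
    by_cases hzw : z ∈ w
    · left
      exact mem_inter.2 ⟨hzw, hZX hz⟩
    · right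
      rw [mem_Nb, mem_sdiff]
      have hzx : z ≠ x := by
        rintro rfl
        exact hzw hx.1
      obtain ⟨j, hj, hzj⟩ := hcov z (mem_erase.2 ⟨hzx, hz⟩)
      exact ⟨⟨hZX hz, hzw⟩, j, hII hj, d j, hd j hj, hzj⟩
  have hoZ : o ∈ Z' := by
    rw [s'.hZ, mem_union]
    left
    exact mem_inter.2 ⟨ho.1, ho.2.1⟩
  exact card_lt_card ⟨hsub, fun h' => ho.2.2 (h' hoZ)⟩

/-- choose `(b, v)`, `v ∩ X` nonempty, with `Z.card` maximal (`Y` nonempty): then no value of a label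
outside `I` meets both `Z` and `O` -/
theorem exists_max_split (F : κ → Set (Finset ι)) (hF : ∀ j, (F j).Nonempty) (X : Finset ι)
    (Y : Finset κ) (h : Ln F X Y) (hc : X.card = Y.card + 1) (hY : Y.Nonempty) :
    ∃ b v Z O I C, Split F X Y b v Z O I C ∧ (v ∩ X).Nonempty ∧
      ∀ c ∈ Y, c ∉ I → ∀ w ∈ F c, ¬ ((w ∩ Z).Nonempty ∧ (w ∩ O).Nonempty) := by
  classical
  let P : ℕ → Prop := fun n => ∃ b v Z O I C, Split F X Y b v Z O I C ∧ (v ∩ X).Nonempty ∧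
    Z.card = n
  have hP : ∀ n, P n → n ≤ X.card := by
    rintro n ⟨b, v, Z, O, I, C, s, -, rfl⟩
    exact card_le_card s.sub.1
  obtain ⟨b₀, hb₀⟩ := hY
  obtain ⟨v₀, hv₀, hvX⟩ := exists_meet F hF X Y h b₀ hb₀
  obtain ⟨Z₀, O₀, I₀, C₀, s₀⟩ := exists_split F X Y b₀ v₀ hb₀ hv₀
  have hP₀ : P Z₀.card := ⟨b₀, v₀, Z₀, O₀, I₀, C₀, s₀, hvX, rfl⟩
  have hmax : P (Nat.findGreatest P X.card) := Nat.findGreatest_spec (hP _ hP₀) hP₀
  obtain ⟨b, v, Z, O, I, C, s, hv, hZ⟩ := hmax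
  refine ⟨b, v, Z, O, I, C, s, hv, ?_⟩
  rintro c hcY hcI w hw ⟨hwZ, hwO⟩
  obtain ⟨Z', O', I', C', s'⟩ := exists_split F X Y c w hcY hw
  have hlt := s.bigger hF h hc hv s' hcI hwZ hwO
  have hwX : (w ∩ X).Nonempty := by
    obtain ⟨x, hx⟩ := hwZ
    rw [mem_inter] at hx
    exact ⟨x, mem_inter.2 ⟨hx.1, s.sub.1 hx.2⟩⟩
  have hP' : P Z'.card := ⟨c, w, Z', O', I', C', s', hwX, rfl⟩
  have := Nat.le_findGreatest (hP _ hP') hP'
  omega

end Pool.Agent.LibCov74
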