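import Pool.Agent.LibCov74.B2c
import Pool.Agent.LibCov74.B3a

/-!
# Lean systems with `X.card = Y.card + 1` are trees
-/

set_option autoImplicit false

namespace Pool.Agent.LibCov74

open Finset

variable {ι κ : Type} [DecidableEq ι] [DecidableEq κ]

/-- (TREE). Induction on `X.card` (or `Y.card`), for all `F`. `Y = ∅`: `X = {x}`, a leaf. Otherwise take
`(b, v, Z, O, I, C)` from `exists_max_split`. All values are inside `X` (hypothesis `hX`), so every
value of a label in `Y \ I` is inside `Z` or inside `O`; `v ⊆ Z` (it meets `Z`, as `v ∩ X ⊆ Z`); there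
is a value `u ∈ F b` meeting `O`, so `u ⊆ O`. `(Z; I)` is lean (`Split.lnI`) with all values of labels of
`I` inside `Z` (`Split.nb`), `Z.card = I.card + 1`: induction. For `(O; C)` use
`F' j = if j ∈ C then {w ∈ F j | w ⊆ O} else F j`: nonempty for `j ∈ C` by `exists_meet` for
`(O; C)`; `Ln F' O C`: if `J ⊆ C` is an `F'`-autarky for `O` then it is an `F`-autarky for `O`, since
values `⊆ Z` do not meet `O` (so `Nb F O J = Nb F' O J`). Induction gives `Tr F' O C`, hence
`Tr F O C` (`Tr.mono`). -/
theorem ln_tree (F : κ → Set (Finset ι)) (hF : ∀ j, (F j).Nonempty) (X : Finset ι) (Y : Finset κ)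
    (hX : ∀ j ∈ Y, ∀ u ∈ F j, u ⊆ X) (h : Ln F X Y) (hc : X.card = Y.card + 1) : Tr F X Y := by
  obtain ⟨n, hn⟩ : ∃ n, Y.card = n := ⟨_, rfl⟩
  induction n using Nat.strong_induction_on generalizing F X Y with
  | _ n ih =>
    rcases Y.eq_empty_or_nonempty with rfl | hYn
    · have h1 : X.card = 1 := by simpa using hc
      obtain ⟨x, rfl⟩ := Finset.card_eq_one.1 h1
      exact Tr.leaf x
    · obtain ⟨b, v, Z, O, I, C, s, hvX, hmax⟩ := exists_max_split F hF X Y h hc hYn
      obtain ⟨hZc, hOc, hOn⟩ := s.card_eq hF h hc hvX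
      have hY := s.cardY
      have hbI : b ∉ I := fun hbI => (Finset.mem_erase.1 (s.hI hbI)).1 rfl
      have hbC : b ∉ C := by
        rw [s.hC]
        intro hbC
        exact (Finset.mem_erase.1 (Finset.mem_sdiff.1 hbC).1).1 rfl
      have hCI : ∀ j ∈ C, j ∉ I := by
        rw [s.hC]
        exact fun j hj => (Finset.mem_sdiff.1 hj).2
      have hCY : ∀ j ∈ C, j ∈ Y := by
        rw [s.hC]
        exact fun j hj => Finset.mem_of_mem_erase (Finset.mem_sdiff.1 hj).1
      have hIY : ∀ j ∈ I, j ∈ Y := fun j hj => Finset.mem_of_mem_erase (s.hI hj)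
      have hZO : ∀ y ∈ X, y ∉ Z → y ∈ O := by
        intro y hy hyZ
        rw [s.hO]
        exact Finset.mem_sdiff.2 ⟨hy, hyZ⟩
      have hOX : ∀ y ∈ O, y ∈ X ∧ y ∉ Z := by
        intro y hy
        rw [s.hO] at hy
        exact Finset.mem_sdiff.1 hy
      -- a value of a label outside `I` which meets `O` is contained in `O`
      have inO : ∀ c ∈ Y, c ∉ I → ∀ w ∈ F c, (w ∩ O).Nonempty → w ⊆ O := by
        intro c hcY hcI w hw hwO y hy
        by_contra hyO
        have hyX := hX c hcY w hw hy
        have hyZ : y ∈ Z := by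
          by_contra hyZ
          exact hyO (hZO y hyX hyZ)
        exact hmax c hcY hcI w hw ⟨⟨y, Finset.mem_inter.2 ⟨hy, hyZ⟩⟩, hwO⟩
      have hvZ : v ⊆ Z := by
        intro y hy
        have hyX := hX b s.hb v s.hv hy
        exact s.sub.2.2 (Finset.mem_inter.2 ⟨hy, hyX⟩)
      obtain ⟨u, hu, huO⟩ := s.meetO h
      have huO' : u ⊆ O := inO b s.hb hbI u hu huO
      -- the tree on `Z`
      have T1 : Tr F Z I := by
        refine ih I.card (by omega) F hF Z I ?_ (s.lnI h) hZc rfl
        intro j hj w hw y hy
        exact s.nb ((mem_Nb F X I y).2 ⟨hX j (hIY j hj) w hw hy, j, hj, w, hw, hy⟩)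
      -- the tree on `O`
      set F' : κ → Set (Finset ι) := fun j => if j ∈ C then {w | w ∈ F j ∧ w ⊆ O} else F j with hF'
      have hF'C : ∀ j ∈ C, F' j = {w | w ∈ F j ∧ w ⊆ O} := fun j hj => if_pos hj
      have hF'n : ∀ j, (F' j).Nonempty := by
        intro j
        by_cases hj : j ∈ C
        · obtain ⟨w, hw, hwO⟩ := exists_meet F hF O C s.lnC j hj
          rw [hF'C j hj]
          exact ⟨w, hw, inO j (hCY j hj) (hCI j hj) w hw hwO⟩
        · have e : F' j = F j := if_neg hj
          rw [e]
          exact hF j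
      have hLn : Ln F' O C := by
        intro J hJ hA
        refine s.lnC J hJ ?_
        obtain ⟨c, hcJ, hcov⟩ := hA
        refine ⟨c, fun j hj => ?_, fun y hy => ?_⟩
        · have h1 := hcJ j hj
          rw [hF'C j (hJ hj)] at h1
          exact h1.1
        · refine hcov y ?_
          rw [mem_Nb] at hy ⊢
          obtain ⟨hyO, j, hj, w, hw, hyw⟩ := hy
          refine ⟨hyO, j, hj, w, ?_, hyw⟩
          rw [hF'C j (hJ hj)]
          exact ⟨hw, inO j (hCY j (hJ hj)) (hCI j (hJ hj)) w hw
            ⟨y, Finset.mem_inter.2 ⟨hyw, hyO⟩⟩⟩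
      have T2' : Tr F' O C := by
        refine ih C.card (by omega) F' hF'n O C ?_ hLn hOc rfl
        intro j hj w hw
        rw [hF'C j hj] at hw
        exact hw.2
      have T2 : Tr F O C := by
        refine Tr.mono (fun j hj => ?_) T2'
        rw [hF'C j hj]
        exact fun w hw => hw.1
      have eX : X = Z ∪ O := by
        ext y
        constructor
        · intro hy
          by_cases hyZ : y ∈ Z
          · exact Finset.mem_union_left _ hyZ
          · exact Finset.mem_union_right _ (hZO y hy hyZ)
        · intro hy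
          rcases Finset.mem_union.1 hy with hy | hy
          · exact s.sub.1 hy
          · exact s.sub.2.1 hy
      have eY : Y = insert b (I ∪ C) := by
        ext j
        constructor
        · intro hj
          by_cases hjb : j = b
          · exact hjb ▸ Finset.mem_insert_self _ _
          · refine Finset.mem_insert_of_mem ?_
            by_cases hjI : j ∈ I
            · exact Finset.mem_union_left _ hjI
            · refine Finset.mem_union_right _ ?_
              rw [s.hC]
              exact Finset.mem_sdiff.2 ⟨Finset.mem_erase.2 ⟨hjb, hj⟩, hjI⟩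
        · intro hj
          rcases Finset.mem_insert.1 hj with rfl | hj
          · exact s.hb
          · rcases Finset.mem_union.1 hj with hj | hj
            · exact hIY j hj
            · exact hCY j hj
      rw [eX, eY]
      exact Tr.node b Z O I C v u
        (Finset.disjoint_left.2 fun y hy hyO => (hOX y hyO).2 hy)
        (Finset.disjoint_left.2 fun j hj hjC => hCI j hjC hj) hbI hbC s.hv hu hvZ huO' T1 T2

end Pool.Agent.LibCov74
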