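import Pool.Agent.LibCov74.A1

/-!
# Numerical trees

For a numerical tree on `X` with labels `Y` put `η = ΣY - ΣX` (an integer).
-/

set_option autoImplicit false

namespace Pool.Agent.LibCov74

open Finset

variable {ι κ : Type} [DecidableEq ι] [DecidableEq κ]

/-- a tree has one leaf more than nodes -/
theorem NTr.card {g : ι → ℕ} {b : κ → ℕ} {X : Finset ι} {Y : Finset κ} (h : NTr g b X Y) :
    X.card = Y.card + 1 := by
  induction h with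
  | leaf x => simp
  | node j X₁ X₂ Y₁ Y₂ hX hY h1 h2 hd1 hd2 t1 t2 ih1 ih2 =>
    have hj : j ∉ Y₁ ∪ Y₂ := by
      rw [Finset.mem_union]
      rintro (h | h)
      · exact h1 h
      · exact h2 h
    rw [Finset.card_union_of_disjoint hX, Finset.card_insert_of_notMem hj,
      Finset.card_union_of_disjoint hY, ih1, ih2]
    omega

theorem LTr.ntr {g : ι → ℕ} {b : κ → ℕ} {X : Finset ι} {Y : Finset κ} (h : LTr g b X Y) :
    NTr g b X Y := by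
  induction h with
  | leaf x => exact NTr.leaf x
  | node j X₁ X₂ Y₁ Y₂ hX hY h1 h2 hd1 hd2 hl t1 t2 ih1 ih2 =>
    exact NTr.node j X₁ X₂ Y₁ Y₂ hX hY h1 h2 hd1 hd2 ih1 ih2

theorem NTr.gcd_pos {g : ι → ℕ} {b : κ → ℕ} {X : Finset ι} {Y : Finset κ} (hg : ∀ i, 0 < g i)
    (h : NTr g b X Y) : 0 < X.gcd g := by
  have hc := h.card
  have hne : X.Nonempty := Finset.card_pos.mp (by omega)
  obtain ⟨x, hx⟩ := hne
  rcases Nat.eq_zero_or_pos (X.gcd g) with h0 | h0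
  · exfalso
    have := Finset.gcd_eq_zero_iff.mp h0 x hx
    have := hg x
    omega
  · exact h0

theorem C1a_leaf (a : ℕ) (T : AddSubmonoid ℕ) (ha : a ∈ T) (n : ℤ) (hn : (a : ℤ) ∣ n) :
    InZ T n ∨ InZ T (0 - (a : ℤ) - n) := by
  obtain ⟨k, rfl⟩ := hn
  rcases le_or_gt 0 k with hk | hk
  · left
    refine ⟨k.toNat • a, T.nsmul_mem ha _, ?_⟩
    rw [smul_eq_mul]
    push_cast
    rw [Int.toNat_of_nonneg hk]
    ring
  · right
    refine ⟨(-1 - k).toNat • a, T.nsmul_mem ha _, ?_⟩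
    rw [smul_eq_mul]
    push_cast
    rw [Int.toNat_of_nonneg (by omega)]
    ring

theorem C1a_least (T : AddSubmonoid ℕ) (G d : ℕ) (hd : 0 < d) (hGd : (G : ℤ) ∣ d) (η : ℤ)
    (ih : ∀ n : ℤ, (G : ℤ) ∣ n → InZ T n ∨ InZ T (η - n)) (a : ℤ) (ha : (G : ℤ) ∣ a) :
    ∃ t : ℤ, InZ T (a + t * d) ∧ InZ T (η + d - (a + t * d)) := by
  have hd' : (1 : ℤ) ≤ (d : ℤ) := by exact_mod_cast hd
  have hbdd : ∃ b : ℤ, ∀ z : ℤ, InZ T (a + z * d) → b ≤ z := by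
    refine ⟨-|a|, fun z hz => ?_⟩
    by_contra hlt
    push Not at hlt
    have h0 := hz.nonneg
    have h1 : a ≤ |a| := le_abs_self a
    have h2 : 0 ≤ |a| := abs_nonneg a
    have h3 : z < 0 := by omega
    have h4 : z * d ≤ z * 1 := mul_le_mul_of_nonpos_left hd' h3.le
    omega
  have hinh : ∃ z : ℤ, InZ T (a + z * d) := by
    refine ⟨|a| + |η| + 1, ?_⟩
    have h1 : -|a| ≤ a := neg_abs_le a
    have h2 : 0 ≤ |a| := abs_nonneg a
    have h3 : η ≤ |η| := le_abs_self η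
    have h4 : 0 ≤ |η| := abs_nonneg η
    have h5 : (|a| + |η| + 1) * 1 ≤ (|a| + |η| + 1) * d :=
      mul_le_mul_of_nonneg_left hd' (by omega)
    rcases ih (a + (|a| + |η| + 1) * d) (dvd_add ha (hGd.mul_left _)) with h | h
    · exact h
    · exfalso
      have := h.nonneg
      omega
  obtain ⟨t, ht, hmin⟩ := Int.exists_least_of_bdd hbdd hinh
  refine ⟨t, ht, ?_⟩
  rcases ih (a + (t - 1) * d) (dvd_add ha (hGd.mul_left _)) with h | h
  · exfalso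
    have := hmin _ h
    omega
  · have he : η + d - (a + t * d) = η - (a + (t - 1) * d) := by ring
    rw [he]
    exact h

/-- (T2') for `n` divisible by `gcd X`: `n ∈ ⟨X⟩` or `η - n ∈ ⟨X⟩`.

Induction on the tree. Leaf `{x}`: `η = - g x`, `n = k g x` with `k ≥ 0` or `k ≤ -1`.
Node `X = X₁ ∪ X₂` with label `d = b j ∈ ⟨X₁⟩ ∩ ⟨X₂⟩`, `d > 0`, `η = η₁ + η₂ + d`. Write `n = a + c` with
`gcd X₁ ∣ a`, `gcd X₂ ∣ c` (`Finset.gcd_union`, Bezout). Let `t` be the least integer with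
`a + t d ∈ ⟨X₁⟩` (it exists: for very negative `t` the number is negative; for large `t` the number
`η₁ - (a + t d)` is negative, so the induction hypothesis gives `a + t d ∈ ⟨X₁⟩`). Then
`a + (t - 1) d ∉ ⟨X₁⟩`, so `η₁ + d - (a + t d) ∈ ⟨X₁⟩`. If `c - t d ∈ ⟨X₂⟩` then
`n = (a + t d) + (c - t d) ∈ ⟨X⟩`. Otherwise `η₂ - (c - t d) ∈ ⟨X₂⟩` and
`η - n = (η₁ + d - (a + t d)) + (η₂ - (c - t d)) ∈ ⟨X⟩`. -/
theorem NTr.sym {g : ι → ℕ} {b : κ → ℕ} (hg : ∀ i, 0 < g i) (hb : ∀ j, 0 < b j) {X : Finset ι}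
    {Y : Finset κ} (h : NTr g b X Y) (n : ℤ) (hn : ((X.gcd g : ℕ) : ℤ) ∣ n) :
    InZ (Mon g X) n ∨ InZ (Mon g X) (∑ j ∈ Y, (b j : ℤ) - ∑ i ∈ X, (g i : ℤ) - n) := by
  induction h generalizing n with
  | leaf x =>
    have hgx : g x ∈ Mon g ({x} : Finset ι) :=
      AddSubmonoid.subset_closure ⟨x, by simp, rfl⟩
    have hn' : ((g x : ℕ) : ℤ) ∣ n := by
      rw [Finset.gcd_singleton] at hn
      simpa using hn
    rw [Finset.sum_empty, Finset.sum_singleton]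
    exact C1a_leaf (g x) _ hgx n hn'
  | node j X₁ X₂ Y₁ Y₂ hX hY h1 h2 hd1 hd2 t1 t2 ih1 ih2 =>
    have hj : j ∉ Y₁ ∪ Y₂ := by
      rw [Finset.mem_union]
      rintro (h | h)
      · exact h1 h
      · exact h2 h
    rw [Finset.sum_insert hj, Finset.sum_union hY, Finset.sum_union hX]
    have hG1 : ((X₁.gcd g : ℕ) : ℤ) ∣ ((b j : ℕ) : ℤ) :=
      Int.natCast_dvd_natCast.mpr (gcd_dvd_of_mem_Mon g X₁ hd1)
    have hG2 : ((X₂.gcd g : ℕ) : ℤ) ∣ ((b j : ℕ) : ℤ) :=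
      Int.natCast_dvd_natCast.mpr (gcd_dvd_of_mem_Mon g X₂ hd2)
    obtain ⟨k, hk⟩ := hn
    rw [Finset.gcd_union] at hk
    have hbez : (((GCDMonoid.gcd (X₁.gcd g) (X₂.gcd g) : ℕ)) : ℤ) =
        (X₁.gcd g : ℕ) * Nat.gcdA (X₁.gcd g) (X₂.gcd g) +
          (X₂.gcd g : ℕ) * Nat.gcdB (X₁.gcd g) (X₂.gcd g) := Nat.gcd_eq_gcd_ab _ _
    rw [hbez] at hk
    obtain ⟨a, ha⟩ : ∃ a : ℤ, a = ((X₁.gcd g : ℕ) : ℤ) *
        (Nat.gcdA (X₁.gcd g) (X₂.gcd g) * k) := ⟨_, rfl⟩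
    obtain ⟨c, hc⟩ : ∃ c : ℤ, c = ((X₂.gcd g : ℕ) : ℤ) *
        (Nat.gcdB (X₁.gcd g) (X₂.gcd g) * k) := ⟨_, rfl⟩
    have hn : n = a + c := by rw [hk, ha, hc]; ring
    have hda : ((X₁.gcd g : ℕ) : ℤ) ∣ a := ⟨_, ha⟩
    have hdc : ((X₂.gcd g : ℕ) : ℤ) ∣ c := ⟨_, hc⟩
    obtain ⟨t, ht, ht'⟩ := C1a_least (Mon g X₁) (X₁.gcd g) (b j) (hb j) hG1 _ ih1 a hda
    have hm1 : Mon g X₁ ≤ Mon g (X₁ ∪ X₂) :=
      AddSubmonoid.closure_mono (Set.image_mono (by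
        intro x hx
        simp only [Finset.coe_union, Set.mem_union]
        exact Or.inl hx))
    have hm2 : Mon g X₂ ≤ Mon g (X₁ ∪ X₂) :=
      AddSubmonoid.closure_mono (Set.image_mono (by
        intro x hx
        simp only [Finset.coe_union, Set.mem_union]
        exact Or.inr hx))
    rcases ih2 (c - t * (b j : ℕ)) (dvd_sub hdc (hG2.mul_left _)) with h | h
    · left
      have := (ht.mono hm1).add (h.mono hm2)
      have he : a + t * (b j : ℕ) + (c - t * (b j : ℕ)) = n := by rw [hn]; ring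
      rwa [he] at this
    · right
      have := (ht'.mono hm1).add (h.mono hm2)
      have he : ∑ j ∈ Y₁, (b j : ℤ) - ∑ i ∈ X₁, (g i : ℤ) + (b j : ℕ) - (a + t * (b j : ℕ)) +
          (∑ j ∈ Y₂, (b j : ℤ) - ∑ i ∈ X₂, (g i : ℤ) - (c - t * (b j : ℕ))) =
          (b j : ℤ) + (∑ j ∈ Y₁, (b j : ℤ) + ∑ j ∈ Y₂, (b j : ℤ)) -
            (∑ i ∈ X₁, (g i : ℤ) + ∑ i ∈ X₂, (g i : ℤ)) - n := by
        rw [hn]; ring
      rwa [he] at this

end Pool.Agent.LibCov74
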