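import Pool.Agent.LibCov74.A1
import Pool.Agent.LibCov74.C1a

/-!
# Numerical trees

For a numerical tree on `X` with labels `Y` put `η = ΣY - ΣX` (an integer).
-/

set_option autoImplicit false

namespace Pool.Agent.LibCov74

open Finset

variable {ι κ : Type} [DecidableEq ι] [DecidableEq κ]

private theorem C1b_sum {g : ι → ℕ} {b : κ → ℕ} {j : κ} {X₁ X₂ : Finset ι} {Y₁ Y₂ : Finset κ}
    (hX : Disjoint X₁ X₂) (hY : Disjoint Y₁ Y₂) (h1 : j ∉ Y₁) (h2 : j ∉ Y₂) :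
    (∑ j ∈ insert j (Y₁ ∪ Y₂), (b j : ℤ) - ∑ i ∈ X₁ ∪ X₂, (g i : ℤ)) =
      (b j : ℤ) + (∑ j ∈ Y₁, (b j : ℤ) - ∑ i ∈ X₁, (g i : ℤ)) + (∑ j ∈ Y₂, (b j : ℤ) - ∑ i ∈ X₂, (g i : ℤ)) := by
  have h3 : j ∉ Y₁ ∪ Y₂ := by
    rw [Finset.mem_union]
    tauto
  rw [Finset.sum_insert h3, Finset.sum_union hY, Finset.sum_union hX]
  ring

/-- (Brauer) either every label is the lcm, or `η ∈ ⟨X⟩`.

Induction on the tree. Node with label `d = b j` (a positive multiple of `ℓ = lcm (gcd X₁, gcd X₂)`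
as it is in `⟨X₁⟩ ∩ ⟨X₂⟩`). If both subtrees satisfy the first alternative and `d = ℓ`: first
alternative. If `η₁ ∈ ⟨X₁⟩`: by `NTr.sym` with `n = - d < 0` (not in `⟨X₂⟩`), `η₂ + d ∈ ⟨X₂⟩`, so
`η = η₁ + (η₂ + d) ∈ ⟨X⟩`; the same if `η₂ ∈ ⟨X₂⟩`. If `d = k ℓ` with `k ≥ 2`: by `NTr.sym` with
`n = - ℓ` in `X₁` and `n = - (k - 1) ℓ` in `X₂`: `η₁ + ℓ ∈ ⟨X₁⟩`, `η₂ + (k - 1) ℓ ∈ ⟨X₂⟩`, and `η` is the
sum. -/
theorem NTr.brauer {g : ι → ℕ} {b : κ → ℕ} (hg : ∀ i, 0 < g i) (hb : ∀ j, 0 < b j) {X : Finset ι}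
    {Y : Finset κ} (h : NTr g b X Y) :
    LTr g b X Y ∨ InZ (Mon g X) (∑ j ∈ Y, (b j : ℤ) - ∑ i ∈ X, (g i : ℤ)) := by
  induction h with
  | leaf x => exact Or.inl (LTr.leaf x)
  | node j X₁ X₂ Y₁ Y₂ hX hY hj1 hj2 hm1 hm2 t1 t2 ih1 ih2 =>
    rw [C1b_sum hX hY hj1 hj2]
    have hd1 := gcd_dvd_of_mem_Mon g X₁ hm1
    have hd2 := gcd_dvd_of_mem_Mon g X₂ hm2
    have hp1 := NTr.gcd_pos hg t1
    have hp2 := NTr.gcd_pos hg t2
    have hbj := hb j
    set η₁ : ℤ := ∑ j ∈ Y₁, (b j : ℤ) - ∑ i ∈ X₁, (g i : ℤ) with hη₁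
    set η₂ : ℤ := ∑ j ∈ Y₂, (b j : ℤ) - ∑ i ∈ X₂, (g i : ℤ) with hη₂
    have hM1 : Mon g X₁ ≤ Mon g (X₁ ∪ X₂) := Mon_mono g Finset.subset_union_left
    have hM2 : Mon g X₂ ≤ Mon g (X₁ ∪ X₂) := Mon_mono g Finset.subset_union_right
    have key : ∀ a c : ℕ, 0 < a → 0 < c → X₁.gcd g ∣ a → X₂.gcd g ∣ c → a + c = b j →
        InZ (Mon g (X₁ ∪ X₂)) ((b j : ℤ) + η₁ + η₂) := by
      intro a c ha hc hda hdc hac
      have s1 : InZ (Mon g X₁) (η₁ - (-(a : ℤ))) := by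
        rcases NTr.sym hg hb t1 (-(a : ℤ)) ((Int.natCast_dvd_natCast.2 hda).neg_right) with h | h
        · have := InZ.nonneg h
          omega
        · exact h
      have s2 : InZ (Mon g X₂) (η₂ - (-(c : ℤ))) := by
        rcases NTr.sym hg hb t2 (-(c : ℤ)) ((Int.natCast_dvd_natCast.2 hdc).neg_right) with h | h
        · have := InZ.nonneg h
          omega
        · exact h
      have s3 := (InZ.mono hM1 s1).add (InZ.mono hM2 s2)
      have e : (b j : ℤ) + η₁ + η₂ = η₁ - (-(a : ℤ)) + (η₂ - (-(c : ℤ))) := by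
        rw [← hac]
        push_cast
        ring
      rw [e]
      exact s3
    rcases ih1 with l1 | n1
    · rcases ih2 with l2 | n2
      · by_cases hl : b j = Nat.lcm (X₁.gcd g) (X₂.gcd g)
        · exact Or.inl (LTr.node j X₁ X₂ Y₁ Y₂ hX hY hj1 hj2 hm1 hm2 hl l1 l2)
        · right
          obtain ⟨k, hk⟩ := Nat.lcm_dvd hd1 hd2
          have hlp : 0 < Nat.lcm (X₁.gcd g) (X₂.gcd g) := Nat.lcm_pos hp1 hp2
          have hk2 : 2 ≤ k := by
            rcases k with _ | _ | k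
            · rw [mul_zero] at hk
              omega
            · exact absurd (by rw [hk]; ring) hl
            · omega
          obtain ⟨m, rfl⟩ : ∃ m, k = m + 1 := ⟨k - 1, by omega⟩
          refine key (Nat.lcm (X₁.gcd g) (X₂.gcd g)) (Nat.lcm (X₁.gcd g) (X₂.gcd g) * m) hlp
            (Nat.mul_pos hlp (by omega)) (Nat.dvd_lcm_left _ _) (dvd_mul_of_dvd_left (Nat.dvd_lcm_right _ _) _) ?_
          rw [hk]
          ring
      · right
        have s1 : InZ (Mon g X₁) (η₁ - (-(b j : ℤ))) := by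
          rcases NTr.sym hg hb t1 (-(b j : ℤ)) ((Int.natCast_dvd_natCast.2 hd1).neg_right) with h | h
          · have := InZ.nonneg h
            omega
          · exact h
        have s3 := (InZ.mono hM1 s1).add (InZ.mono hM2 n2)
        have e : (b j : ℤ) + η₁ + η₂ = η₁ - (-(b j : ℤ)) + η₂ := by ring
        rw [e]
        exact s3
    · right
      have s2 : InZ (Mon g X₂) (η₂ - (-(b j : ℤ))) := by
        rcases NTr.sym hg hb t2 (-(b j : ℤ)) ((Int.natCast_dvd_natCast.2 hd2).neg_right) with h | h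
        · have := InZ.nonneg h
          omega
        · exact h
      have s3 := (InZ.mono hM1 n1).add (InZ.mono hM2 s2)
      have e : (b j : ℤ) + η₁ + η₂ = η₁ + (η₂ - (-(b j : ℤ))) := by ring
      rw [e]
      exact s3

end Pool.Agent.LibCov74
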