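import Pool.Agent.LibCov74.A1
import Pool.Agent.LibCov74.C1a

/-!
# Numerical trees

For a numerical tree on `X` with labels `Y` put `η = ΣY - ΣX` (an integer).
-/

set_option autoImplicit false

namespace Pool.Agent.LibCov74

open Finset

variable {ι κ : Type} [DecidableEq ι] [DecidableEq κ]

private theorem C1c_prod {b : κ → ℕ} {j : κ} {Y₁ Y₂ : Finset κ} (hY : Disjoint Y₁ Y₂) (h1 : j ∉ Y₁) (h2 : j ∉ Y₂) :
    ∏ j ∈ insert j (Y₁ ∪ Y₂), b j = b j * ((∏ j ∈ Y₁, b j) * ∏ j ∈ Y₂, b j) := by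
  have h3 : j ∉ Y₁ ∪ Y₂ := by
    rw [Finset.mem_union]
    tauto
  rw [Finset.prod_insert h3, Finset.prod_union hY]

/-- `∏ X ∣ gcd X · ∏ Y`, with equality only if every label is the lcm.

Induction: `∏ X₁ ∣ h₁ ∏ Y₁`, `∏ X₂ ∣ h₂ ∏ Y₂` (`h_i = gcd X_i`), `h₁ h₂ = gcd (h₁, h₂) lcm (h₁, h₂)`
(`Nat.gcd_mul_lcm`) and `lcm (h₁, h₂) ∣ b j`. Everything is positive. -/
theorem NTr.prod_dvd {g : ι → ℕ} {b : κ → ℕ} (hg : ∀ i, 0 < g i) (hb : ∀ j, 0 < b j)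
    {X : Finset ι} {Y : Finset κ} (h : NTr g b X Y) :
    (∏ i ∈ X, g i) ∣ X.gcd g * ∏ j ∈ Y, b j := by
  induction h with
  | leaf x => simp
  | node j X₁ X₂ Y₁ Y₂ hX hY hj1 hj2 hm1 hm2 t1 t2 ih1 ih2 =>
    have hd1 := gcd_dvd_of_mem_Mon g X₁ hm1
    have hd2 := gcd_dvd_of_mem_Mon g X₂ hm2
    rw [Finset.prod_union hX, C1c_prod hY hj1 hj2, Finset.gcd_union]
    refine (mul_dvd_mul ih1 ih2).trans ?_
    have e1 : (X₁.gcd g * ∏ j ∈ Y₁, b j) * (X₂.gcd g * ∏ j ∈ Y₂, b j) =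
        (X₁.gcd g * X₂.gcd g) * ((∏ j ∈ Y₁, b j) * ∏ j ∈ Y₂, b j) := by ring
    have e2 : GCDMonoid.gcd (X₁.gcd g) (X₂.gcd g) * (b j * ((∏ j ∈ Y₁, b j) * ∏ j ∈ Y₂, b j)) =
        (Nat.gcd (X₁.gcd g) (X₂.gcd g) * b j) * ((∏ j ∈ Y₁, b j) * ∏ j ∈ Y₂, b j) := by
      rw [mul_assoc]
      rfl
    rw [e1, e2, ← Nat.gcd_mul_lcm (X₁.gcd g) (X₂.gcd g)]
    exact mul_dvd_mul_right (mul_dvd_mul_left _ (Nat.lcm_dvd hd1 hd2)) _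

theorem NTr.ltr_of_prod_eq {g : ι → ℕ} {b : κ → ℕ} (hg : ∀ i, 0 < g i) (hb : ∀ j, 0 < b j)
    {X : Finset ι} {Y : Finset κ} (h : NTr g b X Y)
    (hp : (∏ i ∈ X, g i) = X.gcd g * ∏ j ∈ Y, b j) : LTr g b X Y := by
  induction h with
  | leaf x => exact LTr.leaf x
  | node j X₁ X₂ Y₁ Y₂ hX hY hj1 hj2 hm1 hm2 t1 t2 ih1 ih2 =>
    have hd1 := gcd_dvd_of_mem_Mon g X₁ hm1
    have hd2 := gcd_dvd_of_mem_Mon g X₂ hm2
    have hp1 := NTr.gcd_pos hg t1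
    have hp2 := NTr.gcd_pos hg t2
    have hD1 := NTr.prod_dvd hg hb t1
    have hD2 := NTr.prod_dvd hg hb t2
    have hY1 : 0 < ∏ j ∈ Y₁, b j := Finset.prod_pos fun j _ => hb j
    have hY2 : 0 < ∏ j ∈ Y₂, b j := Finset.prod_pos fun j _ => hb j
    have hX1 : 0 < ∏ i ∈ X₁, g i := Finset.prod_pos fun j _ => hg j
    have hX2 : 0 < ∏ i ∈ X₂, g i := Finset.prod_pos fun j _ => hg j
    have hl : Nat.lcm (X₁.gcd g) (X₂.gcd g) ≤ b j := Nat.le_of_dvd (hb j) (Nat.lcm_dvd hd1 hd2)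
    have l1 := Nat.le_of_dvd (Nat.mul_pos hp1 hY1) hD1
    have l2 := Nat.le_of_dvd (Nat.mul_pos hp2 hY2) hD2
    rw [Finset.prod_union hX, C1c_prod hY hj1 hj2, Finset.gcd_union] at hp
    have e2 : GCDMonoid.gcd (X₁.gcd g) (X₂.gcd g) * (b j * ((∏ j ∈ Y₁, b j) * ∏ j ∈ Y₂, b j)) =
        (Nat.gcd (X₁.gcd g) (X₂.gcd g) * b j) * ((∏ j ∈ Y₁, b j) * ∏ j ∈ Y₂, b j) := by
      rw [mul_assoc]
      rfl
    rw [e2] at hp
    set h₁ := X₁.gcd g with hh₁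
    set h₂ := X₂.gcd g with hh₂
    set A := ∏ i ∈ X₁, g i with hA
    set B := ∏ i ∈ X₂, g i with hB
    set P := ∏ j ∈ Y₁, b j with hP
    set Q := ∏ j ∈ Y₂, b j with hQ
    have hG : 0 < Nat.gcd h₁ h₂ := Nat.gcd_pos_of_pos_left _ hp1
    have c1 : A * B ≤ (h₁ * P) * (h₂ * Q) := Nat.mul_le_mul l1 l2
    have c2 : (h₁ * P) * (h₂ * Q) = (Nat.gcd h₁ h₂ * Nat.lcm h₁ h₂) * (P * Q) := by
      rw [Nat.gcd_mul_lcm]
      ring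
    have c3 : (Nat.gcd h₁ h₂ * Nat.lcm h₁ h₂) * (P * Q) ≤ (Nat.gcd h₁ h₂ * b j) * (P * Q) :=
      Nat.mul_le_mul_right _ (Nat.mul_le_mul_left _ hl)
    have c4 : (Nat.gcd h₁ h₂ * Nat.lcm h₁ h₂) * (P * Q) = (Nat.gcd h₁ h₂ * b j) * (P * Q) := by
      apply le_antisymm c3
      rw [← hp, ← c2]
      exact c1
    have c5 : Nat.lcm h₁ h₂ = b j :=
      Nat.eq_of_mul_eq_mul_left hG (Nat.eq_of_mul_eq_mul_right (Nat.mul_pos hY1 hY2) c4)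
    have c6 : A * B = (h₁ * P) * (h₂ * Q) := by
      rw [c2, c4, hp]
    have c7 : A = h₁ * P := by
      by_contra hne
      have hlt : A < h₁ * P := lt_of_le_of_ne l1 hne
      have : A * B < (h₁ * P) * (h₂ * Q) := Nat.mul_lt_mul_of_lt_of_le hlt l2 (Nat.mul_pos hp2 hY2)
      omega
    have c8 : B = h₂ * Q := by
      rw [c7] at c6
      exact Nat.eq_of_mul_eq_mul_left (Nat.mul_pos hp1 hY1) c6
    exact LTr.node j X₁ X₂ Y₁ Y₂ hX hY hj1 hj2 hm1 hm2 c5.symm (ih1 c7) (ih2 c8)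

end Pool.Agent.LibCov74
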