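import Pool.Agent.LibCov74.A1
import Pool.Agent.LibCov74.C1a

/-!
# Numerical trees

For a numerical tree on `X` with labels `Y` put `η = ΣY - ΣX` (an integer).
-/

set_option autoImplicit false

namespace Pool.Agent.LibCov74

open Finset

variable {ι κ : Type} [DecidableEq ι] [DecidableEq κ]

theorem C1d_dvd (g : ι → ℕ) (i : ι) {n : ℕ} (h : g i ∣ n) : n ∈ Mon g {i} := by
  rw [mem_Mon_iff]
  refine ⟨fun _ => n / g i, ?_⟩
  rw [Finset.sum_singleton]
  exact Nat.div_mul_cancel h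

theorem C1d_val [Fintype ι] [Fintype κ] (D : Dt ι κ) {X u : Finset ι} {j : κ} (hu : u ∈ D.F j)
    (h : u ⊆ X) : D.b j ∈ Mon D.g X := by
  obtain ⟨x, hx, hux⟩ := hu
  rw [mem_Mon_iff]
  refine ⟨x, ?_⟩
  rw [← hx]
  apply Finset.sum_subset (Finset.subset_univ X)
  intro i _ hi
  have h0 : x i = 0 := by
    by_contra h0
    apply hi
    apply h
    rw [hux]
    simp only [Finset.mem_filter, Finset.mem_univ, true_and]
    exact h0
  rw [h0, zero_mul]

/-- a combinatorial tree for the values of the labels is a numerical tree -/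
theorem Tr.ntr [Fintype ι] [Fintype κ] (D : Dt ι κ) {X : Finset ι} {Y : Finset κ}
    (h : Tr D.F X Y) : NTr D.g D.b X Y := by
  induction h with
  | leaf x => exact NTr.leaf x
  | node b X₁ X₂ Y₁ Y₂ u v hX hY h1 h2 hu hv hu1 hv2 _ _ ih1 ih2 =>
    exact NTr.node b X₁ X₂ Y₁ Y₂ hX hY h1 h2 (C1d_val D hu hu1) (C1d_val D hv hv2) ih1 ih2

/-- (SYM) a tree which is not good: all elements of `S` divisible by `gcd X` are in `⟨X⟩` (for
`n ∈ S`, `n ∉ ⟨X⟩`: `η - n ∈ ⟨X⟩ ⊆ S` by `NTr.sym`, so `η = n + (η - n) ∈ S`). -/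
theorem NTr.mem_of_not_good [Fintype ι] [Fintype κ] (D : Dt ι κ) {X : Finset ι} {Y : Finset κ}
    (h : NTr D.g D.b X Y) (hng : ¬ D.Good X Y) {n : ℕ} (hn : n ∈ D.S) (hd : X.gcd D.g ∣ n) :
    n ∈ Mon D.g X := by
  rcases NTr.sym D.gpos D.bpos h (n : ℤ) (by exact_mod_cast hd) with h1 | h1
  · exact inZ_natCast.1 h1
  · exfalso
    apply hng
    rw [good_iff]
    have h2 : InZ D.S (∑ j ∈ Y, (D.b j : ℤ) - ∑ i ∈ X, (D.g i : ℤ) - n) :=
      InZ.mono (Mon_le D X) h1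
    have h3 : InZ D.S (n : ℤ) := inZ_natCast.2 hn
    have h4 := InZ.add h2 h3
    rwa [sub_add_cancel] at h4

/-- the two-leaf tree -/
theorem ntr_pair (g : ι → ℕ) (b : κ → ℕ) {i k : ι} (hik : i ≠ k) {j : κ} (hi : g i ∣ b j)
    (hk : g k ∣ b j) : NTr g b {i, k} {j} := by
  have h := NTr.node (g := g) (b := b) j {i} {k} ∅ ∅ (Finset.disjoint_singleton.2 hik)
    (Finset.disjoint_empty_left _) (Finset.notMem_empty _) (Finset.notMem_empty _)
    (C1d_dvd g i hi) (C1d_dvd g k hk) (NTr.leaf i) (NTr.leaf k)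
  have e1 : ({i} : Finset ι) ∪ {k} = {i, k} := rfl
  have e2 : insert j ((∅ : Finset κ) ∪ ∅) = {j} := by
    rw [Finset.empty_union]
    rfl
  rw [e1, e2] at h
  exact h

/-- joining a leaf -/
theorem ntr_join (g : ι → ℕ) (b : κ → ℕ) {X : Finset ι} {Y : Finset κ} (h : NTr g b X Y) {l : ι}
    (hl : l ∉ X) {j : κ} (hj : j ∉ Y) (hX : b j ∈ Mon g X) (hlj : g l ∣ b j) :
    NTr g b (insert l X) (insert j Y) := by
  have h1 := NTr.node (g := g) (b := b) j {l} X ∅ Y (Finset.disjoint_singleton_left.2 hl)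
    (Finset.disjoint_empty_left _) (Finset.notMem_empty _) hj (C1d_dvd g l hlj) hX
    (NTr.leaf l) h
  rw [Finset.empty_union, ← Finset.insert_eq] at h1
  exact h1

end Pool.Agent.LibCov74
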