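import Pool.Agent.LibCov74.A1
import Pool.Agent.LibTP76.P2

/-!
# Gluings
-/

set_option autoImplicit false

namespace Pool.Agent.LibCov74

open Finset
open Pool.Agent.LibVol74 (HS)
open Pool.Agent.LibTP76 (CI Pres Over Conn)

theorem C2_coeff (C : AddSubmonoid ℕ) [DecidablePred (· ∈ C)] (n : ℕ) :
    PowerSeries.coeff n (HS C) = if n ∈ C then (1 : ℤ) else 0 := by
  unfold HS
  rw [PowerSeries.coeff_mk]
  split_ifs <;> rfl

open Classical in
/-- the series of `{c ∈ C : ¬ (d ≤ c ∧ c - d ∈ C)}` -/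
theorem C2_T (C : AddSubmonoid ℕ) (d : ℕ) (hdC : d ∈ C) (n : ℕ) :
    PowerSeries.coeff n (HS C * (1 - (PowerSeries.X : PowerSeries ℤ) ^ d)) =
      if n ∈ C ∧ ¬ (d ≤ n ∧ n - d ∈ C) then (1 : ℤ) else 0 := by
  rw [mul_sub, mul_one, map_sub, PowerSeries.coeff_mul_X_pow', C2_coeff, C2_coeff]
  by_cases h1 : d ≤ n ∧ n - d ∈ C
  · have h2 : n ∈ C := by
      have := C.add_mem h1.2 hdC
      rwa [Nat.sub_add_cancel h1.1] at this
    rw [if_pos h2, if_pos h1.1, if_pos h1.2, if_neg (fun h => h.2 h1), sub_self]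
  · have h3 : (if d ≤ n then (if n - d ∈ C then (1 : ℤ) else 0) else 0) = 0 := by
      split_ifs with h4 h5
      · exact absurd ⟨h4, h5⟩ h1
      · rfl
      · rfl
    rw [h3, sub_zero]
    by_cases h2 : n ∈ C
    · rw [if_pos h2, if_pos ⟨h2, h1⟩]
    · rw [if_neg h2, if_neg (fun h => h2 h.1)]

theorem C2_uniq (A C : AddSubmonoid ℕ) (α γ : ℕ) (hA : ∀ a ∈ A, α ∣ a) (hC : ∀ c ∈ C, γ ∣ c)
    (hdC : Nat.lcm α γ ∈ C) {a c a' c' : ℕ} (ha : a ∈ A) (ha' : a' ∈ A) (hc : c ∈ C)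
    (hc' : c' ∈ C) (hT : ¬ (Nat.lcm α γ ≤ c' ∧ c' - Nat.lcm α γ ∈ C)) (h : a + c = a' + c')
    (hle : c ≤ c') : c = c' := by
  have h1 : α ∣ c' - c := by
    have e : c' - c = a - a' := by omega
    rw [e]
    exact Nat.dvd_sub (hA a ha) (hA a' ha')
  have h2 : γ ∣ c' - c := Nat.dvd_sub (hC c' hc') (hC c hc)
  obtain ⟨k, hk⟩ := Nat.lcm_dvd h1 h2
  rcases k with _ | k
  · omega
  · exfalso
    apply hT
    have e : Nat.lcm α γ * (k + 1) = Nat.lcm α γ + k * Nat.lcm α γ := by ring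
    rw [e] at hk
    refine ⟨by omega, ?_⟩
    have e2 : c' - Nat.lcm α γ = c + k * Nat.lcm α γ := by omega
    rw [e2]
    refine C.add_mem hc ?_
    have := C.nsmul_mem hdC k
    rwa [smul_eq_mul] at this

/-- Hilbert series of a gluing. `A`, `C` submonoids of `ℕ`; all elements of `A` are divisible by `α`,
all elements of `C` by `γ`; `d = lcm (α, γ) > 0` is in `A` and in `C`. Every `n ∈ A ⊔ C` has exactly one
representation `n = a + c` with `a ∈ A`, `c ∈ C`, `¬ (d ≤ c ∧ c - d ∈ C)`: subtract `d` from `c` and add it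
to `a` as long as possible; if `a + c = a' + c'` then `a - a' = c' - c` is a multiple of `α` and `γ`,
hence `= t d`; if `t > 0` then `c' - d = c + (t - 1) d ∈ C`, contradiction. And
`HS C · (1 - X^d)` is the series of `{c ∈ C : ¬ (d ≤ c ∧ c - d ∈ C)}`. -/
theorem HS_glue (A C : AddSubmonoid ℕ) (α γ : ℕ) (hA : ∀ a ∈ A, α ∣ a) (hC : ∀ c ∈ C, γ ∣ c)
    (hd : 0 < Nat.lcm α γ) (hdA : Nat.lcm α γ ∈ A) (hdC : Nat.lcm α γ ∈ C) :
    HS (A ⊔ C) = HS A * HS C * (1 - (PowerSeries.X : PowerSeries ℤ) ^ Nat.lcm α γ) := by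
  classical
  ext n
  rw [mul_assoc, PowerSeries.coeff_mul, C2_coeff]
  have h0 : ∀ p ∈ Finset.HasAntidiagonal.antidiagonal n, PowerSeries.coeff p.1 (HS A) *
      PowerSeries.coeff p.2 (HS C * (1 - (PowerSeries.X : PowerSeries ℤ) ^ Nat.lcm α γ)) =
      if p.1 ∈ A ∧ p.2 ∈ C ∧ ¬ (Nat.lcm α γ ≤ p.2 ∧ p.2 - Nat.lcm α γ ∈ C) then (1 : ℤ) else 0 := by
    intro p _
    rw [C2_coeff, C2_T C _ hdC]
    by_cases h1 : p.1 ∈ A
    · by_cases h2 : p.2 ∈ C ∧ ¬ (Nat.lcm α γ ≤ p.2 ∧ p.2 - Nat.lcm α γ ∈ C)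
      · rw [if_pos h1, if_pos h2, if_pos ⟨h1, h2⟩, mul_one]
      · rw [if_neg h2, mul_zero, if_neg (fun h => h2 h.2)]
    · rw [if_neg h1, zero_mul, if_neg (fun h => h1 h.1)]
  rw [Finset.sum_congr rfl h0]
  by_cases hn : n ∈ A ⊔ C
  · rw [if_pos hn]
    obtain ⟨a0, ha0, c0, hc0, hac⟩ := AddSubmonoid.mem_sup.1 hn
    have hex : ∃ c, c ∈ C ∧ ∃ a ∈ A, a + c = n := ⟨c0, hc0, a0, ha0, hac⟩
    obtain ⟨hcC, a, haA, hsum⟩ := Nat.find_spec hex
    set c := Nat.find hex with hcdef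
    have hmin : ∀ c' < c, ¬ (c' ∈ C ∧ ∃ a ∈ A, a + c' = n) := fun c' hc' => Nat.find_min hex hc'
    have hT : ¬ (Nat.lcm α γ ≤ c ∧ c - Nat.lcm α γ ∈ C) := by
      rintro ⟨h1, h2⟩
      exact hmin (c - Nat.lcm α γ) (by omega) ⟨h2, a + Nat.lcm α γ, A.add_mem haA hdA, by omega⟩
    rw [Finset.sum_eq_single (a, c)]
    · rw [if_pos ⟨haA, hcC, hT⟩]
    · rintro ⟨a', c'⟩ hp hne
      rw [if_neg]
      rintro ⟨h1, h2, h3⟩
      have hp' : a' + c' = n := Finset.HasAntidiagonal.mem_antidiagonal.1 hp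
      have hcc : c = c' := by
        rcases le_total c c' with h | h
        · exact C2_uniq A C α γ hA hC hdC haA h1 hcC h2 h3 (by omega) h
        · exact (C2_uniq A C α γ hA hC hdC h1 haA h2 hcC hT (by omega) h).symm
      apply hne
      subst hcc
      have : a' = a := by omega
      rw [this]
    · intro h
      exact absurd (Finset.HasAntidiagonal.mem_antidiagonal.2 hsum) h
  · rw [if_neg hn]
    symm
    apply Finset.sum_eq_zero
    rintro ⟨a', c'⟩ hp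
    rw [if_neg]
    rintro ⟨h1, h2, _⟩
    exact hn (AddSubmonoid.mem_sup.2 ⟨a', h1, c', h2, Finset.HasAntidiagonal.mem_antidiagonal.1 hp⟩)

/-- `HS ⟨g⟩ (1 - z^g) = 1` -/
theorem HS_single (m : ℕ) (hm : 0 < m) :
    HS (AddSubmonoid.closure {m}) * (1 - (PowerSeries.X : PowerSeries ℤ) ^ m) = 1 := by
  classical
  ext n
  have hmem : m ∈ AddSubmonoid.closure ({m} : Set ℕ) :=
    AddSubmonoid.subset_closure (Set.mem_singleton m)
  rw [C2_T _ m hmem, PowerSeries.coeff_one]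
  by_cases h0 : n = 0
  · rw [if_pos h0, if_pos]
    subst h0
    exact ⟨AddSubmonoid.zero_mem _, fun h => by omega⟩
  · rw [if_neg h0, if_neg]
    rintro ⟨h1, h2⟩
    obtain ⟨k, hk⟩ := AddSubmonoid.mem_closure_singleton.1 h1
    rw [smul_eq_mul] at hk
    rcases k with _ | k
    · apply h0
      rw [← hk, zero_mul]
    · apply h2
      have e : (k + 1) * m = k * m + m := by ring
      rw [e] at hk
      refine ⟨by omega, AddSubmonoid.mem_closure_singleton.2 ⟨k, ?_⟩⟩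
      rw [smul_eq_mul]
      omega

end Pool.Agent.LibCov74
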