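import Pool.Agent.LibCov74.C1b
import Pool.Agent.LibCov74.C1c
import Pool.Agent.LibCov74.C1d
import Pool.Agent.LibCov74.C2
import Pool.Agent.LibTP76.P2
import Pool.Agent.LibCov74.C1a

/-!
# Trees whose labels are lcm's
-/

set_option autoImplicit false

namespace Pool.Agent.LibCov74

open Finset
open Pool.Agent.LibVol74 (HS)
open Pool.Agent.LibTP76 (CI Pres Over Conn Atom)

variable {ι κ : Type} [DecidableEq ι] [DecidableEq κ]

theorem C3a_union (g : ι → ℕ) (X₁ X₂ : Finset ι) :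
    Mon g (X₁ ∪ X₂) = Mon g X₁ ⊔ Mon g X₂ := by
  unfold Mon
  rw [Finset.coe_union, Set.image_union, AddSubmonoid.closure_union]

theorem C3a_single (g : ι → ℕ) (x : ι) : Mon g {x} = AddSubmonoid.closure {g x} := by
  unfold Mon
  rw [Finset.coe_singleton, Set.image_singleton]

/-- induction on the tree with `HS_single` and `HS_glue` (`Mon g (X₁ ∪ X₂) = Mon g X₁ ⊔ Mon g X₂`) -/
theorem LTr.hs {g : ι → ℕ} {b : κ → ℕ} (hg : ∀ i, 0 < g i) (hb : ∀ j, 0 < b j) {X : Finset ι}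
    {Y : Finset κ} (h : LTr g b X Y) :
    HS (Mon g X) * ∏ i ∈ X, (1 - (PowerSeries.X : PowerSeries ℤ) ^ g i) =
      ∏ j ∈ Y, (1 - (PowerSeries.X : PowerSeries ℤ) ^ b j) := by
  induction h with
  | leaf x =>
    rw [Finset.prod_singleton, Finset.prod_empty, C3a_single]
    exact HS_single (g x) (hg x)
  | node j X₁ X₂ Y₁ Y₂ hX hY hj1 hj2 hb1 hb2 hl _ _ ih1 ih2 =>
    have h1 := HS_glue (Mon g X₁) (Mon g X₂) (X₁.gcd g) (X₂.gcd g)
      (fun a ha => gcd_dvd_of_mem_Mon g X₁ ha) (fun a ha => gcd_dvd_of_mem_Mon g X₂ ha)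
      (hl ▸ hb j) (hl ▸ hb1) (hl ▸ hb2)
    rw [← hl] at h1
    have hj : j ∉ Y₁ ∪ Y₂ := fun h => (Finset.mem_union.1 h).elim hj1 hj2
    rw [C3a_union, h1, Finset.prod_union hX, Finset.prod_insert hj, Finset.prod_union hY, ← ih1,
      ← ih2]
    ring

end Pool.Agent.LibCov74
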