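import Pool.Agent.LibCov74.C1b
import Pool.Agent.LibCov74.C1c
import Pool.Agent.LibCov74.C1d
import Pool.Agent.LibCov74.C2
import Pool.Agent.LibTP76.P2
import Pool.Agent.LibCov74.C1a

/-!
# Trees whose labels are lcm's
-/

set_option autoImplicit false

namespace Pool.Agent.LibCov74

open Finset
open Pool.Agent.LibVol74 (HS)
open Pool.Agent.LibTP76 (CI Pres Over Conn Atom)

variable {ι κ : Type} [DecidableEq ι] [DecidableEq κ]

theorem C3b_mono {R R' : Finset (Multiset ℕ × Multiset ℕ)} (h : R ⊆ R') {A B : Multiset ℕ}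
    (hc : Conn R A B) : Conn R' A B :=
  LibTP76.conn_map id (fun _ _ => rfl) (fun _ hr => LibTP76.Conn.of_mem (h hr)) hc

theorem C3b_nsmul {R : Finset (Multiset ℕ × Multiset ℕ)} {U V : Multiset ℕ}
    (h : (U, V) ∈ R) (k : ℕ) : Conn R (k • U) (k • V) := by
  induction k with
  | zero =>
    rw [zero_nsmul, zero_nsmul]
    exact LibTP76.Conn.refl _ _
  | succ k ih =>
    rw [succ_nsmul, succ_nsmul]
    have h1 := ih.add U
    have h2 := (LibTP76.Conn.of_mem h).add (k • V)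
    rw [add_comm U, add_comm V] at h2
    exact h1.trans h2

theorem C3b_over {G : Finset ℕ} {A B : Multiset ℕ} (hA : Over G A) (hB : Over G B) :
    Over G (A + B) := fun a ha => (Multiset.mem_add.1 ha).elim (hA a) (hB a)

theorem C3b_key {G₁ G₂ : Finset ℕ} {R₁ R₂ R : Finset (Multiset ℕ × Multiset ℕ)}
    (hP₁ : Pres G₁ R₁) (hP₂ : Pres G₂ R₂) (h1 : R₁ ⊆ R) (h2 : R₂ ⊆ R) {U V : Multiset ℕ}
    (hUV : (U, V) ∈ R) (hU : Over G₁ U) (hV : Over G₂ V) {α γ : ℕ}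
    (hUs : U.sum = Nat.lcm α γ) (hVs : V.sum = Nat.lcm α γ)
    (hα : ∀ M, Over G₁ M → α ∣ M.sum) (hγ : ∀ M, Over G₂ M → γ ∣ M.sum)
    {A₁ A₂ B₁ B₂ : Multiset ℕ} (hA₁ : Over G₁ A₁) (hA₂ : Over G₂ A₂) (hB₁ : Over G₁ B₁)
    (hB₂ : Over G₂ B₂) (hs : A₁.sum + A₂.sum = B₁.sum + B₂.sum) (hle : B₁.sum ≤ A₁.sum) :
    Conn R (A₁ + A₂) (B₁ + B₂) := by
  have e1 : α ∣ A₁.sum - B₁.sum := Nat.dvd_sub (hα _ hA₁) (hα _ hB₁)
  have e2 : γ ∣ A₁.sum - B₁.sum := by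
    have e : A₁.sum - B₁.sum = B₂.sum - A₂.sum := by omega
    rw [e]
    exact Nat.dvd_sub (hγ _ hB₂) (hγ _ hA₂)
  obtain ⟨k, hk⟩ := Nat.lcm_dvd e1 e2
  have hkU : Over G₁ (k • U) := fun a ha => hU a (Multiset.mem_of_mem_nsmul ha)
  have hkV : Over G₂ (k • V) := fun a ha => hV a (Multiset.mem_of_mem_nsmul ha)
  have e3 : (k • U).sum = Nat.lcm α γ * k := by
    rw [Multiset.sum_nsmul, hUs, smul_eq_mul, mul_comm]
  have e4 : (k • V).sum = Nat.lcm α γ * k := by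
    rw [Multiset.sum_nsmul, hVs, smul_eq_mul, mul_comm]
  have c1 : Conn R A₁ (B₁ + k • U) := C3b_mono h1 (hP₁.gen _ _ hA₁ (C3b_over hB₁ hkU) (by
    rw [Multiset.sum_add, e3]
    omega))
  have c2 : Conn R (k • V + A₂) B₂ := C3b_mono h2 (hP₂.gen _ _ (C3b_over hkV hA₂) hB₂ (by
    rw [Multiset.sum_add, e4]
    omega))
  have c3 := c1.add A₂
  have c4 := (C3b_nsmul hUV k).add (B₁ + A₂)
  have c5 := c2.add B₁
  have f1 : B₁ + k • U + A₂ = k • U + (B₁ + A₂) := by abel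
  have f2 : k • V + A₂ + B₁ = k • V + (B₁ + A₂) := by abel
  rw [f1] at c3
  rw [f2, add_comm B₂ B₁] at c5
  exact (c3.trans c4).trans c5

/-- Gluing of complete intersections. `ci_atoms` (LibTP76.P2) gives presentations `(G₁, R₁)`, `(G₂, R₂)` on the
atoms. The atoms are disjoint: a common atom `x` is divisible by `d = lcm (α, γ)` and `d ∈ A`, so `x = d`
(an atom which is a multiple of `d ∈ A`, `d > 0`), excluded by `hnat`. Let `U` be a multiset over `G₁`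
and `V` one over `G₂`, both of sum `d`. Then `R₁ ∪ R₂ ∪ {(U, V)}` is a presentation for `G₁ ∪ G₂`:
two multisets over `G₁ ∪ G₂` with the same sum are `A₁ + A₂`, `B₁ + B₂` with `A₁, B₁` over `G₁`, `A₂, B₂`
over `G₂`; `A₁.sum - B₁.sum = B₂.sum - A₂.sum` is a multiple `k d`, by symmetry `k ≥ 0`; then `A₁` is
connected to `B₁ + k U`, and `k V + A₂` to `B₂`. The number of relations is
`≤ R₁.card + R₂.card + 1 ≤ G₁.card - 1 + G₂.card - 1 + 1`. -/
theorem ci_glue (A C : AddSubmonoid ℕ) (α γ : ℕ) (hA : ∀ a ∈ A, α ∣ a) (hC : ∀ c ∈ C, γ ∣ c)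
    (hd : 0 < Nat.lcm α γ) (hdA : Nat.lcm α γ ∈ A) (hdC : Nat.lcm α γ ∈ C)
    (hnat : ¬ Atom A (Nat.lcm α γ)) (hciA : CI A) (hciC : CI C) : CI (A ⊔ C) := by
  classical
  obtain ⟨G₁, R₁, hG₁, hp₁, hcl₁, hP₁, hc₁⟩ := LibTP76.ci_atoms A hciA
  obtain ⟨G₂, R₂, hG₂, hp₂, hcl₂, hP₂, hc₂⟩ := LibTP76.ci_atoms C hciC
  obtain ⟨U, hU, hUs⟩ := LibTP76.exists_multiset G₁ _ (hcl₁.symm ▸ hdA)
  obtain ⟨V, hV, hVs⟩ := LibTP76.exists_multiset G₂ _ (hcl₂.symm ▸ hdC)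
  have hα : ∀ M, Over G₁ M → α ∣ M.sum := fun M hM =>
    hA _ (hcl₁ ▸ LibTP76.sum_mem_of_over G₁ M hM)
  have hγ : ∀ M, Over G₂ M → γ ∣ M.sum := fun M hM =>
    hC _ (hcl₂ ▸ LibTP76.sum_mem_of_over G₂ M hM)
  have hdisj : Disjoint G₁ G₂ := by
    rw [Finset.disjoint_left]
    intro x hx₁ hx₂
    have a1 := (hG₁ x).1 hx₁
    have a2 := (hG₂ x).1 hx₂
    obtain ⟨k, hk⟩ := Nat.lcm_dvd (hA x a1.1) (hC x a2.1)
    rcases k with _ | k
    · exact a1.2.1 (by rw [hk, mul_zero])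
    · have e : Nat.lcm α γ * (k + 1) = Nat.lcm α γ + k * Nat.lcm α γ := by ring
      rw [e] at hk
      have hkA : k * Nat.lcm α γ ∈ A := by
        have := A.nsmul_mem hdA k
        rwa [smul_eq_mul] at this
      rcases a1.2.2 _ hdA _ hkA hk.symm with h | h
      · omega
      · rw [h, add_zero] at hk
        exact hnat (hk ▸ a1)
  refine ⟨G₁ ∪ G₂, insert (U, V) (R₁ ∪ R₂), ?_, ?_, ⟨?_, ?_, ?_⟩, ?_⟩
  · intro g hg
    rcases Finset.mem_union.1 hg with h | h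
    · exact hp₁ g h
    · exact hp₂ g h
  · rw [Finset.coe_union, AddSubmonoid.closure_union, hcl₁, hcl₂]
  · have o1 : ∀ M, Over G₁ M → Over (G₁ ∪ G₂) M := fun M hM a ha =>
      Finset.mem_union_left _ (hM a ha)
    have o2 : ∀ M, Over G₂ M → Over (G₁ ∪ G₂) M := fun M hM a ha =>
      Finset.mem_union_right _ (hM a ha)
    intro r hr
    rcases Finset.mem_insert.1 hr with h | h
    · rw [h]
      exact ⟨o1 _ hU, o2 _ hV⟩
    · rcases Finset.mem_union.1 h with h | h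
      · exact ⟨o1 _ (hP₁.ov r h).1, o1 _ (hP₁.ov r h).2⟩
      · exact ⟨o2 _ (hP₂.ov r h).1, o2 _ (hP₂.ov r h).2⟩
  · intro r hr
    rcases Finset.mem_insert.1 hr with h | h
    · rw [h]
      exact hUs.trans hVs.symm
    · rcases Finset.mem_union.1 h with h | h
      · exact hP₁.bal r h
      · exact hP₂.bal r h
  · intro A' B' hA' hB' hs
    have hsplit : ∀ M : Multiset ℕ, Over (G₁ ∪ G₂) M →
        ∃ M₁ M₂, Over G₁ M₁ ∧ Over G₂ M₂ ∧ M = M₁ + M₂ := by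
      intro M hM
      refine ⟨M.filter (· ∈ G₁), M.filter (fun a => ¬ a ∈ G₁), ?_, ?_, ?_⟩
      · intro a ha
        exact (Multiset.mem_filter.1 ha).2
      · intro a ha
        have h := Multiset.mem_filter.1 ha
        rcases Finset.mem_union.1 (hM a h.1) with h' | h'
        · exact absurd h' h.2
        · exact h'
      · exact (Multiset.filter_add_not _ M).symm
    obtain ⟨A₁, A₂, hA₁, hA₂, rfl⟩ := hsplit A' hA'
    obtain ⟨B₁, B₂, hB₁, hB₂, rfl⟩ := hsplit B' hB'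
    rw [Multiset.sum_add, Multiset.sum_add] at hs
    have i1 : R₁ ⊆ insert (U, V) (R₁ ∪ R₂) := fun r hr =>
      Finset.mem_insert_of_mem (Finset.mem_union_left _ hr)
    have i2 : R₂ ⊆ insert (U, V) (R₁ ∪ R₂) := fun r hr =>
      Finset.mem_insert_of_mem (Finset.mem_union_right _ hr)
    have i3 : (U, V) ∈ insert (U, V) (R₁ ∪ R₂) := Finset.mem_insert_self _ _
    rcases le_total B₁.sum A₁.sum with h | h
    · exact C3b_key hP₁ hP₂ i1 i2 i3 hU hV hUs hVs hα hγ hA₁ hA₂ hB₁ hB₂ hs h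
    · exact (C3b_key hP₁ hP₂ i1 i2 i3 hU hV hUs hVs hα hγ hB₁ hB₂ hA₁ hA₂ hs.symm h).symm
  · rw [Finset.card_union_of_disjoint hdisj]
    have h1 := Finset.card_insert_le (U, V) (R₁ ∪ R₂)
    have h2 := Finset.card_union_le R₁ R₂
    omega

end Pool.Agent.LibCov74
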