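import Pool.Agent.LibCov74.C1b
import Pool.Agent.LibCov74.C1c
import Pool.Agent.LibCov74.C1d
import Pool.Agent.LibCov74.C2
import Pool.Agent.LibTP76.P2
import Pool.Agent.LibCov74.C3b

/-!
# Trees whose labels are lcm's
-/

set_option autoImplicit false

namespace Pool.Agent.LibCov74

open Finset
open Pool.Agent.LibVol74 (HS)
open Pool.Agent.LibTP76 (CI Pres Over Conn Atom)

variable {ι κ : Type} [DecidableEq ι] [DecidableEq κ]

theorem ci_single (m : ℕ) (hm : 0 < m) : CI (AddSubmonoid.closure {m}) := by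
  refine ⟨{m}, ∅, fun g hg => by rw [Finset.mem_singleton.1 hg]; exact hm, by
    rw [Finset.coe_singleton], ⟨fun r hr => by simp at hr, fun r hr => by simp at hr, ?_⟩, by simp⟩
  intro A B hA hB hAB
  have h1 : ∀ C : Multiset ℕ, Over {m} C → C = Multiset.replicate C.card m := fun C hC =>
    Multiset.eq_replicate_card.2 fun a ha => Finset.mem_singleton.1 (hC a ha)
  have h2 : A.card = B.card := by
    rw [h1 A hA, h1 B hB, Multiset.sum_replicate, Multiset.sum_replicate, smul_eq_mul,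
      smul_eq_mul] at hAB
    exact Nat.eq_of_mul_eq_mul_right hm hAB
  have h3 : A = B := by rw [h1 A hA, h1 B hB, h2]
  rw [h3]
  exact Relation.ReflTransGen.refl

/-- the atoms of `⟨X⟩` are among the `g i`, `i ∈ X` -/
theorem atom_mem {g : ι → ℕ} {X : Finset ι} {x : ℕ} (h : Atom (Mon g X) x) : ∃ i ∈ X, g i = x := by
  have h1 : ∀ n ∈ Mon g X, n = 0 ∨ (∃ i ∈ X, g i = n) ∨
      ∃ b ∈ Mon g X, ∃ c ∈ Mon g X, b ≠ 0 ∧ c ≠ 0 ∧ b + c = n := by
    intro n hn
    unfold Mon at hn ⊢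
    induction hn using AddSubmonoid.closure_induction with
    | mem y hy =>
      obtain ⟨i, hi, rfl⟩ := hy
      exact Or.inr (Or.inl ⟨i, hi, rfl⟩)
    | zero => exact Or.inl rfl
    | add a b ha hb iha ihb =>
      by_cases ha0 : a = 0
      · rw [ha0, zero_add]
        exact ihb
      · by_cases hb0 : b = 0
        · rw [hb0, add_zero]
          exact iha
        · exact Or.inr (Or.inr ⟨a, ha, b, hb, ha0, hb0, rfl⟩)
  rcases h1 x h.1 with h2 | h2 | ⟨b, hb, c, hc, hb0, hc0, hbc⟩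
  · exact absurd h2 h.2.1
  · exact h2
  · rcases h.2.2 b hb c hc hbc with h3 | h3
    · exact absurd h3 hb0
    · exact absurd h3 hc0

/-- iterated gluing -/
theorem LTr.ci {g : ι → ℕ} {b : κ → ℕ} (hg : ∀ i, 0 < g i) (hb : ∀ j, 0 < b j)
    (hdisj : ∀ i j, b j ≠ g i) {X : Finset ι} {Y : Finset κ} (h : LTr g b X Y) :
    CI (Mon g X) := by
  induction h with
  | leaf x =>
    have h1 : Mon g {x} = AddSubmonoid.closure {g x} := by
      unfold Mon
      rw [Finset.coe_singleton, Set.image_singleton]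
    rw [h1]
    exact ci_single _ (hg x)
  | node j X₁ X₂ Y₁ Y₂ _ _ _ _ h1 h2 hl _ _ ih₁ ih₂ =>
    have hU : Mon g (X₁ ∪ X₂) = Mon g X₁ ⊔ Mon g X₂ := by
      unfold Mon
      rw [Finset.coe_union, Set.image_union, AddSubmonoid.closure_union]
    rw [hU]
    refine ci_glue (Mon g X₁) (Mon g X₂) (X₁.gcd g) (X₂.gcd g)
      (fun a ha => gcd_dvd_of_mem_Mon g X₁ ha) (fun c hc => gcd_dvd_of_mem_Mon g X₂ hc) ?_ ?_ ?_ ?_
      ih₁ ih₂
    · rw [← hl]; exact hb j
    · rw [← hl]; exact h1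
    · rw [← hl]; exact h2
    · rw [← hl]
      intro hat
      obtain ⟨i, -, hi⟩ := atom_mem hat
      exact hdisj i j hi.symm

end Pool.Agent.LibCov74
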