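import Pool.Agent.LibCov74.A2

/-!
# Exponents are local (LU)

Let `Z` be a set of generators; call `n : ℕ` pure if no generator outside `Z` touches it
(`∀ i ∉ Z, ¬ Tch i n`; `n` need not be in `S`). If `n - m ∈ S` and `n` is pure then `m` is pure.
-/

set_option autoImplicit false

namespace Pool.Agent.LibCov74

open Finset
open Pool.Agent.LibVol74 (HS)

variable {ι κ : Type} [Fintype ι] [Fintype κ]

theorem L1a_coeff (F : PowerSeries ℤ) (a m : ℕ) :
    PowerSeries.coeff m (F * (1 - (PowerSeries.X : PowerSeries ℤ) ^ a)) =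
      PowerSeries.coeff m F - if a ≤ m then PowerSeries.coeff (m - a) F else 0 := by
  rw [mul_sub, mul_one, map_sub, PowerSeries.coeff_mul_X_pow']

theorem L1a_HS (T : AddSubmonoid ℕ) (m : ℕ) [Decidable (m ∈ T)] :
    PowerSeries.coeff m (HS T) = if m ∈ T then 1 else 0 := by
  rw [HS, PowerSeries.coeff_mk]
  split_ifs <;> rfl

/-- the products are supported in the semigroup -/
theorem L1a_supp (D : Dt ι κ) (W : Finset ι) : ∀ m : ℕ, m ∉ D.S →
    PowerSeries.coeff m (HS D.S * ∏ i ∈ W, (1 - (PowerSeries.X : PowerSeries ℤ) ^ D.g i)) = 0 := by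
  classical
  induction W using Finset.induction_on with
  | empty =>
    intro m hm
    rw [Finset.prod_empty, mul_one, L1a_HS, if_neg hm]
  | insert a W ha ih =>
    intro m hm
    rw [Finset.prod_insert ha, mul_comm (1 - _) _, ← mul_assoc, L1a_coeff, ih m hm, zero_sub,
      neg_eq_zero]
    split_ifs with h
    · apply ih
      intro h1
      apply hm
      have h2 := D.S.add_mem h1 (g_mem D a)
      rwa [Nat.sub_add_cancel h] at h2
    · rfl

/-- generators outside `Z` can be removed -/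
theorem L1a_rem (D : Dt ι κ) [DecidableEq ι] (Z W : Finset ι) (hd : Disjoint Z W) : ∀ m : ℕ,
    (∀ i, i ∉ Z → ¬ D.Tch i m) →
    PowerSeries.coeff m (HS D.S * ∏ i ∈ Z ∪ W, (1 - (PowerSeries.X : PowerSeries ℤ) ^ D.g i)) =
      PowerSeries.coeff m (HS D.S * ∏ i ∈ Z, (1 - (PowerSeries.X : PowerSeries ℤ) ^ D.g i)) := by
  induction W using Finset.induction_on with
  | empty =>
    intro m _
    rw [Finset.union_empty]
  | insert a W ha ih =>
    intro m hm
    rw [Finset.disjoint_insert_right] at hd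
    have ha' : a ∉ Z ∪ W := by
      rw [Finset.mem_union, not_or]
      exact ⟨hd.1, ha⟩
    rw [Finset.union_insert, Finset.prod_insert ha', mul_comm (1 - _) _, ← mul_assoc, L1a_coeff,
      ih hd.2 m hm, sub_eq_self]
    split_ifs with h
    · apply L1a_supp
      intro h1
      exact hm a hd.1 ⟨m - D.g a, h1, (Nat.sub_add_cancel h).symm⟩
    · rfl

/-- the semigroup may be replaced by the part generated by `Z` -/
theorem L1a_Z (D : Dt ι κ) [DecidableEq ι] (Z V : Finset ι) : V ⊆ Z → ∀ m : ℕ,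
    (∀ i, i ∉ Z → ¬ D.Tch i m) →
    PowerSeries.coeff m (HS D.S * ∏ i ∈ V, (1 - (PowerSeries.X : PowerSeries ℤ) ^ D.g i)) =
      PowerSeries.coeff m (HS (Mon D.g Z) *
        ∏ i ∈ V, (1 - (PowerSeries.X : PowerSeries ℤ) ^ D.g i)) := by
  classical
  induction V using Finset.induction_on with
  | empty =>
    intro _ m hm
    rw [Finset.prod_empty, mul_one, mul_one, L1a_HS, L1a_HS]
    by_cases h : m ∈ D.S
    · rw [if_pos h, if_pos (mem_Mon_of_pure D Z h hm)]
    · rw [if_neg h, if_neg (fun h' => h (Mon_le D Z h'))]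
  | insert a V ha ih =>
    intro hV m hm
    have hV' : V ⊆ Z := (Finset.subset_insert _ _).trans hV
    rw [Finset.prod_insert ha, mul_comm (1 - _) _, ← mul_assoc, ← mul_assoc, L1a_coeff, L1a_coeff,
      ih hV' m hm]
    congr 1
    split_ifs with h
    · apply ih hV'
      rintro i hi ⟨s, hs, hs'⟩
      apply hm i hi
      exact ⟨s + D.g a, D.S.add_mem hs (g_mem D a), by omega⟩
    · rfl

/-- At a pure `n` the coefficients of `∏ (1 - z^{b j}) = HS S ∏_i (1 - z^{g i})` and of
`HS ⟨Z⟩ ∏_{i ∈ Z} (1 - z^{g i})` agree: the first is `∑_W (-1)^#W [n - ΣW ∈ S]` over the sets `W` of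
generators (`Finset.prod_one_sub` / `Finset.prod_sub`...), and a `W` with an element `i ∉ Z` contributes
`0` (otherwise `i` touches `n`); for `W ⊆ Z`, `n - ΣW ∈ S` is untouched by the generators outside `Z`,
so it is in `⟨Z⟩` (`mem_Mon_of_pure`). It may be easier to remove the generators outside `Z` one by one:
for `W` disjoint from `Z`, `coeff m (HS S ∏_{i ∈ Z ∪ W}) = coeff m (HS S ∏_{i ∈ Z})` for all pure `m`. -/
theorem coeff_pure (D : Dt ι κ) (Z : Finset ι) (n : ℕ) (hn : ∀ i, i ∉ Z → ¬ D.Tch i n) :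
    PowerSeries.coeff n (∏ j, (1 - (PowerSeries.X : PowerSeries ℤ) ^ D.b j)) =
      PowerSeries.coeff n (HS (Mon D.g Z) * ∏ i ∈ Z, (1 - (PowerSeries.X : PowerSeries ℤ) ^ D.g i)) := by
  classical
  rw [← D.H, ← L1a_Z D Z Z (Finset.Subset.refl _) n hn,
    ← L1a_rem D Z (Finset.univ \ Z) Finset.disjoint_sdiff n hn,
    Finset.union_sdiff_of_subset (Finset.subset_univ _)]

end Pool.Agent.LibCov74
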