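import Pool.Agent.LibCov74.A1

/-!
# Exponents are local (LU)

Let `Z` be a set of generators; call `n : ℕ` pure if no generator outside `Z` touches it
(`∀ i ∉ Z, ¬ Tch i n`; `n` need not be in `S`). If `n - m ∈ S` and `n` is pure then `m` is pure.
-/

set_option autoImplicit false

namespace Pool.Agent.LibCov74

open Finset
open Pool.Agent.LibVol74 (HS)

variable {ι κ : Type} [Fintype ι] [Fintype κ]

theorem L1b_coeff_mul (f : PowerSeries ℤ) (c n : ℕ) :
    PowerSeries.coeff n (f * (1 - (PowerSeries.X : PowerSeries ℤ) ^ c)) =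
      PowerSeries.coeff n f - if c ≤ n then PowerSeries.coeff (n - c) f else 0 := by
  rw [mul_sub, mul_one, map_sub, PowerSeries.coeff_mul_X_pow']

theorem L1b_coeff_prod {α : Type} [DecidableEq α] (m : ℕ) (hm : 0 < m) (a : α → ℕ) (X : Finset α) :
    (∀ i ∈ X, a i = m) → ∀ f : PowerSeries ℤ,
      PowerSeries.coeff m (f * ∏ i ∈ X, (1 - (PowerSeries.X : PowerSeries ℤ) ^ a i)) =
        PowerSeries.coeff m f - (X.card : ℤ) * PowerSeries.coeff 0 f := by
  induction X using Finset.induction_on with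
  | empty => intro _ f; simp
  | insert i X hi ih =>
    intro h f
    have h1 : a i = m := h i (Finset.mem_insert_self _ _)
    rw [Finset.prod_insert hi, ← mul_assoc,
      ih (fun j hj => h j (Finset.mem_insert_of_mem hj)), L1b_coeff_mul, L1b_coeff_mul,
      if_pos h1.le, if_neg (by omega : ¬ a i ≤ 0), sub_zero, h1, Nat.sub_self,
      Finset.card_insert_of_notMem hi]
    push_cast
    ring

theorem L1b_supp1 (S : AddSubmonoid ℕ) (a : ℕ) (ha : a ∈ S) (f : PowerSeries ℤ)
    (hf : ∀ n, n ∉ S → PowerSeries.coeff n f = 0) (n : ℕ) (hn : n ∉ S) :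
    PowerSeries.coeff n (f * (1 - (PowerSeries.X : PowerSeries ℤ) ^ a)) = 0 := by
  rw [L1b_coeff_mul, hf n hn]
  split_ifs with h1
  · rw [hf, sub_zero]
    intro h2
    apply hn
    have := S.add_mem h2 ha
    rwa [Nat.sub_add_cancel h1] at this
  · rw [sub_zero]

theorem L1b_supp {α : Type} [DecidableEq α] (S : AddSubmonoid ℕ) (a : α → ℕ) (X : Finset α) :
    (∀ i ∈ X, a i ∈ S) → ∀ f : PowerSeries ℤ, (∀ n, n ∉ S → PowerSeries.coeff n f = 0) →
      ∀ n, n ∉ S →
        PowerSeries.coeff n (f * ∏ i ∈ X, (1 - (PowerSeries.X : PowerSeries ℤ) ^ a i)) = 0 := by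
  induction X using Finset.induction_on with
  | empty => intro _ f hf n hn; simpa using hf n hn
  | insert i X hi ih =>
    intro h f hf n hn
    rw [Finset.prod_insert hi, ← mul_assoc]
    exact ih (fun j hj => h j (Finset.mem_insert_of_mem hj)) _
      (L1b_supp1 S (a i) (h i (Finset.mem_insert_self _ _)) f hf) n hn

theorem L1b_coeff_zero {α : Type} [DecidableEq α] (a : α → ℕ) (X : Finset α) :
    (∀ i ∈ X, 0 < a i) → ∀ f : PowerSeries ℤ,
      PowerSeries.coeff 0 (f * ∏ i ∈ X, (1 - (PowerSeries.X : PowerSeries ℤ) ^ a i)) =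
        PowerSeries.coeff 0 f := by
  induction X using Finset.induction_on with
  | empty => intro _ f; simp
  | insert i X hi ih =>
    intro h f
    have h1 := h i (Finset.mem_insert_self _ _)
    rw [Finset.prod_insert hi, ← mul_assoc,
      ih (fun j hj => h j (Finset.mem_insert_of_mem hj)), L1b_coeff_mul, if_neg (by omega), sub_zero]

/-- factors outside `L` or of large degree do not matter -/
theorem L1b_out {α : Type} [DecidableEq α] (S : AddSubmonoid ℕ) (L : Set ℕ)
    (hL : ∀ n ∈ L, ∀ m, (∃ s ∈ S, n = m + s) → m ∈ L) (N : ℕ) (a : α → ℕ) (X : Finset α) :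
    (∀ i ∈ X, a i ∈ S ∧ (a i ∉ L ∨ N < a i)) → ∀ f : PowerSeries ℤ,
      (∀ n, n ∉ S → PowerSeries.coeff n f = 0) → ∀ n ∈ L, n ≤ N →
        PowerSeries.coeff n (f * ∏ i ∈ X, (1 - (PowerSeries.X : PowerSeries ℤ) ^ a i)) =
          PowerSeries.coeff n f := by
  induction X using Finset.induction_on with
  | empty => intro _ f hf n hn _; simp
  | insert i X hi ih =>
    intro h f hf n hn hnN
    have h1 := h i (Finset.mem_insert_self _ _)
    rw [Finset.prod_insert hi, ← mul_assoc,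
      ih (fun j hj => h j (Finset.mem_insert_of_mem hj)) _ (L1b_supp1 S (a i) h1.1 f hf) n hn hnN,
      L1b_coeff_mul]
    split_ifs with h2
    · have h3 : a i ∉ L := by
        rcases h1.2 with h3 | h3
        · exact h3
        · omega
      rw [hf (n - a i), sub_zero]
      intro h4
      exact h3 (hL n hn (a i) ⟨n - a i, h4, by omega⟩)
    · rw [sub_zero]

/-- the coefficient at `n ∈ L` in terms of the smaller factors -/
theorem L1b_key {α : Type} [DecidableEq α] (S : AddSubmonoid ℕ) (L : Set ℕ)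
    (hL : ∀ n ∈ L, ∀ m, (∃ s ∈ S, n = m + s) → m ∈ L) (n : ℕ) (hn : n ∈ L) (h0 : 0 < n)
    (a : α → ℕ) (X : Finset α) (ha : ∀ i ∈ X, 0 < a i ∧ a i ∈ S) [DecidablePred (· ∈ L)] :
    PowerSeries.coeff n (∏ i ∈ X, (1 - (PowerSeries.X : PowerSeries ℤ) ^ a i)) =
      PowerSeries.coeff n (∏ i ∈ X.filter (fun i => a i ∈ L ∧ a i < n),
        (1 - (PowerSeries.X : PowerSeries ℤ) ^ a i)) - ((X.filter (fun i => a i = n)).card : ℤ) := by
  rw [← Finset.prod_filter_mul_prod_filter_not X (fun i => a i ∈ L ∧ a i < n),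
    ← Finset.prod_filter_mul_prod_filter_not (X.filter (fun i => ¬ (a i ∈ L ∧ a i < n)))
      (fun i => a i = n), ← mul_assoc]
  have hone : ∀ n, n ∉ S → PowerSeries.coeff n (1 : PowerSeries ℤ) = 0 := by
    intro n hn
    rw [PowerSeries.coeff_one, if_neg]
    intro h0
    exact hn (h0 ▸ S.zero_mem)
  set P := ∏ i ∈ X.filter (fun i => a i ∈ L ∧ a i < n), (1 - (PowerSeries.X : PowerSeries ℤ) ^ a i)
    with hP
  have hPS : ∀ n, n ∉ S → PowerSeries.coeff n P = 0 := by
    intro k hk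
    rw [hP, ← one_mul (∏ i ∈ _, _)]
    exact L1b_supp S a _ (fun i hi => (ha i (Finset.mem_filter.mp hi).1).2) 1 hone k hk
  have hP0 : PowerSeries.coeff 0 P = 1 := by
    rw [hP, ← one_mul (∏ i ∈ _, _),
      L1b_coeff_zero a _ (fun i hi => (ha i (Finset.mem_filter.mp hi).1).1) 1,
      PowerSeries.coeff_zero_one]
  rw [L1b_out S L hL n a _ ?_ _ ?_ n hn le_rfl, L1b_coeff_prod n h0 a _ ?_ P, hP0, mul_one]
  · congr 3
    ext i
    simp only [Finset.mem_filter]
    constructor
    · rintro ⟨⟨h1, -⟩, h2⟩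
      exact ⟨h1, h2⟩
    · rintro ⟨h1, h2⟩
      exact ⟨⟨h1, fun h3 => by omega⟩, h2⟩
  · intro i hi
    exact (Finset.mem_filter.mp hi).2
  · intro i hi
    obtain ⟨h1, h2⟩ := Finset.mem_filter.mp hi
    obtain ⟨h3, h4⟩ := Finset.mem_filter.mp h1
    refine ⟨(ha i h3).2, ?_⟩
    by_contra h5
    push Not at h5
    exact h4 ⟨h5.1, lt_of_le_of_ne h5.2 h2⟩
  · intro k hk
    exact L1b_supp S a _ (fun i hi =>
      (ha i (Finset.mem_filter.mp (Finset.mem_filter.mp hi).1).1).2) P hPS k hk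

/-- the product of the small factors by multiplicities -/
theorem L1b_fiber {α : Type} [DecidableEq α] (L : Set ℕ) (n : ℕ)
    (a : α → ℕ) (X : Finset α) (ha : ∀ i ∈ X, 0 < a i) [DecidablePred (· ∈ L)] :
    ∏ i ∈ X.filter (fun i => a i ∈ L ∧ a i < n), (1 - (PowerSeries.X : PowerSeries ℤ) ^ a i) =
      ∏ k ∈ (Finset.range n).filter (fun k => k ∈ L ∧ 0 < k),
        (1 - (PowerSeries.X : PowerSeries ℤ) ^ k) ^ (X.filter (fun i => a i = k)).card := by
  rw [← Finset.prod_fiberwise_of_maps_to (g := a)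
    (t := (Finset.range n).filter (fun k => k ∈ L ∧ 0 < k)) ?_]
  · refine Finset.prod_congr rfl fun k hk => ?_
    have hk' := Finset.mem_filter.mp hk
    have h1 : (X.filter (fun i => a i ∈ L ∧ a i < n)).filter (fun i => a i = k) =
        X.filter (fun i => a i = k) := by
      ext i
      simp only [Finset.mem_filter]
      constructor
      · rintro ⟨⟨h1, -⟩, h2⟩
        exact ⟨h1, h2⟩
      · rintro ⟨h1, h2⟩
        refine ⟨⟨h1, ?_⟩, h2⟩
        rw [h2]
        exact ⟨hk'.2.1, Finset.mem_range.mp hk'.1⟩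
    rw [h1, ← Finset.prod_const]
    refine Finset.prod_congr rfl fun i hi => ?_
    rw [(Finset.mem_filter.mp hi).2]
  · intro i hi
    obtain ⟨h1, h2, h3⟩ := Finset.mem_filter.mp hi
    exact Finset.mem_filter.mpr ⟨Finset.mem_range.mpr h3, h2, ha i h1⟩

/-- Two products `∏_{V} (1 - z^{d v})`, `∏_{V'} (1 - z^{d' v})` with all `d v, d' v ∈ S`, whose
coefficients agree at all `n` in a set `L` which is closed under divisors (`n ∈ L`, `n = m + s`,
`s ∈ S`, imply `m ∈ L`): then every `n ∈ L`, `n > 0`, occurs as often as a `d v` as as a `d' v`.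

Strong induction on `n`. `coeff n (∏_V) = ∑_{W ⊆ V, ΣW = n} (-1)^#W`. If `ΣW = n` then every `d v`, `v ∈ W`, is in
`L` and `≤ n` (`n = d v + (rest)`, the rest in `S`). So the coefficient is
`coeff n (∏_{v ∈ V, d v ∈ L, d v < n} (1 - z^{d v})) - #{v ∈ V | d v = n}`, and the first term is the same for
`V'` by induction (the multisets of the `d v ∈ L`, `0 < d v < n`, agree; `d v > 0` always). -/
theorem mult_eq {ν ν' : Type} (S : AddSubmonoid ℕ) (V : Finset ν) (d : ν → ℕ) (V' : Finset ν')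
    (d' : ν' → ℕ) (hd : ∀ v ∈ V, 0 < d v ∧ d v ∈ S) (hd' : ∀ v ∈ V', 0 < d' v ∧ d' v ∈ S)
    (L : Set ℕ) (hL : ∀ n ∈ L, ∀ m, (∃ s ∈ S, n = m + s) → m ∈ L)
    (h : ∀ n ∈ L, PowerSeries.coeff n (∏ v ∈ V, (1 - (PowerSeries.X : PowerSeries ℤ) ^ d v)) =
      PowerSeries.coeff n (∏ v ∈ V', (1 - (PowerSeries.X : PowerSeries ℤ) ^ d' v))) :
    ∀ n ∈ L, 0 < n → (V.filter (fun v => d v = n)).card = (V'.filter (fun v => d' v = n)).card := by
  classical
  intro n
  induction n using Nat.strong_induction_on with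
  | _ n ih =>
    intro hn h0
    have h1 := h n hn
    rw [L1b_key S L hL n hn h0 d V hd, L1b_key S L hL n hn h0 d' V' hd',
      L1b_fiber L n d V (fun v hv => (hd v hv).1), L1b_fiber L n d' V' (fun v hv => (hd' v hv).1)]
      at h1
    have h2 : ∏ k ∈ (Finset.range n).filter (fun k => k ∈ L ∧ 0 < k),
        (1 - (PowerSeries.X : PowerSeries ℤ) ^ k) ^ (V.filter (fun i => d i = k)).card =
        ∏ k ∈ (Finset.range n).filter (fun k => k ∈ L ∧ 0 < k),
        (1 - (PowerSeries.X : PowerSeries ℤ) ^ k) ^ (V'.filter (fun i => d' i = k)).card := by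
      refine Finset.prod_congr rfl fun k hk => ?_
      obtain ⟨h3, h4, h5⟩ := Finset.mem_filter.mp hk
      rw [ih k (Finset.mem_range.mp h3) h4 h5]
    rw [h2] at h1
    have h3 : ((V.filter (fun v => d v = n)).card : ℤ) = ((V'.filter (fun v => d' v = n)).card : ℤ) := by
      linarith
    exact_mod_cast h3

end Pool.Agent.LibCov74
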