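import Pool.Agent.LibCov74.A2
import Pool.Agent.LibCov74.L1a
import Pool.Agent.LibCov74.L1b

/-!
# Exponents are local (LU)

Let `Z` be a set of generators; call `n : ℕ` pure if no generator outside `Z` touches it
(`∀ i ∉ Z, ¬ Tch i n`; `n` need not be in `S`). If `n - m ∈ S` and `n` is pure then `m` is pure.
-/

set_option autoImplicit false

namespace Pool.Agent.LibCov74

open Finset
open Pool.Agent.LibVol74 (HS)

variable {ι κ : Type} [Fintype ι] [Fintype κ]

/-- (LU) if `⟨Z⟩` has a product formula with labels `d v` in `S`, then it has at least as many labels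
as there are pure labels of `S` in `Z` -/
theorem card_P_le (D : Dt ι κ) (Z : Finset ι) {ν : Type} (V : Finset ν) (d : ν → ℕ)
    (hd : ∀ v ∈ V, 0 < d v ∧ d v ∈ D.S)
    (h : HS (Mon D.g Z) * ∏ i ∈ Z, (1 - (PowerSeries.X : PowerSeries ℤ) ^ D.g i) =
      ∏ v ∈ V, (1 - (PowerSeries.X : PowerSeries ℤ) ^ d v)) : (D.P Z).card ≤ V.card := by
  classical
  have hL : ∀ n ∈ {n : ℕ | ∀ i, i ∉ Z → ¬ D.Tch i n}, ∀ m, (∃ s ∈ D.S, n = m + s) →
      m ∈ {n : ℕ | ∀ i, i ∉ Z → ¬ D.Tch i n} := by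
    rintro n hn m ⟨s, hs, rfl⟩ i hi hm
    exact hn i hi (tch_add D i hm hs)
  have key := mult_eq D.S (Finset.univ : Finset κ) D.b V d
    (fun j _ => ⟨D.bpos j, b_mem D j⟩) hd {n : ℕ | ∀ i, i ∉ Z → ¬ D.Tch i n} hL
    (fun n hn => by rw [coeff_pure D Z n hn, h])
  have h1 : (D.P Z).card = ∑ n ∈ (D.P Z).image D.b, ((D.P Z).filter (fun j => D.b j = n)).card :=
    Finset.card_eq_sum_card_image D.b (D.P Z)
  have h2 : ∀ n ∈ (D.P Z).image D.b, ((D.P Z).filter (fun j => D.b j = n)).card ≤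
      (V.filter (fun v => d v = n)).card := by
    intro n hn
    obtain ⟨j, hj, rfl⟩ := Finset.mem_image.1 hn
    rw [← key (D.b j) ((mem_P D Z j).1 hj) (D.bpos j)]
    exact Finset.card_le_card (Finset.filter_subset_filter _ (Finset.subset_univ _))
  rw [h1]
  refine (Finset.sum_le_sum h2).trans ?_
  rw [Finset.sum_card_fiberwise_eq_card_filter]
  exact Finset.card_filter_le _ _

end Pool.Agent.LibCov74
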