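import Pool.Agent.LibCov74.C3a
import Pool.Agent.LibCov74.C3c
import Pool.Agent.LibCov74.A3b
import Pool.Agent.LibCov74.L1c

/-!
# A tree on everything gives a complete intersection; trees on `Z` bound the pure labels
-/

set_option autoImplicit false

namespace Pool.Agent.LibCov74

open Finset
open Pool.Agent.LibTP76 (CI)

variable {ι κ : Type} [Fintype ι] [Fintype κ] [DecidableEq ι] [DecidableEq κ]

omit [Fintype ι] in
theorem D1_union (g : ι → ℕ) (X₁ X₂ : Finset ι) :
    Mon g (X₁ ∪ X₂) = Mon g X₁ ⊔ Mon g X₂ := by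
  unfold Mon
  rw [Finset.coe_union, Set.image_union, AddSubmonoid.closure_union]

omit [Fintype ι] [DecidableEq ι] in
theorem D1_single (g : ι → ℕ) (x : ι) : Mon g {x} = AddSubmonoid.closure {g x} := by
  unfold Mon
  rw [Finset.coe_singleton, Set.image_singleton]

/-- `gcd_one`, `prod_eq`, `NTr.ltr_of_prod_eq`, `LTr.ci`, `Mon_univ` -/
theorem ci_of_tree (D : Dt ι κ) (h : NTr D.g D.b Finset.univ Finset.univ) : CI D.S := by
  have h1 : LTr D.g D.b Finset.univ Finset.univ :=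
    h.ltr_of_prod_eq D.gpos D.bpos (by rw [gcd_one, one_mul, prod_eq])
  have h2 := h1.ci D.gpos D.bpos D.disj
  rwa [Mon_univ] at h2

/-- `LTr.hs` and `card_P_le`, `LTr.ntr.card` -/
theorem card_P_of_ltr (D : Dt ι κ) {Z : Finset ι} {J : Finset κ} (h : LTr D.g D.b Z J) :
    (D.P Z).card + 1 ≤ Z.card := by
  have h1 := card_P_le D Z J D.b (fun v _ => ⟨D.bpos v, b_mem D v⟩) (h.hs D.gpos D.bpos)
  have h2 := h.ntr.card
  omega

/-- one generator: no pure labels (`LTr.leaf`) -/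
theorem card_P_one (D : Dt ι κ) (i : ι) : D.P {i} = ∅ := by
  have h1 := card_P_of_ltr D (LTr.leaf (g := D.g) (b := D.b) i)
  rw [Finset.card_singleton] at h1
  exact Finset.card_eq_zero.1 (by omega)

/-- two generators: at most one pure label. `HS_glue` for `⟨g i⟩`, `⟨g k⟩` gives
`HS ⟨g i, g k⟩ (1 - z^{g i}) (1 - z^{g k}) = 1 - z^{lcm}`; use `card_P_le` with one label. -/
theorem card_P_two (D : Dt ι κ) {i k : ι} (h : i ≠ k) : (D.P {i, k}).card ≤ 1 := by
  have hdv : ∀ (n : ℕ) (a : ℕ), a ∈ AddSubmonoid.closure ({n} : Set ℕ) ↔ n ∣ a := by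
    intro n a
    rw [AddSubmonoid.mem_closure_singleton]
    constructor
    · rintro ⟨c, rfl⟩
      exact ⟨c, by rw [smul_eq_mul, mul_comm]⟩
    · rintro ⟨c, rfl⟩
      exact ⟨c, by rw [smul_eq_mul, mul_comm]⟩
  have hl : 0 < Nat.lcm (D.g i) (D.g k) := Nat.lcm_pos (D.gpos i) (D.gpos k)
  have h1 := HS_glue (AddSubmonoid.closure {D.g i}) (AddSubmonoid.closure {D.g k}) (D.g i) (D.g k)
    (fun a ha => (hdv _ _).1 ha) (fun a ha => (hdv _ _).1 ha) hl
    ((hdv _ _).2 (Nat.dvd_lcm_left _ _)) ((hdv _ _).2 (Nat.dvd_lcm_right _ _))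
  have h2 : Mon D.g {i, k} = AddSubmonoid.closure {D.g i} ⊔ AddSubmonoid.closure {D.g k} := by
    have e : ({i, k} : Finset ι) = {i} ∪ {k} := rfl
    rw [e, D1_union, D1_single, D1_single]
  have h3 : AddSubmonoid.closure {D.g i} ≤ D.S := by
    rw [← D1_single]
    exact Mon_le D _
  have h4 := card_P_le D {i, k} (Finset.univ : Finset Unit) (fun _ => Nat.lcm (D.g i) (D.g k))
    (fun _ _ => ⟨hl, h3 ((hdv _ _).2 (Nat.dvd_lcm_left _ _))⟩) (by
      rw [h2, h1, Finset.prod_pair h, Finset.univ_unique, Finset.prod_singleton]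
      have e1 := HS_single (D.g i) (D.gpos i)
      have e2 := HS_single (D.g k) (D.gpos k)
      linear_combination (1 - (PowerSeries.X : PowerSeries ℤ) ^ Nat.lcm (D.g i) (D.g k)) *
        (Pool.Agent.LibVol74.HS (AddSubmonoid.closure {D.g k}) * (1 - (PowerSeries.X : PowerSeries ℤ) ^ D.g k)) * e1 +
        (1 - (PowerSeries.X : PowerSeries ℤ) ^ Nat.lcm (D.g i) (D.g k)) * e2)
  simpa using h4

end Pool.Agent.LibCov74
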