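import Mathlib
import Pool.Agent.LibVol74.Defs
import Pool.Agent.LibTP76.Defs

/-!
# Covering theory of cyclotomic numerical semigroups: definitions

`Dt ι κ`: a numerical semigroup `S` generated by `g i` (`i : ι`), with
`H_S(z) ∏ (1 - z^{g i}) = ∏ (1 - z^{b j})` (`j : κ`), `#κ + 1 = #ι`, and `b j ≠ g i` for all `i, j`.
The generators `g i` need not be distinct or minimal. The `b j` are called labels.
-/

set_option autoImplicit false

namespace Pool.Agent.LibCov74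

open scoped BigOperators
open Pool.Agent.LibVol74 (HS)

/-- the data -/
structure Dt (ι κ : Type) [Fintype ι] [Fintype κ] where
  /-- the semigroup -/
  S : AddSubmonoid ℕ
  fin : ((S : Set ℕ)ᶜ).Finite
  /-- denominators -/
  g : ι → ℕ
  /-- labels -/
  b : κ → ℕ
  gpos : ∀ i, 0 < g i
  bpos : ∀ j, 0 < b j
  gen : AddSubmonoid.closure (Set.range g) = S
  card : Fintype.card κ + 1 = Fintype.card ι
  disj : ∀ i j, b j ≠ g i
  H : HS S * ∏ i, (1 - (PowerSeries.X : PowerSeries ℤ) ^ g i) =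
      ∏ j, (1 - (PowerSeries.X : PowerSeries ℤ) ^ b j)

/-- the submonoid generated by the `g i`, `i ∈ X` -/
def Mon {ι : Type} (g : ι → ℕ) (X : Finset ι) : AddSubmonoid ℕ :=
  AddSubmonoid.closure (g '' (X : Set ι))

/-- the number of `x ∈ X` with `n ∣ a x` -/
def cnt {α : Type} (n : ℕ) (X : Finset α) (a : α → ℕ) : ℕ := (X.filter (fun x => n ∣ a x)).card

/-- the integer `n` is (the cast of) an element of `T` -/
def InZ (T : AddSubmonoid ℕ) (n : ℤ) : Prop := ∃ s ∈ T, (s : ℤ) = n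

section
variable {ι κ : Type} [Fintype ι] [Fintype κ]

/-- `ΣY - ΣX ∈ S` -/
def Dt.Good (D : Dt ι κ) (X : Finset ι) (Y : Finset κ) : Prop :=
  ∃ s ∈ D.S, ∑ j ∈ Y, D.b j = s + ∑ i ∈ X, D.g i

/-- `n - g i ∈ S` -/
def Dt.Tch (D : Dt ι κ) (i : ι) (n : ℕ) : Prop := ∃ s ∈ D.S, n = s + D.g i

open Classical in
/-- the labels which are pure in `Z`: touched by no generator outside `Z` -/
noncomputable def Dt.P (D : Dt ι κ) (Z : Finset ι) : Finset κ :=
  Finset.univ.filter (fun j => ∀ i, i ∉ Z → ¬ D.Tch i (D.b j))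

open Classical in
/-- the supports of the factorizations of the label `b j` -/
def Dt.F (D : Dt ι κ) (j : κ) : Set (Finset ι) :=
  {u | ∃ x : ι → ℕ, ∑ i, x i * D.g i = D.b j ∧ u = Finset.univ.filter (fun i => x i ≠ 0)}

end

section
variable {ι κ : Type} [DecidableEq ι] [DecidableEq κ]

/-- combinatorial trees: leaves `X`, inner nodes `Y`, the node `b` with left leaves `X₁` and right
leaves `X₂` has a value in `X₁` and a value in `X₂` -/
inductive Tr (F : κ → Set (Finset ι)) : Finset ι → Finset κ → Prop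
  | leaf (x : ι) : Tr F {x} ∅
  | node (b : κ) (X₁ X₂ : Finset ι) (Y₁ Y₂ : Finset κ) (u v : Finset ι) :
      Disjoint X₁ X₂ → Disjoint Y₁ Y₂ → b ∉ Y₁ → b ∉ Y₂ → u ∈ F b → v ∈ F b → u ⊆ X₁ → v ⊆ X₂ →
      Tr F X₁ Y₁ → Tr F X₂ Y₂ → Tr F (X₁ ∪ X₂) (insert b (Y₁ ∪ Y₂))

/-- numerical trees: `b j ∈ ⟨X₁⟩ ∩ ⟨X₂⟩` at every node -/
inductive NTr (g : ι → ℕ) (b : κ → ℕ) : Finset ι → Finset κ → Prop
  | leaf (x : ι) : NTr g b {x} ∅
  | node (j : κ) (X₁ X₂ : Finset ι) (Y₁ Y₂ : Finset κ) :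
      Disjoint X₁ X₂ → Disjoint Y₁ Y₂ → j ∉ Y₁ → j ∉ Y₂ → b j ∈ Mon g X₁ → b j ∈ Mon g X₂ →
      NTr g b X₁ Y₁ → NTr g b X₂ Y₂ → NTr g b (X₁ ∪ X₂) (insert j (Y₁ ∪ Y₂))

/-- numerical trees with `b j = lcm (gcd X₁, gcd X₂)` at every node -/
inductive LTr (g : ι → ℕ) (b : κ → ℕ) : Finset ι → Finset κ → Prop
  | leaf (x : ι) : LTr g b {x} ∅
  | node (j : κ) (X₁ X₂ : Finset ι) (Y₁ Y₂ : Finset κ) :
      Disjoint X₁ X₂ → Disjoint Y₁ Y₂ → j ∉ Y₁ → j ∉ Y₂ → b j ∈ Mon g X₁ → b j ∈ Mon g X₂ →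
      b j = Nat.lcm (X₁.gcd g) (X₂.gcd g) →
      LTr g b X₁ Y₁ → LTr g b X₂ Y₂ → LTr g b (X₁ ∪ X₂) (insert j (Y₁ ∪ Y₂))

end

section
variable {ι κ : Type}

open Classical in
/-- the part of `X` met by values of labels in `J` -/
noncomputable def Nb (F : κ → Set (Finset ι)) (X : Finset ι) (J : Finset κ) : Finset ι :=
  X.filter (fun x => ∃ j ∈ J, ∃ u ∈ F j, x ∈ u)

/-- the choice `c` of values covers `W` -/
def Cov (J : Finset κ) (c : κ → Finset ι) (W : Finset ι) : Prop := ∀ x ∈ W, ∃ j ∈ J, x ∈ c j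

/-- strong autarky: a choice of values of the labels in `J` covers everything in `X` which is met by
values of labels in `J` -/
def Aut (F : κ → Set (Finset ι)) (X : Finset ι) (J : Finset κ) : Prop :=
  ∃ c : κ → Finset ι, (∀ j ∈ J, c j ∈ F j) ∧ Cov J c (Nb F X J)

/-- no strong autarky but the empty one -/
def Ln (F : κ → Set (Finset ι)) (X : Finset ι) (Y : Finset κ) : Prop :=
  ∀ J, J ⊆ Y → Aut F X J → J = ∅

end

end Pool.Agent.LibCov74
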