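import Pool.Agent.LibCov74.D1
import Pool.Agent.LibCov74.B3b

/-!
# Violators

A violator is a nonempty proper set `Z` of generators with `Z.card ≤ (D.P Z).card`.
-/

set_option autoImplicit false

namespace Pool.Agent.LibCov74

open Finset
open Pool.Agent.LibTP76 (CI)

variable {ι κ : Type} [Fintype ι] [Fintype κ] [DecidableEq ι] [DecidableEq κ]

omit [DecidableEq κ] in
theorem E1a_mem_S_iff (D : Dt ι κ) (n : ℕ) : n ∈ D.S ↔ ∃ x : ι → ℕ, ∑ i, x i * D.g i = n := by
  rw [← Mon_univ D, mem_Mon_iff]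

theorem F_nonempty (D : Dt ι κ) (j : κ) : (D.F j).Nonempty := by
  obtain ⟨x, hx⟩ := (E1a_mem_S_iff D (D.b j)).mp (b_mem D j)
  exact ⟨_, x, hx, rfl⟩

/-- `i` touches `b j` iff `i` is in the support of a factorization of `b j` -/
theorem tch_iff (D : Dt ι κ) (i : ι) (j : κ) : D.Tch i (D.b j) ↔ ∃ u ∈ D.F j, i ∈ u := by
  classical
  constructor
  · rintro ⟨s, hs, he⟩
    obtain ⟨x, hx⟩ := (E1a_mem_S_iff D s).mp hs
    refine ⟨_, ⟨x + Pi.single i 1, ?_, rfl⟩, ?_⟩
    · rw [he, ← hx]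
      have h1 : ∀ k : ι, (x + Pi.single i (1 : ℕ) : ι → ℕ) k * D.g k =
          x k * D.g k + (if k = i then D.g i else 0) := by
        intro k
        rw [Pi.add_apply, add_mul]
        congr 1
        by_cases hk : k = i
        · subst hk
          simp
        · simp [hk]
      rw [Finset.sum_congr rfl (fun k _ => h1 k), Finset.sum_add_distrib]
      simp
    · simp
  · rintro ⟨u, ⟨x, hx, rfl⟩, hi⟩
    have hxi : x i ≠ 0 := by
      simpa using hi
    refine ⟨∑ k, (if k = i then x i - 1 else x k) * D.g k, ?_, ?_⟩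
    · exact (E1a_mem_S_iff D _).mpr ⟨_, rfl⟩
    · rw [← hx]
      have h1 : ∀ k : ι, x k * D.g k =
          (if k = i then x i - 1 else x k) * D.g k + (if k = i then D.g i else 0) := by
        intro k
        by_cases hk : k = i
        · subst hk
          rw [if_pos rfl, if_pos rfl]
          obtain ⟨y, hy⟩ := Nat.exists_eq_succ_of_ne_zero hxi
          rw [hy]
          simp only [Nat.succ_eq_add_one, Nat.add_sub_cancel]
          ring
        · rw [if_neg hk, if_neg hk, add_zero]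
      rw [Finset.sum_congr rfl (fun k _ => h1 k), Finset.sum_add_distrib]
      simp

/-- the labels of `J` are pure in `Nb F univ J` -/
theorem sub_P_Nb (D : Dt ι κ) (J : Finset κ) : J ⊆ D.P (Nb D.F Finset.univ J) := by
  intro j hj
  rw [mem_P]
  intro i hi ht
  obtain ⟨u, hu, hiu⟩ := (tch_iff D i j).mp ht
  apply hi
  simp only [Nb, Finset.mem_filter]
  exact ⟨Finset.mem_univ i, j, hj, u, hu, hiu⟩

/-- pure labels have all their values inside `Z` -/
theorem F_sub_of_mem_P (D : Dt ι κ) {Z : Finset ι} {j : κ} (hj : j ∈ D.P Z) :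
    ∀ u ∈ D.F j, u ⊆ Z := by
  intro u hu i hi
  by_contra hiZ
  exact (mem_P D Z j).mp hj i hiZ ((tch_iff D i j).mpr ⟨u, hu, hi⟩)

/-- (C1) a choice of factorizations of the labels in `Y` which covers `X` makes `(X, Y)` good:
`∑_j ∑_i x_j(i) g i - ∑_{i ∈ X} g i` has nonnegative coefficients -/
theorem good_of_cov (D : Dt ι κ) (X : Finset ι) (Y : Finset κ) (c : κ → Finset ι)
    (hc : ∀ j ∈ Y, c j ∈ D.F j) (h : Cov Y c X) : D.Good X Y := by
  classical
  have hex : ∀ j : κ, ∃ x : ι → ℕ, j ∈ Y → (∑ i, x i * D.g i = D.b j ∧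
      ∀ i, i ∈ c j → x i ≠ 0) := by
    intro j
    by_cases hj : j ∈ Y
    · obtain ⟨x, hx, hu⟩ := hc j hj
      refine ⟨x, fun _ => ⟨hx, ?_⟩⟩
      intro i hi
      rw [hu] at hi
      simpa using hi
    · exact ⟨0, fun h' => absurd h' hj⟩
  choose x hx using hex
  have hge : ∀ i : ι, (if i ∈ X then 1 else 0) ≤ ∑ j ∈ Y, x j i := by
    intro i
    split_ifs with hi
    · obtain ⟨j, hj, hij⟩ := h i hi
      have h1 : 1 ≤ x j i := Nat.one_le_iff_ne_zero.mpr ((hx j hj).2 i hij)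
      exact h1.trans (Finset.single_le_sum (f := fun j => x j i) (fun _ _ => Nat.zero_le _) hj)
    · exact Nat.zero_le _
  refine ⟨∑ i, (∑ j ∈ Y, x j i - (if i ∈ X then 1 else 0)) * D.g i,
    (E1a_mem_S_iff D _).mpr ⟨_, rfl⟩, ?_⟩
  have h1 : ∑ j ∈ Y, D.b j = ∑ i, (∑ j ∈ Y, x j i) * D.g i := by
    rw [Finset.sum_congr rfl (fun j hj => ((hx j hj).1).symm), Finset.sum_comm]
    exact Finset.sum_congr rfl (fun i _ => by rw [Finset.sum_mul])
  have h2 : ∑ i ∈ X, D.g i = ∑ i, (if i ∈ X then 1 else 0) * D.g i := by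
    rw [← Finset.sum_filter_add_sum_filter_not Finset.univ (fun i => i ∈ X)]
    simp [Finset.sum_ite_mem]
  rw [h1, h2, ← Finset.sum_add_distrib]
  refine Finset.sum_congr rfl (fun i _ => ?_)
  rw [← add_mul, Nat.sub_add_cancel (hge i)]

/-- (C1') matching: an injective choice of labels touched by the `i ∈ X` makes `(X, Y)` good -/
theorem good_of_match (D : Dt ι κ) (X : Finset ι) (Y : Finset κ) (f : ι → κ)
    (hf : ∀ i ∈ X, f i ∈ Y ∧ D.Tch i (D.b (f i))) (hinj : Set.InjOn f (X : Set ι)) :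
    D.Good X Y := by
  classical
  have hex : ∀ j : κ, ∃ u : Finset ι, u ∈ D.F j ∧ ∀ i ∈ X, f i = j → i ∈ u := by
    intro j
    by_cases hj : ∃ i ∈ X, f i = j
    · obtain ⟨i, hi, rfl⟩ := hj
      obtain ⟨u, hu, hiu⟩ := (tch_iff D i (f i)).mp (hf i hi).2
      refine ⟨u, hu, fun i' hi' he => ?_⟩
      have : i' = i := hinj (Finset.mem_coe.mpr hi') (Finset.mem_coe.mpr hi) he
      rw [this]
      exact hiu
    · obtain ⟨u, hu⟩ := F_nonempty D j
      exact ⟨u, hu, fun i hi he => absurd ⟨i, hi, he⟩ hj⟩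
  choose c hc hc' using hex
  refine good_of_cov D X Y c (fun j _ => hc j) ?_
  intro i hi
  exact ⟨f i, (hf i hi).1, hc' (f i) i hi rfl⟩

end Pool.Agent.LibCov74
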