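import Pool.Agent.LibCov74.D1
import Pool.Agent.LibCov74.B3b
import Pool.Agent.LibCov74.E1a

/-!
# Violators

A violator is a nonempty proper set `Z` of generators with `Z.card ≤ (D.P Z).card`.
-/

set_option autoImplicit false

namespace Pool.Agent.LibCov74

open Finset
open Pool.Agent.LibTP76 (CI)

variable {ι κ : Type} [Fintype ι] [Fintype κ] [DecidableEq ι] [DecidableEq κ]

/-- Not a complete intersection: there is a violator.
Let `J` be the largest autarky of `(univ; univ)` (`exists_max_aut` for `D.F`), `Z = Nb D.F univ J`. If
`J` is nonempty: `Z ≠ univ` (else `good_of_cov` contradicts `not_good_univ`, `Good.mono`), `Z` is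
nonempty (values of labels are nonempty sets), `(Zᶜ; Jᶜ)` is lean (`ln_of_max`), so
`Jᶜ.card + 1 ≤ Zᶜ.card` (`ln_card`), so `Z.card ≤ J.card ≤ (D.P Z).card` by `D.card`. If `J = ∅`:
`(univ; univ)` is lean, `ln_tree` gives a combinatorial tree, `Tr.ntr` a numerical one and
`ci_of_tree` the claim. -/
theorem exists_violator (D : Dt ι κ) (h : ¬ CI D.S) :
    ∃ Z : Finset ι, Z.Nonempty ∧ Z ≠ Finset.univ ∧ Z.card ≤ (D.P Z).card := by
  classical
  obtain ⟨J, hJu, hJ, hmax⟩ := exists_max_aut D.F (Finset.univ : Finset ι) (Finset.univ : Finset κ)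
  have hcard := D.card
  rcases J.eq_empty_or_nonempty with h0 | h0
  · exfalso
    apply h
    have hln : Ln D.F (Finset.univ : Finset ι) (Finset.univ : Finset κ) := by
      intro J' hJ' hA
      have h1 := hmax J' hJ' hA
      rw [h0] at h1
      exact Finset.subset_empty.1 h1
    have htr := ln_tree D.F (F_nonempty D) Finset.univ Finset.univ
      (fun j _ u _ => Finset.subset_univ u) hln (by
        rw [Finset.card_univ, Finset.card_univ]
        exact hcard.symm)
    exact ci_of_tree D (Tr.ntr D htr)
  · refine ⟨Nb D.F Finset.univ J, ?_, ?_, ?_⟩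
    · obtain ⟨j, hj⟩ := h0
      obtain ⟨u, hu⟩ := F_nonempty D j
      have hne : ∃ i, i ∈ u := by
        obtain ⟨x, hx, hxu⟩ := hu
        by_contra hcon
        push Not at hcon
        have h1 : ∑ i, x i * D.g i = 0 := by
          apply Finset.sum_eq_zero
          intro i _
          have h2 := hcon i
          rw [hxu, Finset.mem_filter] at h2
          have h3 : x i = 0 := by
            by_contra h4
            exact h2 ⟨Finset.mem_univ i, h4⟩
          rw [h3, zero_mul]
        have h5 := D.bpos j
        omega
      obtain ⟨i, hi⟩ := hne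
      exact ⟨i, (mem_Nb D.F Finset.univ J i).2 ⟨Finset.mem_univ i, j, hj, u, hu, hi⟩⟩
    · intro hZ
      obtain ⟨c, hc1, hc2⟩ := hJ
      rw [hZ] at hc2
      have h1 := good_of_cov D Finset.univ J c hc1 hc2
      exact not_good_univ D (Good.mono D (Finset.Subset.refl _) hJu h1)
    · by_cases hZ : Nb D.F Finset.univ J = Finset.univ
      · exfalso
        obtain ⟨c, hc1, hc2⟩ := hJ
        rw [hZ] at hc2
        have h1 := good_of_cov D Finset.univ J c hc1 hc2
        exact not_good_univ D (Good.mono D (Finset.Subset.refl _) hJu h1)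
      · have hln := ln_of_max D.F Finset.univ Finset.univ J hJu hJ hmax
        have hne : (Finset.univ \ Nb D.F Finset.univ J : Finset ι).Nonempty := by
          rw [Finset.sdiff_nonempty]
          intro hsub
          exact hZ (Finset.univ_subset_iff.1 hsub)
        have h1 := ln_card D.F (F_nonempty D) _ _ hne hln
        rw [Finset.card_sdiff_of_subset (Finset.subset_univ _),
          Finset.card_sdiff_of_subset (Finset.subset_univ _), Finset.card_univ,
          Finset.card_univ] at h1
        have h2 := Finset.card_le_card (sub_P_Nb D J)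
        have h3 : J.card ≤ Fintype.card κ := Finset.card_le_univ J
        have h4 : (Nb D.F Finset.univ J : Finset ι).card ≤ Fintype.card ι := Finset.card_le_univ _
        omega

end Pool.Agent.LibCov74
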