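import Pool.Agent.LibCov74.D1
import Pool.Agent.LibCov74.B3b
import Pool.Agent.LibCov74.E1a

/-!
# Violators

A violator is a nonempty proper set `Z` of generators with `Z.card ≤ (D.P Z).card`.
-/

set_option autoImplicit false

namespace Pool.Agent.LibCov74

open Finset
open Pool.Agent.LibTP76 (CI)

variable {ι κ : Type} [Fintype ι] [Fintype κ] [DecidableEq ι] [DecidableEq κ]

/-- (Lemma G) Let `Z` be a violator (nonempty, `Z.card ≤ (D.P Z).card`) whose nonempty proper
subsets `V` have `(D.P V).card < V.card`. Then `(Z, J)` is good for every set `J` of pure labels with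
`Z.card ≤ J.card + 1`.
Proof. Let `J₀` be the largest autarky of `(Z; J)`, `V = Nb D.F Z J₀` (values of pure labels are inside
`Z`, `F_sub_of_mem_P`), so `J₀ ⊆ D.P V`. If `V = Z`: the choice covers `Z`: `good_of_cov`
(`Good.mono`). If `V ≠ Z` and `J₀ ≠ ∅` (so `V` is nonempty): `J₀.card < V.card`, `(Z \ V; J \ J₀)` is
lean, `Z \ V` nonempty, so `(J \ J₀).card + 1 ≤ (Z \ V).card`; the sum gives `J.card + 2 ≤ Z.card`,
contradiction. So `J₀ = ∅`, `(Z; J)` is lean, `Z.card = J.card + 1` (`ln_card`), `ln_tree` and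
`Tr.ntr` give `NTr D.g D.b Z J`. By `NTr.brauer` either `(Z, J)` is good or the tree is an `LTr`; the
latter contradicts `card_P_of_ltr`. -/
theorem good_of_minimal (D : Dt ι κ) (Z : Finset ι) (hZ : Z.Nonempty)
    (hv : Z.card ≤ (D.P Z).card)
    (hmin : ∀ V, V ⊆ Z → V ≠ Z → V.Nonempty → (D.P V).card < V.card)
    (J : Finset κ) (hJ : J ⊆ D.P Z) (hc : Z.card ≤ J.card + 1) : D.Good Z J := by
  obtain ⟨J₀, hJ₀, haut, hmax⟩ := exists_max_aut D.F Z J
  have hval : ∀ j ∈ J, ∀ u ∈ D.F j, u ⊆ Z := fun j hj => F_sub_of_mem_P D (hJ hj)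
  have hln := ln_of_max D.F Z J J₀ hJ₀ haut hmax
  set V := Nb D.F Z J₀ with hV
  have hVZ : V ⊆ Z := fun x hx => ((mem_Nb D.F Z J₀ x).1 hx).1
  have hVu : V = Nb D.F Finset.univ J₀ := by
    ext x
    rw [hV, mem_Nb, mem_Nb]
    constructor
    · rintro ⟨-, h⟩
      exact ⟨Finset.mem_univ _, h⟩
    · rintro ⟨-, j, hj, u, hu, hx⟩
      exact ⟨hval j (hJ₀ hj) u hu hx, j, hj, u, hu, hx⟩
  by_cases hVeq : V = Z
  · obtain ⟨c, hc1, hc2⟩ := haut
    have h1 : D.Good Z J₀ := good_of_cov D Z J₀ c hc1 (by
      rw [← hV, hVeq] at hc2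
      exact hc2)
    exact Good.mono D (Finset.Subset.refl Z) hJ₀ h1
  · by_cases hJ0 : J₀ = ∅
    · have hV0 : V = ∅ := by
        rw [Finset.eq_empty_iff_forall_notMem]
        intro x hx
        rw [hV, mem_Nb, hJ0] at hx
        obtain ⟨-, j, hj, -⟩ := hx
        exact absurd hj (Finset.notMem_empty j)
      rw [hV0, hJ0, Finset.sdiff_empty, Finset.sdiff_empty] at hln
      have h2 := ln_card D.F (F_nonempty D) Z J hZ hln
      have h3 : Z.card = J.card + 1 := le_antisymm hc h2
      have h4 := (ln_tree D.F (F_nonempty D) Z J hval hln h3).ntr D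
      rcases h4.brauer D.gpos D.bpos with h5 | h5
      · have h6 := card_P_of_ltr D h5
        omega
      · rw [good_iff]
        exact h5.mono (Mon_le D Z)
    · exfalso
      obtain ⟨j, hj⟩ := Finset.nonempty_iff_ne_empty.2 hJ0
      have hVn : V.Nonempty := by
        obtain ⟨u, hu⟩ := F_nonempty D j
        have hune : u.Nonempty := by
          rw [Finset.nonempty_iff_ne_empty]
          rintro rfl
          obtain ⟨x, hx1, hx2⟩ := hu
          have h7 : ∀ i, x i = 0 := by
            intro i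
            by_contra h8
            have h9 : i ∈ (∅ : Finset ι) := by
              rw [hx2]
              exact Finset.mem_filter.2 ⟨Finset.mem_univ _, h8⟩
            exact absurd h9 (Finset.notMem_empty i)
          have h10 : D.b j = 0 := by
            rw [← hx1]
            exact Finset.sum_eq_zero fun i _ => by rw [h7 i, zero_mul]
          exact absurd h10 (D.bpos j).ne'
        obtain ⟨x, hx⟩ := hune
        exact ⟨x, (mem_Nb D.F Z J₀ x).2 ⟨hval j (hJ₀ hj) u hu hx, j, hj, u, hu, hx⟩⟩
      have h1 : J₀ ⊆ D.P V := by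
        rw [hVu]
        exact sub_P_Nb D J₀
      have h2 := Finset.card_le_card h1
      have h3 := hmin V hVZ hVeq hVn
      have h4 : (Z \ V).Nonempty := by
        rw [Finset.sdiff_nonempty]
        intro h5
        exact hVeq (Finset.Subset.antisymm hVZ h5)
      have h5 := ln_card D.F (F_nonempty D) (Z \ V) (J \ J₀) h4 hln
      have h6 := Finset.card_sdiff_add_card_eq_card hVZ
      have h7 := Finset.card_sdiff_add_card_eq_card hJ₀
      omega

/-- a set of generators with at least as many pure labels has at least three elements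
(`card_P_one`, `card_P_two`) -/
theorem three_le (D : Dt ι κ) (Z : Finset ι) (hZ : Z.Nonempty) (hv : Z.card ≤ (D.P Z).card) :
    3 ≤ Z.card := by
  by_contra hcon
  have h0 := Finset.card_pos.2 hZ
  have h1 : Z.card = 1 ∨ Z.card = 2 := by omega
  rcases h1 with h1 | h1
  · obtain ⟨i, rfl⟩ := Finset.card_eq_one.1 h1
    rw [card_P_one D i, Finset.card_empty] at hv
    omega
  · obtain ⟨i, k, hik, rfl⟩ := Finset.card_eq_two.1 h1
    have h2 := card_P_two D hik
    omega

end Pool.Agent.LibCov74
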