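import Pool.Agent.LibCov74.E1b
import Pool.Agent.LibCov74.E1c

/-!
# The largest maximal violator
-/

set_option autoImplicit false

namespace Pool.Agent.LibCov74

open Finset
open Pool.Agent.LibTP76 (CI)

variable {ι κ : Type} [Fintype ι] [Fintype κ] [DecidableEq ι] [DecidableEq κ]

/-- the properties of a set `Z` which is largest among those with `(D.P Z).card - Z.card` maximal
(`= m`) -/
structure Top (D : Dt ι κ) (Z : Finset ι) (m : ℕ) : Prop where
  ne : Z.Nonempty
  ne' : Z ≠ Finset.univ
  eq : (D.P Z).card = Z.card + m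
  le : ∀ V : Finset ι, V.Nonempty → V ≠ Finset.univ → (D.P V).card ≤ V.card + m
  lt : ∀ V : Finset ι, Z ⊂ V → V ≠ Finset.univ → (D.P V).card < V.card + m

theorem exists_top (D : Dt ι κ) (h : ¬ CI D.S) : ∃ Z m, Top D Z m := by
  obtain ⟨Z₀, h0, h0', hv⟩ := exists_violator D h
  let s : Finset (Finset ι) := Finset.univ.filter (fun V => V.Nonempty ∧ V ≠ Finset.univ)
  let f : Finset ι → ℤ := fun V =>
    (((D.P V).card : ℤ) - V.card) * (Fintype.card ι + 1) + V.card
  have hs : s.Nonempty := ⟨Z₀, Finset.mem_filter.mpr ⟨Finset.mem_univ _, h0, h0'⟩⟩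
  obtain ⟨Z, hZ, hmax⟩ := Finset.exists_max_image s f hs
  have hZ' := (Finset.mem_filter.mp hZ).2
  have hcard : ∀ V : Finset ι, (V.card : ℤ) ≤ Fintype.card ι := fun V => by
    exact_mod_cast Finset.card_le_univ V
  have hle : ∀ V : Finset ι, V.Nonempty → V ≠ Finset.univ →
      ((D.P V).card : ℤ) - V.card ≤ ((D.P Z).card : ℤ) - Z.card := by
    intro V hV hV'
    by_contra hcon
    have h1 := hmax V (Finset.mem_filter.mpr ⟨Finset.mem_univ _, hV, hV'⟩)
    have h2 : ((D.P Z).card : ℤ) - Z.card + 1 ≤ ((D.P V).card : ℤ) - V.card := by omega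
    have h3 := mul_le_mul_of_nonneg_right h2 (by positivity : (0 : ℤ) ≤ Fintype.card ι + 1)
    have h4 := hcard Z
    have h5 : (0 : ℤ) ≤ V.card := by positivity
    simp only [f] at h1
    nlinarith
  have hge : (0 : ℤ) ≤ ((D.P Z).card : ℤ) - Z.card := by
    have := hle Z₀ h0 h0'
    omega
  refine ⟨Z, (D.P Z).card - Z.card, hZ'.1, hZ'.2, by omega, ?_, ?_⟩
  · intro V hV hV'
    have := hle V hV hV'
    omega
  · intro V hZV hV'
    have hV : V.Nonempty := hZ'.1.mono hZV.subset
    have h1 := hle V hV hV'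
    have h2 := hmax V (Finset.mem_filter.mpr ⟨Finset.mem_univ _, hV, hV'⟩)
    have h3 := Finset.card_lt_card hZV
    by_contra hcon
    have h4 : ((D.P V).card : ℤ) - V.card = ((D.P Z).card : ℤ) - Z.card := by omega
    simp only [f] at h2
    rw [h4] at h2
    have h5 : (Z.card : ℤ) < V.card := by exact_mod_cast h3
    linarith

theorem P_mono (D : Dt ι κ) {V Z : Finset ι} (h : V ⊆ Z) : D.P V ⊆ D.P Z := by
  intro j hj
  rw [mem_P] at hj ⊢
  exact fun i hi => hj i (fun h1 => hi (h h1))

theorem P_empty (D : Dt ι κ) : D.P ∅ = ∅ := by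
  rw [Finset.eq_empty_iff_forall_notMem]
  intro j hj
  rw [mem_P] at hj
  have h1 : D.b j ∈ Mon D.g Finset.univ := by
    rw [Mon_univ]
    exact b_mem D j
  obtain ⟨i, -, hi⟩ := tch_of_mem_Mon D h1 (D.bpos j)
  exact hj i (Finset.notMem_empty i) hi

/-- Hall's marriage theorem (`Finset.all_card_le_biUnion_card_iff_exists_injective'` or similar): the set
`W ⊆ Z` touches `(D.P Z).card - (D.P (Z \ W)).card ≥ W.card` labels of `D.P Z`; then
`good_of_match` -/
theorem Top.good {D : Dt ι κ} {Z : Finset ι} {m : ℕ} (t : Top D Z m) : D.Good Z (D.P Z) := by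
  classical
  let T : {x // x ∈ Z} → Finset κ := fun i => (D.P Z).filter (fun j => D.Tch i.1 (D.b j))
  have hall : ∀ W : Finset {x // x ∈ Z}, W.card ≤ (W.biUnion T).card := by
    intro W
    let W' : Finset ι := W.image Subtype.val
    have hW' : W'.card = W.card := Finset.card_image_of_injective _ Subtype.val_injective
    have hWZ : W' ⊆ Z := by
      intro i hi
      obtain ⟨x, -, rfl⟩ := Finset.mem_image.mp hi
      exact x.2
    have h1 : D.P Z ⊆ W.biUnion T ∪ D.P (Z \ W') := by
      intro j hj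
      by_cases h2 : ∃ i ∈ W', D.Tch i (D.b j)
      · obtain ⟨i, hi, hij⟩ := h2
        obtain ⟨x, hx, rfl⟩ := Finset.mem_image.mp hi
        exact Finset.mem_union_left _ (Finset.mem_biUnion.mpr ⟨x, hx,
          Finset.mem_filter.mpr ⟨hj, hij⟩⟩)
      · push Not at h2
        apply Finset.mem_union_right
        rw [mem_P] at hj ⊢
        intro i hi
        by_cases hiZ : i ∈ Z
        · apply h2 i
          by_contra h3
          exact hi (Finset.mem_sdiff.mpr ⟨hiZ, h3⟩)
        · exact hj i hiZ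
    have h2 := (Finset.card_le_card h1).trans (Finset.card_union_le _ _)
    rw [t.eq] at h2
    have h3 : (Z \ W').card = Z.card - W'.card := Finset.card_sdiff_of_subset hWZ
    have h4 := Finset.card_le_card hWZ
    by_cases h5 : (Z \ W').Nonempty
    · have h6 : Z \ W' ≠ Finset.univ := by
        intro h6
        apply t.ne'
        rw [← Finset.univ_subset_iff, ← h6]
        exact Finset.sdiff_subset
      have h7 := t.le _ h5 h6
      omega
    · rw [Finset.not_nonempty_iff_eq_empty] at h5
      rw [h5, P_empty, Finset.card_empty] at h2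
      omega
  obtain ⟨f, hf, hfT⟩ := (Finset.all_card_le_biUnion_card_iff_exists_injective T).mp hall
  have hne : (D.P Z).Nonempty := by
    rw [← Finset.card_pos, t.eq]
    have := t.ne.card_pos
    omega
  obtain ⟨j₀, -⟩ := hne
  refine good_of_match D Z (D.P Z) (fun i => if h : i ∈ Z then f ⟨i, h⟩ else j₀) ?_ ?_
  · intro i hi
    have h1 := Finset.mem_filter.mp (hfT ⟨i, hi⟩)
    simp only [dif_pos hi]
    exact h1
  · intro i hi i' hi' h1
    have hi : i ∈ Z := hi
    have hi' : i' ∈ Z := hi'
    simp only [dif_pos hi, dif_pos hi'] at h1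
    exact congrArg Subtype.val (hf h1)

end Pool.Agent.LibCov74
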