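import Pool.Agent.LibCov74.E1b
import Pool.Agent.LibCov74.E1c
import Pool.Agent.LibCov74.E2a

/-!
# The largest maximal violator
-/

set_option autoImplicit false

namespace Pool.Agent.LibCov74

open Finset
open Pool.Agent.LibTP76 (CI)

variable {ι κ : Type} [Fintype ι] [Fintype κ] [DecidableEq ι] [DecidableEq κ]

/-- the complement is not good: `Good.union`, `not_good_univ` -/
theorem Top.not_good {D : Dt ι κ} {Z : Finset ι} {m : ℕ} (t : Top D Z m) :
    ¬ D.Good Zᶜ (D.P Z)ᶜ := by
  intro h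
  have h1 := Good.union D disjoint_compl_right t.good h
  rw [Finset.union_compl, Finset.union_compl] at h1
  exact not_good_univ D h1

theorem Top.P_nonempty {D : Dt ι κ} {Z : Finset ι} {m : ℕ} (t : Top D Z m) :
    (D.P Z).Nonempty := by
  have h1 := t.eq
  have h2 := t.ne.card_pos
  exact Finset.card_pos.1 (by omega)

/-- `#(D.P Z)ᶜ + m + 1 = #Zᶜ` (from `D.card`) -/
theorem Top.card_compl {D : Dt ι κ} {Z : Finset ι} {m : ℕ} (t : Top D Z m) :
    ((D.P Z)ᶜ).card + m + 1 = (Zᶜ).card := by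
  have h1 := t.eq
  have h2 := D.card
  have h3 := Finset.card_add_card_compl (D.P Z)
  have h4 := Finset.card_add_card_compl Z
  omega

/-- a nonempty proper subset `X` of `Zᶜ` touches at least `X.card - m` labels (apply `t.lt` to
`V = Xᶜ`); they are not in `D.P Z` -/
theorem Top.touch {D : Dt ι κ} {Z : Finset ι} {m : ℕ} (t : Top D Z m) (X : Finset ι)
    (hX : X ⊂ Zᶜ) (hne : X.Nonempty) : X.card ≤ ((D.P Z)ᶜ \ D.P Xᶜ).card + m := by
  have hZV : Z ⊂ Xᶜ := by
    rw [Finset.ssubset_iff_subset_ne]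
    constructor
    · intro z hz
      rw [Finset.mem_compl]
      intro hzX
      exact (Finset.mem_compl.1 (hX.subset hzX)) hz
    · intro h
      apply hX.ne
      rw [h, compl_compl]
  have hVu : Xᶜ ≠ Finset.univ := by
    intro h
    rw [Finset.compl_eq_univ_iff] at h
    exact hne.ne_empty h
  have h1 := t.lt Xᶜ hZV hVu
  have h2 : D.P Z ⊆ D.P Xᶜ := P_mono D hZV.subset
  have h3 : (D.P Z)ᶜ \ D.P Xᶜ = (D.P Xᶜ)ᶜ := by
    ext j
    rw [Finset.mem_sdiff, Finset.mem_compl, Finset.mem_compl]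
    constructor
    · exact fun h => h.2
    · exact fun h => ⟨fun h' => h (h2 h'), h⟩
  rw [h3]
  have h4 := D.card
  have h5 := Finset.card_add_card_compl (D.P Xᶜ)
  have h6 := Finset.card_add_card_compl X
  omega

/-- every generator divides some label (`cnt_le` for `n = g i ≥ 2`; `g i = 1` divides everything; there is
a label since `D.P Z` is nonempty); if the generator is outside `Z`, this label is not in `D.P Z`
(`tch_of_dvd`) -/
theorem Top.exists_label {D : Dt ι κ} {Z : Finset ι} {m : ℕ} (t : Top D Z m) {i : ι} (hi : i ∉ Z) :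
    ∃ j, j ∉ D.P Z ∧ D.g i ∣ D.b j := by
  classical
  have hnot : ∀ j, D.g i ∣ D.b j → j ∉ D.P Z := by
    intro j hj hjP
    rw [mem_P] at hjP
    exact hjP i hi (tch_of_dvd D i hj (D.bpos j))
  have hg := D.gpos i
  by_cases h1 : D.g i = 1
  · exfalso
    obtain ⟨j, hj⟩ := t.P_nonempty
    exact hnot j (by rw [h1]; exact one_dvd _) hj
  · have h2 := cnt_le D (n := D.g i) (by omega)
    have h3 : 0 < cnt (D.g i) Finset.univ D.g := by
      unfold cnt
      apply Finset.card_pos.2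
      exact ⟨i, Finset.mem_filter.2 ⟨Finset.mem_univ i, dvd_rfl⟩⟩
    have h4 : 0 < cnt (D.g i) Finset.univ D.b := lt_of_lt_of_le h3 h2
    unfold cnt at h4
    obtain ⟨j, hj⟩ := Finset.card_pos.1 h4
    have hj' := (Finset.mem_filter.1 hj).2
    exact ⟨j, hnot j hj', hj'⟩

/-- Let `X` be disjoint from `Z` and `(X, Y)` a tree which is not good. Then there is another label
outside `D.P Z` which is divisible by `gcd X` and in `⟨X⟩`.
`h = gcd X`. If `h ≥ 2`: `cnt h univ g ≥ X.card = Y.card + 1`, so by `cnt_le` there is `j ∉ Y` with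
`h ∣ b j`; `b j ∈ S`, so `b j ∈ ⟨X⟩` (`NTr.mem_of_not_good`), so it is touched by an element of `X`
(`tch_of_mem_Mon`) and is not in `D.P Z`. If `h = 1` the same argument for `j ∈ D.P Z` gives a
contradiction. -/
theorem Top.another {D : Dt ι κ} {Z : Finset ι} {m : ℕ} (t : Top D Z m) {X : Finset ι}
    {Y : Finset κ} (hX : Disjoint X Z) (h : NTr D.g D.b X Y) (hng : ¬ D.Good X Y) :
    ∃ j, j ∉ Y ∧ j ∉ D.P Z ∧ X.gcd D.g ∣ D.b j ∧ D.b j ∈ Mon D.g X := by
  classical
  have hmem : ∀ j, X.gcd D.g ∣ D.b j → j ∉ D.P Z ∧ D.b j ∈ Mon D.g X := by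
    intro j hj
    have h1 : D.b j ∈ Mon D.g X := NTr.mem_of_not_good D h hng (b_mem D j) hj
    refine ⟨fun hjP => ?_, h1⟩
    obtain ⟨i, hiX, hti⟩ := tch_of_mem_Mon D h1 (D.bpos j)
    rw [mem_P] at hjP
    exact hjP i (Finset.disjoint_left.1 hX hiX) hti
  have hgp := NTr.gcd_pos D.gpos h
  by_cases h1 : X.gcd D.g = 1
  · exfalso
    obtain ⟨j, hj⟩ := t.P_nonempty
    exact (hmem j (by rw [h1]; exact one_dvd _)).1 hj
  · have h2 := cnt_le D (n := X.gcd D.g) (by omega)
    have h3 : X.card ≤ cnt (X.gcd D.g) Finset.univ D.g := by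
      unfold cnt
      apply Finset.card_le_card
      intro i hi
      exact Finset.mem_filter.2 ⟨Finset.mem_univ i, Finset.gcd_dvd hi⟩
    have h4 := h.card
    unfold cnt at h2 h3
    have h5 : Y.card < (Finset.univ.filter (fun j => X.gcd D.g ∣ D.b j)).card := by omega
    obtain ⟨j, hj, hjY⟩ := Finset.exists_mem_notMem_of_card_lt_card h5
    have hj' := (Finset.mem_filter.1 hj).2
    exact ⟨j, hjY, (hmem j hj').1, hj', (hmem j hj').2⟩

end Pool.Agent.LibCov74
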