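import Pool.Agent.LibCov74.A2
import Pool.Agent.LibVol74.M1

/-!
# From a product formula to the data
-/

set_option autoImplicit false

namespace Pool.Agent.LibCov74

open Finset
open Pool.Agent.LibVol74 (HS)

theorem R1a_coeff_mul (f : PowerSeries ℤ) (c n : ℕ) :
    PowerSeries.coeff n (f * (1 - (PowerSeries.X : PowerSeries ℤ) ^ c)) =
      PowerSeries.coeff n f - if c ≤ n then PowerSeries.coeff (n - c) f else 0 := by
  rw [mul_sub, mul_one, map_sub, PowerSeries.coeff_mul_X_pow']

theorem R1a_coeff_prod {α : Type} [DecidableEq α] (m : ℕ) (hm : 0 < m) (a : α → ℕ) (X : Finset α) :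
    (∀ i ∈ X, m ≤ a i) → ∀ f : PowerSeries ℤ,
      PowerSeries.coeff m (f * ∏ i ∈ X, (1 - (PowerSeries.X : PowerSeries ℤ) ^ a i)) =
        PowerSeries.coeff m f - ((X.filter (fun i => a i = m)).card : ℤ) * PowerSeries.coeff 0 f := by
  induction X using Finset.induction_on with
  | empty => intro _ f; simp
  | insert i X hi ih =>
    intro h f
    have h1 : m ≤ a i := h i (Finset.mem_insert_self _ _)
    rw [Finset.prod_insert hi, ← mul_assoc,
      ih (fun j hj => h j (Finset.mem_insert_of_mem hj)), R1a_coeff_mul, R1a_coeff_mul,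
      Finset.filter_insert]
    have h0 : ¬ a i ≤ 0 := by omega
    rw [if_neg h0, sub_zero]
    by_cases h2 : a i = m
    · rw [if_pos h2, if_pos h2.le, h2, Nat.sub_self, Finset.card_insert_of_notMem]
      · push_cast
        ring
      · intro h3
        exact hi (Finset.mem_filter.mp h3).1
    · rw [if_neg h2, if_neg (by omega)]
      ring

theorem R1a_supp {α : Type} [DecidableEq α] (S : AddSubmonoid ℕ) (a : α → ℕ) (X : Finset α) :
    (∀ i ∈ X, a i ∈ S) → ∀ f : PowerSeries ℤ, (∀ n, n ∉ S → PowerSeries.coeff n f = 0) →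
      ∀ n, n ∉ S →
        PowerSeries.coeff n (f * ∏ i ∈ X, (1 - (PowerSeries.X : PowerSeries ℤ) ^ a i)) = 0 := by
  induction X using Finset.induction_on with
  | empty => intro _ f hf n hn; simpa using hf n hn
  | insert i X hi ih =>
    intro h f hf n hn
    rw [Finset.prod_insert hi, ← mul_assoc]
    refine ih (fun j hj => h j (Finset.mem_insert_of_mem hj)) _ ?_ n hn
    intro k hk
    rw [R1a_coeff_mul, hf k hk]
    split_ifs with h1
    · rw [hf, sub_zero]
      intro h2
      apply hk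
      have := S.add_mem h2 (h i (Finset.mem_insert_self _ _))
      rwa [Nat.sub_add_cancel h1] at this
    · rw [sub_zero]

theorem R1a_coeff_zero {α : Type} [DecidableEq α] (a : α → ℕ) (X : Finset α) :
    (∀ i ∈ X, 0 < a i) → ∀ f : PowerSeries ℤ,
      PowerSeries.coeff 0 (f * ∏ i ∈ X, (1 - (PowerSeries.X : PowerSeries ℤ) ^ a i)) =
        PowerSeries.coeff 0 f := by
  induction X using Finset.induction_on with
  | empty => intro _ f; simp
  | insert i X hi ih =>
    intro h f
    have h1 := h i (Finset.mem_insert_self _ _)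
    rw [Finset.prod_insert hi, ← mul_assoc,
      ih (fun j hj => h j (Finset.mem_insert_of_mem hj)), R1a_coeff_mul, if_neg (by omega), sub_zero]

/-- the coefficient at the least value `m` outside `S` -/
theorem R1a_key {α : Type} [DecidableEq α] (S : AddSubmonoid ℕ) (X : Finset α) (a : α → ℕ)
    (ha : ∀ i ∈ X, 0 < a i) (m : ℕ) (hm0 : 0 < m) (hm : m ∉ S) (hmin : ∀ i ∈ X, a i ∉ S → m ≤ a i)
    (f : PowerSeries ℤ) (hf : ∀ n, n ∉ S → PowerSeries.coeff n f = 0) :
    PowerSeries.coeff m (f * ∏ i ∈ X, (1 - (PowerSeries.X : PowerSeries ℤ) ^ a i)) =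
      - ((X.filter (fun i => a i = m)).card : ℤ) * PowerSeries.coeff 0 f := by
  classical
  rw [← Finset.prod_filter_mul_prod_filter_not X (fun i => a i ∈ S), ← mul_assoc,
    R1a_coeff_prod m hm0 a _ (fun i hi => hmin i (Finset.mem_filter.mp hi).1
      (Finset.mem_filter.mp hi).2),
    R1a_supp S a _ (fun i hi => (Finset.mem_filter.mp hi).2) f hf m hm,
    R1a_coeff_zero a _ (fun i hi => ha i (Finset.mem_filter.mp hi).1) f]
  have h1 : ((X.filter (fun i => ¬ a i ∈ S)).filter (fun i => a i = m)) =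
      X.filter (fun i => a i = m) := by
    ext i
    simp only [Finset.mem_filter]
    constructor
    · rintro ⟨⟨h1, -⟩, h2⟩
      exact ⟨h1, h2⟩
    · rintro ⟨h1, h2⟩
      exact ⟨⟨h1, h2 ▸ hm⟩, h2⟩
  rw [h1]
  ring

/-- If no `a i` equals a `b j` then all `a i`, `b j` are in `S`. Let `m` be the least of those not in `S`.
`HS S · ∏_{a i ∈ S} (1 - z^{a i}) / ∏_{b j ∈ S} (1 - z^{b j}) = ∏_{b j ∉ S} (1 - z^{b j}) / ∏_{a i ∉ S} (1 - z^{a i})`: the left side is
supported in `S`; the coefficient of the right side at `m` is `#{i | a i = m} - #{j | b j = m} ≠ 0`. (Compare the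
docstring of `A2.lean`.) -/
theorem all_mem {α β : Type} (S : AddSubmonoid ℕ) (X : Finset α) (Y : Finset β) (a : α → ℕ)
    (b : β → ℕ) (ha : ∀ i ∈ X, 0 < a i) (hb : ∀ j ∈ Y, 0 < b j) (hdisj : ∀ i ∈ X, ∀ j ∈ Y, b j ≠ a i)
    (h : HS S * ∏ i ∈ X, (1 - (PowerSeries.X : PowerSeries ℤ) ^ a i) =
      ∏ j ∈ Y, (1 - (PowerSeries.X : PowerSeries ℤ) ^ b j)) :
    (∀ i ∈ X, a i ∈ S) ∧ ∀ j ∈ Y, b j ∈ S := by
  classical
  by_contra hcon
  have hex : ∃ m, m ∉ S ∧ ((∃ i ∈ X, a i = m) ∨ ∃ j ∈ Y, b j = m) := by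
    by_contra h1
    push Not at h1
    apply hcon
    constructor
    · intro i hi
      by_contra h2
      exact (h1 (a i) h2).1 i hi rfl
    · intro j hj
      by_contra h2
      exact (h1 (b j) h2).2 j hj rfl
  obtain ⟨hm, hm2⟩ := Nat.find_spec hex
  have hmin := fun k hk => Nat.find_min hex (m := k) hk
  set m := Nat.find hex with hmdef
  have hm0 : 0 < m := by
    rcases Nat.eq_zero_or_pos m with h0 | h0
    · exact absurd (h0 ▸ S.zero_mem) hm
    · exact h0
  have hXmin : ∀ i ∈ X, a i ∉ S → m ≤ a i := by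
    intro i hi h1
    by_contra h2
    exact hmin (a i) (by omega) ⟨h1, Or.inl ⟨i, hi, rfl⟩⟩
  have hYmin : ∀ j ∈ Y, b j ∉ S → m ≤ b j := by
    intro j hj h1
    by_contra h2
    exact hmin (b j) (by omega) ⟨h1, Or.inr ⟨j, hj, rfl⟩⟩
  have hHS : ∀ n, n ∉ S → PowerSeries.coeff n (HS S) = 0 := by
    intro n hn
    rw [HS, PowerSeries.coeff_mk, if_neg hn]
  have hHS0 : PowerSeries.coeff 0 (HS S) = 1 := by
    rw [HS, PowerSeries.coeff_mk, if_pos S.zero_mem]
  have hone : ∀ n, n ∉ S → PowerSeries.coeff n (1 : PowerSeries ℤ) = 0 := by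
    intro n hn
    rw [PowerSeries.coeff_one, if_neg]
    intro h0
    exact hn (h0 ▸ S.zero_mem)
  have h1 := R1a_key S X a ha m hm0 hm hXmin (HS S) hHS
  have h2 := R1a_key S Y b hb m hm0 hm hYmin 1 hone
  rw [h, ← one_mul (∏ j ∈ Y, _), h2, hHS0, PowerSeries.coeff_zero_one] at h1
  have h3 : (Y.filter (fun j => b j = m)).card = (X.filter (fun i => a i = m)).card := by
    have : ((Y.filter (fun j => b j = m)).card : ℤ) = ((X.filter (fun i => a i = m)).card : ℤ) := by
      linarith
    exact_mod_cast this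
  rcases hm2 with ⟨i, hi, him⟩ | ⟨j, hj, hjm⟩
  · have h4 : (Y.filter (fun j => b j = m)).card = 0 := by
      rw [Finset.card_eq_zero, Finset.filter_eq_empty_iff]
      intro j hj hjm
      exact hdisj i hi j hj (hjm.trans him.symm)
    rw [h4] at h3
    have h5 : i ∈ X.filter (fun i => a i = m) := Finset.mem_filter.mpr ⟨hi, him⟩
    rw [Finset.card_eq_zero.mp h3.symm] at h5
    exact absurd h5 (Finset.notMem_empty i)
  · have h4 : (X.filter (fun i => a i = m)).card = 0 := by
      rw [Finset.card_eq_zero, Finset.filter_eq_empty_iff]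
      intro i hi him
      exact hdisj i hi j hj (hjm.trans him.symm)
    rw [h4] at h3
    have h5 : j ∈ Y.filter (fun j => b j = m) := Finset.mem_filter.mpr ⟨hj, hjm⟩
    rw [Finset.card_eq_zero.mp h3] at h5
    exact absurd h5 (Finset.notMem_empty j)

end Pool.Agent.LibCov74
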