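import Pool.Agent.LibCov74.A2
import Pool.Agent.LibVol74.M1

/-!
# From a product formula to the data
-/

set_option autoImplicit false

namespace Pool.Agent.LibCov74

open Finset
open Pool.Agent.LibVol74 (HS)

/-- multiplication by `1 - z^a`, `a ∈ S`, of a series with exponents in `S` -/
theorem R1b_step (S : AddSubmonoid ℕ) (f : PowerSeries ℤ)
    (hf : ∀ n, n ∉ S → PowerSeries.coeff n f = 0) (a : ℕ) (ha : 0 < a) (haS : a ∈ S) (x : ℕ)
    (hat : ∀ s ∈ S, ∀ t ∈ S, s + t = x → s = 0 ∨ t = 0) :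
    (∀ n, n ∉ S → PowerSeries.coeff n (f * (1 - PowerSeries.X ^ a)) = 0) ∧
    PowerSeries.coeff 0 (f * (1 - PowerSeries.X ^ a)) = PowerSeries.coeff 0 f ∧
    PowerSeries.coeff x (f * (1 - PowerSeries.X ^ a)) =
      PowerSeries.coeff x f - if a = x then PowerSeries.coeff 0 f else 0 := by
  have h1 : ∀ n, PowerSeries.coeff n (f * (1 - PowerSeries.X ^ a)) =
      PowerSeries.coeff n f - if a ≤ n then PowerSeries.coeff (n - a) f else 0 := by
    intro n
    rw [mul_sub, mul_one, map_sub, PowerSeries.coeff_mul_X_pow']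
  refine ⟨fun n hn => ?_, ?_, ?_⟩
  · rw [h1, hf n hn]
    by_cases h : a ≤ n
    · rw [if_pos h, hf (n - a), sub_zero]
      intro h2
      apply hn
      have h3 := S.add_mem h2 haS
      rwa [Nat.sub_add_cancel h] at h3
    · rw [if_neg h, sub_zero]
  · rw [h1, if_neg (by omega), sub_zero]
  · rw [h1]
    by_cases h : a = x
    · rw [if_pos h, if_pos h.le, h, Nat.sub_self]
    · rw [if_neg h, sub_zero]
      by_cases h2 : a ≤ x
      · rw [if_pos h2, hf (x - a), sub_zero]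
        intro h3
        rcases hat _ h3 _ haS (Nat.sub_add_cancel h2) with h4 | h4 <;> omega
      · rw [if_neg h2, sub_zero]

theorem R1b_prod (S : AddSubmonoid ℕ) (x : ℕ)
    (hat : ∀ s ∈ S, ∀ t ∈ S, s + t = x → s = 0 ∨ t = 0) {α : Type} (X : Finset α) (a : α → ℕ)
    (ha : ∀ i ∈ X, 0 < a i ∧ a i ∈ S) (f : PowerSeries ℤ)
    (hf : ∀ n, n ∉ S → PowerSeries.coeff n f = 0) :
    (∀ n, n ∉ S → PowerSeries.coeff n
      (f * ∏ i ∈ X, (1 - (PowerSeries.X : PowerSeries ℤ) ^ a i)) = 0) ∧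
    PowerSeries.coeff 0 (f * ∏ i ∈ X, (1 - (PowerSeries.X : PowerSeries ℤ) ^ a i)) =
      PowerSeries.coeff 0 f ∧
    PowerSeries.coeff x (f * ∏ i ∈ X, (1 - (PowerSeries.X : PowerSeries ℤ) ^ a i)) =
      PowerSeries.coeff x f - ((X.filter fun i => a i = x).card : ℤ) * PowerSeries.coeff 0 f := by
  classical
  induction X using Finset.induction_on with
  | empty => exact ⟨by simpa using hf, by simp, by simp⟩
  | insert i X hi ih =>
    obtain ⟨h1, h2, h3⟩ := ih fun j hj => ha j (Finset.mem_insert_of_mem hj)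
    obtain ⟨h4, h5⟩ := ha i (Finset.mem_insert_self _ _)
    obtain ⟨h6, h7, h8⟩ := R1b_step S _ h1 (a i) h4 h5 x hat
    have e : f * ∏ i ∈ insert i X, (1 - (PowerSeries.X : PowerSeries ℤ) ^ a i) =
        (f * ∏ i ∈ X, (1 - (PowerSeries.X : PowerSeries ℤ) ^ a i)) *
          (1 - PowerSeries.X ^ a i) := by
      rw [Finset.prod_insert hi]
      ring
    rw [e]
    refine ⟨h6, h7.trans h2, ?_⟩
    rw [h8, h3, h2, Finset.filter_insert]
    by_cases h : a i = x
    · rw [if_pos h, if_pos h, Finset.card_insert_of_notMem]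
      · push_cast
        ring
      · intro h9
        exact hi (Finset.mem_filter.1 h9).1
    · rw [if_neg h, if_neg h, sub_zero]

/-- Every atom `x` of `S` is an `a i` (all `a i, b j ∈ S`, positive): the coefficient at `x` on the left is
`1 - #{i | a i = x}` (`x = ΣW + s` with `s ∈ S` is only possible for `W = ∅` or `W = {i}`, `s = 0`), on the right
`- #{j | b j = x} ≤ 0`. -/
theorem atom_is_den {α β : Type} (S : AddSubmonoid ℕ) (X : Finset α) (Y : Finset β) (a : α → ℕ)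
    (b : β → ℕ) (ha : ∀ i ∈ X, 0 < a i ∧ a i ∈ S) (hb : ∀ j ∈ Y, 0 < b j ∧ b j ∈ S)
    (h : HS S * ∏ i ∈ X, (1 - (PowerSeries.X : PowerSeries ℤ) ^ a i) =
      ∏ j ∈ Y, (1 - (PowerSeries.X : PowerSeries ℤ) ^ b j)) (x : ℕ) (hx : x ∈ S) (hx0 : x ≠ 0)
    (hat : ∀ s ∈ S, ∀ t ∈ S, s + t = x → s = 0 ∨ t = 0) : ∃ i ∈ X, a i = x := by
  classical
  by_contra hcon
  push Not at hcon
  have hHS : ∀ n, PowerSeries.coeff n (HS S) = if n ∈ S then 1 else 0 := by
    intro n
    unfold HS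
    rw [PowerSeries.coeff_mk]
  obtain ⟨-, -, h1⟩ := R1b_prod S x hat X a ha (HS S) (by
    intro n hn
    rw [hHS, if_neg hn])
  obtain ⟨-, -, h2⟩ := R1b_prod S x hat Y b hb 1 (by
    intro n hn
    rw [PowerSeries.coeff_one, if_neg]
    rintro rfl
    exact hn S.zero_mem)
  have h3 : X.filter (fun i => a i = x) = ∅ := by
    rw [Finset.filter_eq_empty_iff]
    intro i hi
    exact hcon i hi
  rw [one_mul, ← h, h1, h3, hHS, if_pos hx, PowerSeries.coeff_one, if_neg hx0,
    PowerSeries.coeff_one, if_pos rfl] at h2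
  simp only [Finset.card_empty, Nat.cast_zero, zero_mul, sub_zero, zero_sub, mul_one] at h2
  have h4 : (0 : ℤ) ≤ ((Y.filter fun j => b j = x).card : ℤ) := Int.natCast_nonneg _
  omega

end Pool.Agent.LibCov74
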