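import Pool.Agent.LibCov74.A2
import Pool.Agent.LibVol74.M1
import Pool.Agent.LibCov74.R1a
import Pool.Agent.LibCov74.R1b

/-!
# From a product formula to the data
-/

set_option autoImplicit false

namespace Pool.Agent.LibCov74

open Finset
open Pool.Agent.LibVol74 (HS)

private theorem R1c_ne {c : ℕ} (hc : 0 < c) :
    (1 - (PowerSeries.X : PowerSeries ℤ) ^ c) ≠ 0 := by
  intro h
  have h1 := congrArg (PowerSeries.coeff 0) h
  rw [map_sub, map_zero, PowerSeries.coeff_X_pow, if_neg hc.ne, PowerSeries.coeff_one,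
    if_pos rfl] at h1
  exact absurd h1 (by norm_num)

/-- a submonoid of the natural numbers is generated by every set which contains its atoms -/
private theorem R1c_gen (S : AddSubmonoid ℕ) (T : Set ℕ)
    (h : ∀ x ∈ S, x ≠ 0 → (∀ s ∈ S, ∀ t ∈ S, s + t = x → s = 0 ∨ t = 0) → x ∈ T) :
    ∀ x : ℕ, x ∈ S → x ∈ AddSubmonoid.closure T := by
  intro x
  induction x using Nat.strong_induction_on with
  | _ x ih =>
    intro hx
    by_cases h0 : x = 0
    · rw [h0]
      exact zero_mem _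
    · by_cases hat : ∀ s ∈ S, ∀ t ∈ S, s + t = x → s = 0 ∨ t = 0
      · exact AddSubmonoid.subset_closure (h x hx h0 hat)
      · push Not at hat
        obtain ⟨s, hs, t, ht, hst, hs0, ht0⟩ := hat
        rw [← hst]
        exact add_mem (ih s (by omega) hs) (ih t (by omega) ht)

/-- Reduction to the data, by induction on `n`: if some `b j = a i`, cancel `1 - z^{a i}` on both sides
(`Fin.succAbove`, `Fin.prod_univ_succAbove`; power series over `ℤ` have no zero divisors). Otherwise
`all_mem`, `atom_is_den` and the fact that `S` is generated by its atoms (proof of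
`LibVol74.closure_min`). -/
theorem exists_dt (S : AddSubmonoid ℕ) (hS : ((S : Set ℕ)ᶜ).Finite) (n : ℕ) :
    ∀ (a : Fin (n + 1) → ℕ) (b : Fin n → ℕ), (∀ i, 0 < a i) → (∀ j, 0 < b j) →
    HS S * ∏ i, (1 - (PowerSeries.X : PowerSeries ℤ) ^ a i) =
      ∏ j, (1 - (PowerSeries.X : PowerSeries ℤ) ^ b j) →
    ∃ (m : ℕ) (D : Dt (Fin (m + 1)) (Fin m)), m ≤ n ∧ D.S = S := by
  induction n with
  | zero =>
    intro a b ha hb h
    have hd : ∀ i ∈ (univ : Finset (Fin 1)), ∀ j ∈ (univ : Finset (Fin 0)), b j ≠ a i :=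
      fun i _ j _ => j.elim0
    obtain ⟨h1, h2⟩ := all_mem S univ univ a b (fun i _ => ha i) (fun j _ => hb j) hd h
    refine ⟨0, ⟨S, hS, a, b, ha, hb, ?_, by simp, fun i j => j.elim0, h⟩, le_rfl, rfl⟩
    refine le_antisymm ?_ fun x hx => ?_
    · rw [AddSubmonoid.closure_le]
      rintro _ ⟨i, rfl⟩
      exact h1 i (mem_univ i)
    · refine R1c_gen S _ (fun x hx hx0 hat => ?_) x hx
      obtain ⟨i, -, hi⟩ := atom_is_den S univ univ a b (fun i hi => ⟨ha i, h1 i hi⟩)
        (fun j hj => ⟨hb j, h2 j hj⟩) h x hx hx0 hat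
      exact ⟨i, hi⟩
  | succ n ih =>
    intro a b ha hb h
    by_cases hc : ∃ i j, b j = a i
    · obtain ⟨i, j, hij⟩ := hc
      have e1 : ∏ k, (1 - (PowerSeries.X : PowerSeries ℤ) ^ a k) =
          (1 - (PowerSeries.X : PowerSeries ℤ) ^ a i) *
            ∏ k, (1 - (PowerSeries.X : PowerSeries ℤ) ^ a (i.succAbove k)) :=
        Fin.prod_univ_succAbove _ i
      have e2 : ∏ k, (1 - (PowerSeries.X : PowerSeries ℤ) ^ b k) =
          (1 - (PowerSeries.X : PowerSeries ℤ) ^ b j) *
            ∏ k, (1 - (PowerSeries.X : PowerSeries ℤ) ^ b (j.succAbove k)) :=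
        Fin.prod_univ_succAbove _ j
      rw [e1, e2, hij, mul_left_comm] at h
      have h1 := mul_left_cancel₀ (R1c_ne (ha i)) h
      obtain ⟨m, D, hm, hD⟩ := ih (fun k => a (i.succAbove k)) (fun k => b (j.succAbove k))
        (fun k => ha _) (fun k => hb _) h1
      exact ⟨m, D, hm.trans (Nat.le_succ n), hD⟩
    · push Not at hc
      obtain ⟨h1, h2⟩ := all_mem S univ univ a b (fun i _ => ha i) (fun j _ => hb j)
        (fun i _ j _ => hc i j) h
      refine ⟨n + 1, ⟨S, hS, a, b, ha, hb, ?_, by simp, hc, h⟩, le_rfl, rfl⟩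
      refine le_antisymm ?_ fun x hx => ?_
      · rw [AddSubmonoid.closure_le]
        rintro _ ⟨i, rfl⟩
        exact h1 i (mem_univ i)
      · refine R1c_gen S _ (fun x hx hx0 hat => ?_) x hx
        obtain ⟨i, -, hi⟩ := atom_is_den S univ univ a b (fun i hi => ⟨ha i, h1 i hi⟩)
          (fun j hj => ⟨hb j, h2 j hj⟩) h x hx hx0 hat
        exact ⟨i, hi⟩

end Pool.Agent.LibCov74
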