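import Pool.Agent.LibCov74.H2b
import Pool.Agent.LibCov74.R1c
import Pool.Agent.LibTP76.P3

/-!
# At most six denominators
-/

set_option autoImplicit false

namespace Pool.Agent.LibCov74

open Finset

theorem result6 (S : AddSubmonoid ℕ) (hS : ((S : Set ℕ)ᶜ).Finite) (e : ℕ) (g : Fin e → ℕ)
    (hmono : StrictMono g)
    (hg : Set.range g = {x : ℕ | x ∈ S ∧ x ≠ 0 ∧ ∀ a ∈ S, ∀ b ∈ S, a + b = x → a = 0 ∨ b = 0})
    (n : ℕ) (hn : n ≤ 5) (a : Fin (n + 1) → ℕ) (b : Fin n → ℕ) (ha : ∀ i, 0 < a i)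
    (hb : ∀ j, 0 < b j)
    (h : (1 - (1 - Polynomial.X) * ∑ n ∈ hS.toFinset, Polynomial.X ^ n : Polynomial ℤ) *
        ∏ i, (1 - Polynomial.X ^ a i) = (1 - Polynomial.X) * ∏ j, (1 - Polynomial.X ^ b j)) :
    ∃ s : Finset (MvPolynomial (Fin e) ℚ), s.card ≤ e - 1 ∧
      Ideal.span (s : Set (MvPolynomial (Fin e) ℚ))
        = RingHom.ker (MvPolynomial.aeval (R := ℚ)
            (fun i : Fin e => (Polynomial.X : Polynomial ℚ) ^ g i)) := by
  obtain ⟨m, D, hm, rfl⟩ := exists_dt S hS n a b ha hb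
    (Pool.Agent.LibVol74.series_of_poly S hS a b h)
  have hci := ci_six D (by simp; omega)
  exact Pool.Agent.LibTP76.ideal_of_ci D.S hci e g hmono hg

end Pool.Agent.LibCov74
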