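import Pool.Agent.LibCov74.S3

/-!
# STAT
-/

set_option autoImplicit false

namespace Pool.Agent.LibCov74

open Finset

variable {α β : Type} [DecidableEq α] [DecidableEq β]

omit [DecidableEq α] [DecidableEq β] in
theorem S4_mem_EE (C : Finset β) (own : β → Set (Finset α)) (X : Finset α) (c : β) :
    c ∈ EE C own X ↔ c ∈ C ∧ X ∈ own c := by
  classical
  simp only [EE, mem_filter]

/-- every nonempty family of labels touches more vertices than it has elements: a matching pair
exists (Hall) -/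
theorem S4_exists_mp (O : Finset α) (C : Finset β) (N : β → Finset α)
    (hN : ∀ c ∈ C, N c ⊆ O) (hcard : C.card + 1 = O.card)
    (H : ∀ O', O' ⊆ O → O'.Nonempty → (C.filter (fun c => N c ⊆ O')).card + 1 ≤ O'.card) :
    ∃ x μ, MP O C N x μ := by
  have hO : O.Nonempty := by
    rw [← card_pos]
    omega
  obtain ⟨x, hx⟩ := hO
  have hall : ∀ s : Finset {c // c ∈ C}, s.card ≤ (s.biUnion fun c => (N c.1).erase x).card := by
    intro s
    rcases s.eq_empty_or_nonempty with rfl | hs
    · simp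
    set T : Finset α := s.biUnion fun c => N c.1 with hT
    have hTO : T ⊆ O := by
      intro y hy
      obtain ⟨c, _, hyc⟩ := mem_biUnion.1 hy
      exact hN c.1 c.2 hyc
    have himg : (s.image Subtype.val).card = s.card :=
      card_image_of_injective s Subtype.val_injective
    have hTne : T.Nonempty := by
      by_contra hne
      rw [not_nonempty_iff_eq_empty] at hne
      have h1 := H {x} (singleton_subset_iff.2 hx) (singleton_nonempty x)
      have h2 : s.image Subtype.val ⊆ C.filter (fun c => N c ⊆ {x}) := by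
        intro c hc
        obtain ⟨d, hd, rfl⟩ := mem_image.1 hc
        refine mem_filter.2 ⟨d.2, fun y hy => ?_⟩
        have h3 : y ∈ T := mem_biUnion.2 ⟨d, hd, hy⟩
        rw [hne] at h3
        exact absurd h3 (notMem_empty y)
      have h3 := card_le_card h2
      rw [himg] at h3
      have h4 := hs.card_pos
      rw [card_singleton] at h1
      omega
    have h1 := H T hTO hTne
    have h2 : s.image Subtype.val ⊆ C.filter (fun c => N c ⊆ T) := by
      intro c hc
      obtain ⟨d, hd, rfl⟩ := mem_image.1 hc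
      exact mem_filter.2 ⟨d.2, fun y hy => mem_biUnion.2 ⟨d, hd, hy⟩⟩
    have h3 := card_le_card h2
    rw [himg] at h3
    have h4 : T.erase x ⊆ s.biUnion fun c => (N c.1).erase x := by
      intro y hy
      obtain ⟨hyx, hyT⟩ := mem_erase.1 hy
      obtain ⟨c, hc, hyc⟩ := mem_biUnion.1 hyT
      exact mem_biUnion.2 ⟨c, hc, mem_erase.2 ⟨hyx, hyc⟩⟩
    have h5 := card_le_card h4
    have h6 := pred_card_le_card_erase (s := T) (a := x)
    omega
  obtain ⟨g, hg, hgm⟩ := (all_card_le_biUnion_card_iff_exists_injective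
    (fun c : {c // c ∈ C} => (N c.1).erase x)).1 hall
  obtain ⟨ρ, hval⟩ : ∃ ρ : β → α, ∀ c (h : c ∈ C), ρ c = g ⟨c, h⟩ :=
    ⟨fun c => if h : c ∈ C then g ⟨c, h⟩ else x, fun c h => dif_pos h⟩
  refine ⟨x, ρ, hx, ?_, ?_⟩
  · intro c hc
    rw [hval c hc]
    have h1 := mem_erase.1 (hgm ⟨c, hc⟩)
    exact ⟨hN c hc h1.2, h1.2, h1.1⟩
  · intro c hc c' hc' h
    rw [hval c hc, hval c' hc'] at h
    exact congrArg Subtype.val (hg h)

/-- (STAT), helper27. By Hall (`H`: the set `C'` of labels touches at least `C'.card + 1` vertices) there is a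
matching pair `(x, μ)` of `(O, C)`. Take one, and its closure `X`, with `X.card` minimal among all
matching pairs. `IsCl.card`, and `μ` matches `C \ EE X` bijectively onto `O \ X` (its inverse is `f`). For the
claim on `Z` use `strong_claim` for `(X, EE C own X)` with `N' c = N c ∩ X`
(`OwnSys` for `N'` fails in general for labels or sets outside `X`: use
`own' c = {W | W ∩ X ∈ own c}`; `EE` is the same on subsets of `X`): `hcl`: a matching pair `(z, μ')` of `(X, EE X)` together
with `μ` on `C \ EE X` is a matching pair `(z, μ'')` of `(O, C)`; if `W ⊆ X` is closed for `(z, μ', EE X)`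
it is closed for `(z, μ'', C)` (labels owning `W` own `X`), so the closure of `(z, μ'')` is inside `W`, and by
minimality `X.card ≤ W.card`, so `W = X`; a general `W` is replaced by `W ∩ X`. -/
theorem stat [Nonempty β] (O : Finset α) (C : Finset β) (N : β → Finset α)
    (own : β → Set (Finset α))
    (hs : OwnSys N own) (hN : ∀ c ∈ C, N c ⊆ O) (hcard : C.card + 1 = O.card)
    (H : ∀ O', O' ⊆ O → O'.Nonempty → (C.filter (fun c => N c ⊆ O')).card + 1 ≤ O'.card) :
    ∃ X, X ⊆ O ∧ X.Nonempty ∧ (EE C own X).card + 1 = X.card ∧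
      (∀ Z, Z ⊆ X → Z.Nonempty → Z ≠ X → Z.card ≤ (EE C own Z).card) ∧
      ∃ f : α → β, (∀ x ∈ O \ X, f x ∈ C \ EE C own X ∧ x ∈ N (f x)) ∧
        Set.InjOn f ((O \ X : Finset α) : Set α) := by
  classical
  -- the smallest closure of a matching pair
  have hex : ∃ n : ℕ, ∃ x μ X, MP O C N x μ ∧ X ⊆ O ∧ IsCl C own x μ X ∧ X.card = n := by
    obtain ⟨x, μ, h⟩ := S4_exists_mp O C N hN hcard H
    obtain ⟨X, hXO, hc⟩ := exists_cl hs h
    exact ⟨X.card, x, μ, X, h, hXO, hc, rfl⟩
  obtain ⟨x, μ, X, h, hXO, hc, hXc⟩ := Nat.find_spec hex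
  have hmin : ∀ x' μ' X', MP O C N x' μ' → X' ⊆ O → IsCl C own x' μ' X' → X.card ≤ X'.card := by
    intro x' μ' X' h' hXO' hc'
    rw [hXc]
    exact Nat.find_min' hex ⟨x', μ', X', h', hXO', hc', rfl⟩
  have hEc := IsCl.card hs h hc
  have hEi := IsCl.image hs h hc
  have hES : EE C own X ⊆ C := fun c hc' => ((S4_mem_EE C own X c).1 hc').1
  -- the labels outside `EE X` are matched outside `X`
  have hout : ∀ c ∈ C, c ∉ EE C own X → μ c ∉ X := by
    intro c hcC hcE hμ
    have h1 : μ c ∈ X.erase x := mem_erase.2 ⟨(h.mem c hcC).2.2, hμ⟩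
    rw [← hEi] at h1
    obtain ⟨c', hc', hcc⟩ := mem_image.1 h1
    have h2 : c' = c := h.inj (hES hc') hcC hcc
    exact hcE (h2 ▸ hc')
  have hin : ∀ c ∈ EE C own X, μ c ∈ X ∧ μ c ≠ x := by
    intro c hcE
    have h1 : μ c ∈ (EE C own X).image μ := mem_image_of_mem μ hcE
    rw [hEi] at h1
    exact ⟨(mem_erase.1 h1).2, (mem_erase.1 h1).1⟩
  refine ⟨X, hXO, ⟨x, hc.mem⟩, hEc, ?_, ?_⟩
  · intro Z hZ hZne hZX
    set E : Finset β := EE C own X with hE
    set N' : β → Finset α := fun c => N c ∩ X with hN'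
    set own' : β → Set (Finset α) := fun c => {W | W ∩ X ∈ own c} with hown'
    have hs' : OwnSys N' own' := by
      refine ⟨fun c W W' hW hWo => ?_, fun c W hW => ?_⟩
      · exact hs.up c (W ∩ X) (W' ∩ X) (inter_subset_inter_right hW) hWo
      · obtain ⟨U, hU, hUne, hUW, hUN⟩ := hs.gen c (W ∩ X) hW
        have hUX : U ⊆ X := hUW.trans inter_subset_right
        refine ⟨U, ?_, hUne, hUW.trans inter_subset_left, subset_inter hUN hUX⟩
        change U ∩ X ∈ own c
        rw [inter_eq_left.2 hUX]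
        exact hU
    have hown : ∀ c ∈ E, X ∈ own' c := by
      intro c hcE
      change X ∩ X ∈ own c
      rw [inter_self]
      exact ((S4_mem_EE C own X c).1 hcE).2
    have hex' : ∃ x μ, MP X E N' x μ := by
      refine ⟨x, μ, hc.mem, fun c hcE => ⟨(hin c hcE).1, ?_, (hin c hcE).2⟩, ?_⟩
      · exact mem_inter.2 ⟨(h.mem c (hES hcE)).2.1, (hin c hcE).1⟩
      · exact h.inj.mono (fun c hcE => hES hcE)
    have hcl : ∀ x μ, MP X E N' x μ → ∀ W, x ∈ W → (∀ c ∈ E, W ∈ own' c → μ c ∈ W) →
        X ⊆ W := by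
      intro z ν hν W hzW hW
      obtain ⟨ρ, hνE, hνn⟩ : ∃ ρ : β → α, (∀ c ∈ E, ρ c = ν c) ∧ ∀ c, c ∉ E → ρ c = μ c :=
        ⟨fun c => if c ∈ E then ν c else μ c, fun c hcE => if_pos hcE, fun c hcE => if_neg hcE⟩
      have hmp : MP O C N z ρ := by
        refine ⟨hXO hν.hx, fun c hcC => ?_, ?_⟩
        · by_cases hcE : c ∈ E
          · rw [hνE c hcE]
            have h1 := hν.mem c hcE
            exact ⟨hXO h1.1, (mem_inter.1 h1.2.1).1, h1.2.2⟩
          · rw [hνn c hcE]
            have h1 := h.mem c hcC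
            refine ⟨h1.1, h1.2.1, fun h2 => hout c hcC hcE ?_⟩
            rw [h2]
            exact hν.hx
        · intro c hcC c' hcC' hcc
          by_cases hcE : c ∈ E <;> by_cases hcE' : c' ∈ E
          · rw [hνE c hcE, hνE c' hcE'] at hcc
            exact hν.inj hcE hcE' hcc
          · rw [hνE c hcE, hνn c' hcE'] at hcc
            exact absurd (hcc ▸ (hν.mem c hcE).1) (hout c' hcC' hcE')
          · rw [hνn c hcE, hνE c' hcE'] at hcc
            exact absurd (hcc ▸ (hν.mem c' hcE').1) (hout c hcC hcE)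
          · rw [hνn c hcE, hνn c' hcE'] at hcc
            exact h.inj hcC hcC' hcc
      obtain ⟨Y, hYO, hYc⟩ := exists_cl hs hmp
      have hYW : Y ⊆ W ∩ X := by
        refine hYc.min (W ∩ X) (mem_inter.2 ⟨hzW, hν.hx⟩) fun c hcC hcW => ?_
        have hcE : c ∈ E := (S4_mem_EE C own X c).2 ⟨hcC, hs.up c _ X inter_subset_right hcW⟩
        rw [hνE c hcE]
        exact mem_inter.2 ⟨hW c hcE hcW, (hν.mem c hcE).1⟩
      have h1 := hmin z _ Y hmp hYO hYc
      have h2 : X ⊆ W ∩ X := by
        have h3 : W ∩ X = X := eq_of_subset_of_card_le inter_subset_right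
          (h1.trans (card_le_card hYW))
        rw [h3]
      exact h2.trans inter_subset_left
    refine (strong_claim X E N' own' hs' hown hEc hex' hcl Z hZ hZne hZX).trans
      (card_le_card fun c hcE => ?_)
    obtain ⟨h1, h2⟩ := (S4_mem_EE E own' Z c).1 hcE
    refine (S4_mem_EE C own Z c).2 ⟨hES h1, ?_⟩
    have h3 : Z ∩ X ∈ own c := h2
    rw [inter_eq_left.2 hZ] at h3
    exact h3
  · -- the inverse matching
    have himg : (C \ EE C own X).image μ = O \ X := by
      apply eq_of_subset_of_card_le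
      · intro y hy
        obtain ⟨c, hcc, rfl⟩ := mem_image.1 hy
        obtain ⟨hcC, hcE⟩ := mem_sdiff.1 hcc
        exact mem_sdiff.2 ⟨(h.mem c hcC).1, hout c hcC hcE⟩
      · rw [card_image_of_injOn (h.inj.mono (fun c hcc => (mem_sdiff.1 hcc).1)),
          card_sdiff_of_subset hXO, card_sdiff_of_subset hES]
        omega
    have hch : ∀ y : α, ∃ c : β, y ∈ O \ X → c ∈ C \ EE C own X ∧ μ c = y := by
      intro y
      by_cases hy : y ∈ O \ X
      · have h1 := hy
        rw [← himg] at h1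
        obtain ⟨c, hcc, hcy⟩ := mem_image.1 h1
        exact ⟨c, fun _ => ⟨hcc, hcy⟩⟩
      · exact ⟨Classical.arbitrary β, fun h1 => absurd h1 hy⟩
    choose f hf using hch
    refine ⟨f, fun y hy => ⟨(hf y hy).1, ?_⟩, fun y hy y' hy' hyy => ?_⟩
    · have h1 := (h.mem (f y) (mem_sdiff.1 (hf y hy).1).1).2.1
      rw [(hf y hy).2] at h1
      exact h1
    · rw [← (hf y hy).2, ← (hf y' hy').2, hyy]

end Pool.Agent.LibCov74
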