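import Pool.Agent.LibCov74.X1
import Pool.Agent.LibCov74.S4

/-!
# Defect one is impossible, for any number of generators
-/

set_option autoImplicit false

namespace Pool.Agent.LibCov74

open Finset
open Pool.Agent.LibTP76 (CI)

variable {ι κ : Type} [Fintype ι] [Fintype κ] [DecidableEq ι] [DecidableEq κ]

/-- `stat` for `O = Zᶜ`, `C = (D.P Z)ᶜ`, `N j = {i ∈ Zᶜ | D.Tch i (D.b j)}`,
`own j = {X | D.b j ∈ Mon D.g (X ∩ Zᶜ)}`. `OwnSys`: the generating set is the support of a factorization (for
`j` with `b j > 0` always). `hcard`: `Top.card_compl` with `m = 0`. `H`: for `O' ≠ Zᶜ` the labels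
`j ∉ D.P Z` with `N j ⊆ O'` are those of `D.P (Z ∪ O') \ D.P Z`, and `Top.lt` for `Z ∪ O'`, `Top.eq`; for
`O' = Zᶜ` it is `hcard`. The result: `X ⊆ Zᶜ` nonempty, `EE = D.E X` (a label in `⟨X⟩` is touched by an element of
`X`, so it is not in `D.P Z`), `Zᶜ \ X` is matched into `(D.P Z)ᶜ \ D.E X`: `good_of_match`; with `Top.good` and
`good_E` (`X ≠ univ` since `Z` is nonempty) and `Good.union` twice: `Good univ univ` (`Good.mono`): contradiction to
`not_good_univ`. -/
theorem Top.false_zero {D : Dt ι κ} {Z : Finset ι} (t : Top D Z 0) : False := by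
  classical
  obtain ⟨O, hO⟩ : ∃ O : Finset ι, O = Zᶜ := ⟨_, rfl⟩
  obtain ⟨C, hC⟩ : ∃ C : Finset κ, C = (D.P Z)ᶜ := ⟨_, rfl⟩
  let N : κ → Finset ι := fun j => O.filter (fun i => D.Tch i (D.b j))
  let own : κ → Set (Finset ι) := fun j => {X | D.b j ∈ Mon D.g (X ∩ O)}
  have hmO : ∀ i, i ∈ O ↔ i ∉ Z := fun i => by rw [hO, Finset.mem_compl]
  have hF : ∀ (j : κ) (X : Finset ι), D.b j ∈ Mon D.g X ↔ ∃ u ∈ D.F j, u ⊆ X := fun j X => by
    rw [← mem_E D X j, mem_E_iff]
  have hFne : ∀ j u, u ∈ D.F j → u.Nonempty := by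
    rintro j u ⟨x, hx, rfl⟩
    by_contra hne
    rw [Finset.not_nonempty_iff_eq_empty, Finset.filter_eq_empty_iff] at hne
    have h0 : ∑ i, x i * D.g i = 0 := Finset.sum_eq_zero fun i _ => by
      have h1 : x i = 0 := not_not.1 (hne (Finset.mem_univ i))
      rw [h1, zero_mul]
    have := D.bpos j
    omega
  have hs : OwnSys N own := by
    refine ⟨fun c X X' hXX' hX =>
      Mon_mono D.g (Finset.inter_subset_inter_right hXX') hX, fun c X hX => ?_⟩
    obtain ⟨u, hu, huX⟩ := (hF c _).1 hX
    refine ⟨u, ?_, hFne c u hu, huX.trans Finset.inter_subset_left, ?_⟩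
    · show D.b c ∈ Mon D.g (u ∩ O)
      rw [Finset.inter_eq_left.2 (huX.trans Finset.inter_subset_right)]
      exact (hF c u).2 ⟨u, hu, subset_rfl⟩
    · intro i hi
      exact Finset.mem_filter.2
        ⟨Finset.inter_subset_right (huX hi), (tch_iff D i c).2 ⟨u, hu, hi⟩⟩
  have hcard : C.card + 1 = O.card := by
    have := t.card_compl
    rw [hC, hO]
    omega
  have H : ∀ O', O' ⊆ O → O'.Nonempty → (C.filter (fun c => N c ⊆ O')).card + 1 ≤ O'.card := by
    intro O' hO' hne
    by_cases he : O' = O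
    · rw [he, ← hcard]
      exact Nat.add_le_add_right (Finset.card_le_card (Finset.filter_subset _ _)) 1
    · have hdj : Disjoint Z O' := by
        rw [Finset.disjoint_left]
        intro i hi hi'
        exact (hmO i).1 (hO' hi') hi
      have hss : Z ⊂ Z ∪ O' := by
        refine Finset.ssubset_iff_subset_ne.2 ⟨Finset.subset_union_left, fun h => ?_⟩
        obtain ⟨i, hi⟩ := hne
        have : i ∈ Z := by
          rw [h]
          exact Finset.mem_union_right _ hi
        exact (hmO i).1 (hO' hi) this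
      have hnu : Z ∪ O' ≠ Finset.univ := by
        intro h
        apply he
        refine Finset.Subset.antisymm hO' fun i hi => ?_
        have : i ∈ Z ∪ O' := by
          rw [h]
          exact Finset.mem_univ i
        rcases Finset.mem_union.1 this with h1 | h1
        · exact absurd h1 ((hmO i).1 hi)
        · exact h1
      have h1 := t.lt (Z ∪ O') hss hnu
      rw [Finset.card_union_of_disjoint hdj] at h1
      have h2 : C.filter (fun c => N c ⊆ O') ⊆ D.P (Z ∪ O') \ D.P Z := by
        intro c hc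
        obtain ⟨hcC, hcN⟩ := Finset.mem_filter.1 hc
        rw [hC, Finset.mem_compl] at hcC
        refine Finset.mem_sdiff.2 ⟨(mem_P D _ _).2 fun i hi ht => hi ?_, hcC⟩
        by_cases hiZ : i ∈ Z
        · exact Finset.mem_union_left _ hiZ
        · exact Finset.mem_union_right _ (hcN (Finset.mem_filter.2 ⟨(hmO i).2 hiZ, ht⟩))
      have h3 := Finset.card_le_card h2
      have h4 := Finset.card_sdiff_add_card_eq_card (P_mono D hss.1)
      have h5 := t.eq
      omega
  haveI : Nonempty κ := ⟨t.P_nonempty.choose⟩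
  obtain ⟨X, hXO, hXne, hX1, hX2, f, hf, hfi⟩ := stat O C N own hs
    (fun c _ => Finset.filter_subset _ _) hcard H
  have hEE : ∀ W, W ⊆ O → EE C own W = D.E W := by
    intro W hW
    ext c
    rw [mem_E]
    unfold EE
    rw [Finset.mem_filter]
    have hWO : W ∩ O = W := Finset.inter_eq_left.2 hW
    constructor
    · rintro ⟨_, h⟩
      have h' : D.b c ∈ Mon D.g (W ∩ O) := h
      rwa [hWO] at h'
    · intro h
      refine ⟨?_, ?_⟩
      · obtain ⟨i, hi, ht⟩ := tch_of_mem_Mon D h (D.bpos c)
        rw [hC, Finset.mem_compl]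
        intro hP
        exact (mem_P D _ _).1 hP i ((hmO i).1 (hW hi)) ht
      · show D.b c ∈ Mon D.g (W ∩ O)
        rwa [hWO]
  rw [hEE X hXO] at hX1 hf
  have hXu : X ≠ Finset.univ := by
    intro h
    obtain ⟨i, hi⟩ := t.ne
    have : i ∈ X := by
      rw [h]
      exact Finset.mem_univ i
    exact (hmO i).1 (hXO this) hi
  have hg1 : D.Good X (D.E X) := good_E D X hXu hXne hX1 fun W hW hWne hWX => by
    rw [← hEE W (hW.trans hXO)]
    exact hX2 W hW hWne hWX
  have hg2 : D.Good (O \ X) (C \ D.E X) := by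
    refine good_of_match D _ _ f (fun i hi => ?_) hfi
    exact ⟨(hf i hi).1, (Finset.mem_filter.1 (hf i hi).2).2⟩
  have hg3 := t.good
  have hEC : D.E X ⊆ C := by
    rw [← hEE X hXO]
    exact Finset.filter_subset _ _
  have hg4 : D.Good (X ∪ O \ X) (D.E X ∪ C \ D.E X) :=
    Good.union D Finset.disjoint_sdiff hg1 hg2
  rw [Finset.union_sdiff_of_subset hXO, Finset.union_sdiff_of_subset hEC] at hg4
  have hg5 : D.Good (Z ∪ O) (D.P Z ∪ C) := by
    refine Good.union D ?_ hg3 hg4
    rw [hC]
    exact disjoint_compl_right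
  rw [hO, hC, Finset.union_compl, Finset.union_compl] at hg5
  exact not_good_univ D hg5

/-- **General clause.** If no nonempty proper set `V` of generators has more than `V.card` pure labels then `S`
is a complete intersection (`exists_top`, `Top.false_zero`). -/
theorem ci_of_defect (D : Dt ι κ)
    (h : ∀ V : Finset ι, V.Nonempty → V ≠ Finset.univ → (D.P V).card ≤ V.card) : CI D.S := by
  by_contra hci
  obtain ⟨Z, m, t⟩ := exists_top D hci
  have h1 := h Z t.ne t.ne'
  have h2 := t.eq
  have hm : m = 0 := by omega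
  subst hm
  exact t.false_zero

end Pool.Agent.LibCov74
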