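import Pool.Agent.LibCov74.Final6
import Pool.Agent.LibCov74.X2

/-!
# At most six denominators, or no set of denominators with too many pure labels
-/

set_option autoImplicit false

namespace Pool.Agent.LibCov74

open Finset
open Pool.Agent.LibVol74 (HS)

private theorem FinalG_gen (S : AddSubmonoid ℕ) (T : Set ℕ)
    (h : ∀ x ∈ S, x ≠ 0 → (∀ s ∈ S, ∀ t ∈ S, s + t = x → s = 0 ∨ t = 0) → x ∈ T) :
    ∀ x : ℕ, x ∈ S → x ∈ AddSubmonoid.closure T := by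
  intro x
  induction x using Nat.strong_induction_on with
  | _ x ih =>
    intro hx
    by_cases h0 : x = 0
    · rw [h0]
      exact zero_mem _
    · by_cases hat : ∀ s ∈ S, ∀ t ∈ S, s + t = x → s = 0 ∨ t = 0
      · exact AddSubmonoid.subset_closure (h x hx h0 hat)
      · push Not at hat
        obtain ⟨s, hs, t, ht, hst, hs0, ht0⟩ := hat
        rw [← hst]
        exact add_mem (ih s (by omega) hs) (ih t (by omega) ht)

/-- the data from a product formula without cancellation -/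
theorem exists_dt_disj (S : AddSubmonoid ℕ) (hS : ((S : Set ℕ)ᶜ).Finite) (n : ℕ)
    (a : Fin (n + 1) → ℕ) (b : Fin n → ℕ) (ha : ∀ i, 0 < a i) (hb : ∀ j, 0 < b j)
    (hc : ∀ i j, b j ≠ a i)
    (h : HS S * ∏ i, (1 - (PowerSeries.X : PowerSeries ℤ) ^ a i) =
      ∏ j, (1 - (PowerSeries.X : PowerSeries ℤ) ^ b j)) :
    ∃ D : Dt (Fin (n + 1)) (Fin n), D.S = S ∧ D.g = a ∧ D.b = b := by
  obtain ⟨h1, h2⟩ := all_mem S univ univ a b (fun i _ => ha i) (fun j _ => hb j)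
    (fun i _ j _ => hc i j) h
  refine ⟨⟨S, hS, a, b, ha, hb, ?_, by simp, hc, h⟩, rfl, rfl, rfl⟩
  refine le_antisymm ?_ fun x hx => ?_
  · rw [AddSubmonoid.closure_le]
    rintro _ ⟨i, rfl⟩
    exact h1 i (mem_univ i)
  · refine FinalG_gen S _ (fun x hx hx0 hat => ?_) x hx
    obtain ⟨i, -, hi⟩ := atom_is_den S univ univ a b (fun i hi => ⟨ha i, h1 i hi⟩)
      (fun j hj => ⟨hb j, h2 j hj⟩) h x hx hx0 hat
    exact ⟨i, hi⟩

theorem result_defect (S : AddSubmonoid ℕ) (hS : ((S : Set ℕ)ᶜ).Finite) (e : ℕ) (g : Fin e → ℕ)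
    (hmono : StrictMono g)
    (hg : Set.range g = {x : ℕ | x ∈ S ∧ x ≠ 0 ∧ ∀ a ∈ S, ∀ b ∈ S, a + b = x → a = 0 ∨ b = 0})
    (n : ℕ) (a : Fin (n + 1) → ℕ) (b : Fin n → ℕ) (ha : ∀ i, 0 < a i)
    (hb : ∀ j, 0 < b j) (hc : ∀ i j, b j ≠ a i)
    (h : (1 - (1 - Polynomial.X) * ∑ n ∈ hS.toFinset, Polynomial.X ^ n : Polynomial ℤ) *
        ∏ i, (1 - Polynomial.X ^ a i) = (1 - Polynomial.X) * ∏ j, (1 - Polynomial.X ^ b j))
    (hdef : ∀ V : Finset (Fin (n + 1)), V.Nonempty → V ≠ Finset.univ → ∀ J : Finset (Fin n),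
      (∀ j ∈ J, ∀ i, i ∉ V → ∀ s ∈ S, b j ≠ s + a i) → J.card ≤ V.card) :
    ∃ s : Finset (MvPolynomial (Fin e) ℚ), s.card ≤ e - 1 ∧
      Ideal.span (s : Set (MvPolynomial (Fin e) ℚ))
        = RingHom.ker (MvPolynomial.aeval (R := ℚ)
            (fun i : Fin e => (Polynomial.X : Polynomial ℚ) ^ g i)) := by
  obtain ⟨D, rfl, rfl, rfl⟩ := exists_dt_disj S hS n a b ha hb hc
    (Pool.Agent.LibVol74.series_of_poly S hS a b h)
  refine Pool.Agent.LibTP76.ideal_of_ci D.S (ci_of_defect D fun V hV hV' => ?_) e g hmono hg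
  refine hdef V hV hV' (D.P V) fun j hj i hi s hs hsj => ?_
  exact (mem_P D V j).1 hj i hi ⟨s, hs, hsj⟩

end Pool.Agent.LibCov74
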