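import Pool.Agent.LibCov74.E2b
import Pool.Agent.LibCov74.A4d

/-!
# Complements with one, two, three elements
-/

set_option autoImplicit false

namespace Pool.Agent.LibCov74

open Finset
open Pool.Agent.LibTP76 (CI)

variable {ι κ : Type} [Fintype ι] [Fintype κ] [DecidableEq ι] [DecidableEq κ]

/-- complement with one element: `(D.P Z)ᶜ` is empty by `Top.card_compl`, contradiction to
`Top.exists_label` -/
theorem Top.false_one {D : Dt ι κ} {Z : Finset ι} {m : ℕ} (t : Top D Z m) (h : (Zᶜ).card = 1) :
    False := by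
  have hcc := t.card_compl
  have h0 : ((D.P Z)ᶜ).card = 0 := by omega
  have he : (D.P Z)ᶜ = ∅ := Finset.card_eq_zero.mp h0
  have hne : (Zᶜ).Nonempty := Finset.card_pos.mp (by omega)
  obtain ⟨i, hi⟩ := hne
  obtain ⟨j, hj, -⟩ := t.exists_label (Finset.mem_compl.mp hi)
  have hj' : j ∈ (D.P Z)ᶜ := Finset.mem_compl.mpr hj
  rw [he] at hj'
  exact absurd hj' (Finset.notMem_empty j)

/-- complement `{i, k}`: by `Top.card_compl` and `Top.exists_label`, `(D.P Z)ᶜ = {y}` and
`g i, g k ∣ b y`. `ntr_pair`, `Top.not_good`, `Top.another`: contradiction. -/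
theorem Top.false_two {D : Dt ι κ} {Z : Finset ι} {m : ℕ} (t : Top D Z m) (h : (Zᶜ).card = 2) :
    False := by
  have hcc := t.card_compl
  obtain ⟨i, k, hik, hZ⟩ := Finset.card_eq_two.mp h
  have hi : i ∉ Z := by
    rw [← Finset.mem_compl, hZ]
    simp
  have hk : k ∉ Z := by
    rw [← Finset.mem_compl, hZ]
    simp
  obtain ⟨j1, hj1, hd1⟩ := t.exists_label hi
  obtain ⟨j2, hj2, hd2⟩ := t.exists_label hk
  have hpos : 0 < ((D.P Z)ᶜ).card := Finset.card_pos.mpr ⟨j1, Finset.mem_compl.mpr hj1⟩
  have hone : ((D.P Z)ᶜ).card = 1 := by omega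
  obtain ⟨y, hy⟩ := Finset.card_eq_one.mp hone
  have e1 : j1 = y := by
    have := Finset.mem_compl.mpr hj1
    rw [hy] at this
    exact Finset.mem_singleton.mp this
  have e2 : j2 = y := by
    have := Finset.mem_compl.mpr hj2
    rw [hy] at this
    exact Finset.mem_singleton.mp this
  rw [e1] at hd1
  rw [e2] at hd2
  have hng := t.not_good
  rw [hZ, hy] at hng
  have hdis : Disjoint ({i, k} : Finset ι) Z := by
    rw [← hZ]
    exact disjoint_compl_left
  obtain ⟨j, hj, hjP, -⟩ := t.another hdis (ntr_pair D.g D.b hik hd1 hd2) hng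
  have := Finset.mem_compl.mpr hjP
  rw [hy] at this
  exact hj this

/-- complement `{i, k, l}` and `(D.P Z)ᶜ = {y, y'}`, `g i, g k ∣ b y`, `l` touches `b y'`. Then
`gcd {i, k} ∣ b y'` and `g l` does not divide `b y'`.
Proof: `(l, y')` is good, so `({i, k}, {y})` is not good (`Top.not_good`, `Good.union`). `Top.another` for
`ntr_pair` gives a label not `y` and not in `D.P Z`, so it is `y'`: `gcd ∣ b y'`, `b y' ∈ ⟨i, k⟩`. If
`g l ∣ b y'`: `ntr_join` is a tree on `Zᶜ` with labels `{y, y'}`, not good: `Top.another` gives a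
contradiction. -/
theorem Top.pair {D : Dt ι κ} {Z : Finset ι} {m : ℕ} (t : Top D Z m) {i k l : ι} (hik : i ≠ k)
    (hil : i ≠ l) (hkl : k ≠ l) (hZ : Zᶜ = {i, k, l}) {y y' : κ} (hy : y ≠ y')
    (hY : (D.P Z)ᶜ = {y, y'}) (hi : D.g i ∣ D.b y) (hk : D.g k ∣ D.b y)
    (hl : D.Tch l (D.b y')) :
    Nat.gcd (D.g i) (D.g k) ∣ D.b y' ∧ ¬ D.g l ∣ D.b y' := by
  have hgl : D.Good {l} {y'} := by
    obtain ⟨s, hs, he⟩ := hl
    refine ⟨s, hs, ?_⟩
    rw [Finset.sum_singleton, Finset.sum_singleton]
    exact he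
  have hng := t.not_good
  rw [hZ, hY] at hng
  have hset : ({i, k, l} : Finset ι) = {i, k} ∪ {l} := by
    ext a
    simp only [Finset.mem_insert, Finset.mem_singleton, Finset.mem_union]
    tauto
  have hsetY : ({y, y'} : Finset κ) = {y} ∪ {y'} := by
    ext a
    simp only [Finset.mem_insert, Finset.mem_singleton, Finset.mem_union]
  have hng2 : ¬ D.Good ({i, k} : Finset ι) {y} := by
    intro hg
    apply hng
    rw [hset, hsetY]
    exact Good.union D (by
      rw [Finset.disjoint_singleton]
      exact hy) hg hgl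
  have hdis0 : Disjoint (Zᶜ) Z := disjoint_compl_left
  rw [hZ] at hdis0
  have hdis : Disjoint ({i, k} : Finset ι) Z := by
    refine Finset.disjoint_of_subset_left ?_ hdis0
    rw [hset]
    exact Finset.subset_union_left
  have htree := ntr_pair D.g D.b hik hi hk
  obtain ⟨j, hj, hjP, hjd, hjM⟩ := t.another hdis htree hng2
  have hjy : j = y' := by
    have := Finset.mem_compl.mpr hjP
    rw [hY, Finset.mem_insert, Finset.mem_singleton] at this
    rcases this with h | h
    · exact absurd (Finset.mem_singleton.mpr h) hj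
    · exact h
  rw [hjy] at hjd hjM
  constructor
  · have he : ({i, k} : Finset ι).gcd D.g = Nat.gcd (D.g i) (D.g k) := by
      rw [Finset.gcd_insert, Finset.gcd_singleton, normalize_eq]
      rfl
    rwa [he] at hjd
  · intro hld
    have hl' : l ∉ ({i, k} : Finset ι) := by
      simp only [Finset.mem_insert, Finset.mem_singleton, not_or]
      exact ⟨fun h => hil h.symm, fun h => hkl h.symm⟩
    have hy'' : y' ∉ ({y} : Finset κ) := by
      simp only [Finset.mem_singleton]
      exact fun h => hy h.symm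
    have hjoin := ntr_join D.g D.b htree hl' hy'' hjM hld
    have hs1 : insert l ({i, k} : Finset ι) = {i, k, l} := by
      ext a
      simp only [Finset.mem_insert, Finset.mem_singleton]
      tauto
    have hs2 : insert y' ({y} : Finset κ) = {y, y'} := by
      ext a
      simp only [Finset.mem_insert, Finset.mem_singleton]
      tauto
    rw [hs1, hs2] at hjoin
    obtain ⟨j', hj', hjP', -⟩ := t.another hdis0 hjoin hng
    have := Finset.mem_compl.mpr hjP'
    rw [hY] at this
    exact hj' this

end Pool.Agent.LibCov74
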