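import Pool.Agent.LibCov74.E2b
import Pool.Agent.LibCov74.A4d
import Pool.Agent.LibCov74.H1a

/-!
# Complements with one, two, three elements
-/

set_option autoImplicit false

namespace Pool.Agent.LibCov74

open Finset
open Pool.Agent.LibTP76 (CI)

variable {ι κ : Type} [Fintype ι] [Fintype κ] [DecidableEq ι] [DecidableEq κ]

theorem H1b_cnt {α : Type} [DecidableEq α] (n : ℕ) (a : α → ℕ) {i k l : α} (hik : i ≠ k)
    (hil : i ≠ l) (hkl : k ≠ l) : cnt n {i, k, l} a =
      (if n ∣ a i then 1 else 0) + ((if n ∣ a k then 1 else 0) + (if n ∣ a l then 1 else 0)) := by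
  unfold cnt
  rw [Finset.card_filter, Finset.sum_insert, Finset.sum_insert, Finset.sum_singleton]
  · rw [Finset.mem_singleton]
    exact hkl
  · rw [Finset.mem_insert, Finset.mem_singleton]
    exact fun h => h.elim hik hil

theorem H1b_mem_P {D : Dt ι κ} {Z : Finset ι} {y y' p : κ} (hY : (D.P Z)ᶜ = {y, y'})
    (h1 : p ≠ y) (h2 : p ≠ y') : p ∈ D.P Z := by
  by_contra h
  have h3 : p ∈ (D.P Z)ᶜ := Finset.mem_compl.2 h
  rw [hY, Finset.mem_insert, Finset.mem_singleton] at h3
  exact h3.elim h1 h2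

theorem H1b_label {D : Dt ι κ} {Z : Finset ι} {m : ℕ} (t : Top D Z m) {i k l : ι} (hik : i ≠ k)
    (hil : i ≠ l) (hkl : k ≠ l) {y y' : κ} (hY : (D.P Z)ᶜ = {y, y'}) :
    ∃ p ∈ D.P Z, ∀ n : ℕ, 1 ≤ n → n ∣ D.g i → n ∣ D.g l → (n ∣ D.g k ∨ ¬ n ∣ D.b y') →
      n ∣ D.b p := by
  have hgi := D.gpos i
  by_cases hh : Nat.gcd (D.g i) (D.g l) ∣ D.b y'
  · set d := Nat.gcd (Nat.gcd (D.g i) (D.g l)) (D.g k) with hd
    have hdpos : 0 < d := Nat.gcd_pos_of_pos_left _ (Nat.gcd_pos_of_pos_left _ hgi)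
    have hdn : ∀ n : ℕ, n ∣ D.g i → n ∣ D.g l → (n ∣ D.g k ∨ ¬ n ∣ D.b y') → n ∣ d := by
      intro n h1 h2 h3
      have h4 : n ∣ Nat.gcd (D.g i) (D.g l) := Nat.dvd_gcd h1 h2
      rcases h3 with h3 | h3
      · exact Nat.dvd_gcd h4 h3
      · exact absurd (h4.trans hh) h3
    rcases Nat.lt_or_ge d 2 with hd2 | hd2
    · obtain ⟨p, hp⟩ := t.P_nonempty
      refine ⟨p, hp, fun n _ h1 h2 h3 => ?_⟩
      have h4 := hdn n h1 h2 h3
      have h5 : d = 1 := by omega
      rw [h5, Nat.dvd_one] at h4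
      rw [h4]
      exact one_dvd _
    · have hc := cnt_le D hd2
      have h3 : 3 ≤ cnt d Finset.univ D.g := by
        have hsub : ({i, k, l} : Finset ι) ⊆ Finset.univ.filter (fun x => d ∣ D.g x) := by
          intro x hx
          rw [Finset.mem_insert, Finset.mem_insert, Finset.mem_singleton] at hx
          rw [Finset.mem_filter]
          refine ⟨Finset.mem_univ x, ?_⟩
          rcases hx with rfl | rfl | rfl
          · exact (Nat.gcd_dvd_left _ _).trans (Nat.gcd_dvd_left _ _)
          · exact Nat.gcd_dvd_right _ _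
          · exact (Nat.gcd_dvd_left _ _).trans (Nat.gcd_dvd_right _ _)
        have hcard : ({i, k, l} : Finset ι).card = 3 := Finset.card_eq_three.2
          ⟨i, k, l, hik, hil, hkl, rfl⟩
        rw [← hcard]
        exact Finset.card_le_card hsub
      have hex : ∃ p, p ≠ y ∧ p ≠ y' ∧ d ∣ D.b p := by
        by_contra hno
        have hsub : (Finset.univ.filter (fun x => d ∣ D.b x)) ⊆ ({y, y'} : Finset κ) := by
          intro x hx
          rw [Finset.mem_filter] at hx
          rw [Finset.mem_insert, Finset.mem_singleton]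
          by_contra hcon
          rw [not_or] at hcon
          exact hno ⟨x, hcon.1, hcon.2, hx.2⟩
        have h5 := Finset.card_le_card hsub
        have h6 : ({y, y'} : Finset κ).card ≤ 2 := Finset.card_le_two
        have h7 : cnt d Finset.univ D.b ≤ 2 := h5.trans h6
        omega
      obtain ⟨p, hp1, hp2, hp3⟩ := hex
      exact ⟨p, H1b_mem_P hY hp1 hp2, fun n _ h1 h2 h3 => (hdn n h1 h2 h3).trans hp3⟩
  · set h := Nat.gcd (D.g i) (D.g l) with hh'
    have hpos : 0 < h := Nat.gcd_pos_of_pos_left _ hgi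
    have hne1 : h ≠ 1 := by
      intro h1
      rw [h1] at hh
      exact hh (one_dvd _)
    have h2 : 2 ≤ h := by omega
    have hc := cnt_le D h2
    have h3 : 2 ≤ cnt h Finset.univ D.g := by
      have hsub : ({i, l} : Finset ι) ⊆ Finset.univ.filter (fun x => h ∣ D.g x) := by
        intro x hx
        rw [Finset.mem_insert, Finset.mem_singleton] at hx
        rw [Finset.mem_filter]
        refine ⟨Finset.mem_univ x, ?_⟩
        rcases hx with rfl | rfl
        · exact Nat.gcd_dvd_left _ _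
        · exact Nat.gcd_dvd_right _ _
      rw [← Finset.card_pair hil]
      exact Finset.card_le_card hsub
    have hex : ∃ p, p ≠ y ∧ p ≠ y' ∧ h ∣ D.b p := by
      by_contra hno
      have hsub : (Finset.univ.filter (fun x => h ∣ D.b x)) ⊆ ({y} : Finset κ) := by
        intro x hx
        rw [Finset.mem_filter] at hx
        rw [Finset.mem_singleton]
        by_contra hcon
        refine hno ⟨x, hcon, ?_, hx.2⟩
        rintro rfl
        exact hh hx.2
      have h5 := Finset.card_le_card hsub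
      rw [Finset.card_singleton] at h5
      have h7 : cnt h Finset.univ D.b ≤ 1 := h5
      omega
    obtain ⟨p, hp1, hp2, hp3⟩ := hex
    exact ⟨p, H1b_mem_P hY hp1 hp2, fun n _ h1 h2 _ => (Nat.dvd_gcd h1 h2).trans hp3⟩

/-- All three divide `b y`, and `i` and `l` touch `b y'`.
By `Top.pair` twice, `gcd (g i, g k) ∣ b y'` and `gcd (g k, g l) ∣ b y'`. Let `h = gcd (g i, g l)`.
There is `p ∈ D.P Z` such that every `n ≥ 1` with `n ∣ g i`, `n ∣ g l` and (`n ∣ g k` or `¬ n ∣ b y'`)
divides `b p`: if `¬ h ∣ b y'` then `h ≥ 2`, `cnt_le` gives at least two labels divisible by `h`, one of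
them is not `y` and not `y'`, hence in `D.P Z`. If `h ∣ b y'` such an `n` divides
`d = gcd (g i, g k, g l)`; if `d ≥ 2` there are at least three labels divisible by `d`, one is in
`D.P Z`; if `d = 1` any `p ∈ D.P Z` works (`Top.P_nonempty`).
Then `cnt n {i, k, l} g ≤ cnt n {y, y', p} b` for all `n ≥ 1` (if `n` divides exactly one of the three:
`y`; if `n ∣ g i, g k` then `n ∣ b y'`; the same for `k, l`; `n ∣ g i, g l` only: `y` and `y'` or `p`; all three:
`y, y', p`). By `good_of_cure` for `p` (`b p` is not in the submonoid: it is touched by no generator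
outside `Z`, while `g i, g k, g l` and `b y, b y'` are) `(Zᶜ, {y, y'})` is good: contradiction. -/
theorem Top.false_star {D : Dt ι κ} {Z : Finset ι} {m : ℕ} (t : Top D Z m) {i k l : ι} (hik : i ≠ k)
    (hil : i ≠ l) (hkl : k ≠ l) (hZ : Zᶜ = {i, k, l}) {y y' : κ} (hy : y ≠ y')
    (hY : (D.P Z)ᶜ = {y, y'}) (hi : D.g i ∣ D.b y) (hk : D.g k ∣ D.b y) (hl : D.g l ∣ D.b y)
    (hti : D.Tch i (D.b y')) (htl : D.Tch l (D.b y')) : False := by
  have hc1 := (t.pair hik hil hkl hZ hy hY hi hk htl).1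
  have hZ' : Zᶜ = {k, l, i} := by
    rw [hZ]
    ext x
    simp only [Finset.mem_insert, Finset.mem_singleton]
    tauto
  have hc2 := (t.pair hkl (Ne.symm hik) (Ne.symm hil) hZ' hy hY hk hl hti).1
  obtain ⟨p, hp, hpn⟩ := H1b_label t hik hil hkl hY
  have hyc : y ∉ D.P Z := by
    rw [← Finset.mem_compl, hY]
    exact Finset.mem_insert_self _ _
  have hyc' : y' ∉ D.P Z := by
    rw [← Finset.mem_compl, hY]
    exact Finset.mem_insert_of_mem (Finset.mem_singleton_self _)
  have hyp : y ≠ p := fun h => hyc (h ▸ hp)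
  have hyp' : y' ≠ p := fun h => hyc' (h ▸ hp)
  have hiZ : i ∉ Z := by
    rw [← Finset.mem_compl, hZ]
    exact Finset.mem_insert_self _ _
  have hcnt : ∀ n, 1 ≤ n → cnt n {i, k, l} D.g ≤ cnt n {y, y', p} D.b := by
    intro n hn
    rw [H1b_cnt n D.g hik hil hkl, H1b_cnt n D.b hy hyp hyp']
    have h1 : n ∣ D.g i → n ∣ D.b y := fun h => h.trans hi
    have h2 : n ∣ D.g k → n ∣ D.b y := fun h => h.trans hk
    have h3 : n ∣ D.g l → n ∣ D.b y := fun h => h.trans hl
    have h4 : n ∣ D.g i → n ∣ D.g k → n ∣ D.b y' := fun h h' => (Nat.dvd_gcd h h').trans hc1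
    have h5 : n ∣ D.g k → n ∣ D.g l → n ∣ D.b y' := fun h h' => (Nat.dvd_gcd h h').trans hc2
    have h6 := hpn n hn
    by_cases a1 : n ∣ D.g i <;> by_cases a2 : n ∣ D.g k <;> by_cases a3 : n ∣ D.g l <;>
      by_cases b1 : n ∣ D.b y <;> by_cases b2 : n ∣ D.b y' <;> by_cases b3 : n ∣ D.b p <;>
      simp only [a1, a2, a3, b1, b2, b3, if_true, if_false] at h1 h2 h3 h4 h5 h6 ⊢ <;>
      first | omega | (exfalso; tauto)
  have hgood := good_of_cure D {i, k, l} {y, y', p} hcnt p
    (by
      rw [Finset.mem_insert, Finset.mem_insert, Finset.mem_singleton]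
      exact Or.inr (Or.inr rfl)) (by
      intro hmem
      have hcl : ∀ n ∈ AddSubmonoid.closure (D.g '' (({i, k, l} : Finset ι) : Set ι) ∪
          D.b '' {q | q ∈ ({y, y', p} : Finset κ) ∧ D.b q ≠ D.b p}),
          n ∈ D.S ∧ (n = 0 ∨ ∃ x, x ∉ Z ∧ D.Tch x n) := by
        intro n hn
        induction hn using AddSubmonoid.closure_induction with
        | mem x hx =>
          rcases hx with ⟨q, hq, rfl⟩ | ⟨q, ⟨hq, hqp⟩, rfl⟩
          · refine ⟨g_mem D q, Or.inr ⟨q, ?_, 0, D.S.zero_mem, ?_⟩⟩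
            · rw [← Finset.mem_compl, hZ]
              exact_mod_cast hq
            · rw [zero_add]
          · refine ⟨b_mem D q, Or.inr ⟨i, hiZ, ?_⟩⟩
            rw [Finset.mem_insert, Finset.mem_insert, Finset.mem_singleton] at hq
            rcases hq with rfl | rfl | rfl
            · exact tch_of_dvd D i hi (D.bpos _)
            · exact hti
            · exact absurd rfl hqp
        | zero => exact ⟨D.S.zero_mem, Or.inl rfl⟩
        | add a b _ _ iha ihb =>
          refine ⟨D.S.add_mem iha.1 ihb.1, ?_⟩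
          rcases iha.2 with h | ⟨x, hx, hx'⟩
          · rw [h, zero_add]
            exact ihb.2
          · exact Or.inr ⟨x, hx, tch_add D x hx' ihb.1⟩
      rcases (hcl _ hmem).2 with h | ⟨x, hx, hx'⟩
      · exact absurd h (D.bpos p).ne'
      · exact (mem_P D Z p).1 hp x hx hx')
  apply t.not_good
  rw [hZ, hY]
  have he : ({y, y', p} : Finset κ).erase p = {y, y'} := by
    ext q
    rw [Finset.mem_erase, Finset.mem_insert, Finset.mem_insert, Finset.mem_singleton,
      Finset.mem_insert, Finset.mem_singleton]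
    constructor
    · rintro ⟨h1, h2 | h2 | h2⟩
      · exact Or.inl h2
      · exact Or.inr h2
      · exact absurd h2 h1
    · rintro (h | h)
      · exact ⟨h ▸ hyp, Or.inl h⟩
      · exact ⟨h ▸ hyp', Or.inr (Or.inl h)⟩
  rw [he] at hgood
  exact hgood

end Pool.Agent.LibCov74
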