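import Pool.Agent.LibCov74.E2b
import Pool.Agent.LibCov74.A4d
import Pool.Agent.LibCov74.H1b

/-!
# Complements with one, two, three elements
-/

set_option autoImplicit false

namespace Pool.Agent.LibCov74

open Finset
open Pool.Agent.LibTP76 (CI)

variable {ι κ : Type} [Fintype ι] [Fintype κ] [DecidableEq ι] [DecidableEq κ]

/-- two of three elements touch the label `b y'` -/
theorem H1c_touch {D : Dt ι κ} {Z : Finset ι} (t : Top D Z 0) {i k l : ι} (hil : i ≠ l)
    (hkl : k ≠ l) (hZ : Zᶜ = {i, k, l}) {y y' : κ} (hY : (D.P Z)ᶜ = {y, y'}) :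
    D.Tch i (D.b y') ∨ D.Tch k (D.b y') := by
  have h1 : ({i, k} : Finset ι) ⊂ Zᶜ := by
    rw [hZ, Finset.ssubset_iff_of_subset]
    · exact ⟨l, by simp, by simp [hil.symm, hkl.symm]⟩
    · intro x hx
      simp only [Finset.mem_insert, Finset.mem_singleton] at hx ⊢
      tauto
  have h2 : ({i, k} : Finset ι).Nonempty := ⟨i, by simp⟩
  have h3 := t.touch {i, k} h1 h2
  by_cases hik : i = k
  · by_contra hcon
    push Not at hcon
    subst hik
    have h4 : Zᶜ.card ≤ 2 := by
      rw [hZ]
      simpa using Finset.card_le_two (a := i) (b := l)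
    have h5 := t.card_compl
    rw [hY] at h5
    by_cases hyy : y = y'
    · subst hyy
      have h6 : ({i} : Finset ι).card ≤ (({y, y} : Finset κ) \ D.P ({i} : Finset ι)ᶜ).card + 0 := by
        have h7 := h3
        rw [hY] at h7
        simpa using h7
      have h8 : y ∉ D.P ({i} : Finset ι)ᶜ := by
        intro h9
        rw [show (({y, y} : Finset κ) \ D.P ({i} : Finset ι)ᶜ) = ∅ from by
          rw [Finset.sdiff_eq_empty_iff_subset]
          intro x hx
          simp only [Finset.mem_insert, Finset.mem_singleton, or_self] at hx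
          rw [hx]
          exact h9] at h6
        simp at h6
      rw [mem_P] at h8
      push Not at h8
      obtain ⟨j, hj, hj'⟩ := h8
      have : j = i := by simpa using hj
      rw [this] at hj'
      exact hcon.1 hj'
    · rw [Finset.card_pair hyy] at h5
      omega
  · rw [Finset.card_pair hik, hY] at h3
    have h4 : y' ∉ D.P ({i, k} : Finset ι)ᶜ := by
      intro h5
      have h6 : (({y, y'} : Finset κ) \ D.P ({i, k} : Finset ι)ᶜ) ⊆ {y} := by
        intro x hx
        rw [Finset.mem_sdiff] at hx
        simp only [Finset.mem_insert, Finset.mem_singleton] at hx ⊢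
        rcases hx.1 with h7 | h7
        · exact h7
        · rw [h7] at hx
          exact absurd h5 hx.2
      have h7 := Finset.card_le_card h6
      rw [Finset.card_singleton] at h7
      omega
    rw [mem_P] at h4
    push Not at h4
    obtain ⟨j, hj, hj'⟩ := h4
    have h5 : j = i ∨ j = k := by
      simp only [Finset.mem_compl, Finset.mem_insert, Finset.mem_singleton, not_not] at hj
      exact hj
    rcases h5 with rfl | rfl
    · exact Or.inl hj'
    · exact Or.inr hj'

theorem H1c_main {D : Dt ι κ} {Z : Finset ι} (t : Top D Z 0) {i k l : ι} (hik : i ≠ k)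
    (hil : i ≠ l) (hkl : k ≠ l) (hZ : Zᶜ = {i, k, l}) {y y' : κ} (hy : y ≠ y')
    (hY : (D.P Z)ᶜ = {y, y'}) (hi : D.g i ∣ D.b y) (hk : D.g k ∣ D.b y) : False := by
  have hl : D.g l ∣ D.b y := by
    by_contra hcon
    have h1 : l ∉ Z := by
      have : l ∈ Zᶜ := by rw [hZ]; simp
      exact Finset.mem_compl.1 this
    obtain ⟨j, hj, hj'⟩ := t.exists_label h1
    have h2 : j ∈ (D.P Z)ᶜ := Finset.mem_compl.2 hj
    rw [hY] at h2
    simp only [Finset.mem_insert, Finset.mem_singleton] at h2
    rcases h2 with rfl | rfl
    · exact hcon hj'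
    · exact (t.pair hik hil hkl hZ hy hY hi hk (tch_of_dvd D l hj' (D.bpos _))).2 hj'
  have e1 : Zᶜ = {i, l, k} := by
    rw [hZ]
    ext x
    simp only [Finset.mem_insert, Finset.mem_singleton]
    tauto
  have e2 : Zᶜ = {k, i, l} := by
    rw [hZ]
    ext x
    simp only [Finset.mem_insert, Finset.mem_singleton]
    tauto
  have e3 : Zᶜ = {k, l, i} := by
    rw [hZ]
    ext x
    simp only [Finset.mem_insert, Finset.mem_singleton]
    tauto
  have t1 := H1c_touch t hil hkl hZ hY
  have t2 := H1c_touch t hik hkl.symm e1 hY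
  have t3 := H1c_touch t hik.symm hil.symm e3 hY
  by_cases h1 : D.Tch i (D.b y')
  · by_cases h2 : D.Tch l (D.b y')
    · exact t.false_star hik hil hkl hZ hy hY hi hk hl h1 h2
    · have h3 : D.Tch k (D.b y') := by tauto
      exact t.false_star hil hik hkl.symm e1 hy hY hi hl hk h1 h3
  · have h2 : D.Tch k (D.b y') := by tauto
    have h3 : D.Tch l (D.b y') := by tauto
    exact t.false_star hik.symm hkl hil e2 hy hY hk hi hl h2 h3

/-- complement with three elements, `m = 0`. `(D.P Z)ᶜ = {y, y'}` has two elements. Each of the three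
generators divides `b y` or `b y'` (`Top.exists_label`), so two of them, `i` and `k`, divide the same
label, say `b y`; let `l` be the third. If `g l` does not divide `b y`, it divides `b y'`, contradiction to
`Top.pair`. So all three divide `b y`. By `Top.touch` for two-element subsets every two of the three
touch both labels together (at least two labels, all outside `D.P Z`), so `b y'` is touched by one of
every two: at least two of the three touch `b y'`: `Top.false_star` for a suitable ordering. -/
theorem Top.false_three {D : Dt ι κ} {Z : Finset ι} (t : Top D Z 0) (h : (Zᶜ).card = 3) :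
    False := by
  have h1 := t.card_compl
  rw [h] at h1
  obtain ⟨y, y', hy, hY⟩ := Finset.card_eq_two.1 (show ((D.P Z)ᶜ).card = 2 by omega)
  obtain ⟨a, b, c, hab, hac, hbc, hZ⟩ := Finset.card_eq_three.1 h
  have hlab : ∀ i, i ∈ Zᶜ → D.g i ∣ D.b y ∨ D.g i ∣ D.b y' := by
    intro i hi
    obtain ⟨j, hj, hj'⟩ := t.exists_label (Finset.mem_compl.1 hi)
    have h2 : j ∈ (D.P Z)ᶜ := Finset.mem_compl.2 hj
    rw [hY] at h2
    simp only [Finset.mem_insert, Finset.mem_singleton] at h2
    rcases h2 with rfl | rfl
    · exact Or.inl hj'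
    · exact Or.inr hj'
  have ha := hlab a (by rw [hZ]; simp)
  have hb := hlab b (by rw [hZ]; simp)
  have hc := hlab c (by rw [hZ]; simp)
  have hY' : (D.P Z)ᶜ = {y', y} := by
    rw [hY, Finset.pair_comm]
  have e1 : Zᶜ = {a, c, b} := by
    rw [hZ]
    ext x
    simp only [Finset.mem_insert, Finset.mem_singleton]
    tauto
  have e2 : Zᶜ = {b, c, a} := by
    rw [hZ]
    ext x
    simp only [Finset.mem_insert, Finset.mem_singleton]
    tauto
  rcases ha with ha | ha <;> rcases hb with hb | hb <;> rcases hc with hc | hc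
  · exact H1c_main t hab hac hbc hZ hy hY ha hb
  · exact H1c_main t hab hac hbc hZ hy hY ha hb
  · exact H1c_main t hac hab hbc.symm e1 hy hY ha hc
  · exact H1c_main t hbc hab.symm hac.symm e2 hy.symm hY' hb hc
  · exact H1c_main t hbc hab.symm hac.symm e2 hy hY hb hc
  · exact H1c_main t hac hab hbc.symm e1 hy.symm hY' ha hc
  · exact H1c_main t hab hac hbc hZ hy.symm hY' ha hb
  · exact H1c_main t hab hac hbc hZ hy.symm hY' ha hb

end Pool.Agent.LibCov74
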