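import Pool.Agent.LibCov74.H1c

/-!
# Six generators
-/

set_option autoImplicit false

namespace Pool.Agent.LibCov74

open Finset
open Pool.Agent.LibTP76 (CI)

variable {ι κ : Type} [Fintype ι] [Fintype κ] [DecidableEq ι] [DecidableEq κ]

theorem H2a_closure {A : Set ℕ} {n : ℕ} (h : n ∈ AddSubmonoid.closure A) :
    n = 0 ∨ ∃ s ∈ A, ∃ t ∈ AddSubmonoid.closure A, n = s + t := by
  induction h using AddSubmonoid.closure_induction with
  | mem x hx => exact Or.inr ⟨x, hx, 0, zero_mem _, by omega⟩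
  | zero => exact Or.inl rfl
  | add x y hx hy ihx ihy =>
    rcases ihx with h0 | ⟨s, hs, t, ht, rfl⟩
    · subst h0
      rw [zero_add]
      exact ihy
    · exact Or.inr ⟨s, hs, t + y, add_mem ht hy, by omega⟩

omit [DecidableEq ι] in
theorem H2a_many {D : Dt ι κ} {Z : Finset ι} (t : Top D Z 1) (h' : Z.card = 3) {y : κ}
    (hy : (D.P Z)ᶜ = {y}) (n : ℕ) (hn : 0 < n) (X : Finset ι) (hX : ∀ i ∈ X, n ∣ D.g i)
    (hc : X.card ≤ 3) : X.card ≤ ((D.P Z).filter (fun j => n ∣ D.b j)).card + 1 := by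
  have hP : (D.P Z).card = 4 := by rw [t.eq, h']
  by_cases h2 : 2 ≤ n
  · have h3 := cnt_le D h2
    have h4 : X.card ≤ cnt n Finset.univ D.g := by
      apply Finset.card_le_card
      intro i hi
      exact Finset.mem_filter.mpr ⟨Finset.mem_univ _, hX i hi⟩
    have h5 : cnt n Finset.univ D.b ≤ ((D.P Z).filter (fun j => n ∣ D.b j)).card + 1 := by
      have h6 : (Finset.univ.filter (fun j => n ∣ D.b j)) ⊆
          (D.P Z).filter (fun j => n ∣ D.b j) ∪ {y} := by
        intro j hj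
        by_cases hjP : j ∈ D.P Z
        · exact Finset.mem_union_left _ (Finset.mem_filter.mpr ⟨hjP, (Finset.mem_filter.mp hj).2⟩)
        · apply Finset.mem_union_right
          rw [← hy]
          exact Finset.mem_compl.mpr hjP
      have h7 := (Finset.card_le_card h6).trans (Finset.card_union_le _ _)
      rw [Finset.card_singleton] at h7
      exact h7
    omega
  · have h3 : n = 1 := by omega
    subst h3
    have h4 : (D.P Z).filter (fun j => 1 ∣ D.b j) = D.P Z := by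
      apply Finset.filter_true_of_mem
      intro j _
      exact one_dvd _
    rw [h4, hP]
    omega

theorem H2a_pair {D : Dt ι κ} {Z : Finset ι} (t : Top D Z 1) (h' : Z.card = 3) {y : κ}
    (hy : (D.P Z)ᶜ = {y}) {i k : ι} (hik : i ≠ k) :
    ∃ p ∈ D.P Z, ∀ n, n ∣ D.g i → n ∣ D.g k → n ∣ D.b p := by
  have h1 := H2a_many t h' hy (Nat.gcd (D.g i) (D.g k)) (Nat.gcd_pos_of_pos_left _ (D.gpos i))
    {i, k} ?_ ?_
  · rw [Finset.card_pair hik] at h1
    have h2 : 0 < ((D.P Z).filter (fun j => Nat.gcd (D.g i) (D.g k) ∣ D.b j)).card := by omega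
    obtain ⟨p, hp⟩ := Finset.card_pos.mp h2
    obtain ⟨hp1, hp2⟩ := Finset.mem_filter.mp hp
    exact ⟨p, hp1, fun n h3 h4 => (Nat.dvd_gcd h3 h4).trans hp2⟩
  · intro x hx
    rcases Finset.mem_insert.mp hx with rfl | hx
    · exact Nat.gcd_dvd_left _ _
    · rw [Finset.mem_singleton.mp hx]
      exact Nat.gcd_dvd_right _ _
  · rw [Finset.card_pair hik]
    omega

theorem H2a_triple {D : Dt ι κ} {Z : Finset ι} (t : Top D Z 1) (h' : Z.card = 3) {y : κ}
    (hy : (D.P Z)ᶜ = {y}) {i k l : ι} (hik : i ≠ k) (hil : i ≠ l) (hkl : k ≠ l) :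
    ∃ p ∈ D.P Z, ∃ q ∈ D.P Z, p ≠ q ∧
      ∀ n, n ∣ D.g i → n ∣ D.g k → n ∣ D.g l → n ∣ D.b p ∧ n ∣ D.b q := by
  have hcard : ({i, k, l} : Finset ι).card = 3 := Finset.card_eq_three.mpr
    ⟨i, k, l, hik, hil, hkl, rfl⟩
  have h1 := H2a_many t h' hy (Nat.gcd (D.g i) (Nat.gcd (D.g k) (D.g l)))
    (Nat.gcd_pos_of_pos_left _ (D.gpos i)) {i, k, l} ?_ (by omega)
  · rw [hcard] at h1
    have h2 : 1 < ((D.P Z).filter
      (fun j => Nat.gcd (D.g i) (Nat.gcd (D.g k) (D.g l)) ∣ D.b j)).card := by omega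
    obtain ⟨p, hp, q, hq, hpq⟩ := Finset.one_lt_card.mp h2
    obtain ⟨hp1, hp2⟩ := Finset.mem_filter.mp hp
    obtain ⟨hq1, hq2⟩ := Finset.mem_filter.mp hq
    exact ⟨p, hp1, q, hq1, hpq, fun n h3 h4 h5 =>
      ⟨(Nat.dvd_gcd h3 (Nat.dvd_gcd h4 h5)).trans hp2,
        (Nat.dvd_gcd h3 (Nat.dvd_gcd h4 h5)).trans hq2⟩⟩
  · intro x hx
    rcases Finset.mem_insert.mp hx with rfl | hx
    · exact Nat.gcd_dvd_left _ _
    · rcases Finset.mem_insert.mp hx with rfl | hx
      · exact (Nat.gcd_dvd_right _ _).trans (Nat.gcd_dvd_left _ _)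
      · rw [Finset.mem_singleton.mp hx]
        exact (Nat.gcd_dvd_right _ _).trans (Nat.gcd_dvd_right _ _)

/-- the set `R` -/
theorem H2a_R {D : Dt ι κ} {Z : Finset ι} (t : Top D Z 1) (h' : Z.card = 3) {y : κ}
    (hy : (D.P Z)ᶜ = {y}) {i k l : ι} (hik : i ≠ k) (hil : i ≠ l) (hkl : k ≠ l) :
    ∃ R : Finset κ, R ⊆ D.P Z ∧ R.Nonempty ∧ R.card ≤ 3 ∧
      (∀ n, n ∣ D.g i → n ∣ D.g k → ∃ r ∈ R, n ∣ D.b r) ∧
      (∀ n, n ∣ D.g k → n ∣ D.g l → ∃ r ∈ R, n ∣ D.b r) ∧
      (∀ n, n ∣ D.g i → n ∣ D.g l → ∃ r ∈ R, n ∣ D.b r) ∧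
      (∀ n, n ∣ D.g i → n ∣ D.g k → n ∣ D.g l →
        ∃ r ∈ R, ∃ r' ∈ R, r ≠ r' ∧ n ∣ D.b r ∧ n ∣ D.b r') := by
  obtain ⟨p1, hp1, h1⟩ := H2a_pair t h' hy hik
  obtain ⟨p2, hp2, h2⟩ := H2a_pair t h' hy hkl
  obtain ⟨p3, hp3, h3⟩ := H2a_pair t h' hy hil
  obtain ⟨q1, hq1, q2, hq2, hq, h4⟩ := H2a_triple t h' hy hik hil hkl
  by_cases hall : p1 = p2 ∧ p1 = p3
  · obtain ⟨rfl, rfl⟩ := hall
    obtain ⟨q, hqP, hqp, hqd⟩ : ∃ q ∈ D.P Z, q ≠ p1 ∧
        ∀ n, n ∣ D.g i → n ∣ D.g k → n ∣ D.g l → n ∣ D.b q := by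
      by_cases h5 : q1 = p1
      · exact ⟨q2, hq2, fun h6 => hq (h5.trans h6.symm), fun n a b c => (h4 n a b c).2⟩
      · exact ⟨q1, hq1, h5, fun n a b c => (h4 n a b c).1⟩
    refine ⟨{p1, q}, ?_, ⟨p1, Finset.mem_insert_self _ _⟩, ?_, ?_, ?_, ?_, ?_⟩
    · intro x hx
      rcases Finset.mem_insert.mp hx with rfl | hx
      · exact hp1
      · rw [Finset.mem_singleton.mp hx]
        exact hqP
    · have := Finset.card_le_two (a := p1) (b := q)
      omega
    · exact fun n a b => ⟨p1, Finset.mem_insert_self _ _, h1 n a b⟩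
    · exact fun n a b => ⟨p1, Finset.mem_insert_self _ _, h2 n a b⟩
    · exact fun n a b => ⟨p1, Finset.mem_insert_self _ _, h3 n a b⟩
    · exact fun n a b c => ⟨p1, Finset.mem_insert_self _ _, q,
        Finset.mem_insert_of_mem (Finset.mem_singleton_self _), hqp.symm, h1 n a b, hqd n a b c⟩
  · have m1 : p1 ∈ ({p1, p2, p3} : Finset κ) := Finset.mem_insert_self _ _
    have m2 : p2 ∈ ({p1, p2, p3} : Finset κ) :=
      Finset.mem_insert_of_mem (Finset.mem_insert_self _ _)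
    have m3 : p3 ∈ ({p1, p2, p3} : Finset κ) :=
      Finset.mem_insert_of_mem (Finset.mem_insert_of_mem (Finset.mem_singleton_self _))
    refine ⟨{p1, p2, p3}, ?_, ⟨p1, m1⟩, Finset.card_le_three, ?_, ?_, ?_, ?_⟩
    · intro x hx
      rcases Finset.mem_insert.mp hx with rfl | hx
      · exact hp1
      · rcases Finset.mem_insert.mp hx with rfl | hx
        · exact hp2
        · rw [Finset.mem_singleton.mp hx]
          exact hp3
    · exact fun n a b => ⟨p1, m1, h1 n a b⟩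
    · exact fun n a b => ⟨p2, m2, h2 n a b⟩
    · exact fun n a b => ⟨p3, m3, h3 n a b⟩
    · intro n a b c
      by_cases h5 : p1 = p2
      · have h6 : p1 ≠ p3 := fun h6 => hall ⟨h5, h6⟩
        exact ⟨p1, m1, p3, m3, h6, h1 n a b, h3 n a c⟩
      · exact ⟨p1, m1, p2, m2, h5, h1 n a b, h2 n b c⟩

theorem H2a_cnt {D : Dt ι κ} {i k l : ι} {y : κ} {R : Finset κ} (hik : i ≠ k) (hil : i ≠ l)
    (hkl : k ≠ l)
    (hyR : y ∉ R) (hi : D.g i ∣ D.b y) (hk : D.g k ∣ D.b y) (hl : D.g l ∣ D.b y)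
    (h1 : ∀ n, n ∣ D.g i → n ∣ D.g k → ∃ r ∈ R, n ∣ D.b r)
    (h2 : ∀ n, n ∣ D.g k → n ∣ D.g l → ∃ r ∈ R, n ∣ D.b r)
    (h3 : ∀ n, n ∣ D.g i → n ∣ D.g l → ∃ r ∈ R, n ∣ D.b r)
    (h4 : ∀ n, n ∣ D.g i → n ∣ D.g k → n ∣ D.g l →
        ∃ r ∈ R, ∃ r' ∈ R, r ≠ r' ∧ n ∣ D.b r ∧ n ∣ D.b r') (n : ℕ) :
    cnt n {i, k, l} D.g ≤ cnt n (insert y R) D.b := by
  have hone : ∀ r ∈ R, n ∣ D.b r → 1 ≤ (R.filter (fun j => n ∣ D.b j)).card := by
    intro r hr hd
    exact Finset.card_pos.mpr ⟨r, Finset.mem_filter.mpr ⟨hr, hd⟩⟩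
  have htwo : ∀ r ∈ R, ∀ r' ∈ R, r ≠ r' → n ∣ D.b r → n ∣ D.b r' →
      2 ≤ (R.filter (fun j => n ∣ D.b j)).card := by
    intro r hr r' hr' hne hd hd'
    exact Finset.one_lt_card.mpr ⟨r, Finset.mem_filter.mpr ⟨hr, hd⟩, r',
      Finset.mem_filter.mpr ⟨hr', hd'⟩, hne⟩
  have hins : n ∣ D.b y → cnt n (insert y R) D.b = (R.filter (fun j => n ∣ D.b j)).card + 1 := by
    intro hd
    rw [cnt, Finset.filter_insert, if_pos hd, Finset.card_insert_of_notMem]
    intro h5
    exact hyR (Finset.mem_filter.mp h5).1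
  have hval : cnt n {i, k, l} D.g = (if n ∣ D.g i then 1 else 0) + (if n ∣ D.g k then 1 else 0) +
      (if n ∣ D.g l then 1 else 0) := by
    rw [cnt, Finset.card_filter, Finset.sum_insert, Finset.sum_insert, Finset.sum_singleton]
    · ring
    · exact fun h => hkl (Finset.mem_singleton.mp h)
    · intro h
      rcases Finset.mem_insert.mp h with h | h
      · exact hik h
      · exact hil (Finset.mem_singleton.mp h)
  rw [hval]
  by_cases a : n ∣ D.g i <;> by_cases b : n ∣ D.g k <;> by_cases c : n ∣ D.g l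
  · rw [hins (a.trans hi)]
    obtain ⟨r, hr, r', hr', hne, hd, hd'⟩ := h4 n a b c
    have := htwo r hr r' hr' hne hd hd'
    simp only [a, b, c, if_true]
    omega
  · rw [hins (a.trans hi)]
    obtain ⟨r, hr, hd⟩ := h1 n a b
    have := hone r hr hd
    simp only [a, b, c, if_true, if_false]
    omega
  · rw [hins (a.trans hi)]
    obtain ⟨r, hr, hd⟩ := h3 n a c
    have := hone r hr hd
    simp only [a, b, c, if_true, if_false]
    omega
  · rw [hins (a.trans hi)]
    simp only [a, b, c, if_true, if_false]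
    omega
  · rw [hins (b.trans hk)]
    obtain ⟨r, hr, hd⟩ := h2 n b c
    have := hone r hr hd
    simp only [a, b, c, if_true, if_false]
    omega
  · rw [hins (b.trans hk)]
    simp only [a, b, c, if_true, if_false]
    omega
  · rw [hins (c.trans hl)]
    simp only [a, b, c, if_true, if_false]
    omega
  · simp only [a, b, c, if_false]
    omega

/-- `Z` and `Zᶜ` with three elements, `m = 1`: four pure labels, `(D.P Z)ᶜ = {y}`, all three
`i, k, l ∈ Zᶜ` divide `b y` (`Top.exists_label`).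
There is `R ⊆ D.P Z`, `1 ≤ R.card ≤ 3`, with `cnt n {i, k, l} g ≤ cnt n (insert y R) b` for all `n ≥ 1`: for each of the
three pairs choose a label in `D.P Z` divisible by the gcd `h` of the pair (if `h ≥ 2` there are at least two
labels divisible by `h`, one is not `y`; if `h = 1` any one). If the three chosen labels are not all
the same, `R` is the set of them (an `n` dividing all three generators divides all of them, and there
are at least two); if they are all the same label `p`: add a second label of `D.P Z` divisible by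
`d = gcd (g i, g k, g l)` (if `d ≥ 2` there are at least three labels divisible by `d`; if `d = 1` any one).
Let `p ∈ R` with `b p` minimal. `b p` is not in the submonoid generated by `g i, g k, g l` and the
`b r`, `r ∈ insert y R`, `b r ≠ b p`: it is touched by no generator outside `Z`, and the `b r`, `r ∈ R`, are
`> b p`. By `good_of_cure`, `(Zᶜ, insert y (R.erase p))` is good. By `good_of_minimal`
(`three_le` shows `hmin`), `(Z, D.P Z \ R.erase p)` is good, as `D.P Z \ R.erase p` has at least two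
elements. `Good.union`, `not_good_univ`: contradiction. -/
theorem Top.false_three_one {D : Dt ι κ} {Z : Finset ι} (t : Top D Z 1) (h : (Zᶜ).card = 3)
    (h' : Z.card = 3) : False := by
  have hP : (D.P Z).card = 4 := by rw [t.eq, h']
  have hc1 : ((D.P Z)ᶜ).card = 1 := by
    have := t.card_compl
    omega
  obtain ⟨y, hy⟩ := Finset.card_eq_one.mp hc1
  obtain ⟨i, k, l, hik, hil, hkl, hZ⟩ := Finset.card_eq_three.mp h
  have hlab : ∀ x, x ∉ Z → D.g x ∣ D.b y := by
    intro x hx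
    obtain ⟨j, hj, hd⟩ := t.exists_label hx
    have h1 : j ∈ (D.P Z)ᶜ := Finset.mem_compl.mpr hj
    rw [hy, Finset.mem_singleton] at h1
    rwa [h1] at hd
  have hiZ : i ∉ Z := Finset.mem_compl.mp (hZ ▸ Finset.mem_insert_self _ _)
  have hkZ : k ∉ Z := Finset.mem_compl.mp
    (hZ ▸ Finset.mem_insert_of_mem (Finset.mem_insert_self _ _))
  have hlZ : l ∉ Z := Finset.mem_compl.mp
    (hZ ▸ Finset.mem_insert_of_mem (Finset.mem_insert_of_mem (Finset.mem_singleton_self _)))
  have hyP : y ∉ D.P Z := Finset.mem_compl.mp (hy ▸ Finset.mem_singleton_self _)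
  obtain ⟨R, hRP, hRne, hR3, h1, h2, h3, h4⟩ := H2a_R t h' hy hik hil hkl
  have hyR : y ∉ R := fun h5 => hyP (hRP h5)
  obtain ⟨p, hp, hpmin⟩ := Finset.exists_min_image R D.b hRne
  have hpP : p ∈ D.P Z := hRP hp
  have hpy : p ≠ y := fun h5 => hyP (h5 ▸ hpP)
  have hpure := (mem_P D Z p).mp hpP
  have hclo : AddSubmonoid.closure (D.g '' ((Zᶜ : Finset ι) : Set ι) ∪
      D.b '' {j | j ∈ insert y R ∧ D.b j ≠ D.b p}) ≤ D.S := by
    rw [AddSubmonoid.closure_le]
    rintro x (⟨j, -, rfl⟩ | ⟨j, -, rfl⟩)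
    · exact g_mem D j
    · exact b_mem D j
  have hgood1 : D.Good Zᶜ ((insert y R).erase p) := by
    refine good_of_cure D Zᶜ (insert y R) ?_ p (Finset.mem_insert_of_mem hp) ?_
    · intro n _
      rw [hZ]
      exact H2a_cnt hik hil hkl hyR (hlab i hiZ) (hlab k hkZ) (hlab l hlZ) h1 h2 h3 h4 n
    · intro hcl
      rcases H2a_closure hcl with h0 | ⟨s, hs, u, hu, hsu⟩
      · have := D.bpos p
        omega
      · have huS := hclo hu
        rcases hs with ⟨x, hx, rfl⟩ | ⟨j, ⟨hj, hjp⟩, rfl⟩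
        · exact hpure x (Finset.mem_compl.mp hx) ⟨u, huS, by omega⟩
        · rcases Finset.mem_insert.mp hj with rfl | hj
          · apply hpure i hiZ
            rw [hsu]
            exact tch_add D i (tch_of_dvd D i (hlab i hiZ) (D.bpos _)) huS
          · have := hpmin j hj
            omega
  have hgood2 : D.Good Z (D.P Z \ R.erase p) := by
    refine good_of_minimal D Z t.ne (by omega) ?_ _ Finset.sdiff_subset ?_
    · intro V hVZ hne hVne
      by_contra hcon
      have h5 := three_le D V hVne (by omega)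
      have h6 := Finset.eq_of_subset_of_card_le hVZ (by omega)
      exact hne h6
    · have h5 : (R.erase p).card = R.card - 1 := Finset.card_erase_of_mem hp
      have h6 : (D.P Z \ R.erase p).card = (D.P Z).card - (R.erase p).card :=
        Finset.card_sdiff_of_subset ((Finset.erase_subset _ _).trans hRP)
      omega
  have hdisj : Disjoint ((insert y R).erase p) (D.P Z \ R.erase p) := by
    rw [Finset.disjoint_left]
    intro j hj hj'
    obtain ⟨hjp, hj⟩ := Finset.mem_erase.mp hj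
    obtain ⟨h5, h6⟩ := Finset.mem_sdiff.mp hj'
    rcases Finset.mem_insert.mp hj with rfl | hj
    · exact hyP h5
    · exact h6 (Finset.mem_erase.mpr ⟨hjp, hj⟩)
  have hgood := Good.union D hdisj hgood1 hgood2
  apply not_good_univ D
  refine Good.mono D ?_ (Finset.subset_univ _) hgood
  intro x _
  by_cases hx : x ∈ Z
  · exact Finset.mem_union_right _ hx
  · exact Finset.mem_union_left _ (Finset.mem_compl.mpr hx)

end Pool.Agent.LibCov74
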