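import Pool.Agent.LibCov74.H1c
import Pool.Agent.LibCov74.H2a

/-!
# Six generators
-/

set_option autoImplicit false

namespace Pool.Agent.LibCov74

open Finset
open Pool.Agent.LibTP76 (CI)

variable {ι κ : Type} [Fintype ι] [Fintype κ] [DecidableEq ι] [DecidableEq κ]

/-- **At most six denominators.** `exists_top`, `three_le` (`Z.card ≥ 3`), so `Zᶜ.card ≤ 3`;
`Top.false_one`, `Top.false_two`, `Top.false_three`, `Top.false_three_one`; for `Zᶜ.card = 3`,
`m ≥ 2` contradicts `Top.exists_label` (`(D.P Z)ᶜ` is empty). -/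
theorem ci_six (D : Dt ι κ) (h : Fintype.card ι ≤ 6) : CI D.S := by
  by_contra hCI
  obtain ⟨Z, m, t⟩ := exists_top D hCI
  have h3 : 3 ≤ Z.card := three_le D Z t.ne (by rw [t.eq]; omega)
  have hsum : Z.card + (Zᶜ).card = Fintype.card ι := Finset.card_add_card_compl Z
  have hne : (Zᶜ).Nonempty := by
    rw [Finset.nonempty_iff_ne_empty]
    intro h0
    exact t.ne' (Finset.compl_eq_empty_iff Z |>.mp h0)
  have h1 : 1 ≤ (Zᶜ).card := Finset.card_pos.mpr hne
  have hle : (Zᶜ).card ≤ 3 := by omega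
  rcases (show (Zᶜ).card = 1 ∨ (Zᶜ).card = 2 ∨ (Zᶜ).card = 3 by omega) with hc | hc | hc
  · exact t.false_one hc
  · exact t.false_two hc
  · have hZ3 : Z.card = 3 := by omega
    rcases Nat.lt_or_ge m 2 with hm | hm
    · rcases (show m = 0 ∨ m = 1 by omega) with rfl | rfl
      · exact t.false_three hc
      · exact t.false_three_one hc hZ3
    · have hcc := t.card_compl
      have h0 : ((D.P Z)ᶜ).card = 0 := by omega
      obtain ⟨i, hi⟩ := hne
      obtain ⟨j, hj, -⟩ := t.exists_label (Finset.mem_compl.mp hi)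
      have he : (D.P Z)ᶜ = ∅ := Finset.card_eq_zero.mp h0
      have hj' : j ∈ (D.P Z)ᶜ := Finset.mem_compl.mpr hj
      rw [he] at hj'
      exact absurd hj' (Finset.notMem_empty j)

end Pool.Agent.LibCov74
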