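import Pool.Agent.LibCov74.X1

/-!
# Minimal bad sets of generators
-/

set_option autoImplicit false

namespace Pool.Agent.LibCov74

open Finset
open Pool.Agent.LibTP76 (CI)

variable {ι κ : Type} [Fintype ι] [Fintype κ] [DecidableEq ι] [DecidableEq κ]

theorem E_mono (D : Dt ι κ) {X Y : Finset ι} (h : X ⊆ Y) : D.E X ⊆ D.E Y := by
  intro j hj
  rw [mem_E] at hj ⊢
  exact Mon_mono D.g h hj

theorem M1_tch (D : Dt ι κ) {j : κ} {u : Finset ι} (hu : u ∈ D.F j) {i : ι} (hi : i ∈ u) :
    D.Tch i (D.b j) := by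
  obtain ⟨x, hx, rfl⟩ := hu
  have h0 : x i ≠ 0 := (Finset.mem_filter.mp hi).2
  refine ⟨(x i - 1) * D.g i + ∑ k ∈ Finset.univ.erase i, x k * D.g k, ?_, ?_⟩
  · refine D.S.add_mem ?_ (AddSubmonoid.sum_mem _ fun k _ => ?_)
    · have h := D.S.nsmul_mem (g_mem D i) (x i - 1)
      rwa [smul_eq_mul] at h
    · have h := D.S.nsmul_mem (g_mem D k) (x k)
      rwa [smul_eq_mul] at h
  · rw [← hx, ← Finset.add_sum_erase Finset.univ (fun k => x k * D.g k) (Finset.mem_univ i)]
    obtain ⟨m, hm⟩ := Nat.exists_eq_succ_of_ne_zero h0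
    rw [hm, Nat.succ_sub_one, Nat.succ_mul]
    ring

/-- a label in `⟨X ∪ W⟩` which is touched by no element of `W` is in `⟨X⟩` -/
theorem mem_E_of_not_tch (D : Dt ι κ) {X W : Finset ι} {j : κ} (hj : j ∈ D.E (X ∪ W))
    (hW : ∀ i ∈ W, ¬ D.Tch i (D.b j)) : j ∈ D.E X := by
  obtain ⟨u, hu, huX⟩ := (mem_E_iff D _ j).mp hj
  refine (mem_E_iff D _ j).mpr ⟨u, hu, fun i hi => ?_⟩
  rcases Finset.mem_union.mp (huX hi) with h | h
  · exact h
  · exact absurd (M1_tch D hu hi) (hW i h)

theorem exists_min_bad (D : Dt ι κ) (A : Finset ι) (hne : A.Nonempty) (hbad : ¬ D.Good A (D.E A)) :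
    ∃ X, X ⊆ A ∧ X.Nonempty ∧ ¬ D.Good X (D.E X) ∧
      ∀ T, T ⊆ X → T ≠ X → T.Nonempty → D.Good T (D.E T) := by
  classical
  obtain ⟨X, hX, hmin⟩ := Finset.exists_min_image
    (A.powerset.filter (fun X => X.Nonempty ∧ ¬ D.Good X (D.E X))) Finset.card
    ⟨A, Finset.mem_filter.2 ⟨Finset.mem_powerset_self A, hne, hbad⟩⟩
  rw [Finset.mem_filter, Finset.mem_powerset] at hX
  refine ⟨X, hX.1, hX.2.1, hX.2.2, fun T hT hTX hTne => ?_⟩
  by_contra hg
  have h1 := hmin T (Finset.mem_filter.2 ⟨Finset.mem_powerset.2 (hT.trans hX.1), hTne, hg⟩)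
  have h2 := Finset.card_lt_card (Finset.ssubset_iff_subset_ne.2 ⟨hT, hTX⟩)
  omega

/-- Let `X` be proper, nonempty, `(X, D.E X)` not good, but `(T, D.E T)` good for all nonempty proper `T ⊆ X`.
Then `(D.E X).card + 2 ≤ X.card`.
Proof (compare with the proof of `good_E` in `X1`). For `j ∈ D.E X` let `F' j = {u ∈ D.F j | u ⊆ X}`, for the other `j`
let `F' j = D.F j`. Let `J` be the largest autarky of `(X; D.E X)` for `F'` (`exists_max_aut`), `V = Nb F' X J`. If `V = X`: the
choice covers `X`: `(X, J)` is good by `good_of_cov`, so `(X, D.E X)` is good (`Good.mono`): contradiction. If `V ≠ X` and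
`J ≠ ∅` then `V` is nonempty, `T = X \ V` is a nonempty proper subset; `(V, J)` is good (`good_of_cov`), `(T, D.E T)` is good,
`D.E T` and `J` are disjoint (all `F'`-values of a label of `J` are inside `V` and nonempty), so `Good.union` gives
`(X, J ∪ D.E T)` good, so `(X, D.E X)` is good: contradiction. So `J = ∅`, `(X; D.E X)` is lean: `(D.E X).card + 1 ≤ X.card` by
`ln_card`. If equality holds: `ln_tree` gives `Tr F' X (D.E X)`, so `Tr D.F X (D.E X)` and `NTr`; as `(X, D.E X)` is not good,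
`NTr.mem_of_not_good`: every label divisible by `h = gcd X` is in `D.E X`. If `h ≥ 2`, `cnt_le` gives at least `X.card` labels
divisible by `h`: contradiction. If `h = 1` all labels are in `D.E X`, so `X.card = #κ + 1 = #ι`, `X = univ`: contradiction. -/
theorem two_le_of_min_bad (D : Dt ι κ) (X : Finset ι) (hX : X ≠ Finset.univ) (hne : X.Nonempty)
    (hbad : ¬ D.Good X (D.E X))
    (hmin : ∀ T, T ⊆ X → T ≠ X → T.Nonempty → D.Good T (D.E T)) :
    (D.E X).card + 2 ≤ X.card := by
  classical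
  let F' : κ → Set (Finset ι) := fun j => if j ∈ D.E X then {u | u ∈ D.F j ∧ u ⊆ X} else D.F j
  have hF'in : ∀ j ∈ D.E X, F' j = {u | u ∈ D.F j ∧ u ⊆ X} := fun j hj => if_pos hj
  have hF'sub : ∀ j, F' j ⊆ D.F j := by
    intro j u hu
    by_cases hj : j ∈ D.E X
    · rw [hF'in j hj] at hu
      exact hu.1
    · have : F' j = D.F j := if_neg hj
      rw [this] at hu
      exact hu
  have hF'ne : ∀ j, (F' j).Nonempty := by
    intro j
    by_cases hj : j ∈ D.E X
    · obtain ⟨u, hu, huX⟩ := (mem_E_iff D X j).mp hj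
      refine ⟨u, ?_⟩
      rw [hF'in j hj]
      exact ⟨hu, huX⟩
    · have : F' j = D.F j := if_neg hj
      rw [this]
      exact F_nonempty D j
  obtain ⟨J, hJE, hJa, hJmax⟩ := exists_max_aut F' X (D.E X)
  obtain ⟨c, hc, hcov⟩ := id hJa
  have hVg : D.Good (Nb F' X J) J :=
    good_of_cov D (Nb F' X J) J c (fun j hj => hF'sub j (hc j hj)) hcov
  have hVX : Nb F' X J ⊆ X := fun x hx => ((mem_Nb F' X J x).mp hx).1
  have hV : Nb F' X J ≠ X := by
    intro h
    rw [h] at hVg
    exact hbad (Good.mono D (Finset.Subset.refl X) hJE hVg)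
  have hln := ln_of_max F' X (D.E X) J hJE hJa hJmax
  have hOne : (X \ Nb F' X J).Nonempty := by
    rw [Finset.sdiff_nonempty]
    exact fun h => hV (Finset.Subset.antisymm hVX h)
  rcases J.eq_empty_or_nonempty with rfl | hJne
  · -- `(X; E X)` is lean
    have hNb : Nb F' X (∅ : Finset κ) = ∅ := by
      ext x
      rw [mem_Nb]
      simp
    rw [hNb, Finset.sdiff_empty, Finset.sdiff_empty] at hln
    have hc1 := ln_card F' hF'ne _ _ hne hln
    by_contra hlt
    have hceq : X.card = (D.E X).card + 1 := by omega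
    have ht := ln_tree F' hF'ne X (D.E X) (fun j hj u hu => by
      rw [hF'in j hj] at hu
      exact hu.2) hln hceq
    have hn : NTr D.g D.b X (D.E X) := Tr.ntr D (ht.mono (fun j _ => hF'sub j))
    have hmem : ∀ j, X.gcd D.g ∣ D.b j → j ∈ D.E X := fun j hj =>
      (mem_E D X j).mpr (hn.mem_of_not_good D hbad (b_mem D j) hj)
    have hpos : 0 < X.gcd D.g := hn.gcd_pos D.gpos
    rcases Nat.lt_or_ge 1 (X.gcd D.g) with hgt | hle
    · have hc := cnt_le D (n := X.gcd D.g) hgt
      have hc1 : X.card ≤ cnt (X.gcd D.g) Finset.univ D.g := by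
        refine Finset.card_le_card ?_
        intro i hi
        exact Finset.mem_filter.mpr ⟨Finset.mem_univ i, Finset.gcd_dvd hi⟩
      have hc2 : cnt (X.gcd D.g) Finset.univ D.b ≤ (D.E X).card := by
        refine Finset.card_le_card ?_
        intro j hj
        exact hmem j (Finset.mem_filter.mp hj).2
      omega
    · have h11 : X.gcd D.g = 1 := by omega
      have hE : D.E X = Finset.univ := by
        refine Finset.eq_univ_of_forall (fun j => hmem j ?_)
        rw [h11]
        exact one_dvd _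
      apply hX
      rw [← Finset.card_eq_iff_eq_univ, hceq, hE, Finset.card_univ]
      exact D.card
  · -- `V` is nonempty
    exfalso
    have hVne : (Nb F' X J).Nonempty := by
      obtain ⟨j, hj⟩ := hJne
      obtain ⟨u, hu⟩ := hF'ne j
      obtain ⟨x, hx⟩ := X1_nonempty D (hF'sub j hu)
      have huX : u ⊆ X := by
        have := hu
        rw [hF'in j (hJE hj)] at this
        exact this.2
      exact ⟨x, (mem_Nb F' X J x).mpr ⟨huX hx, j, hj, u, hu, hx⟩⟩
    have hOX : X \ Nb F' X J ≠ X := by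
      obtain ⟨x, hx⟩ := hVne
      intro h
      have : x ∈ X \ Nb F' X J := by rw [h]; exact hVX hx
      exact (Finset.mem_sdiff.mp this).2 hx
    have hOg := hmin _ Finset.sdiff_subset hOX hOne
    have hdis : Disjoint J (D.E (X \ Nb F' X J)) := by
      rw [Finset.disjoint_left]
      intro j hjJ hj
      obtain ⟨u, hu, huO⟩ := (mem_E_iff D _ j).mp hj
      have huX : u ⊆ X := huO.trans Finset.sdiff_subset
      obtain ⟨x, hx⟩ := X1_nonempty D hu
      have hu' : u ∈ F' j := by
        rw [hF'in j (hJE hjJ)]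
        exact ⟨hu, huX⟩
      exact (Finset.mem_sdiff.mp (huO hx)).2
        ((mem_Nb F' X J x).mpr ⟨huX hx, j, hjJ, u, hu', hx⟩)
    have hun := Good.union D hdis hVg hOg
    rw [Finset.union_sdiff_of_subset hVX] at hun
    exact hbad (Good.mono D (Finset.Subset.refl X)
      (Finset.union_subset hJE (E_mono D Finset.sdiff_subset)) hun)

end Pool.Agent.LibCov74
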