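import Pool.Agent.LibCov74.N1
import Pool.Agent.LibCov74.L1c

/-!
# Pure numbers in a set of three generators: the coefficients
-/

set_option autoImplicit false

namespace Pool.Agent.LibCov74

open Finset
open Pool.Agent.LibVol74 (HS)

variable {ι κ : Type} [Fintype ι] [Fintype κ]

open Classical in
/-- `[n - x ∈ T]` -/
noncomputable def ind (T : AddSubmonoid ℕ) (n x : ℕ) : ℤ := if ∃ s ∈ T, n = s + x then 1 else 0

theorem coeff_HS_mul (T : AddSubmonoid ℕ) (x n : ℕ) :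
    PowerSeries.coeff n (HS T * (PowerSeries.X : PowerSeries ℤ) ^ x) = ind T n x := by
  classical
  rw [PowerSeries.coeff_mul_X_pow', ind]
  by_cases h : ∃ s ∈ T, n = s + x
  · obtain ⟨s, hs, rfl⟩ := h
    rw [if_pos (Nat.le_add_left x s), if_pos ⟨s, hs, rfl⟩, Nat.add_sub_cancel, L1a_HS, if_pos hs]
  · rw [if_neg h]
    split_ifs with h1
    · rw [L1a_HS, if_neg]
      intro h2
      exact h ⟨n - x, h2, by omega⟩
    · rfl

theorem coeff_HS_three (T : AddSubmonoid ℕ) (x y z n : ℕ) :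
    PowerSeries.coeff n (HS T * ((1 - (PowerSeries.X : PowerSeries ℤ) ^ x) *
      (1 - PowerSeries.X ^ y) * (1 - PowerSeries.X ^ z))) =
      ind T n 0 - ind T n x - ind T n y - ind T n z + ind T n (x + y) + ind T n (x + z) +
        ind T n (y + z) - ind T n (x + y + z) := by
  have h : HS T * ((1 - (PowerSeries.X : PowerSeries ℤ) ^ x) *
      (1 - PowerSeries.X ^ y) * (1 - PowerSeries.X ^ z)) =
      HS T * PowerSeries.X ^ 0 - HS T * PowerSeries.X ^ x - HS T * PowerSeries.X ^ y -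
        HS T * PowerSeries.X ^ z + HS T * PowerSeries.X ^ (x + y) + HS T * PowerSeries.X ^ (x + z) +
        HS T * PowerSeries.X ^ (y + z) - HS T * PowerSeries.X ^ (x + y + z) := by
    rw [pow_zero]
    simp only [pow_add]
    ring
  rw [h]
  simp only [map_sub, map_add, coeff_HS_mul]

/-- `coeff_pure` and `prod_triv`, `coeff_mul_triv` for the labels `j ∉ D.P Z`: `n = s + b j`, `s ∈ S`, is
impossible as `b j` is touched by a generator outside `Z`, and so would `n` be. -/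
theorem coeff_P [DecidableEq κ] (D : Dt ι κ) (Z : Finset ι) (n : ℕ)
    (hn : ∀ i, i ∉ Z → ¬ D.Tch i n) :
    PowerSeries.coeff n (∏ j ∈ D.P Z, (1 - (PowerSeries.X : PowerSeries ℤ) ^ D.b j)) =
      PowerSeries.coeff n (HS (Mon D.g Z) * ∏ i ∈ Z, (1 - (PowerSeries.X : PowerSeries ℤ) ^ D.g i)) := by
  rw [← coeff_pure D Z n hn, ← Finset.prod_mul_prod_compl (D.P Z)]
  symm
  obtain ⟨h1, h2, h3⟩ := prod_triv D.S n ((D.P Z)ᶜ) D.b
    (fun w _ => ⟨D.bpos w, b_mem D w⟩) (fun w hw => by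
      rintro ⟨s, hs, hns⟩
      rw [Finset.mem_compl, mem_P] at hw
      push Not at hw
      obtain ⟨i, hi, hiT⟩ := hw
      apply hn i hi
      rw [hns, add_comm]
      exact tch_add D i hiT hs)
  refine coeff_mul_triv D.S n _ _ h1 h3 fun a ha => ?_
  by_contra hcon
  apply ha
  have h4 := L1b_supp D.S D.b (D.P Z) (fun j _ => b_mem D j) 1 (fun m hm => by
    rw [PowerSeries.coeff_one, if_neg]
    rintro rfl
    exact hm D.S.zero_mem) a hcon
  rwa [one_mul] at h4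

/-- `n - g i - g k ∈ S` -/
def Dt.Ed (D : Dt ι κ) (i k : ι) (n : ℕ) : Prop := ∃ s ∈ D.S, n = s + (D.g i + D.g k)

/-- for pure `n` the summand is pure -/
theorem N3a_ind (D : Dt ι κ) (Z : Finset ι) {n : ℕ} (hn : ∀ x, x ∉ Z → ¬ D.Tch x n) {x : ℕ}
    (hx : x ∈ D.S) : (∃ s ∈ Mon D.g Z, n = s + x) ↔ ∃ s ∈ D.S, n = s + x := by
  constructor
  · rintro ⟨s, hs, h⟩
    exact ⟨s, Mon_le D Z hs, h⟩
  · rintro ⟨s, hs, h⟩
    refine ⟨s, mem_Mon_of_pure D Z hs fun i hi hT => hn i hi ?_, h⟩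
    rw [h]
    exact tch_add D i hT hx

open Classical in
/-- `coeff_P`, `coeff_HS_three` for `T = Mon D.g {i, k, l}`; for pure `n`, `n = s + x` with `s ∈ S` implies that `s` is
pure, so `s ∈ T` (`mem_Mon_of_pure`). -/
theorem coeff_P_three [DecidableEq ι] [DecidableEq κ] (D : Dt ι κ) {i k l : ι} (hik : i ≠ k)
    (hil : i ≠ l) (hkl : k ≠ l) {n : ℕ} (hnS : n ∈ D.S)
    (hn : ∀ x, x ∉ ({i, k, l} : Finset ι) → ¬ D.Tch x n) :
    PowerSeries.coeff n (∏ j ∈ D.P {i, k, l}, (1 - (PowerSeries.X : PowerSeries ℤ) ^ D.b j)) =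
      1 - (if D.Tch i n then 1 else 0) - (if D.Tch k n then 1 else 0) - (if D.Tch l n then 1 else 0) +
        (if D.Ed i k n then 1 else 0) + (if D.Ed i l n then 1 else 0) +
        (if D.Ed k l n then 1 else 0) -
        (if ∃ s ∈ D.S, n = s + (D.g i + D.g k + D.g l) then 1 else 0) := by
  have hg : ∀ x, D.g x ∈ D.S := fun x => g_mem D x
  have hI : ∀ x, x ∈ D.S → ind (Mon D.g {i, k, l}) n x =
      if ∃ s ∈ D.S, n = s + x then 1 else 0 := by
    intro x hx
    rw [ind]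
    by_cases h : ∃ s ∈ D.S, n = s + x
    · rw [if_pos h, if_pos ((N3a_ind D _ hn hx).2 h)]
    · rw [if_neg h, if_neg fun h' => h ((N3a_ind D _ hn hx).1 h')]
  have h0 : (∃ s ∈ D.S, n = s + 0) := ⟨n, hnS, rfl⟩
  rw [coeff_P D _ n hn, Finset.prod_insert (by simp [hik, hil]), Finset.prod_insert (by simp [hkl]),
    Finset.prod_singleton, ← mul_assoc (1 - (PowerSeries.X : PowerSeries ℤ) ^ D.g i),
    coeff_HS_three, hI 0 D.S.zero_mem, hI _ (hg i), hI _ (hg k), hI _ (hg l),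
    hI _ (D.S.add_mem (hg i) (hg k)), hI _ (D.S.add_mem (hg i) (hg l)),
    hI _ (D.S.add_mem (hg k) (hg l)), hI _ (D.S.add_mem (D.S.add_mem (hg i) (hg k)) (hg l)),
    if_pos h0]
  rfl

end Pool.Agent.LibCov74
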