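import Pool.Agent.LibCov74.A3b
import Pool.Agent.LibCov74.N3a

/-!
# The pure lemma (helper49)
-/

set_option autoImplicit false

namespace Pool.Agent.LibCov74

open Finset
open Pool.Agent.LibVol74 (HS)

variable {ι κ : Type} [Fintype ι] [Fintype κ] [DecidableEq ι] [DecidableEq κ]

/-- from the products to the series, at the numbers of a set closed under subtraction -/
theorem M2_cancel (D : Dt ι κ) (U : Set ℕ) (hU : ∀ m s, s ∈ D.S → m + s ∈ U → m ∈ U)
    (W : Finset ι) : ∀ A B : PowerSeries ℤ,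
    (∀ m ∈ U, PowerSeries.coeff m (A * ∏ i ∈ W, (1 - (PowerSeries.X : PowerSeries ℤ) ^ D.g i)) =
      PowerSeries.coeff m (B * ∏ i ∈ W, (1 - (PowerSeries.X : PowerSeries ℤ) ^ D.g i))) →
    ∀ m ∈ U, PowerSeries.coeff m A = PowerSeries.coeff m B := by
  classical
  induction W using Finset.induction_on with
  | empty =>
    intro A B h m hm
    have h1 := h m hm
    rwa [Finset.prod_empty, mul_one, mul_one] at h1
  | insert i W hi ih =>
    intro A B h
    have h1 : ∀ m ∈ U, PowerSeries.coeff m (A * (1 - (PowerSeries.X : PowerSeries ℤ) ^ D.g i)) =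
        PowerSeries.coeff m (B * (1 - (PowerSeries.X : PowerSeries ℤ) ^ D.g i)) := by
      refine ih _ _ fun m hm => ?_
      have h2 := h m hm
      rwa [Finset.prod_insert hi, ← mul_assoc, ← mul_assoc] at h2
    intro m
    induction m using Nat.strong_induction_on with
    | _ m ihm =>
      intro hm
      have h2 := h1 m hm
      rw [mul_sub, mul_sub, mul_one, mul_one, map_sub, map_sub, PowerSeries.coeff_mul_X_pow',
        PowerSeries.coeff_mul_X_pow'] at h2
      by_cases hle : D.g i ≤ m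
      · rw [if_pos hle, if_pos hle] at h2
        have h3 : m - D.g i ∈ U := hU _ (D.g i) (g_mem D i) (by rwa [Nat.sub_add_cancel hle])
        have h4 := ihm (m - D.g i) (by have := D.gpos i; omega) h3
        rw [h4] at h2
        linarith
      · rw [if_neg hle, if_neg hle, sub_zero, sub_zero] at h2
        exact h2

/-- Let `∏_{D.P Z} (1 - z^b) = Q ∏_Z (1 - z^g)`. At a number `n` which is touched by no generator outside `Z` the coefficient of
`Q` is `1` if `n ∈ S` and `0` otherwise: by `coeff_P` the series `Q ∏_Z (1 - z^g)` and `HS ⟨Z⟩ ∏_Z (1 - z^g)` have the same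
coefficients at all such numbers; the set of these numbers is closed under subtraction of elements of `S`, so (induction on
a subset of `Z`: from `q (1 - z^g)` to `q`) the same is true for `Q` and `HS ⟨Z⟩`; and `n ∈ ⟨Z⟩` iff `n ∈ S` (`mem_Mon_of_pure`). -/
theorem coeff_quot_pure (D : Dt ι κ) (Z : Finset ι) (Q : Polynomial ℤ)
    (hQ : ∏ j ∈ D.P Z, (1 - Polynomial.X ^ D.b j : Polynomial ℤ) =
      Q * ∏ i ∈ Z, (1 - Polynomial.X ^ D.g i)) (n : ℕ) (hn : ∀ i, i ∉ Z → ¬ D.Tch i n) :
    (n ∈ D.S → Q.coeff n = 1) ∧ (n ∉ D.S → Q.coeff n = 0) := by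
  classical
  have hQ' : ∏ j ∈ D.P Z, (1 - (PowerSeries.X : PowerSeries ℤ) ^ D.b j) =
      (Q : PowerSeries ℤ) * ∏ i ∈ Z, (1 - (PowerSeries.X : PowerSeries ℤ) ^ D.g i) := by
    have h1 := congrArg (Polynomial.coeToPowerSeries.ringHom (R := ℤ)) hQ
    rw [map_mul, map_prod, map_prod] at h1
    simpa using h1
  have h2 := M2_cancel D {m | ∀ i, i ∉ Z → ¬ D.Tch i m} (fun m s hs hm i hi hT =>
    hm i hi (tch_add D i hT hs)) Z (Q : PowerSeries ℤ) (HS (Mon D.g Z)) (fun m hm => by
      rw [← hQ']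
      exact coeff_P D Z m hm) n hn
  rw [Polynomial.coeff_coe, L1a_HS] at h2
  constructor
  · intro hS
    rw [h2, if_pos (mem_Mon_of_pure D Z hS hn)]
  · intro hS
    rw [h2, if_neg fun h => hS (Mon_le D Z h)]

/-- **Pure lemma.** If every `n ≥ 1` divides at least as many labels of `D.P Z` as generators of `Z` and
`c = ∑ D.P Z - ∑ Z` is touched by no generator outside `Z`, then `(D.P Z).card ≤ Z.card`.
Proof. `exists_quot` gives `Q`. If `Q.coeff n ≠ 0`, `quot_pal` and `quot_supp` give `c = n + m` with `n, m ∈ S`, so `n` is not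
touched from outside `Z` either (`tch_add`) and `Q.coeff n = 1` (`coeff_quot_pure`). As `Q.coeff 0 = 1` all coefficients of `Q`
are `≥ 0` and `Q(1) > 0`. If `Z.card < (D.P Z).card` then `Q(1) = 0` (write `1 - X^a = (1 - X) [a]` with `[a] = 1 + X + … + X^{a-1}`,
cancel `(1 - X)^{Z.card}` and put `X = 1`; compare `prod_eq` in `A3b`): contradiction. -/
theorem pure_lemma (D : Dt ι κ) (Z : Finset ι)
    (hdom : ∀ n, 1 ≤ n → cnt n Z D.g ≤ cnt n (D.P Z) D.b) {c : ℕ}
    (hc : ∑ j ∈ D.P Z, D.b j = c + ∑ i ∈ Z, D.g i) (hpure : ∀ i, i ∉ Z → ¬ D.Tch i c) :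
    (D.P Z).card ≤ Z.card := by
  classical
  obtain ⟨Q, hQ⟩ := exists_quot Z D.g (D.P Z) D.b (fun i _ => D.gpos i) (fun j _ => D.bpos j) hdom
  -- the coefficients are `0` or `1`
  have hco : ∀ n, Q.coeff n = 0 ∨ Q.coeff n = 1 := by
    intro n
    by_cases h0 : Q.coeff n = 0
    · exact Or.inl h0
    · right
      obtain ⟨m, hm, hnm⟩ := quot_pal Z D.g (D.P Z) D.b (fun i _ => D.gpos i)
        (fun j _ => D.bpos j) Q hQ n h0
      have hmS := quot_supp Z D.g (D.P Z) D.b (fun i _ => D.gpos i) D.S (fun i _ => g_mem D i)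
        (fun j _ => b_mem D j) Q hQ m hm
      have hnS := quot_supp Z D.g (D.P Z) D.b (fun i _ => D.gpos i) D.S (fun i _ => g_mem D i)
        (fun j _ => b_mem D j) Q hQ n h0
      have hc' : c = n + m := by omega
      refine (coeff_quot_pure D Z Q hQ n fun i hi hT => hpure i hi ?_).1 hnS
      rw [hc']
      exact tch_add D i hT hmS
  have hQ0 : Q.coeff 0 = 1 := by
    have h1 := congrArg (Polynomial.eval 0) hQ
    rw [Polynomial.eval_mul, Polynomial.eval_prod, Polynomial.eval_prod] at h1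
    have h2 : ∏ j ∈ D.P Z, Polynomial.eval 0 (1 - Polynomial.X ^ D.b j : Polynomial ℤ) = 1 := by
      refine Finset.prod_eq_one fun j _ => ?_
      have := D.bpos j
      simp [this.ne']
    have h3 : ∏ i ∈ Z, Polynomial.eval 0 (1 - Polynomial.X ^ D.g i : Polynomial ℤ) = 1 := by
      refine Finset.prod_eq_one fun i _ => ?_
      have := D.gpos i
      simp [this.ne']
    rw [h2, h3, mul_one] at h1
    rw [Polynomial.coeff_zero_eq_eval_zero]
    exact h1.symm
  have hQ1 : 0 < Q.eval 1 := by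
    rw [Polynomial.eval_eq_sum_range]
    refine Finset.sum_pos' (fun n _ => ?_) ⟨0, Finset.mem_range.2 (Nat.succ_pos _), ?_⟩
    · rcases hco n with h | h
      · rw [h, zero_mul]
      · rw [h, one_pow, mul_one]
        exact zero_le_one
    · rw [hQ0]
      simp
  by_contra hlt
  push Not at hlt
  obtain ⟨k, hk⟩ : ∃ k, (D.P Z).card = Z.card + (k + 1) :=
    ⟨(D.P Z).card - Z.card - 1, by omega⟩
  have h := hQ
  simp only [A3b_geom] at h
  rw [Finset.prod_mul_distrib, Finset.prod_mul_distrib, Finset.prod_const, Finset.prod_const, hk]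
    at h
  have h2 : (1 - Polynomial.X : Polynomial ℤ) ^ Z.card *
      ((1 - Polynomial.X) ^ (k + 1) * ∏ j ∈ D.P Z, ∑ i ∈ range (D.b j), Polynomial.X ^ i) =
      (1 - Polynomial.X : Polynomial ℤ) ^ Z.card *
        (Q * ∏ j ∈ Z, ∑ i ∈ range (D.g j), Polynomial.X ^ i) := by
    rw [pow_add] at h
    linear_combination h
  have h3 := mul_left_cancel₀ (pow_ne_zero _ A3b_one_sub_X_ne) h2
  have h4 := congrArg (Polynomial.eval 1) h3
  simp only [Polynomial.eval_mul, Polynomial.eval_sub, Polynomial.eval_one, Polynomial.eval_X,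
    sub_self, Polynomial.eval_prod, Polynomial.eval_finsetSum, Polynomial.eval_pow, one_pow,
    sum_const, card_range, nsmul_eq_mul, mul_one, pow_succ, mul_zero, zero_mul] at h4
  have h5 : ∏ i ∈ Z, (D.g i : ℤ) ≠ 0 := Finset.prod_ne_zero_iff.2 fun i _ => by
    have := D.gpos i
    exact_mod_cast this.ne'
  rcases mul_eq_zero.1 h4.symm with h6 | h6
  · exact hQ1.ne' h6
  · exact h5 h6

end Pool.Agent.LibCov74
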