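import Pool.Agent.LibCov74.M1
import Pool.Agent.LibCov74.M2

/-!
# Counting for the set `Z` of `Top`

Hypothesis `hδ`: every nonempty set `V` of generators which is contained in `Zᶜ` or contains `Zᶜ` has at least
`V.card - 2` labels in `⟨V⟩`.
-/

set_option autoImplicit false

namespace Pool.Agent.LibCov74

open Finset
open Pool.Agent.LibTP76 (CI)

variable {ι κ : Type} [Fintype ι] [Fintype κ] [DecidableEq ι] [DecidableEq κ]

/-- labels in `⟨X⟩`, `X` outside `Z`, are not pure in `Z` -/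
theorem M3_E_not_P (D : Dt ι κ) {Z X : Finset ι} (hX : X ⊆ Zᶜ) {j : κ} (hj : j ∈ D.E X) :
    j ∉ D.P Z := by
  obtain ⟨i, hi, ht⟩ := tch_of_mem_Mon D ((mem_E D X j).1 hj) (D.bpos j)
  intro hP
  exact (mem_P D Z j).1 hP i (Finset.mem_compl.1 (hX hi)) ht

theorem M3_compl_nonempty {D : Dt ι κ} {Z : Finset ι} {m : ℕ} (t : Top D Z m) : Zᶜ.Nonempty := by
  rw [Finset.nonempty_iff_ne_empty]
  intro h
  exact t.ne' ((Finset.compl_eq_empty_iff Z).1 h)

/-- `m ≤ 1`: `D.P Z` and `D.E Zᶜ` are disjoint (a label in `⟨Zᶜ⟩` is touched by an element of `Zᶜ`), so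
`(Z.card + m) + (Zᶜ.card - 2) ≤ #κ = #ι - 1`. -/
theorem Top.le_one {D : Dt ι κ} {Z : Finset ι} {m : ℕ} (t : Top D Z m)
    (hδ : ∀ V : Finset ι, V.Nonempty → (V ⊆ Zᶜ ∨ Zᶜ ⊆ V) → V.card ≤ (D.E V).card + 2) :
    m ≤ 1 := by
  have hne := M3_compl_nonempty t
  have h1 := hδ Zᶜ hne (Or.inl (Finset.Subset.refl _))
  have h2 : Disjoint (D.P Z) (D.E Zᶜ) := by
    rw [Finset.disjoint_left]
    intro j hj hj'
    exact M3_E_not_P D (Finset.Subset.refl _) hj' hj
  have h3 := Finset.card_le_univ (D.P Z ∪ D.E Zᶜ)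
  rw [Finset.card_union_of_disjoint h2] at h3
  have h4 := t.eq
  have h5 := D.card
  have h6 := Finset.card_add_card_compl Z
  omega

/-- Domination. Let `Z_n = {i ∈ Z | n ∣ g i}`, `X = Z \ Z_n`. If `X = ∅`: all labels of `D.P Z` are in `⟨Z⟩`, so divisible by `n`.
If `X ≠ ∅`: a label `j ∈ D.P Z` not divisible by `n` is not in `D.E Xᶜ` (a factorization with support inside `Xᶜ` has its support
inside `Z ∩ Xᶜ = Z_n`, as `j` is touched by no generator outside `Z`). So there are at most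
`#κ - (D.E Xᶜ).card ≤ #ι - 1 - (Xᶜ.card - 2) = X.card + 1` of them (`Zᶜ ⊆ Xᶜ`), and
`cnt n (D.P Z) b ≥ Z.card + 1 - X.card - 1 = Z_n.card`. (`Xᶜ` is nonempty as `Z ≠ univ`.) -/
theorem Top.dom {D : Dt ι κ} {Z : Finset ι} (t : Top D Z 1)
    (hδ : ∀ V : Finset ι, V.Nonempty → (V ⊆ Zᶜ ∨ Zᶜ ⊆ V) → V.card ≤ (D.E V).card + 2) (n : ℕ)
    (hn : 1 ≤ n) : cnt n Z D.g ≤ cnt n (D.P Z) D.b := by
  obtain ⟨Zn, hZn⟩ : ∃ Zn : Finset ι, Zn = Z.filter (fun i => n ∣ D.g i) := ⟨_, rfl⟩
  obtain ⟨X, hX⟩ : ∃ X : Finset ι, X = Z.filter (fun i => ¬ n ∣ D.g i) := ⟨_, rfl⟩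
  obtain ⟨G, hG⟩ : ∃ G : Finset κ, G = (D.P Z).filter (fun j => n ∣ D.b j) := ⟨_, rfl⟩
  obtain ⟨B, hB⟩ : ∃ B : Finset κ, B = (D.P Z).filter (fun j => ¬ n ∣ D.b j) := ⟨_, rfl⟩
  have e1 : Zn.card + X.card = Z.card := by
    rw [hZn, hX]
    exact Finset.card_filter_add_card_filter_not (fun i => n ∣ D.g i)
  have e2 : G.card + B.card = (D.P Z).card := by
    rw [hG, hB]
    exact Finset.card_filter_add_card_filter_not (fun j => n ∣ D.b j)
  have e3 : cnt n Z D.g = Zn.card := by rw [hZn]; rfl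
  have e4 : cnt n (D.P Z) D.b = G.card := by rw [hG]; rfl
  rw [e3, e4]
  have h4 := t.eq
  have h5 := D.card
  have hdvd : ∀ j, D.b j ∈ Mon D.g Zn → n ∣ D.b j := by
    intro j hj
    obtain ⟨x, hx⟩ := (mem_Mon_iff D.g Zn (D.b j)).1 hj
    rw [← hx]
    refine Finset.dvd_sum fun i hi => Dvd.dvd.mul_left ?_ _
    rw [hZn] at hi
    exact (Finset.mem_filter.1 hi).2
  by_cases hXe : X = ∅
  · have hZZ : Zn = Z := by
      rw [hZn, Finset.filter_eq_self]
      intro i hi
      by_contra hni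
      have : i ∈ X := by rw [hX]; exact Finset.mem_filter.2 ⟨hi, hni⟩
      rw [hXe] at this
      exact absurd this (Finset.notMem_empty i)
    have hBe : B = ∅ := by
      rw [hB, Finset.filter_eq_empty_iff]
      intro j hj hnj
      refine hnj (hdvd j ?_)
      rw [hZZ]
      exact mem_Mon_of_pure D Z (b_mem D j) ((mem_P D Z j).1 hj)
    rw [hBe, Finset.card_empty] at e2
    omega
  · have hXZ : X ⊆ Z := by rw [hX]; exact Finset.filter_subset _ _
    have hZX : Zᶜ ⊆ Xᶜ := Finset.compl_subset_compl.2 hXZ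
    have h1 := hδ Xᶜ ((M3_compl_nonempty t).mono hZX) (Or.inr hZX)
    have h2 : Disjoint B (D.E Xᶜ) := by
      rw [Finset.disjoint_left]
      intro j hj hj'
      rw [hB] at hj
      obtain ⟨hjP, hnj⟩ := Finset.mem_filter.1 hj
      apply hnj
      apply hdvd j
      rw [← mem_E]
      obtain ⟨u, hu, huX⟩ := (mem_E_iff D Xᶜ j).1 hj'
      refine (mem_E_iff D Zn j).2 ⟨u, hu, fun i hi => ?_⟩
      have hiZ : i ∈ Z := by
        by_contra hiZ
        exact (mem_P D Z j).1 hjP i hiZ ((tch_iff D i j).2 ⟨u, hu, hi⟩)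
      rw [hZn, Finset.mem_filter]
      refine ⟨hiZ, ?_⟩
      by_contra hni
      refine Finset.mem_compl.1 (huX hi) ?_
      rw [hX]
      exact Finset.mem_filter.2 ⟨hiZ, hni⟩
    have h3 := Finset.card_le_univ (B ∪ D.E Xᶜ)
    rw [Finset.card_union_of_disjoint h2] at h3
    have h6 := Finset.card_add_card_compl X
    omega

/-- counting 1: let `(D.E X).card + 2 = X.card`. For `W` disjoint from `X` there are at least `W.card` labels outside `D.E X` which
are touched by an element of `W`: the labels outside `D.E X` touched by no element of `W` are outside `D.E (X ∪ W)`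
(`mem_E_of_not_tch`), so there are at most `#κ - (D.E (X ∪ W)).card ≤ #ι + 1 - X.card - W.card` of them, and
`#κ - (D.E X).card = #ι + 1 - X.card`. -/
theorem touch_count (D : Dt ι κ) {Z : Finset ι}
    (hδ : ∀ V : Finset ι, V.Nonempty → (V ⊆ Zᶜ ∨ Zᶜ ⊆ V) → V.card ≤ (D.E V).card + 2)
    {X W : Finset ι} (hne : X.Nonempty) (hXZ : X ⊆ Zᶜ) (hWZ : W ⊆ Zᶜ)
    (hX : (D.E X).card + 2 = X.card) (hW : Disjoint X W) (T : Finset κ)
    (hT : ∀ j, j ∉ D.E X → (∃ i ∈ W, D.Tch i (D.b j)) → j ∈ T) : W.card ≤ T.card := by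
  have h1 := hδ (X ∪ W) (hne.mono Finset.subset_union_left) (Or.inl (Finset.union_subset hXZ hWZ))
  rw [Finset.card_union_of_disjoint hW] at h1
  have h2 : D.E (X ∪ W) ⊆ D.E X ∪ T := by
    intro j hj
    rw [Finset.mem_union]
    by_cases hjX : j ∈ D.E X
    · exact Or.inl hjX
    · right
      refine hT j hjX ?_
      by_contra hno
      push Not at hno
      exact hjX (mem_E_of_not_tch D hj hno)
  have h3 := (Finset.card_le_card h2).trans (Finset.card_union_le _ _)
  omega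

/-- counting 2: let `X, W ⊆ Zᶜ` be disjoint, `X ∪ W ≠ Zᶜ`, `X` nonempty, `(D.E X).card + 2 = X.card`. There are at least
`W.card + 1` labels outside `D.P Z` and outside `D.E X` touched by an element of `X ∪ W`: the labels touched by no element of
`X ∪ W` are in `D.P Z'` with `Z' = (X ∪ W)ᶜ`, `Z ⊂ Z'`, so `(D.P Z').card ≤ Z'.card` by `t.lt`, and those outside `D.P Z` are at most
`Z'.card - Z.card - 1` (`P_mono`, `t.eq`); there are `#κ - (Z.card + 1) - (X.card - 2) = Zᶜ.card - X.card` labels outside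
`D.P Z` and outside `D.E X` (`D.E X` and `D.P Z` are disjoint). -/
theorem Top.touch_count' {D : Dt ι κ} {Z : Finset ι} (t : Top D Z 1) {X W : Finset ι}
    (hne : X.Nonempty) (hXZ : X ⊆ Zᶜ) (hWZ : W ⊆ Zᶜ) (hW : Disjoint X W) (hXW : X ∪ W ≠ Zᶜ)
    (hX : (D.E X).card + 2 = X.card) (T : Finset κ)
    (hT : ∀ j, j ∉ D.P Z → j ∉ D.E X → (∃ i ∈ X ∪ W, D.Tch i (D.b j)) → j ∈ T) :
    W.card + 1 ≤ T.card := by
  obtain ⟨Z', hZ'⟩ : ∃ Z' : Finset ι, Z' = (X ∪ W)ᶜ := ⟨_, rfl⟩
  have hsub : X ∪ W ⊆ Zᶜ := Finset.union_subset hXZ hWZ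
  have hZZ : Z ⊂ Z' := by
    rw [Finset.ssubset_iff_subset_ne]
    constructor
    · intro i hi
      rw [hZ', Finset.mem_compl]
      intro hi'
      exact Finset.mem_compl.1 (hsub hi') hi
    · intro h
      apply hXW
      rw [h, hZ', compl_compl]
  have hZu : Z' ≠ Finset.univ := by
    intro h
    obtain ⟨i, hi⟩ := hne
    have : i ∈ Z' := by rw [h]; exact Finset.mem_univ i
    rw [hZ', Finset.mem_compl] at this
    exact this (Finset.mem_union_left _ hi)
  have h1 := t.lt Z' hZZ hZu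
  have h2 : (Finset.univ : Finset κ) ⊆ D.P Z' ∪ (D.E X ∪ T) := by
    intro j _
    rw [Finset.mem_union, Finset.mem_union]
    by_cases hjP : j ∈ D.P Z'
    · exact Or.inl hjP
    · right
      by_cases hjX : j ∈ D.E X
      · exact Or.inl hjX
      · right
        refine hT j (fun h => hjP (P_mono D hZZ.subset h)) hjX ?_
        by_contra hno
        push Not at hno
        refine hjP ((mem_P D Z' j).2 fun i hi => hno i ?_)
        rw [hZ', Finset.mem_compl, not_not] at hi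
        exact hi
  have h3 := Finset.card_le_card h2
  have h4 := Finset.card_union_le (D.P Z') (D.E X ∪ T)
  have h5 := Finset.card_union_le (D.E X) T
  rw [Finset.card_univ] at h3
  have h6 := D.card
  have h7 : (X ∪ W).card = X.card + W.card := Finset.card_union_of_disjoint hW
  have h8 := Finset.card_add_card_compl (X ∪ W)
  rw [← hZ'] at h8
  omega

end Pool.Agent.LibCov74
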