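import Pool.Agent.LibCov74.M3
import Pool.Agent.LibCov74.X2

/-!
# Violators and sets `V` with at least `V.card - 2` labels in `⟨V⟩` (helper49)
-/

set_option autoImplicit false

namespace Pool.Agent.LibCov74

open Finset
open Pool.Agent.LibTP76 (CI)

variable {ι κ : Type} [Fintype ι] [Fintype κ] [DecidableEq ι] [DecidableEq κ]

/-- `(X.erase v, D.E X)` is good -/
theorem M4_good_erase {D : Dt ι κ} {X : Finset ι} (hX : (D.E X).card + 2 = X.card)
    (hmin : ∀ T, T ⊆ X → T ≠ X → T.Nonempty → D.Good T (D.E T)) {v : ι} (hv : v ∈ X) :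
    D.Good (X.erase v) (D.E X) := by
  have hne : (X.erase v).Nonempty := by
    rw [← Finset.card_pos, Finset.card_erase_of_mem hv]
    omega
  have h1 := hmin (X.erase v) (Finset.erase_subset v X)
    (fun h => Finset.notMem_erase v X (by rw [h]; exact hv)) hne
  exact Good.mono D (Finset.Subset.refl _) (E_mono D (Finset.erase_subset v X)) h1

/-- `X ⊆ Zᶜ` minimal bad with `(D.E X).card + 2 = X.card`, `v ∈ X`: `(X.erase v, D.E X)` is good (`hmin`, `E_mono`, `Good.mono`; `X` has at
least two elements), `Zᶜ \ X` is matched into the labels outside `D.P Z` and `D.E X` (Hall's theorem, `touch_count`; a label touched by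
an element of `Zᶜ` is not in `D.P Z`), `good_of_match`; `Good.union`. -/
theorem Top.good_erase_mem {D : Dt ι κ} {Z : Finset ι} (t : Top D Z 1)
    (hδ : ∀ V : Finset ι, V.Nonempty → (V ⊆ Zᶜ ∨ Zᶜ ⊆ V) → V.card ≤ (D.E V).card + 2)
    {X : Finset ι} (hne : X.Nonempty) (hXZ : X ⊆ Zᶜ) (hX : (D.E X).card + 2 = X.card)
    (hmin : ∀ T, T ⊆ X → T ≠ X → T.Nonempty → D.Good T (D.E T)) {v : ι} (hv : v ∈ X) :
    D.Good (Zᶜ.erase v) (D.P Z)ᶜ := by
  classical
  obtain ⟨R, hR⟩ : ∃ R : Finset ι, R = Zᶜ \ X := ⟨_, rfl⟩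
  obtain ⟨j₀, -⟩ := t.P_nonempty
  let T : {x // x ∈ R} → Finset κ := fun i =>
    Finset.univ.filter (fun j => (j ∉ D.P Z ∧ j ∉ D.E X) ∧ D.Tch i.1 (D.b j))
  have hall : ∀ S : Finset {x // x ∈ R}, S.card ≤ (S.biUnion T).card := by
    intro S
    have hW : (S.image Subtype.val).card = S.card :=
      Finset.card_image_of_injective _ Subtype.val_injective
    have hWR : S.image Subtype.val ⊆ R := by
      intro i hi
      obtain ⟨x, -, rfl⟩ := Finset.mem_image.1 hi
      exact x.2
    have hWZ : S.image Subtype.val ⊆ Zᶜ := fun i hi => by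
      have := hWR hi
      rw [hR] at this
      exact (Finset.mem_sdiff.1 this).1
    have hdis : Disjoint X (S.image Subtype.val) := by
      rw [Finset.disjoint_left]
      intro i hi hi'
      have := hWR hi'
      rw [hR] at this
      exact (Finset.mem_sdiff.1 this).2 hi
    rw [← hW]
    refine touch_count D hδ hne hXZ hWZ hX hdis _ ?_
    rintro j hjX ⟨i, hi, ht⟩
    obtain ⟨x, hx, rfl⟩ := Finset.mem_image.1 hi
    refine Finset.mem_biUnion.2 ⟨x, hx, Finset.mem_filter.2 ⟨Finset.mem_univ _, ⟨?_, hjX⟩, ht⟩⟩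
    intro hP
    exact (mem_P D Z j).1 hP _ (Finset.mem_compl.1 (hWZ hi)) ht
  obtain ⟨f, hf, hfT⟩ := (Finset.all_card_le_biUnion_card_iff_exists_injective T).mp hall
  have hg1 : D.Good R ((D.P Z)ᶜ \ D.E X) := by
    refine good_of_match D _ _ (fun i => if h : i ∈ R then f ⟨i, h⟩ else j₀) ?_ ?_
    · intro i hi
      have h1 := (Finset.mem_filter.mp (hfT ⟨i, hi⟩)).2
      simp only [dif_pos hi]
      exact ⟨Finset.mem_sdiff.2 ⟨Finset.mem_compl.2 h1.1.1, h1.1.2⟩, h1.2⟩
    · intro i hi i' hi' h1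
      have hi : i ∈ R := hi
      have hi' : i' ∈ R := hi'
      simp only [dif_pos hi, dif_pos hi'] at h1
      exact congrArg Subtype.val (hf h1)
  have hg2 := M4_good_erase hX hmin hv
  have hg3 := Good.union D (disjoint_sdiff_self_right : Disjoint (D.E X) ((D.P Z)ᶜ \ D.E X)) hg2 hg1
  refine Good.mono D ?_ ?_ hg3
  · intro i hi
    obtain ⟨hiv, hiZ⟩ := Finset.mem_erase.1 hi
    rw [Finset.mem_union, Finset.mem_erase]
    by_cases hiX : i ∈ X
    · exact Or.inl ⟨hiv, hiX⟩
    · right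
      rw [hR]
      exact Finset.mem_sdiff.2 ⟨hiZ, hiX⟩
  · intro j hj
    rcases Finset.mem_union.1 hj with h | h
    · exact Finset.mem_compl.2 (M3_E_not_P D hXZ h)
    · exact (Finset.mem_sdiff.1 h).1

/-- The same for `v ∈ Zᶜ \ X`. Hall's theorem for the index type `Option {w // w ∈ (Zᶜ \ X).erase v}`: `some w` may choose the labels
outside `D.P Z` and `D.E X` touched by `w`, `none` may choose the labels outside `D.P Z` and `D.E X` touched by some element of `X`. A set
of indices `some w`, `w ∈ W`, has at least `W.card` labels (`touch_count`), with `none` at least `W.card + 1` labels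
(`Top.touch_count'`; `X ∪ W ≠ Zᶜ` as `v` is missing). Let `j` be the label of `none` and `s ∈ X` with `D.Tch s (D.b j)`. Then
`((Zᶜ \ X).erase v ∪ {s}, labels outside D.P Z and D.E X)` is good (`good_of_match`) and `(X.erase s, D.E X)` is good: `Good.union`. -/
theorem Top.good_erase_not_mem {D : Dt ι κ} {Z : Finset ι} (t : Top D Z 1)
    (hδ : ∀ V : Finset ι, V.Nonempty → (V ⊆ Zᶜ ∨ Zᶜ ⊆ V) → V.card ≤ (D.E V).card + 2)
    {X : Finset ι} (hne : X.Nonempty) (hXZ : X ⊆ Zᶜ) (hX : (D.E X).card + 2 = X.card)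
    (hmin : ∀ T, T ⊆ X → T ≠ X → T.Nonempty → D.Good T (D.E T)) {v : ι} (hvZ : v ∉ Z)
    (hv : v ∉ X) : D.Good (Zᶜ.erase v) (D.P Z)ᶜ := by
  classical
  obtain ⟨R, hR⟩ : ∃ R : Finset ι, R = (Zᶜ \ X).erase v := ⟨_, rfl⟩
  have hRm : ∀ i, i ∈ R ↔ i ≠ v ∧ i ∈ Zᶜ ∧ i ∉ X := fun i => by
    rw [hR, Finset.mem_erase, Finset.mem_sdiff]
  obtain ⟨j₀, -⟩ := t.P_nonempty
  let T : Option {x // x ∈ R} → Finset κ := fun o => match o with
    | none => Finset.univ.filter (fun j => (j ∉ D.P Z ∧ j ∉ D.E X) ∧ ∃ i ∈ X, D.Tch i (D.b j))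
    | some i => Finset.univ.filter (fun j => (j ∉ D.P Z ∧ j ∉ D.E X) ∧ D.Tch i.1 (D.b j))
  have hall : ∀ S : Finset (Option {x // x ∈ R}), S.card ≤ (S.biUnion T).card := by
    intro S
    obtain ⟨S', hS'⟩ : ∃ S' : Finset {x // x ∈ R}, S' = Finset.univ.filter (fun x => some x ∈ S) :=
      ⟨_, rfl⟩
    obtain ⟨W, hWd⟩ : ∃ W : Finset ι, W = S'.image Subtype.val := ⟨_, rfl⟩
    have hW : W.card = S'.card := by
      rw [hWd]
      exact Finset.card_image_of_injective _ Subtype.val_injective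
    have hWR : W ⊆ R := by
      intro i hi
      rw [hWd] at hi
      obtain ⟨x, -, rfl⟩ := Finset.mem_image.1 hi
      exact x.2
    have hWZ : W ⊆ Zᶜ := fun i hi => ((hRm i).1 (hWR hi)).2.1
    have hdis : Disjoint X W := by
      rw [Finset.disjoint_left]
      intro i hi hi'
      exact ((hRm i).1 (hWR hi')).2.2 hi
    have hWS : ∀ i ∈ W, ∃ x : {x // x ∈ R}, some x ∈ S ∧ x.1 = i := by
      intro i hi
      rw [hWd] at hi
      obtain ⟨x, hx, rfl⟩ := Finset.mem_image.1 hi
      rw [hS'] at hx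
      exact ⟨x, (Finset.mem_filter.1 hx).2, rfl⟩
    have hS'c : S'.card = (S.erase none).card := by
      have : S'.image some = S.erase none := by
        ext o
        rw [Finset.mem_image, Finset.mem_erase]
        constructor
        · rintro ⟨x, hx, rfl⟩
          rw [hS'] at hx
          exact ⟨Option.some_ne_none x, (Finset.mem_filter.1 hx).2⟩
        · rintro ⟨ho, hoS⟩
          obtain ⟨x, rfl⟩ := Option.ne_none_iff_exists'.1 ho
          exact ⟨x, by rw [hS']; exact Finset.mem_filter.2 ⟨Finset.mem_univ _, hoS⟩, rfl⟩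
      rw [← this]
      exact (Finset.card_image_of_injective _ (Option.some_injective _)).symm
    by_cases hn : none ∈ S
    · have hc : S.card = W.card + 1 := by
        rw [hW, hS'c, Finset.card_erase_add_one hn]
      rw [hc]
      have hXW : X ∪ W ≠ Zᶜ := by
        intro h
        have hvm : v ∈ X ∪ W := by
          rw [h]
          exact Finset.mem_compl.2 hvZ
        rcases Finset.mem_union.1 hvm with h1 | h1
        · exact hv h1
        · exact ((hRm v).1 (hWR h1)).1 rfl
      refine t.touch_count' hne hXZ hWZ hdis hXW hX _ ?_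
      rintro j hjP hjX ⟨i, hi, ht⟩
      rcases Finset.mem_union.1 hi with h1 | h1
      · exact Finset.mem_biUnion.2 ⟨none, hn, Finset.mem_filter.2 ⟨Finset.mem_univ _,
          ⟨hjP, hjX⟩, i, h1, ht⟩⟩
      · obtain ⟨x, hx, rfl⟩ := hWS i h1
        exact Finset.mem_biUnion.2 ⟨some x, hx, Finset.mem_filter.2 ⟨Finset.mem_univ _,
          ⟨hjP, hjX⟩, ht⟩⟩
    · have hc : S.card = W.card := by
        rw [hW, hS'c, Finset.erase_eq_of_notMem hn]
      rw [hc]
      refine touch_count D hδ hne hXZ hWZ hX hdis _ ?_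
      rintro j hjX ⟨i, hi, ht⟩
      have hjP : j ∉ D.P Z := fun hP => (mem_P D Z j).1 hP _ (Finset.mem_compl.1 (hWZ hi)) ht
      obtain ⟨x, hx, rfl⟩ := hWS i hi
      exact Finset.mem_biUnion.2 ⟨some x, hx, Finset.mem_filter.2 ⟨Finset.mem_univ _,
          ⟨hjP, hjX⟩, ht⟩⟩
  obtain ⟨f, hf, hfT⟩ := (Finset.all_card_le_biUnion_card_iff_exists_injective T).mp hall
  have hnone := (Finset.mem_filter.mp (hfT none)).2
  obtain ⟨⟨hnP, hnX⟩, s, hsX, hst⟩ := hnone
  have hsR : s ∉ R := fun h => ((hRm s).1 h).2.2 hsX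
  have hg1 : D.Good (insert s R) ((D.P Z)ᶜ \ D.E X) := by
    refine good_of_match D _ _ (fun i => if h : i ∈ R then f (some ⟨i, h⟩) else f none) ?_ ?_
    · intro i hi
      rcases Finset.mem_insert.1 hi with rfl | hi
      · simp only [dif_neg hsR]
        exact ⟨Finset.mem_sdiff.2 ⟨Finset.mem_compl.2 hnP, hnX⟩, hst⟩
      · have h1 := (Finset.mem_filter.mp (hfT (some ⟨i, hi⟩))).2
        simp only [dif_pos hi]
        exact ⟨Finset.mem_sdiff.2 ⟨Finset.mem_compl.2 h1.1.1, h1.1.2⟩, h1.2⟩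
    · intro i hi i' hi' h1
      have hi : i ∈ insert s R := hi
      have hi' : i' ∈ insert s R := hi'
      by_cases hiR : i ∈ R
      · by_cases hiR' : i' ∈ R
        · simp only [dif_pos hiR, dif_pos hiR'] at h1
          have h2 := Option.some_injective _ (hf h1)
          exact congrArg Subtype.val h2
        · simp only [dif_pos hiR, dif_neg hiR'] at h1
          exact absurd (hf h1) (Option.some_ne_none _)
      · by_cases hiR' : i' ∈ R
        · simp only [dif_neg hiR, dif_pos hiR'] at h1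
          exact absurd (hf h1).symm (Option.some_ne_none _)
        · have h2 := (Finset.mem_insert.1 hi).resolve_right hiR
          have h3 := (Finset.mem_insert.1 hi').resolve_right hiR'
          rw [h2, h3]
  have hg2 := M4_good_erase hX hmin hsX
  have hg3 := Good.union D (disjoint_sdiff_self_right : Disjoint (D.E X) ((D.P Z)ᶜ \ D.E X)) hg2 hg1
  refine Good.mono D ?_ ?_ hg3
  · intro i hi
    obtain ⟨hiv, hiZ⟩ := Finset.mem_erase.1 hi
    rw [Finset.mem_union, Finset.mem_erase, Finset.mem_insert]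
    by_cases his : i = s
    · exact Or.inr (Or.inl his)
    · by_cases hiX : i ∈ X
      · exact Or.inl ⟨his, hiX⟩
      · exact Or.inr (Or.inr ((hRm i).2 ⟨hiv, hiZ, hiX⟩))
  · intro j hj
    rcases Finset.mem_union.1 hj with h | h
    · exact Finset.mem_compl.2 (M3_E_not_P D hXZ h)
    · exact (Finset.mem_sdiff.1 h).1

/-- `(Zᶜ, D.E Zᶜ)` is not good (`Top.not_good`, `Good.mono`: `D.E Zᶜ ⊆ (D.P Z)ᶜ`). `exists_min_bad` gives `X ⊆ Zᶜ`, `X ≠ univ` as `Z` is
nonempty; `two_le_of_min_bad` and `hδ`: `(D.E X).card + 2 = X.card`. `t.good`: `∑ D.P Z = c + ∑ Z` with `c ∈ S`. If a generator `v ∉ Z` touches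
`c` then `(insert v Z, D.P Z)` is good; with `(Zᶜ.erase v, (D.P Z)ᶜ)` good (`Top.good_erase_mem` or `Top.good_erase_not_mem`) this
contradicts `not_good_univ`. So `pure_lemma` with `Top.dom` gives `(D.P Z).card ≤ Z.card`, contradiction to `t.eq`. -/
theorem Top.false_delta {D : Dt ι κ} {Z : Finset ι} (t : Top D Z 1)
    (hδ : ∀ V : Finset ι, V.Nonempty → (V ⊆ Zᶜ ∨ Zᶜ ⊆ V) → V.card ≤ (D.E V).card + 2) :
    False := by
  classical
  have hbad : ¬ D.Good Zᶜ (D.E Zᶜ) := by
    intro h
    refine t.not_good (Good.mono D (Finset.Subset.refl _) ?_ h)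
    intro j hj
    exact Finset.mem_compl.2 (M3_E_not_P D (Finset.Subset.refl _) hj)
  obtain ⟨X, hXZ, hXne, hXbad, hmin⟩ := exists_min_bad D Zᶜ (M3_compl_nonempty t) hbad
  have hXu : X ≠ Finset.univ := by
    intro h
    obtain ⟨i, hi⟩ := t.ne
    have : i ∈ Zᶜ := hXZ (by rw [h]; exact Finset.mem_univ i)
    exact Finset.mem_compl.1 this hi
  have h1 := two_le_of_min_bad D X hXu hXne hXbad hmin
  have h2 := hδ X hXne (Or.inl hXZ)
  have hX : (D.E X).card + 2 = X.card := by omega
  obtain ⟨c, hcS, hc⟩ := t.good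
  have hpure : ∀ i, i ∉ Z → ¬ D.Tch i c := by
    rintro v hvZ ⟨s, hs, hcv⟩
    have hg1 : D.Good (insert v Z) (D.P Z) := by
      refine ⟨s, hs, ?_⟩
      rw [Finset.sum_insert hvZ, hc, hcv]
      ring
    have hg2 : D.Good (Zᶜ.erase v) (D.P Z)ᶜ := by
      by_cases hvX : v ∈ X
      · exact t.good_erase_mem hδ hXne hXZ hX hmin hvX
      · exact t.good_erase_not_mem hδ hXne hXZ hX hmin hvZ hvX
    have hg3 := Good.union D disjoint_compl_right hg1 hg2
    refine not_good_univ D (Good.mono D ?_ ?_ hg3)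
    · intro i _
      rw [Finset.mem_union, Finset.mem_insert, Finset.mem_erase, Finset.mem_compl]
      by_cases hi : i ∈ Z
      · exact Or.inl (Or.inr hi)
      · by_cases hiv : i = v
        · exact Or.inl (Or.inl hiv)
        · exact Or.inr ⟨hiv, hi⟩
    · exact Finset.subset_univ _
  have h3 := pure_lemma D Z (fun n hn => t.dom hδ n hn) hc hpure
  have h4 := t.eq
  omega

/-- **Theorem.** Suppose that, whenever a nonempty proper set `Z` of generators has more than `Z.card` pure labels, every nonempty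
proper set `V` of generators inside `Zᶜ` or containing `Zᶜ` has at least `V.card - 2` labels in `⟨V⟩`. Then `S` is a complete
intersection. Proof: `exists_top`, `Top.false_zero`; for `m ≥ 1` the hypothesis applies to `Z` (`t.eq`; for `V = univ`:
`(D.E univ).card = #κ = #ι - 1`, as all labels are in `S = ⟨univ⟩`); `Top.le_one`, `Top.false_delta`. -/
theorem ci_of_delta (D : Dt ι κ)
    (hδ : ∀ Z : Finset ι, Z.Nonempty → Z ≠ Finset.univ → Z.card < (D.P Z).card →
      ∀ V : Finset ι, V.Nonempty → V ≠ Finset.univ → (V ⊆ Zᶜ ∨ Zᶜ ⊆ V) →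
        V.card ≤ (D.E V).card + 2) : CI D.S := by
  by_contra hci
  obtain ⟨Z, m, t⟩ := exists_top D hci
  by_cases hm : m = 0
  · subst hm
    exact t.false_zero
  have h1 := t.eq
  have hδ' : ∀ V : Finset ι, V.Nonempty → (V ⊆ Zᶜ ∨ Zᶜ ⊆ V) → V.card ≤ (D.E V).card + 2 := by
    intro V hV hVZ
    by_cases hVu : V = Finset.univ
    · have hE : D.E V = Finset.univ := by
        refine Finset.eq_univ_of_forall fun j => ?_
        rw [mem_E, hVu, Mon_univ]
        exact b_mem D j
      rw [hE, hVu, Finset.card_univ, Finset.card_univ]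
      have := D.card
      omega
    · exact hδ Z t.ne t.ne' (by omega) V hV hVu hVZ
  have h2 := t.le_one hδ'
  have hm1 : m = 1 := by omega
  subst hm1
  exact t.false_delta hδ'

end Pool.Agent.LibCov74
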