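import Pool.Agent.LibCov74.M4
import Pool.Agent.LibCov74.FinalG

/-!
# The general clause with violators
-/

set_option autoImplicit false

namespace Pool.Agent.LibCov74

open Finset

/-- `exists_dt_disj` (`FinalG`), `ideal_of_ci`, `ci_of_delta`. `hdef` for `Z` with `J = D.P Z` (`mem_P`) and `V` gives a finset `K` of labels in
`⟨V⟩` with `V.card ≤ K.card + 2`, so `K ⊆ D.E V` (`mem_E`; `Mon a V` is `AddSubmonoid.closure (a '' V)`). Compare `result_defect`. -/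
theorem result_delta (S : AddSubmonoid ℕ) (hS : ((S : Set ℕ)ᶜ).Finite) (e : ℕ) (g : Fin e → ℕ)
    (hmono : StrictMono g)
    (hg : Set.range g = {x : ℕ | x ∈ S ∧ x ≠ 0 ∧ ∀ a ∈ S, ∀ b ∈ S, a + b = x → a = 0 ∨ b = 0})
    (n : ℕ) (a : Fin (n + 1) → ℕ) (b : Fin n → ℕ) (ha : ∀ i, 0 < a i)
    (hb : ∀ j, 0 < b j) (hc : ∀ i j, b j ≠ a i)
    (h : (1 - (1 - Polynomial.X) * ∑ n ∈ hS.toFinset, Polynomial.X ^ n : Polynomial ℤ) *
        ∏ i, (1 - Polynomial.X ^ a i) = (1 - Polynomial.X) * ∏ j, (1 - Polynomial.X ^ b j))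
    (hdef : ∀ (Z : Finset (Fin (n + 1))) (J : Finset (Fin n)), Z.Nonempty → Z ≠ Finset.univ →
      (∀ j ∈ J, ∀ i, i ∉ Z → ∀ s ∈ S, b j ≠ s + a i) → Z.card < J.card →
      ∀ V : Finset (Fin (n + 1)), V.Nonempty → V ≠ Finset.univ → (V ⊆ Zᶜ ∨ Zᶜ ⊆ V) →
        ∃ K : Finset (Fin n), V.card ≤ K.card + 2 ∧
          ∀ j ∈ K, b j ∈ AddSubmonoid.closure (a '' (V : Set (Fin (n + 1))))) :
    ∃ s : Finset (MvPolynomial (Fin e) ℚ), s.card ≤ e - 1 ∧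
      Ideal.span (s : Set (MvPolynomial (Fin e) ℚ))
        = RingHom.ker (MvPolynomial.aeval (R := ℚ)
            (fun i : Fin e => (Polynomial.X : Polynomial ℚ) ^ g i)) := by
  obtain ⟨D, rfl, rfl, rfl⟩ := exists_dt_disj S hS n a b ha hb hc
    (Pool.Agent.LibVol74.series_of_poly S hS a b h)
  refine Pool.Agent.LibTP76.ideal_of_ci D.S (ci_of_delta D fun Z hZ hZ' hlt V hV hV' hVZ => ?_)
    e g hmono hg
  obtain ⟨K, hK, hK'⟩ := hdef Z (D.P Z) hZ hZ' (fun j hj i hi s hs hsj =>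
    (mem_P D Z j).1 hj i hi ⟨s, hs, hsj⟩) hlt V hV hV' hVZ
  refine hK.trans (Nat.add_le_add_right (card_le_card fun j hj => ?_) 2)
  exact (mem_E D V j).2 (hK' j hj)

end Pool.Agent.LibCov74
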