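import Pool.Agent.LibCov74.A4d

/-!
# The second form of the cure

`#{x ∈ X : n ∣ g x} ≤ #{y ∈ Y ∪ R : n ∣ b y}` for all `n ≥ 1`, so `Q = ∏_{Y ∪ R} (1 - z^b) / ∏_X (1 - z^g)` is a
polynomial. If `n` is touched by no element of `X` and by no label of `Y`, the coefficient of `Q` at `n` is
the coefficient of `∏_R (1 - z^b)` at `n`.
-/

set_option autoImplicit false

namespace Pool.Agent.LibCov74

open Finset

variable {ι κ : Type} [Fintype ι] [Fintype κ]

/-- A series supported in `S` with constant coefficient `1` whose other coefficients `k` with `n - k ∈ S`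
vanish; see `cure2`. If `f` is such a series and `q` is supported in `S`, then `coeff n (q * f) = coeff n q`
(in `∑ q_a f_k`, `a + k = n`, `k > 0`: if `q_a ≠ 0` then `a ∈ S` and `f_k = 0`). -/
theorem coeff_mul_triv (S : AddSubmonoid ℕ) (n : ℕ) (f q : PowerSeries ℤ)
    (hf0 : PowerSeries.coeff 0 f = 1)
    (hf : ∀ a k, a + k = n → a ∈ S → 0 < k → PowerSeries.coeff k f = 0)
    (hq : ∀ a, PowerSeries.coeff a q ≠ 0 → a ∈ S) :
    PowerSeries.coeff n (q * f) = PowerSeries.coeff n q := by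
  rw [PowerSeries.coeff_mul, Finset.sum_eq_single (n, 0)]
  · simp only
    rw [hf0, mul_one]
  · rintro ⟨a, k⟩ hak hne
    rw [Finset.HasAntidiagonal.mem_antidiagonal] at hak
    simp only at hak ⊢
    by_cases hqa : PowerSeries.coeff a q = 0
    · rw [hqa, zero_mul]
    · have hk : 0 < k := by
        rcases Nat.eq_zero_or_pos k with h0 | h0
        · exfalso
          apply hne
          rw [h0, add_zero] at hak
          rw [hak, h0]
        · exact h0
      rw [hf a k hak (hq a hqa) hk, mul_zero]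
  · intro h
    exact absurd (Finset.HasAntidiagonal.mem_antidiagonal.2 (add_zero n)) h

/-- the series `∏_W (1 - z^{c w})` is such a series if `c w ∈ S`, `c w > 0` and `n - c w ∉ S` for all `w ∈ W`:
a coefficient `k > 0` which is not zero is a sum of `c w` over a nonempty subset of `W`, so
`n = a + k` with `a ∈ S` gives `n = s + c w` with `s ∈ S`. (Induction on `W` is convenient: prove also that the
series is supported in `S`.) -/
theorem prod_triv {α : Type} (S : AddSubmonoid ℕ) (n : ℕ) (W : Finset α) (c : α → ℕ)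
    (hc : ∀ w ∈ W, 0 < c w ∧ c w ∈ S) (hn : ∀ w ∈ W, ¬ ∃ s ∈ S, n = s + c w) :
    PowerSeries.coeff 0 (∏ w ∈ W, (1 - (PowerSeries.X : PowerSeries ℤ) ^ c w)) = 1 ∧
    (∀ a, PowerSeries.coeff a (∏ w ∈ W, (1 - (PowerSeries.X : PowerSeries ℤ) ^ c w)) ≠ 0 → a ∈ S) ∧
    ∀ a k, a + k = n → a ∈ S → 0 < k →
      PowerSeries.coeff k (∏ w ∈ W, (1 - (PowerSeries.X : PowerSeries ℤ) ^ c w)) = 0 := by
  classical
  have hS : ∀ V : Finset α, V ⊆ W →
      A4b_Sup S (∏ w ∈ V, (1 - (PowerSeries.X : PowerSeries ℤ) ^ c w)) := fun V hV =>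
    A4b_Sup.prod _ _ fun w hw => A4b_Sup.one_sub (hc w (hV hw)).2
  have key : ∀ V : Finset α, V ⊆ W → ∀ k, 0 < k →
      PowerSeries.coeff k (∏ w ∈ V, (1 - (PowerSeries.X : PowerSeries ℤ) ^ c w)) ≠ 0 →
      ∃ w ∈ V, ∃ s ∈ S, k = s + c w := by
    intro V
    induction V using Finset.induction_on with
    | empty =>
      intro _ k hk h
      exfalso
      apply h
      rw [Finset.prod_empty, PowerSeries.coeff_one, if_neg hk.ne']
    | insert v V hv ih =>
      intro hV k hk h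
      rw [Finset.prod_insert hv, sub_mul, one_mul, map_sub, PowerSeries.coeff_X_pow_mul'] at h
      by_cases h1 : PowerSeries.coeff k
          (∏ w ∈ V, (1 - (PowerSeries.X : PowerSeries ℤ) ^ c w)) = 0
      · rw [h1, zero_sub, neg_ne_zero] at h
        by_cases h2 : c v ≤ k
        · rw [if_pos h2] at h
          exact ⟨v, Finset.mem_insert_self _ _, k - c v,
            hS V ((Finset.subset_insert _ _).trans hV) _ h, by omega⟩
        · rw [if_neg h2] at h
          exact absurd rfl h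
      · obtain ⟨w, hw, hs⟩ := ih ((Finset.subset_insert _ _).trans hV) k hk h1
        exact ⟨w, Finset.mem_insert_of_mem hw, hs⟩
  refine ⟨?_, hS W (Finset.Subset.refl _), fun a k hak ha hk => ?_⟩
  · rw [PowerSeries.coeff_zero_eq_constantCoeff_apply, map_prod]
    refine Finset.prod_eq_one fun w hw => ?_
    rw [map_sub, map_one, map_pow, PowerSeries.constantCoeff_X, zero_pow (hc w hw).1.ne',
      sub_zero]
  · by_contra h0
    obtain ⟨w, hw, s, hs, hk'⟩ := key W (Finset.Subset.refl _) k hk h0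
    exact hn w hw ⟨a + s, S.add_mem ha hs, by omega⟩

/-- (CURE2) `exists_quot` gives `Q` with `∏_{Y ∪ R} = Q · ∏_X`; `quot_supp`: `Q` is supported in `S`; `prod_triv`,
`coeff_mul_triv` for `X` and for `Y`: `Q.coeff n = coeff n ∏_R ≠ 0`; then `quot_pal`, `quot_supp`. -/
theorem cure2 [DecidableEq κ] (D : Dt ι κ) (X' : Finset ι) (Y R : Finset κ) (hd : Disjoint Y R)
    (h : ∀ n, 1 ≤ n → cnt n X' D.g ≤ cnt n (Y ∪ R) D.b) (n : ℕ) (hX : ∀ i ∈ X', ¬ D.Tch i n)
    (hY : ∀ j ∈ Y, ¬ ∃ s ∈ D.S, n = s + D.b j)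
    (hc : PowerSeries.coeff n (∏ r ∈ R, (1 - (PowerSeries.X : PowerSeries ℤ) ^ D.b r)) ≠ 0) :
    ∃ s ∈ D.S, ∑ j ∈ Y ∪ R, D.b j = s + n + ∑ i ∈ X', D.g i := by
  have hgS : ∀ i, D.g i ∈ D.S := fun i => by
    rw [← D.gen]
    exact AddSubmonoid.subset_closure (Set.mem_range_self i)
  obtain ⟨Q, hQ⟩ := exists_quot X' D.g (Y ∪ R) D.b (fun x _ => D.gpos x) (fun y _ => D.bpos y) h
  have hQS : ∀ a, PowerSeries.coeff a (Q : PowerSeries ℤ) ≠ 0 → a ∈ D.S := by
    intro a ha
    rw [Polynomial.coeff_coe] at ha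
    exact quot_supp X' D.g (Y ∪ R) D.b (fun x _ => D.gpos x) D.S (fun x _ => hgS x)
      (fun y _ => b_mem D y) Q hQ a ha
  have hco : ∀ {α : Type} (s : Finset α) (f : α → ℕ),
      ((∏ x ∈ s, (1 - Polynomial.X ^ f x : Polynomial ℤ) : Polynomial ℤ) : PowerSeries ℤ) =
        ∏ x ∈ s, (1 - (PowerSeries.X : PowerSeries ℤ) ^ f x) := by
    intro α s f
    have h1 := map_prod (Polynomial.coeToPowerSeries.ringHom (R := ℤ))
      (fun x => (1 - Polynomial.X ^ f x : Polynomial ℤ)) s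
    simp only [Polynomial.coeToPowerSeries.ringHom_apply, Polynomial.coe_sub, Polynomial.coe_one,
      Polynomial.coe_pow, Polynomial.coe_X] at h1
    exact h1
  have hE : (∏ r ∈ R, (1 - (PowerSeries.X : PowerSeries ℤ) ^ D.b r)) *
      ∏ y ∈ Y, (1 - (PowerSeries.X : PowerSeries ℤ) ^ D.b y) =
      (Q : PowerSeries ℤ) * ∏ i ∈ X', (1 - (PowerSeries.X : PowerSeries ℤ) ^ D.g i) := by
    have h1 := congrArg (fun P : Polynomial ℤ => (P : PowerSeries ℤ)) hQ
    simp only [Polynomial.coe_mul] at h1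
    rw [hco, hco, Finset.prod_union hd, mul_comm] at h1
    exact h1
  obtain ⟨x0, -, x2⟩ := prod_triv D.S n X' D.g (fun i _ => ⟨D.gpos i, hgS i⟩) hX
  obtain ⟨y0, -, y2⟩ := prod_triv D.S n Y D.b (fun j _ => ⟨D.bpos j, b_mem D j⟩) hY
  have hR : ∀ a, PowerSeries.coeff a
      (∏ r ∈ R, (1 - (PowerSeries.X : PowerSeries ℤ) ^ D.b r)) ≠ 0 → a ∈ D.S :=
    A4b_Sup.prod _ _ fun r _ => A4b_Sup.one_sub (b_mem D r)
  have e1 := coeff_mul_triv D.S n _ (Q : PowerSeries ℤ) x0 x2 hQS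
  have e2 := coeff_mul_triv D.S n _ _ y0 y2 hR
  rw [hE, e1, Polynomial.coeff_coe] at e2
  have hne : Q.coeff n ≠ 0 := by
    rw [e2]
    exact hc
  obtain ⟨m, hm, hm2⟩ := quot_pal X' D.g (Y ∪ R) D.b (fun x _ => D.gpos x)
    (fun y _ => D.bpos y) Q hQ n hne
  refine ⟨m, hQS m (by rw [Polynomial.coeff_coe]; exact hm), ?_⟩
  omega

/-- the coefficient at `t > 0` is `- #{r ∈ R | b r = t}` if `t` is not the sum of the `b r` over a set of at
least two elements of `R` (expand the product: `Finset.prod_one_sub` or `Finset.prod_sub`, or induction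
on `R`) -/
theorem coeff_single {α : Type} (R : Finset α) (b : α → ℕ) (t : ℕ) (ht : 0 < t)
    (h2 : ∀ W, W ⊆ R → 2 ≤ W.card → ∑ r ∈ W, b r ≠ t) :
    PowerSeries.coeff t (∏ r ∈ R, (1 - (PowerSeries.X : PowerSeries ℤ) ^ b r)) =
      - ((R.filter (fun r => b r = t)).card : ℤ) := by
  classical
  rw [Finset.prod_sub, map_sum]
  have hF : ∀ W : Finset α, PowerSeries.coeff t ((-1) ^ W.card * (∏ _i ∈ R \ W, 1) *
      ∏ i ∈ W, (PowerSeries.X : PowerSeries ℤ) ^ b i) =
      if ∑ i ∈ W, b i = t then (-1) ^ W.card else 0 := by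
    intro W
    rw [Finset.prod_const_one, mul_one, Finset.prod_pow_eq_pow_sum]
    have h1 : ((-1 : PowerSeries ℤ) ^ W.card) = PowerSeries.C ((-1) ^ W.card) := by
      rw [map_pow, map_neg, map_one]
    rw [h1, PowerSeries.coeff_C_mul, PowerSeries.coeff_X_pow]
    by_cases h2 : ∑ i ∈ W, b i = t
    · rw [if_pos h2, if_pos h2.symm, mul_one]
    · rw [if_neg h2, if_neg (Ne.symm h2), mul_zero]
  simp only [hF]
  have hsub : R.image (fun r => ({r} : Finset α)) ⊆ R.powerset := by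
    intro W hW
    obtain ⟨r, hr, rfl⟩ := Finset.mem_image.1 hW
    exact Finset.mem_powerset.2 (Finset.singleton_subset_iff.2 hr)
  rw [← Finset.sum_subset hsub]
  · rw [Finset.sum_image fun x _ y _ h => Finset.singleton_injective h]
    simp only [Finset.sum_singleton, Finset.card_singleton, pow_one]
    rw [← Finset.sum_filter, Finset.sum_const, nsmul_eq_mul, mul_neg, mul_one]
  · intro W hW hW'
    rw [Finset.mem_powerset] at hW
    rw [if_neg]
    rcases lt_or_ge W.card 2 with hc | hc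
    · rcases Nat.eq_zero_or_pos W.card with h0 | h0
      · rw [Finset.card_eq_zero.1 h0, Finset.sum_empty]
        omega
      · exfalso
        obtain ⟨r, rfl⟩ := Finset.card_eq_one.1 (show W.card = 1 by omega)
        exact hW' (Finset.mem_image.2 ⟨r, Finset.singleton_subset_iff.1 hW, rfl⟩)
    · exact h2 W hW hc

/-- special case of `coeff_single` -/
theorem coeff_label {α : Type} (R : Finset α) (b : α → ℕ) (hb : ∀ r ∈ R, 0 < b r) (p : α)
    (hp : p ∈ R) (h2 : ∀ W, W ⊆ R → 2 ≤ W.card → ∑ r ∈ W, b r ≠ b p) :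
    PowerSeries.coeff (b p) (∏ r ∈ R, (1 - (PowerSeries.X : PowerSeries ℤ) ^ b r)) ≠ 0 := by
  rw [coeff_single R b (b p) (hb p hp) h2, neg_ne_zero]
  have h1 : 0 < (R.filter (fun r => b r = b p)).card :=
    Finset.card_pos.2 ⟨p, Finset.mem_filter.2 ⟨hp, rfl⟩⟩
  exact_mod_cast h1.ne'

/-- the cure at a label `p ∈ R` -/
theorem good_of_cure2 [DecidableEq κ] (D : Dt ι κ) (X' : Finset ι) (Y R : Finset κ)
    (hd : Disjoint Y R) (h : ∀ n, 1 ≤ n → cnt n X' D.g ≤ cnt n (Y ∪ R) D.b) (p : κ) (hp : p ∈ R)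
    (hX : ∀ i ∈ X', ¬ D.Tch i (D.b p)) (hY : ∀ j ∈ Y, ¬ ∃ s ∈ D.S, D.b p = s + D.b j)
    (h2 : ∀ W, W ⊆ R → 2 ≤ W.card → ∑ r ∈ W, D.b r ≠ D.b p) :
    D.Good X' (Y ∪ R.erase p) := by
  obtain ⟨s, hs, hsum⟩ := cure2 D X' Y R hd h (D.b p) hX hY
    (coeff_label R D.b (fun r _ => D.bpos r) p hp h2)
  refine ⟨s, hs, ?_⟩
  have hd' : Disjoint Y (R.erase p) := hd.mono_right (Finset.erase_subset _ _)
  rw [Finset.sum_union hd] at hsum
  rw [Finset.sum_union hd']
  have h3 := Finset.add_sum_erase R D.b hp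
  omega

end Pool.Agent.LibCov74
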