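import Pool.Agent.LibCov74.E2b

/-!
# Removable labels
-/

set_option autoImplicit false

namespace Pool.Agent.LibCov74

open Finset
open Pool.Agent.LibTP76 (CI)

variable {ι κ : Type} [Fintype ι] [Fintype κ] [DecidableEq ι] [DecidableEq κ]

theorem P_inter (D : Dt ι κ) (U V : Finset ι) : D.P U ∩ D.P V = D.P (U ∩ V) := by
  ext j
  rw [Finset.mem_inter, mem_P, mem_P, mem_P]
  constructor
  · rintro ⟨h1, h2⟩ i hi
    by_cases hU : i ∈ U
    · exact h2 i fun hV => hi (Finset.mem_inter.mpr ⟨hU, hV⟩)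
    · exact h1 i hU
  · intro h
    exact ⟨fun i hi => h i fun h' => hi (Finset.mem_inter.mp h').1,
      fun i hi => h i fun h' => hi (Finset.mem_inter.mp h').2⟩

/-- (Lemma G, general form) The proof is that of `good_of_minimal` (file `E1c`), with
`J₀.card ≤ (J ∩ D.P V).card < V.card` for the nonempty proper `V = Nb D.F Z J₀`. -/
theorem good_gen (D : Dt ι κ) (Z : Finset ι) (hZ : Z.Nonempty) (hv : Z.card ≤ (D.P Z).card)
    (J : Finset κ) (hJ : J ⊆ D.P Z) (hc : Z.card ≤ J.card + 1)
    (hU : ∀ U, U ⊆ Z → U ≠ Z → U.Nonempty → (J ∩ D.P U).card < U.card) : D.Good Z J := by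
  obtain ⟨J₀, hJ₀, haut, hmax⟩ := exists_max_aut D.F Z J
  have hval : ∀ j ∈ J, ∀ u ∈ D.F j, u ⊆ Z := fun j hj => F_sub_of_mem_P D (hJ hj)
  have hln := ln_of_max D.F Z J J₀ hJ₀ haut hmax
  set V := Nb D.F Z J₀ with hV
  have hVZ : V ⊆ Z := fun x hx => ((mem_Nb D.F Z J₀ x).1 hx).1
  have hVu : V = Nb D.F Finset.univ J₀ := by
    ext x
    rw [hV, mem_Nb, mem_Nb]
    constructor
    · rintro ⟨-, h⟩
      exact ⟨Finset.mem_univ _, h⟩
    · rintro ⟨-, j, hj, u, hu, hx⟩
      exact ⟨hval j (hJ₀ hj) u hu hx, j, hj, u, hu, hx⟩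
  by_cases hVeq : V = Z
  · obtain ⟨c, hc1, hc2⟩ := haut
    have h1 : D.Good Z J₀ := good_of_cov D Z J₀ c hc1 (by
      rw [← hV, hVeq] at hc2
      exact hc2)
    exact Good.mono D (Finset.Subset.refl Z) hJ₀ h1
  · by_cases hJ0 : J₀ = ∅
    · have hV0 : V = ∅ := by
        rw [Finset.eq_empty_iff_forall_notMem]
        intro x hx
        rw [hV, mem_Nb, hJ0] at hx
        obtain ⟨-, j, hj, -⟩ := hx
        exact absurd hj (Finset.notMem_empty j)
      rw [hV0, hJ0, Finset.sdiff_empty, Finset.sdiff_empty] at hln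
      have h2 := ln_card D.F (F_nonempty D) Z J hZ hln
      have h3 : Z.card = J.card + 1 := le_antisymm hc h2
      have h4 := (ln_tree D.F (F_nonempty D) Z J hval hln h3).ntr D
      rcases h4.brauer D.gpos D.bpos with h5 | h5
      · have h6 := card_P_of_ltr D h5
        omega
      · rw [good_iff]
        exact h5.mono (Mon_le D Z)
    · exfalso
      obtain ⟨j, hj⟩ := Finset.nonempty_iff_ne_empty.2 hJ0
      have hVn : V.Nonempty := by
        obtain ⟨u, hu⟩ := F_nonempty D j
        have hune : u.Nonempty := by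
          rw [Finset.nonempty_iff_ne_empty]
          rintro rfl
          obtain ⟨x, hx1, hx2⟩ := hu
          have h7 : ∀ i, x i = 0 := by
            intro i
            by_contra h8
            have h9 : i ∈ (∅ : Finset ι) := by
              rw [hx2]
              exact Finset.mem_filter.2 ⟨Finset.mem_univ _, h8⟩
            exact absurd h9 (Finset.notMem_empty i)
          have h10 : D.b j = 0 := by
            rw [← hx1]
            exact Finset.sum_eq_zero fun i _ => by rw [h7 i, zero_mul]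
          exact absurd h10 (D.bpos j).ne'
        obtain ⟨x, hx⟩ := hune
        exact ⟨x, (mem_Nb D.F Z J₀ x).2 ⟨hval j (hJ₀ hj) u hu hx, j, hj, u, hu, hx⟩⟩
      have h1 : J₀ ⊆ J ∩ D.P V := by
        refine Finset.subset_inter hJ₀ ?_
        rw [hVu]
        exact sub_P_Nb D J₀
      have h2 := Finset.card_le_card h1
      have h3 := hU V hVZ hVeq hVn
      have h4 : (Z \ V).Nonempty := by
        rw [Finset.sdiff_nonempty]
        intro h5
        exact hVeq (Finset.Subset.antisymm hVZ h5)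
      have h5 := ln_card D.F (F_nonempty D) (Z \ V) (J \ J₀) h4 hln
      have h6 := Finset.card_sdiff_add_card_eq_card hVZ
      have h7 := Finset.card_sdiff_add_card_eq_card hJ₀
      omega

/-- (Hall) the set `W ⊆ Z` touches at least the labels of `J \ D.P (Z \ W)`; Hall's theorem and
`good_of_match` (the proof of `Top.good` in `E2a` does the same) -/
theorem good_of_hall (D : Dt ι κ) (Z : Finset ι) (J : Finset κ) (hJ : J ⊆ D.P Z)
    (h : ∀ W, W ⊆ Z → W.card ≤ (J \ D.P (Z \ W)).card) : D.Good Z J := by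
  classical
  rcases Z.eq_empty_or_nonempty with hZ | hZ
  · refine ⟨∑ j ∈ J, D.b j, AddSubmonoid.sum_mem _ fun j _ => b_mem D j, ?_⟩
    rw [hZ, Finset.sum_empty, add_zero]
  let T : {x // x ∈ Z} → Finset κ := fun i => J.filter (fun j => D.Tch i.1 (D.b j))
  have hall : ∀ W : Finset {x // x ∈ Z}, W.card ≤ (W.biUnion T).card := by
    intro W
    let W' : Finset ι := W.image Subtype.val
    have hW' : W'.card = W.card := Finset.card_image_of_injective _ Subtype.val_injective
    have hWZ : W' ⊆ Z := by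
      intro i hi
      obtain ⟨x, -, rfl⟩ := Finset.mem_image.mp hi
      exact x.2
    have h1 : J \ D.P (Z \ W') ⊆ W.biUnion T := by
      intro j hj
      obtain ⟨hjJ, hjP⟩ := Finset.mem_sdiff.mp hj
      rw [mem_P] at hjP
      push Not at hjP
      obtain ⟨i, hi, hit⟩ := hjP
      have hiZ : i ∈ Z := by
        by_contra hiZ
        exact (mem_P D Z j).mp (hJ hjJ) i hiZ hit
      have hiW : i ∈ W' := by
        by_contra h3
        exact hi (Finset.mem_sdiff.mpr ⟨hiZ, h3⟩)
      obtain ⟨x, hx, rfl⟩ := Finset.mem_image.mp hiW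
      exact Finset.mem_biUnion.mpr ⟨x, hx, Finset.mem_filter.mpr ⟨hjJ, hit⟩⟩
    rw [← hW']
    exact (h W' hWZ).trans (Finset.card_le_card h1)
  obtain ⟨f, hf, hfT⟩ := (Finset.all_card_le_biUnion_card_iff_exists_injective T).mp hall
  obtain ⟨i₀, hi₀⟩ := hZ
  let j₀ : κ := f ⟨i₀, hi₀⟩
  refine good_of_match D Z J (fun i => if h : i ∈ Z then f ⟨i, h⟩ else j₀) ?_ ?_
  · intro i hi
    have h1 := Finset.mem_filter.mp (hfT ⟨i, hi⟩)
    simp only [dif_pos hi]
    exact h1
  · intro i hi i' hi' h1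
    have hi : i ∈ Z := hi
    have hi' : i' ∈ Z := hi'
    simp only [dif_pos hi, dif_pos hi'] at h1
    exact congrArg Subtype.val (hf h1)

/-- if `(Z, D.P Z \ R)` is good then `(Zᶜ, (D.P Z)ᶜ ∪ R)` is not good (`Good.union`, `not_good_univ`) -/
theorem not_good_of_rem (D : Dt ι κ) (Z : Finset ι) (R : Finset κ) (hR : R ⊆ D.P Z)
    (h : D.Good Z (D.P Z \ R)) : ¬ D.Good Zᶜ ((D.P Z)ᶜ ∪ R) := by
  intro h'
  have hdis : Disjoint (D.P Z \ R) ((D.P Z)ᶜ ∪ R) := by
    rw [Finset.disjoint_left]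
    intro j hj hj'
    obtain ⟨h1, h2⟩ := Finset.mem_sdiff.mp hj
    rcases Finset.mem_union.mp hj' with h3 | h3
    · exact (Finset.mem_compl.mp h3) h1
    · exact h2 h3
  have h1 := Good.union D hdis h h'
  have h2 : D.P Z \ R ∪ ((D.P Z)ᶜ ∪ R) = Finset.univ := by
    rw [Finset.eq_univ_iff_forall]
    intro j
    by_cases hjP : j ∈ D.P Z
    · by_cases hjR : j ∈ R
      · exact Finset.mem_union_right _ (Finset.mem_union_right _ hjR)
      · exact Finset.mem_union_left _ (Finset.mem_sdiff.mpr ⟨hjP, hjR⟩)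
    · exact Finset.mem_union_right _ (Finset.mem_union_left _ (Finset.mem_compl.mpr hjP))
  rw [Finset.union_compl, h2] at h1
  exact not_good_univ D h1

end Pool.Agent.LibCov74
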