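import Pool.Agent.LibCov74.N3a

/-!
# Pure numbers in a set of three generators: isolated generators
-/

set_option autoImplicit false

namespace Pool.Agent.LibCov74

open Finset

variable {ι κ : Type} [Fintype ι] [Fintype κ] [DecidableEq ι] [DecidableEq κ]

/-- `i` touches `n`, `k` or `l` touches `n`, `n - g i - g k` and `n - g i - g l` are not in `S` -/
def Dt.Iso (D : Dt ι κ) (i k l : ι) (n : ℕ) : Prop :=
  D.Tch i n ∧ (D.Tch k n ∨ D.Tch l n) ∧ ¬ D.Ed i k n ∧ ¬ D.Ed i l n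

theorem Iso.symm (D : Dt ι κ) {i k l : ι} {n : ℕ} (h : D.Iso i k l n) : D.Iso i l k n :=
  ⟨h.1, h.2.1.symm, h.2.2.2, h.2.2.1⟩

theorem N3b_pure (D : Dt ι κ) {Z : Finset ι} {n s : ℕ} (hn : ∀ x, x ∉ Z → ¬ D.Tch x n)
    (hs : s ∈ D.S) {x : ℕ} (hx : x ∈ D.S) (h : n = s + x) : s ∈ Mon D.g Z :=
  mem_Mon_of_pure D Z hs fun i hi hT => hn i hi (by rw [h]; exact tch_add D i hT hx)

theorem N3b_comb (D : Dt ι κ) {i k l : ι} (hik : i ≠ k) (hil : i ≠ l) (hkl : k ≠ l) {s : ℕ}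
    (hs : s ∈ Mon D.g ({i, k, l} : Finset ι)) : ∃ a b c, s = a * D.g i + b * D.g k + c * D.g l := by
  obtain ⟨x, hx⟩ := (mem_Mon_iff D.g _ s).1 hs
  refine ⟨x i, x k, x l, ?_⟩
  rw [← hx, Finset.sum_insert (by simp [hik, hil]), Finset.sum_insert (by simp [hkl]),
    Finset.sum_singleton]
  ring

theorem N3b_mul (D : Dt ι κ) (a : ℕ) (i : ι) : a * D.g i ∈ D.S := by
  have := AddSubmonoid.nsmul_mem D.S (g_mem D i) a
  rwa [smul_eq_mul] at this

theorem N3b_mem (D : Dt ι κ) {k l : ι} (b c : ℕ) :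
    b * D.g k + c * D.g l ∈ Mon D.g ({k, l} : Finset ι) := by
  have hk : D.g k ∈ Mon D.g ({k, l} : Finset ι) := AddSubmonoid.subset_closure ⟨k, by simp, rfl⟩
  have hl : D.g l ∈ Mon D.g ({k, l} : Finset ι) := AddSubmonoid.subset_closure ⟨l, by simp, rfl⟩
  have h1 := AddSubmonoid.nsmul_mem _ hk b
  have h2 := AddSubmonoid.nsmul_mem _ hl c
  rw [smul_eq_mul] at h1 h2
  exact AddSubmonoid.add_mem _ h1 h2

/-- `n = s + g i`, `s ∈ S` pure, so `s` is a combination of `g i, g k, g l`, and it cannot use `g k` or `g l`: `n = c g i`.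
If `k` touches `n` then `n = s + g k` where `s` does not use `g i`, so `n ∈ ⟨k, l⟩`; the same for `l`. If `1 ≤ c' < c` and
`c' g i ∈ ⟨k, l⟩` then `n = (c - c') g i + c' g i` gives `Ed i k` or `Ed i l`. -/
theorem iso_spec (D : Dt ι κ) {i k l : ι} (hik : i ≠ k) (hil : i ≠ l) (hkl : k ≠ l) {n : ℕ}
    (hn : ∀ x, x ∉ ({i, k, l} : Finset ι) → ¬ D.Tch x n) (h : D.Iso i k l n) :
    ∃ c, 1 ≤ c ∧ n = c * D.g i ∧ n ∈ Mon D.g {k, l} ∧
      ∀ c', 1 ≤ c' → c' * D.g i ∈ Mon D.g {k, l} → c ≤ c' := by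
  obtain ⟨⟨s, hs, hsn⟩, h2, h3, h4⟩ := h
  have hs' := N3b_pure D hn hs (g_mem D i) hsn
  obtain ⟨a, b, c, hc⟩ := N3b_comb D hik hil hkl hs'
  have hS : ∀ a b c : ℕ, a * D.g i + b * D.g k + c * D.g l ∈ D.S := fun a b c =>
    D.S.add_mem (D.S.add_mem (N3b_mul D a i) (N3b_mul D b k)) (N3b_mul D c l)
  have hb : b = 0 := by
    by_contra hb
    obtain ⟨b', rfl⟩ := Nat.exists_eq_succ_of_ne_zero hb
    refine h3 ⟨a * D.g i + b' * D.g k + c * D.g l, hS a b' c, ?_⟩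
    rw [hsn, hc, Nat.succ_eq_add_one]
    ring
  have hc0 : c = 0 := by
    by_contra hc0
    obtain ⟨c', rfl⟩ := Nat.exists_eq_succ_of_ne_zero hc0
    refine h4 ⟨a * D.g i + b * D.g k + c' * D.g l, hS a b c', ?_⟩
    rw [hsn, hc, Nat.succ_eq_add_one]
    ring
  subst hb hc0
  have hn1 : n = (a + 1) * D.g i := by
    rw [hsn, hc]
    ring
  refine ⟨a + 1, Nat.le_add_left 1 a, hn1, ?_, ?_⟩
  · rcases h2 with ⟨s', hs', hn'⟩ | ⟨s', hs', hn'⟩
    · have hs2 := N3b_pure D hn hs' (g_mem D k) hn'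
      obtain ⟨a', b', c', hc'⟩ := N3b_comb D hik hil hkl hs2
      have ha' : a' = 0 := by
        by_contra ha'
        obtain ⟨a'', rfl⟩ := Nat.exists_eq_succ_of_ne_zero ha'
        refine h3 ⟨a'' * D.g i + b' * D.g k + c' * D.g l, hS a'' b' c', ?_⟩
        rw [hn', hc', Nat.succ_eq_add_one]
        ring
      subst ha'
      have e : n = (b' + 1) * D.g k + c' * D.g l := by
        rw [hn', hc']
        ring
      rw [e]
      exact N3b_mem D _ _
    · have hs2 := N3b_pure D hn hs' (g_mem D l) hn'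
      obtain ⟨a', b', c', hc'⟩ := N3b_comb D hik hil hkl hs2
      have ha' : a' = 0 := by
        by_contra ha'
        obtain ⟨a'', rfl⟩ := Nat.exists_eq_succ_of_ne_zero ha'
        refine h4 ⟨a'' * D.g i + b' * D.g k + c' * D.g l, hS a'' b' c', ?_⟩
        rw [hn', hc', Nat.succ_eq_add_one]
        ring
      subst ha'
      have e : n = b' * D.g k + (c' + 1) * D.g l := by
        rw [hn', hc']
        ring
      rw [e]
      exact N3b_mem D _ _
  · intro c' hc' hmem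
    by_contra hlt
    push Not at hlt
    obtain ⟨e, he⟩ : ∃ e, a + 1 = e + 1 + c' := ⟨a - c', by omega⟩
    have h0 : 0 < c' * D.g i := Nat.mul_pos hc' (D.gpos i)
    obtain ⟨x, hx, s2, hs2, hxs⟩ := tch_of_mem_Mon D hmem h0
    rw [Finset.mem_insert, Finset.mem_singleton] at hx
    rcases hx with rfl | rfl
    · refine h3 ⟨e * D.g i + s2, D.S.add_mem (N3b_mul D e i) hs2, ?_⟩
      rw [hn1, he, add_mul, hxs]
      ring
    · refine h4 ⟨e * D.g i + s2, D.S.add_mem (N3b_mul D e i) hs2, ?_⟩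
      rw [hn1, he, add_mul, hxs]
      ring

/-- a generator is isolated at one pure number at most -/
theorem iso_unique (D : Dt ι κ) {i k l : ι} (hik : i ≠ k) (hil : i ≠ l) (hkl : k ≠ l) {n n' : ℕ}
    (hn : ∀ x, x ∉ ({i, k, l} : Finset ι) → ¬ D.Tch x n)
    (hn' : ∀ x, x ∉ ({i, k, l} : Finset ι) → ¬ D.Tch x n') (h : D.Iso i k l n)
    (h' : D.Iso i k l n') : n = n' := by
  obtain ⟨c, hc1, hc2, hc3, hc4⟩ := iso_spec D hik hil hkl hn h
  obtain ⟨c', hc1', hc2', hc3', hc4'⟩ := iso_spec D hik hil hkl hn' h'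
  have e1 : c ≤ c' := hc4 c' hc1' (by rw [← hc2']; exact hc3')
  have e2 : c' ≤ c := hc4' c hc1 (by rw [← hc2]; exact hc3)
  rw [hc2, hc2', le_antisymm e1 e2]

/-- From `coeff_P_three`: the complex with vertices `Tch`, edges `Ed` and perhaps the triangle; a negative
alternating sum happens only for an edge and an isolated vertex (`-1`), two isolated vertices and
nothing else (`-1`), three isolated vertices (`-2`). (`Ed i k` implies `Tch i`, `Tch k`; the triangle implies all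
edges; `n > 0` in `S` is touched by some generator.) -/
theorem neg_cases (D : Dt ι κ) {Z : Finset ι} (hZ : Z.card = 3) {n : ℕ} (h0 : 0 < n)
    (hnS : n ∈ D.S) (hn : ∀ x, x ∉ Z → ¬ D.Tch x n)
    (hc : PowerSeries.coeff n (∏ j ∈ D.P Z, (1 - (PowerSeries.X : PowerSeries ℤ) ^ D.b j)) < 0) :
    ∃ i k l, i ≠ k ∧ i ≠ l ∧ k ≠ l ∧ Z = {i, k, l} ∧
      ((PowerSeries.coeff n (∏ j ∈ D.P Z, (1 - (PowerSeries.X : PowerSeries ℤ) ^ D.b j)) = -1 ∧
          D.Iso i k l n ∧ D.Ed k l n) ∨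
        (PowerSeries.coeff n (∏ j ∈ D.P Z, (1 - (PowerSeries.X : PowerSeries ℤ) ^ D.b j)) = -1 ∧
          D.Iso i k l n ∧ D.Iso k i l n ∧ ¬ D.Tch l n) ∨
        (PowerSeries.coeff n (∏ j ∈ D.P Z, (1 - (PowerSeries.X : PowerSeries ℤ) ^ D.b j)) = -2 ∧
          D.Iso i k l n ∧ D.Iso k i l n ∧ D.Iso l i k n)) := by
  obtain ⟨i, k, l, hik, hil, hkl, rfl⟩ := Finset.card_eq_three.1 hZ
  have hC := coeff_P_three D hik hil hkl hnS hn
  set C := PowerSeries.coeff n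
    (∏ j ∈ D.P {i, k, l}, (1 - (PowerSeries.X : PowerSeries ℤ) ^ D.b j)) with hCd
  have sw : ∀ x y, D.Ed x y n → D.Ed y x n := by
    rintro x y ⟨s, hs, h⟩
    exact ⟨s, hs, by rw [h, add_comm (D.g x)]⟩
  have t1 : ∀ x y, D.Ed x y n → D.Tch x n := by
    rintro x y ⟨s, hs, h⟩
    exact ⟨s + D.g y, D.S.add_mem hs (g_mem D y), by rw [h]; ring⟩
  have t2 : ∀ x y, D.Ed x y n → D.Tch y n := fun x y h => t1 y x (sw x y h)
  have tri : (∃ s ∈ D.S, n = s + (D.g i + D.g k + D.g l)) → D.Ed i k n ∧ D.Ed i l n ∧ D.Ed k l n := by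
    rintro ⟨s, hs, h⟩
    exact ⟨⟨s + D.g l, D.S.add_mem hs (g_mem D l), by rw [h]; ring⟩,
      ⟨s + D.g k, D.S.add_mem hs (g_mem D k), by rw [h]; ring⟩,
      ⟨s + D.g i, D.S.add_mem hs (g_mem D i), by rw [h]; ring⟩⟩
  have touched : D.Tch i n ∨ D.Tch k n ∨ D.Tch l n := by
    obtain ⟨x, hx, hT⟩ := tch_of_mem_Mon D (mem_Mon_of_pure D _ hnS hn) h0
    rw [Finset.mem_insert, Finset.mem_insert, Finset.mem_singleton] at hx
    rcases hx with rfl | rfl | rfl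
    · exact Or.inl hT
    · exact Or.inr (Or.inl hT)
    · exact Or.inr (Or.inr hT)
  have p1 : ({i, k, l} : Finset ι) = {k, i, l} := Finset.insert_comm i k {l}
  have p2 : ({i, k, l} : Finset ι) = {i, l, k} := by rw [Finset.pair_comm]
  have p3 : ({i, k, l} : Finset ι) = {l, i, k} := by rw [p2, Finset.insert_comm]
  have p4 : ({i, k, l} : Finset ι) = {k, l, i} := by rw [p1, Finset.pair_comm]
  by_cases Ti : D.Tch i n <;> by_cases Tk : D.Tch k n <;> by_cases Tl : D.Tch l n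
  · -- all three
    by_cases E1 : D.Ed i k n <;> by_cases E2 : D.Ed i l n <;> by_cases E3 : D.Ed k l n
    · exfalso
      rw [if_pos Ti, if_pos Tk, if_pos Tl, if_pos E1, if_pos E2, if_pos E3] at hC
      split_ifs at hC <;> omega
    · exfalso
      rw [if_pos Ti, if_pos Tk, if_pos Tl, if_pos E1, if_pos E2, if_neg E3,
        if_neg (fun h => E3 (tri h).2.2)] at hC
      omega
    · exfalso
      rw [if_pos Ti, if_pos Tk, if_pos Tl, if_pos E1, if_neg E2, if_pos E3,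
        if_neg (fun h => E2 (tri h).2.1)] at hC
      omega
    · -- only the edge i k
      rw [if_pos Ti, if_pos Tk, if_pos Tl, if_pos E1, if_neg E2, if_neg E3,
        if_neg (fun h => E2 (tri h).2.1)] at hC
      exact ⟨l, i, k, hil.symm, hkl.symm, hik, p3, Or.inl ⟨by rw [hC]; norm_num,
        ⟨Tl, Or.inl Ti, fun h => E2 (sw _ _ h), fun h => E3 (sw _ _ h)⟩, E1⟩⟩
    · exfalso
      rw [if_pos Ti, if_pos Tk, if_pos Tl, if_neg E1, if_pos E2, if_pos E3,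
        if_neg (fun h => E1 (tri h).1)] at hC
      omega
    · -- only the edge i l
      rw [if_pos Ti, if_pos Tk, if_pos Tl, if_neg E1, if_pos E2, if_neg E3,
        if_neg (fun h => E1 (tri h).1)] at hC
      exact ⟨k, i, l, hik.symm, hkl, hil, p1, Or.inl ⟨by rw [hC]; norm_num,
        ⟨Tk, Or.inl Ti, fun h => E1 (sw _ _ h), E3⟩, E2⟩⟩
    · -- only the edge k l
      rw [if_pos Ti, if_pos Tk, if_pos Tl, if_neg E1, if_neg E2, if_pos E3,
        if_neg (fun h => E1 (tri h).1)] at hC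
      exact ⟨i, k, l, hik, hil, hkl, rfl, Or.inl ⟨by rw [hC]; norm_num,
        ⟨Ti, Or.inl Tk, E1, E2⟩, E3⟩⟩
    · rw [if_pos Ti, if_pos Tk, if_pos Tl, if_neg E1, if_neg E2, if_neg E3,
        if_neg (fun h => E1 (tri h).1)] at hC
      exact ⟨i, k, l, hik, hil, hkl, rfl, Or.inr (Or.inr ⟨by rw [hC]; norm_num,
        ⟨Ti, Or.inl Tk, E1, E2⟩, ⟨Tk, Or.inl Ti, fun h => E1 (sw _ _ h), E3⟩,
        ⟨Tl, Or.inl Ti, fun h => E2 (sw _ _ h), fun h => E3 (sw _ _ h)⟩⟩)⟩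
  · -- i, k
    have E2 : ¬ D.Ed i l n := fun h => Tl (t2 _ _ h)
    have E3 : ¬ D.Ed k l n := fun h => Tl (t2 _ _ h)
    rw [if_pos Ti, if_pos Tk, if_neg Tl, if_neg E2, if_neg E3,
      if_neg (fun h => E2 (tri h).2.1)] at hC
    have E1 : ¬ D.Ed i k n := by
      intro h
      rw [if_pos h] at hC
      omega
    rw [if_neg E1] at hC
    exact ⟨i, k, l, hik, hil, hkl, rfl, Or.inr (Or.inl ⟨by rw [hC]; norm_num,
      ⟨Ti, Or.inl Tk, E1, E2⟩, ⟨Tk, Or.inl Ti, fun h => E1 (sw _ _ h), E3⟩, Tl⟩)⟩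
  · -- i, l
    have E1 : ¬ D.Ed i k n := fun h => Tk (t2 _ _ h)
    have E3 : ¬ D.Ed k l n := fun h => Tk (t1 _ _ h)
    rw [if_pos Ti, if_neg Tk, if_pos Tl, if_neg E1, if_neg E3,
      if_neg (fun h => E1 (tri h).1)] at hC
    have E2 : ¬ D.Ed i l n := by
      intro h
      rw [if_pos h] at hC
      omega
    rw [if_neg E2] at hC
    exact ⟨i, l, k, hil, hik, hkl.symm, p2, Or.inr (Or.inl ⟨by rw [hC]; norm_num,
      ⟨Ti, Or.inl Tl, E2, E1⟩, ⟨Tl, Or.inl Ti, fun h => E2 (sw _ _ h), fun h => E3 (sw _ _ h)⟩,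
      Tk⟩)⟩
  · exfalso
    rw [if_pos Ti, if_neg Tk, if_neg Tl, if_neg (fun h => Tk (t2 _ _ h)),
      if_neg (fun h => Tl (t2 _ _ h)), if_neg (fun h => Tl (t2 _ _ h)),
      if_neg (fun h => Tk (t2 _ _ (tri h).1))] at hC
    omega
  · -- k, l
    have E1 : ¬ D.Ed i k n := fun h => Ti (t1 _ _ h)
    have E2 : ¬ D.Ed i l n := fun h => Ti (t1 _ _ h)
    rw [if_neg Ti, if_pos Tk, if_pos Tl, if_neg E1, if_neg E2,
      if_neg (fun h => E1 (tri h).1)] at hC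
    have E3 : ¬ D.Ed k l n := by
      intro h
      rw [if_pos h] at hC
      omega
    rw [if_neg E3] at hC
    exact ⟨k, l, i, hkl, hik.symm, hil.symm, p4, Or.inr (Or.inl ⟨by rw [hC]; norm_num,
      ⟨Tk, Or.inl Tl, E3, fun h => E1 (sw _ _ h)⟩,
      ⟨Tl, Or.inl Tk, fun h => E3 (sw _ _ h), fun h => E2 (sw _ _ h)⟩, Ti⟩)⟩
  · exfalso
    rw [if_neg Ti, if_pos Tk, if_neg Tl, if_neg (fun h => Ti (t1 _ _ h)),
      if_neg (fun h => Tl (t2 _ _ h)), if_neg (fun h => Tl (t2 _ _ h)),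
      if_neg (fun h => Ti (t1 _ _ (tri h).1))] at hC
    omega
  · exfalso
    rw [if_neg Ti, if_neg Tk, if_pos Tl, if_neg (fun h => Ti (t1 _ _ h)),
      if_neg (fun h => Ti (t1 _ _ h)), if_neg (fun h => Tk (t1 _ _ h)),
      if_neg (fun h => Ti (t1 _ _ (tri h).1))] at hC
    omega
  · exact absurd touched (by tauto)

end Pool.Agent.LibCov74
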