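import Pool.Agent.LibCov74.N3b

/-!
# Pure numbers in a set of three generators: two labels with pure sum
-/

set_option autoImplicit false

namespace Pool.Agent.LibCov74

open Finset

variable {ι κ : Type} [Fintype ι] [Fintype κ] [DecidableEq ι] [DecidableEq κ]

theorem N3c_two (D : Dt ι κ) {Z : Finset ι} {W : Finset κ} (hW : 2 ≤ W.card) {t : ℕ}
    (ht : ∑ r ∈ W, D.b r = t) (htp : ∀ x, x ∉ Z → ¬ D.Tch x t) :
    ∃ p ∈ W, ∃ q ∈ W, p ≠ q ∧ (∀ x, x ∉ Z → ¬ D.Tch x (D.b p + D.b q)) ∧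
      D.b p + D.b q ≤ t := by
  obtain ⟨p, hp, q, hq, hpq⟩ := Finset.one_lt_card.1 hW
  have h1 := Finset.add_sum_erase W D.b hp
  have hq' : q ∈ W.erase p := Finset.mem_erase.2 ⟨hpq.symm, hq⟩
  have h2 := Finset.add_sum_erase (W.erase p) D.b hq'
  set s := ∑ r ∈ (W.erase p).erase q, D.b r with hs
  have hsS : s ∈ D.S := D.S.sum_mem fun r _ => b_mem D r
  have e : t = D.b p + D.b q + s := by
    rw [← ht, ← h1, ← h2]
    ring
  refine ⟨p, hp, q, hq, hpq, fun x hx hT => htp x hx ?_, by omega⟩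
  rw [e]
  exact tch_add D x hT hsS

/-- `i` is isolated at `n`, for some names of the other generators -/
def N3c_Is (D : Dt ι κ) (Z : Finset ι) (n : ℕ) (i : ι) : Prop :=
  ∃ k l, i ≠ k ∧ i ≠ l ∧ k ≠ l ∧ Z = {i, k, l} ∧ D.Iso i k l n

theorem N3c_unique (D : Dt ι κ) {Z : Finset ι} {n n' : ℕ} {i : ι}
    (hn : ∀ x, x ∉ Z → ¬ D.Tch x n) (hn' : ∀ x, x ∉ Z → ¬ D.Tch x n')
    (h : N3c_Is D Z n i) (h' : N3c_Is D Z n' i) : n = n' := by
  obtain ⟨k, l, hik, hil, hkl, rfl, hI⟩ := h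
  obtain ⟨k', l', hik', hil', hkl', hZ, hI'⟩ := h'
  have h1 : k' ∈ ({i, k, l} : Finset ι) := by rw [hZ]; simp
  have h2 : l' ∈ ({i, k, l} : Finset ι) := by rw [hZ]; simp
  rw [Finset.mem_insert, Finset.mem_insert, Finset.mem_singleton] at h1 h2
  rcases h1 with h1 | h1 | h1
  · exact absurd h1.symm hik'
  · rcases h2 with h2 | h2 | h2
    · exact absurd h2.symm hil'
    · exact absurd (h1.trans h2.symm) hkl'
    · subst h1 h2
      exact iso_unique D hik hil hkl hn hn' hI hI'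
  · rcases h2 with h2 | h2 | h2
    · exact absurd h2.symm hil'
    · subst h1 h2
      exact iso_unique D hik hil hkl hn hn' hI (Iso.symm D hI')
    · exact absurd (h1.trans h2.symm) hkl'

/-- Suppose no two different labels of `D.P Z` have a pure sum. Then no label `b j`, `j ∈ D.P Z`, is the sum of two
or more labels of `D.P Z` (two of them would have a pure sum, a divisor of `b j`). So the coefficient at
`b j` is `- #{r ∈ D.P Z | b r = b j}` (`coeff_single`), negative, and `neg_cases` applies: the number of labels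
with value `b j` is at most the number of the generators of `Z` isolated at `b j`. As a generator is isolated at
one number at most (`iso_unique`), `(D.P Z).card ≤ 3`. -/
theorem exists_pure_pair (D : Dt ι κ) {Z : Finset ι} (hZ : Z.card = 3) (h4 : 4 ≤ (D.P Z).card) :
    ∃ p q, p ∈ D.P Z ∧ q ∈ D.P Z ∧ p ≠ q ∧ ∀ x, x ∉ Z → ¬ D.Tch x (D.b p + D.b q) := by
  classical
  by_contra hcon
  push Not at hcon
  have hpure : ∀ t ∈ (D.P Z).image D.b, ∀ x, x ∉ Z → ¬ D.Tch x t := by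
    intro t ht
    obtain ⟨j, hj, rfl⟩ := Finset.mem_image.1 ht
    exact (mem_P D Z j).1 hj
  have hcount : ∀ t ∈ (D.P Z).image D.b, ((D.P Z).filter (fun r => D.b r = t)).card ≤
      (Z.filter (N3c_Is D Z t)).card := by
    intro t ht
    have htp := hpure t ht
    obtain ⟨j, hj, hjt⟩ := Finset.mem_image.1 ht
    have ht0 : 0 < t := by rw [← hjt]; exact D.bpos j
    have htS : t ∈ D.S := by rw [← hjt]; exact b_mem D j
    have hc := coeff_single (D.P Z) D.b t ht0 (fun W hW h2 hsum => by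
      obtain ⟨p, hp, q, hq, hpq, hpure, -⟩ := N3c_two D (Z := Z) h2 hsum htp
      obtain ⟨x, hx, hT⟩ := hcon p q (hW hp) (hW hq) hpq
      exact hpure x hx hT)
    have hpos : 0 < ((D.P Z).filter (fun r => D.b r = t)).card :=
      Finset.card_pos.2 ⟨j, Finset.mem_filter.2 ⟨hj, hjt⟩⟩
    obtain ⟨i, k, l, hik, hil, hkl, hZ', hcase⟩ := neg_cases D hZ ht0 htS htp (by
      rw [hc]
      have : (0 : ℤ) < (((D.P Z).filter (fun r => D.b r = t)).card : ℤ) := by exact_mod_cast hpos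
      linarith)
    rw [hc] at hcase
    have hiZ : i ∈ Z := by rw [hZ']; simp
    have hkZ : k ∈ Z := by rw [hZ']; simp
    rcases hcase with ⟨h1, h2, -⟩ | ⟨h1, h2, -⟩ | ⟨h1, h2, h3, -⟩
    · have h5 : 0 < (Z.filter (N3c_Is D Z t)).card :=
        Finset.card_pos.2 ⟨i, Finset.mem_filter.2 ⟨hiZ, k, l, hik, hil, hkl, hZ', h2⟩⟩
      omega
    · have h5 : 0 < (Z.filter (N3c_Is D Z t)).card :=
        Finset.card_pos.2 ⟨i, Finset.mem_filter.2 ⟨hiZ, k, l, hik, hil, hkl, hZ', h2⟩⟩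
      omega
    · have h5 : 1 < (Z.filter (N3c_Is D Z t)).card :=
        Finset.one_lt_card.2 ⟨i, Finset.mem_filter.2 ⟨hiZ, k, l, hik, hil, hkl, hZ', h2⟩,
          k, Finset.mem_filter.2 ⟨hkZ, i, l, hik.symm, hkl, hil, by
            rw [hZ', Finset.insert_comm], h3⟩, hik⟩
      omega
  have hsum : (D.P Z).card ≤ 3 := by
    rw [← hZ, Finset.card_eq_sum_card_image D.b (D.P Z)]
    refine (Finset.sum_le_sum hcount).trans ?_
    rw [← Finset.card_biUnion]
    · refine Finset.card_le_card ?_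
      intro x hx
      obtain ⟨t, -, hxt⟩ := Finset.mem_biUnion.1 hx
      exact (Finset.mem_filter.1 hxt).1
    · intro t ht t' ht' htt
      rw [Function.onFun, Finset.disjoint_left]
      intro x hx hx'
      exact htt (N3c_unique D (hpure t ht) (hpure t' ht') (Finset.mem_filter.1 hx).2
        (Finset.mem_filter.1 hx').2)
  omega

/-- the pair with the smallest sum -/
theorem exists_min_pair (D : Dt ι κ) {Z : Finset ι} (hZ : Z.card = 3) (h4 : 4 ≤ (D.P Z).card) :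
    ∃ p q, p ∈ D.P Z ∧ q ∈ D.P Z ∧ p ≠ q ∧ (∀ x, x ∉ Z → ¬ D.Tch x (D.b p + D.b q)) ∧
      ∀ p' q', p' ∈ D.P Z → q' ∈ D.P Z → p' ≠ q' →
        (∀ x, x ∉ Z → ¬ D.Tch x (D.b p' + D.b q')) → D.b p + D.b q ≤ D.b p' + D.b q' := by
  classical
  obtain ⟨p0, q0, hp0, hq0, hpq0, hpure0⟩ := exists_pure_pair D hZ h4
  obtain ⟨x, hx, hmin⟩ := Finset.exists_min_image
    ((D.P Z ×ˢ D.P Z).filter fun x => x.1 ≠ x.2 ∧ ∀ y, y ∉ Z → ¬ D.Tch y (D.b x.1 + D.b x.2))
    (fun x => D.b x.1 + D.b x.2)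
    ⟨(p0, q0), Finset.mem_filter.2 ⟨Finset.mem_product.2 ⟨hp0, hq0⟩, hpq0, hpure0⟩⟩
  rw [Finset.mem_filter, Finset.mem_product] at hx
  refine ⟨x.1, x.2, hx.1.1, hx.1.2, hx.2.1, hx.2.2, fun p' q' hp' hq' hpq' hpure' => ?_⟩
  exact hmin (p', q') (Finset.mem_filter.2 ⟨Finset.mem_product.2 ⟨hp', hq'⟩, hpq', hpure'⟩)

/-- below the smallest pure sum of two labels of `D.P Z` the coefficients are `- #{r | b r = t}`
(`coeff_single`; a sum `t` of two or more labels of `D.P Z` has two of them with a pure sum `≤ t < b p + b q`) -/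
theorem coeff_below (D : Dt ι κ) {Z : Finset ι} {p q : κ}
    (hmin : ∀ p' q', p' ∈ D.P Z → q' ∈ D.P Z → p' ≠ q' →
      (∀ x, x ∉ Z → ¬ D.Tch x (D.b p' + D.b q')) → D.b p + D.b q ≤ D.b p' + D.b q') {t : ℕ}
    (ht0 : 0 < t) (ht : t < D.b p + D.b q) (htp : ∀ x, x ∉ Z → ¬ D.Tch x t) :
    PowerSeries.coeff t (∏ j ∈ D.P Z, (1 - (PowerSeries.X : PowerSeries ℤ) ^ D.b j)) =
      - (((D.P Z).filter (fun r => D.b r = t)).card : ℤ) := by
  refine coeff_single (D.P Z) D.b t ht0 fun W hW h2 hsum => ?_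
  obtain ⟨p', hp', q', hq', hpq', hpure', hle⟩ := N3c_two D (Z := Z) h2 hsum htp
  have := hmin p' q' (hW hp') (hW hq') hpq' hpure'
  omega

end Pool.Agent.LibCov74
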