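import Pool.Agent.LibCov74.N3b
import Pool.Agent.LibCov74.C1d

/-!
# Three generators: the tree case
-/

set_option autoImplicit false

namespace Pool.Agent.LibCov74

open Finset

variable {ι κ : Type} [Fintype ι] [Fintype κ] [DecidableEq ι] [DecidableEq κ]

theorem N3d_Mon {g : ι → ℕ} {X : Finset ι} {i : ι} (hi : i ∈ X) {n : ℕ} (h : g i ∣ n) :
    n ∈ Mon g X :=
  Mon_mono g (Finset.singleton_subset_iff.2 hi) (C1d_dvd g i h)

/-- `i` and `k` are isolated at `b p`: `b p = lcm (g i) (g k)` (by `iso_spec` `b p` is a multiple of both, `lcm ∣ b p`, and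
`lcm` is a multiple `c' g i` in `⟨k, l⟩`, so `b p ≤ lcm`). `l` is isolated at `b q`: `b q = c g l ∈ ⟨i, k⟩` with `c` least.
Let `h = gcd (g i) (g k)`, `L = lcm h (g l)`, `L ∣ b q`. If `L ∈ ⟨i, k⟩` then `L = b q` by minimality: the tree `({i, k}, p)`
joined with the leaf `l` at `q` is an `LTr`. If `L ∉ ⟨i, k⟩`, `NTr.sym` for `ntr_pair` (`i`, `k`, `p`) and `n = L` gives
`b p - g i - g k - L ∈ ⟨i, k⟩`, so `Ed i k (b p)`: contradiction. (`{i, k, l} = {i, k} ∪ {l}`, `{p, q} = insert q ({p} ∪ ∅)`.) -/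
theorem case_A (D : Dt ι κ) {i k l : ι} (hik : i ≠ k) (hil : i ≠ l) (hkl : k ≠ l) {p q : κ}
    (hpq : p ≠ q) (hp : ∀ x, x ∉ ({i, k, l} : Finset ι) → ¬ D.Tch x (D.b p))
    (hq : ∀ x, x ∉ ({i, k, l} : Finset ι) → ¬ D.Tch x (D.b q)) (h1 : D.Iso i k l (D.b p))
    (h2 : D.Iso k i l (D.b p)) (h3 : D.Iso l i k (D.b q)) : LTr D.g D.b {i, k, l} {p, q} := by
  have e1 : ({i, k, l} : Finset ι) = {k, i, l} := by
    ext x
    simp only [Finset.mem_insert, Finset.mem_singleton]
    tauto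
  have e2 : ({i, k, l} : Finset ι) = {l, i, k} := by
    ext x
    simp only [Finset.mem_insert, Finset.mem_singleton]
    tauto
  obtain ⟨c1, hc1, hb1, hm1, hmin1⟩ := iso_spec D hik hil hkl hp h1
  obtain ⟨c2, hc2, hb2, hm2, hmin2⟩ := iso_spec D hik.symm hkl hil (e1 ▸ hp) h2
  obtain ⟨c3, hc3, hb3, hm3, hmin3⟩ := iso_spec D hil.symm hkl.symm hik (e2 ▸ hq) h3
  have gi := D.gpos i
  have gk := D.gpos k
  have gl := D.gpos l
  have bp := D.bpos p
  have bq := D.bpos q
  -- the label of the pair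
  have hL0 : D.b p = Nat.lcm (D.g i) (D.g k) := by
    have hd : Nat.lcm (D.g i) (D.g k) ∣ D.b p :=
      Nat.lcm_dvd ⟨c1, by rw [hb1]; ring⟩ ⟨c2, by rw [hb2]; ring⟩
    refine le_antisymm ?_ (Nat.le_of_dvd bp hd)
    obtain ⟨c', hc'⟩ := Nat.dvd_lcm_left (D.g i) (D.g k)
    have hpos : 0 < Nat.lcm (D.g i) (D.g k) := Nat.lcm_pos gi gk
    have hc'1 : 1 ≤ c' := by
      rcases Nat.eq_zero_or_pos c' with h0 | h0
      · rw [h0, mul_zero] at hc'
        omega
      · exact h0
    have h4 := hmin1 c' hc'1 (by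
      have h5 : c' * D.g i = Nat.lcm (D.g i) (D.g k) := by rw [hc']; ring
      rw [h5]
      exact N3d_Mon (by simp) (Nat.dvd_lcm_right _ _))
    rw [hb1, hc', mul_comm (D.g i) c']
    exact Nat.mul_le_mul_right _ h4
  have hpair : LTr D.g D.b {i, k} {p} := by
    have h := LTr.node (g := D.g) (b := D.b) p {i} {k} ∅ ∅ (Finset.disjoint_singleton.2 hik)
      (Finset.disjoint_empty_left _) (Finset.notMem_empty _) (Finset.notMem_empty _)
      (C1d_dvd D.g i ⟨c1, by rw [hb1]; ring⟩) (C1d_dvd D.g k ⟨c2, by rw [hb2]; ring⟩)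
      (by rw [Finset.gcd_singleton, Finset.gcd_singleton, normalize_eq, normalize_eq]; exact hL0)
      (LTr.leaf i) (LTr.leaf k)
    have e3 : ({i} : Finset ι) ∪ {k} = {i, k} := rfl
    have e4 : insert p ((∅ : Finset κ) ∪ ∅) = {p} := by
      rw [Finset.empty_union]
      rfl
    rw [e3, e4] at h
    exact h
  have hgcd : ({i, k} : Finset ι).gcd D.g = Nat.gcd (D.g i) (D.g k) := by
    rw [Finset.gcd_insert, Finset.gcd_singleton, normalize_eq]
    rfl
  set L := Nat.lcm (Nat.gcd (D.g i) (D.g k)) (D.g l) with hL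
  have hLpos : 0 < L := Nat.lcm_pos (Nat.gcd_pos_of_pos_left _ gi) gl
  have hLd : L ∣ D.b q := by
    refine Nat.lcm_dvd ?_ ⟨c3, by rw [hb3]; ring⟩
    have := gcd_dvd_of_mem_Mon D.g {i, k} hm3
    rwa [hgcd] at this
  by_cases hLm : L ∈ Mon D.g {i, k}
  · have hbq : D.b q = L := by
      refine le_antisymm ?_ (Nat.le_of_dvd bq hLd)
      obtain ⟨c', hc'⟩ : D.g l ∣ L := Nat.dvd_lcm_right _ _
      have hc'1 : 1 ≤ c' := by
        rcases Nat.eq_zero_or_pos c' with h0 | h0
        · rw [h0, mul_zero] at hc'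
          omega
        · exact h0
      have h4 := hmin3 c' hc'1 (by
        have h5 : c' * D.g l = L := by rw [hc']; ring
        rw [h5]
        exact hLm)
      rw [hb3, hc', mul_comm (D.g l) c']
      exact Nat.mul_le_mul_right _ h4
    have hl : l ∉ ({i, k} : Finset ι) := by
      simp only [Finset.mem_insert, Finset.mem_singleton]
      rintro (h | h)
      · exact hil h.symm
      · exact hkl h.symm
    have h := LTr.node (g := D.g) (b := D.b) q {i, k} {l} {p} ∅
      (Finset.disjoint_singleton_right.2 hl) (Finset.disjoint_empty_right _)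
      (by rw [Finset.mem_singleton]; exact hpq.symm) (Finset.notMem_empty _) hm3
      (C1d_dvd D.g l ⟨c3, by rw [hb3]; ring⟩)
      (by rw [hgcd, Finset.gcd_singleton, normalize_eq]; exact hbq) hpair (LTr.leaf l)
    have e3 : ({i, k} : Finset ι) ∪ {l} = {i, k, l} := by
      ext x
      simp only [Finset.mem_union, Finset.mem_insert, Finset.mem_singleton]
      tauto
    have e4 : insert q (({p} : Finset κ) ∪ ∅) = {p, q} := by
      ext x
      simp only [Finset.union_empty, Finset.mem_insert, Finset.mem_singleton]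
      tauto
    rw [e3, e4] at h
    exact h
  · exfalso
    have h4 := NTr.sym D.gpos D.bpos hpair.ntr (L : ℤ) (by
      rw [hgcd]
      exact_mod_cast Nat.dvd_lcm_left (Nat.gcd (D.g i) (D.g k)) (D.g l))
    rcases h4 with h4 | h4
    · exact hLm (inZ_natCast.1 h4)
    · obtain ⟨s, hs, he⟩ := h4
      rw [Finset.sum_singleton, Finset.sum_pair hik] at he
      refine h1.2.2.1 ⟨s + L, D.S.add_mem (Mon_le D _ hs) (Mon_le D {l} (C1d_dvd D.g l
        (Nat.dvd_lcm_right _ _))), ?_⟩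
      have h5 : (D.b p : ℤ) = ((s + L + (D.g i + D.g k) : ℕ) : ℤ) := by
        push_cast
        linarith
      exact_mod_cast h5

end Pool.Agent.LibCov74
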