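import Mathlib

/-!
# Three generators: the arithmetic of Herzog's relations
-/

set_option autoImplicit false

namespace Pool.Agent.LibCov74

private theorem N3e_min0 {x y z c : ℕ}
    (m : ∀ c' a b, 1 ≤ c' → c' * x = a * y + b * z → c ≤ c') {D1 D2 D3 : ℤ}
    (h : D1 * x = D2 * y + D3 * z) (h1 : 0 < D1) (h2 : 0 ≤ D2) (h3 : 0 ≤ D3) : (c : ℤ) ≤ D1 := by
  obtain ⟨n1, rfl⟩ := Int.eq_ofNat_of_zero_le h1.le
  obtain ⟨n2, rfl⟩ := Int.eq_ofNat_of_zero_le h2
  obtain ⟨n3, rfl⟩ := Int.eq_ofNat_of_zero_le h3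
  have h4 : 1 ≤ n1 := by exact_mod_cast h1
  exact_mod_cast m n1 n2 n3 h4 (by exact_mod_cast h)

private theorem N3e_min {x y z c : ℕ} (hx : 0 < x) (hy : 0 < y) (hz : 0 < z)
    (m : ∀ c' a b, 1 ≤ c' → c' * x = a * y + b * z → c ≤ c') {D1 D2 D3 : ℤ}
    (h : D1 * x = D2 * y + D3 * z) (h2 : 0 ≤ D2) (h3 : 0 ≤ D3) (h23 : 0 < D2 + D3) :
    (c : ℤ) ≤ D1 := by
  refine N3e_min0 m h ?_ h2 h3
  have hx' : (1 : ℤ) ≤ x := by exact_mod_cast hx
  have hy' : (1 : ℤ) ≤ y := by exact_mod_cast hy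
  have hz' : (1 : ℤ) ≤ z := by exact_mod_cast hz
  have h4 : 0 ≤ D2 * ((y : ℤ) - 1) := mul_nonneg h2 (by linarith)
  have h5 : 0 ≤ D3 * ((z : ℤ) - 1) := mul_nonneg h3 (by linarith)
  have h6 : 0 < D1 * (x : ℤ) := by
    rw [h]
    linarith
  exact pos_of_mul_pos_left h6 (by linarith)

private theorem N3e_T {x y z c1 c2 c3 : ℕ} (hx : 0 < x) (hy : 0 < y) (hz : 0 < z)
    (m1 : ∀ c a b, 1 ≤ c → c * x = a * y + b * z → c1 ≤ c)
    (m2 : ∀ c a b, 1 ≤ c → c * y = a * x + b * z → c2 ≤ c)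
    (m3 : ∀ c a b, 1 ≤ c → c * z = a * x + b * y → c3 ≤ c) {D1 D2 D3 : ℤ}
    (S : D1 * x + D2 * y + D3 * z = 0) (b1 : D1 < c1) (b2 : -D2 < c2) (b3 : -D3 < c3) :
    D1 ≤ 0 := by
  by_contra hcon
  push Not at hcon
  have hx' : (1 : ℤ) ≤ x := by exact_mod_cast hx
  have hy' : (1 : ℤ) ≤ y := by exact_mod_cast hy
  have hz' : (1 : ℤ) ≤ z := by exact_mod_cast hz
  have p1 : 0 < D1 * (x : ℤ) := mul_pos hcon (by linarith)
  rcases le_or_gt D2 0 with h2 | h2
  · rcases le_or_gt D3 0 with h3 | h3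
    · have := N3e_min0 m1 (D1 := D1) (D2 := -D2) (D3 := -D3) (by linear_combination S) hcon
        (by linarith) (by linarith)
      linarith
    · have p3 : 0 < D3 * (z : ℤ) := mul_pos h3 (by linarith)
      have h2' : D2 < 0 := by
        rcases h2.lt_or_eq with h | h
        · exact h
        · rw [h] at S
          linarith
      have := N3e_min0 m2 (D1 := -D2) (D2 := D1) (D3 := D3) (by linear_combination -S)
        (by linarith) hcon.le h3.le
      linarith
  · have p2 : 0 < D2 * (y : ℤ) := mul_pos h2 (by linarith)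
    have h3 : D3 < 0 := by
      by_contra h
      push Not at h
      have : 0 ≤ D3 * (z : ℤ) := mul_nonneg h (by linarith)
      linarith
    have := N3e_min0 m3 (D1 := -D3) (D2 := D1) (D3 := D2) (by linear_combination -S)
      (by linarith) hcon.le h2.le
    linarith

private theorem N3e_zero {x y z c1 c2 c3 : ℕ} (hx : 0 < x) (hy : 0 < y) (hz : 0 < z)
    (m1 : ∀ c a b, 1 ≤ c → c * x = a * y + b * z → c1 ≤ c)
    (m2 : ∀ c a b, 1 ≤ c → c * y = a * x + b * z → c2 ≤ c)
    (m3 : ∀ c a b, 1 ≤ c → c * z = a * x + b * y → c3 ≤ c) {D1 D2 D3 : ℤ}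
    (S : D1 * x + D2 * y + D3 * z = 0) (b1 : |D1| < c1) (b2 : |D2| < c2) (b3 : |D3| < c3) :
    D1 = 0 ∧ D2 = 0 ∧ D3 = 0 := by
  rw [abs_lt] at b1 b2 b3
  have m3' : ∀ c a b, 1 ≤ c → c * z = a * y + b * x → c3 ≤ c := fun c a b hc h =>
    m3 c b a hc (by rw [h, add_comm])
  have u1 := N3e_T hx hy hz m1 m2 m3 S b1.2 (by linarith [b2.1]) (by linarith [b3.1])
  have u2 := N3e_T hx hy hz m1 m2 m3 (D1 := -D1) (D2 := -D2) (D3 := -D3)
    (by linear_combination -S) (by linarith [b1.1]) (by linarith [b2.2]) (by linarith [b3.2])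
  have u3 := N3e_T hy hx hz m2 m1 m3' (D1 := D2) (D2 := D1) (D3 := D3)
    (by linear_combination S) b2.2 (by linarith [b1.1]) (by linarith [b3.1])
  have u4 := N3e_T hy hx hz m2 m1 m3' (D1 := -D2) (D2 := -D1) (D3 := -D3)
    (by linear_combination -S) (by linarith [b2.1]) (by linarith [b1.2]) (by linarith [b3.2])
  have d1 : D1 = 0 := by linarith
  have d2 : D2 = 0 := by linarith
  refine ⟨d1, d2, ?_⟩
  rw [d1, d2] at S
  have hz' : (z : ℤ) ≠ 0 := by exact_mod_cast hz.ne'
  have : D3 * (z : ℤ) = 0 := by linarith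
  exact (mul_eq_zero.1 this).resolve_right hz'

/-- Proof (helper24). `r12 < c2`: otherwise `c1 x = (r12 - c2) y + r21 x + (r23 + r13) z` with `r21 ≥ 1`, so
`(c1 - r21) x ∈ ⟨y, z⟩` and `0 < c1 - r21 < c1` (`r13 + r23 > 0`), contradiction to `m1`. In the same way `r21 < c1`.
`(r13 + r23) z = (c1 - r21) x + (c2 - r12) y`, so there is a least `c3 ≥ 1` with `c3 z = r31 x + r32 y` for some `r31, r32`.
`r31 ≥ 1`: if `c3 z = r32 y` then `r32 ≥ c2` (`m2`), `c3 z = (r32 - c2) y + r21 x + r23 z`, so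
`(c3 - r23) z = (r32 - c2) y + r21 x > 0`, `0 < c3 - r23 < c3`: contradiction. In the same way `r32 ≥ 1` (use `c1`).
`r13 < c3`: otherwise `c1 x = r12 y + (r13 - c3) z + r31 x + r32 y`, so `(c1 - r31) x ∈ ⟨y, z⟩`, `0 < c1 - r31 < c1`:
contradiction. In the same way `r23 < c3`. `r31 < c1`: otherwise `c3 z = (r31 - c1) x + r32 y + r12 y + r13 z`, so
`(c3 - r13) z ∈ ⟨x, y⟩`, positive: contradiction. In the same way `r32 < c2`.
Put `d1 = c1 - r21 - r31`, `d2 = c2 - r12 - r32`, `d3 = c3 - r13 - r23` (integers). `d1 x + d2 y + d3 z = 0` and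
`-c1 < d1 < c1`, `-c2 < d2 < c2`, `-c3 < d3 < c3`. If one is positive and the others are `≤ 0`, or one is negative and the
others are `≥ 0`, then a multiple `0 < c < c_l` of a generator is in the semigroup of the two others:
contradiction. So `d1 = d2 = d3 = 0`.
`t = c1 x + r23 z = c2 y + r31 x = c3 z + r12 y = c1 x + c2 y - r21 x`. No full factorization: let
`t = A x + B y + C z`, `A, B, C ≥ 1`. `C < r23`: otherwise `c1 x = A x + B y + (C - r23) z`; if `A < c1` this gives a
smaller multiple of `x` in `⟨y, z⟩`; if `A ≥ c1` then `B y = 0`. In the same way `A < r31` (`t = c2 y + r31 x`). So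
`B y = (c1 - A) x + (r23 - C) z`, in the same way (`t = c3 z + r12 y`) `B < r12 < c2`: contradiction to `m2`. -/
theorem case_B {x y z : ℕ} (hx : 0 < x) (hy : 0 < y) (hz : 0 < z) {c1 c2 r12 r13 r21 r23 : ℕ}
    (h12 : 1 ≤ r12) (h13 : 1 ≤ r13) (h21 : 1 ≤ r21) (h23 : 1 ≤ r23)
    (e1 : c1 * x = r12 * y + r13 * z) (e2 : c2 * y = r21 * x + r23 * z)
    (m1 : ∀ c a b, 1 ≤ c → c * x = a * y + b * z → c1 ≤ c)
    (m2 : ∀ c a b, 1 ≤ c → c * y = a * x + b * z → c2 ≤ c) :
    ∃ t, 0 < t ∧ t + r21 * x = c1 * x + c2 * y ∧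
      (∃ a b c, t = (a + 1) * x + (b + 1) * y + c * z) ∧
      (∃ a b c, t = (a + 1) * x + b * y + (c + 1) * z) ∧
      (∃ a b c, t = a * x + (b + 1) * y + (c + 1) * z) ∧
      ¬ ∃ a b c, t = (a + 1) * x + (b + 1) * y + (c + 1) * z := by
  have E1 : (c1 : ℤ) * x = r12 * y + r13 * z := by exact_mod_cast e1
  have E2 : (c2 : ℤ) * y = r21 * x + r23 * z := by exact_mod_cast e2
  have q12 : (1 : ℤ) ≤ r12 := by exact_mod_cast h12
  have q13 : (1 : ℤ) ≤ r13 := by exact_mod_cast h13
  have q21 : (1 : ℤ) ≤ r21 := by exact_mod_cast h21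
  have q23 : (1 : ℤ) ≤ r23 := by exact_mod_cast h23
  have l12 : (r12 : ℤ) < c2 := by
    by_contra h
    push Not at h
    have := N3e_min hx hy hz m1 (D1 := c1 - r21) (D2 := r12 - c2) (D3 := r13 + r23)
      (by linear_combination E1 + E2) (by linarith) (by linarith) (by linarith)
    linarith
  have l21 : (r21 : ℤ) < c1 := by
    by_contra h
    push Not at h
    have := N3e_min hy hx hz m2 (D1 := c2 - r12) (D2 := r21 - c1) (D3 := r13 + r23)
      (by linear_combination E1 + E2) (by linarith) (by linarith) (by linarith)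
    linarith
  have hex : ∃ c, 1 ≤ c ∧ ∃ a b, c * z = a * x + b * y := by
    obtain ⟨u, hu⟩ := Nat.exists_eq_add_of_lt (by exact_mod_cast l21 : r21 < c1)
    obtain ⟨v, hv⟩ := Nat.exists_eq_add_of_lt (by exact_mod_cast l12 : r12 < c2)
    refine ⟨r13 + r23, by omega, u + 1, v + 1, ?_⟩
    rw [hu] at E1
    rw [hv] at E2
    push_cast at E1 E2
    have : ((r13 : ℤ) + r23) * z = (u + 1) * x + (v + 1) * y := by linear_combination -E1 - E2
    exact_mod_cast this
  classical
  obtain ⟨c3, hc3, r31, r32, e3, m3⟩ : ∃ c3, 1 ≤ c3 ∧ ∃ r31 r32, c3 * z = r31 * x + r32 * y ∧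
      ∀ c a b, 1 ≤ c → c * z = a * x + b * y → c3 ≤ c := by
    obtain ⟨h1, a, b, h2⟩ := Nat.find_spec hex
    exact ⟨Nat.find hex, h1, a, b, h2, fun c a b hc h => Nat.find_min' hex ⟨hc, a, b, h⟩⟩
  have E3 : (c3 : ℤ) * z = r31 * x + r32 * y := by exact_mod_cast e3
  have q3 : (1 : ℤ) ≤ c3 := by exact_mod_cast hc3
  have q31' : (0 : ℤ) ≤ r31 := Nat.cast_nonneg _
  have q32' : (0 : ℤ) ≤ r32 := Nat.cast_nonneg _
  have q31 : (1 : ℤ) ≤ r31 := by
    by_contra h
    have h0 : (r31 : ℤ) = 0 := by omega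
    rw [h0] at E3
    have h1 := N3e_min hy hx hz m2 (D1 := r32) (D2 := 0) (D3 := c3)
      (by linear_combination -E3) le_rfl (by linarith) (by linarith)
    have := N3e_min hz hx hy m3 (D1 := c3 - r23) (D2 := r21) (D3 := r32 - c2)
      (by linear_combination E3 + E2) (by linarith) (by linarith) (by linarith)
    linarith
  have q32 : (1 : ℤ) ≤ r32 := by
    by_contra h
    have h0 : (r32 : ℤ) = 0 := by omega
    rw [h0] at E3
    have h1 := N3e_min hx hy hz m1 (D1 := r31) (D2 := 0) (D3 := c3)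
      (by linear_combination -E3) le_rfl (by linarith) (by linarith)
    have := N3e_min hz hx hy m3 (D1 := c3 - r13) (D2 := r31 - c1) (D3 := r12)
      (by linear_combination E3 + E1) (by linarith) (by linarith) (by linarith)
    linarith
  have l13 : (r13 : ℤ) < c3 := by
    by_contra h
    push Not at h
    have := N3e_min hx hy hz m1 (D1 := c1 - r31) (D2 := r12 + r32) (D3 := r13 - c3)
      (by linear_combination E1 + E3) (by linarith) (by linarith) (by linarith)
    linarith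
  have l23 : (r23 : ℤ) < c3 := by
    by_contra h
    push Not at h
    have := N3e_min hy hx hz m2 (D1 := c2 - r32) (D2 := r21 + r31) (D3 := r23 - c3)
      (by linear_combination E2 + E3) (by linarith) (by linarith) (by linarith)
    linarith
  have l31 : (r31 : ℤ) < c1 := by
    by_contra h
    push Not at h
    have := N3e_min hz hx hy m3 (D1 := c3 - r13) (D2 := r31 - c1) (D3 := r32 + r12)
      (by linear_combination E3 + E1) (by linarith) (by linarith) (by linarith)
    linarith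
  have l32 : (r32 : ℤ) < c2 := by
    by_contra h
    push Not at h
    have := N3e_min hz hx hy m3 (D1 := c3 - r23) (D2 := r31 + r21) (D3 := r32 - c2)
      (by linear_combination E3 + E2) (by linarith) (by linarith) (by linarith)
    linarith
  obtain ⟨d1, d2, d3⟩ := N3e_zero hx hy hz m1 m2 m3 (D1 := c1 - r21 - r31)
    (D2 := c2 - r12 - r32) (D3 := c3 - r13 - r23) (by linear_combination E1 + E2 + E3)
    (abs_lt.2 ⟨by linarith, by linarith⟩) (abs_lt.2 ⟨by linarith, by linarith⟩)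
    (abs_lt.2 ⟨by linarith, by linarith⟩)
  obtain ⟨t, ht⟩ : ∃ t, t = c1 * x + r23 * z := ⟨_, rfl⟩
  have T1 : (t : ℤ) = c1 * x + r23 * z := by exact_mod_cast ht
  have T2 : (t : ℤ) = r31 * x + c2 * y := by linear_combination T1 + x * d1 - E2
  have T3 : (t : ℤ) = r12 * y + c3 * z := by linear_combination T1 + E1 - z * d3
  have n12 : r12 < c2 := by exact_mod_cast l12
  have n21 : r21 < c1 := by exact_mod_cast l21
  have n13 : r13 < c3 := by exact_mod_cast l13
  have n31 : 1 ≤ r31 := by exact_mod_cast q31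
  refine ⟨t, ?_, ?_, ⟨r31 - 1, c2 - 1, 0, ?_⟩, ⟨c1 - 1, 0, r23 - 1, ?_⟩, ⟨0, r12 - 1, c3 - 1, ?_⟩,
    ?_⟩
  · have : 0 < r23 * z := Nat.mul_pos (by omega) hz
    omega
  · have : (t : ℤ) + r21 * x = c1 * x + c2 * y := by linear_combination T1 - E2
    exact_mod_cast this
  · rw [show r31 - 1 + 1 = r31 by omega, show c2 - 1 + 1 = c2 by omega, zero_mul, add_zero]
    exact_mod_cast T2
  · rw [show c1 - 1 + 1 = c1 by omega, show r23 - 1 + 1 = r23 by omega, zero_mul, add_zero]
    exact_mod_cast T1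
  · rw [show r12 - 1 + 1 = r12 by omega, show c3 - 1 + 1 = c3 by omega, zero_mul, zero_add]
    exact_mod_cast T3
  · rintro ⟨a, b, c, h⟩
    have T4 : (t : ℤ) = (a + 1) * x + (b + 1) * y + (c + 1) * z := by exact_mod_cast h
    have na : (0 : ℤ) ≤ a := Nat.cast_nonneg _
    have nb : (0 : ℤ) ≤ b := Nat.cast_nonneg _
    have nc : (0 : ℤ) ≤ c := Nat.cast_nonneg _
    have C1 : (c : ℤ) + 1 < r23 := by
      by_contra h
      push Not at h
      have := N3e_min hx hy hz m1 (D1 := c1 - (a + 1)) (D2 := b + 1) (D3 := c + 1 - r23)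
        (by linear_combination T4 - T1) (by linarith) (by linarith) (by linarith)
      linarith
    have A1 : (a : ℤ) + 1 < r31 := by
      by_contra h
      push Not at h
      have := N3e_min hy hx hz m2 (D1 := c2 - (b + 1)) (D2 := a + 1 - r31) (D3 := c + 1)
        (by linear_combination T4 - T2) (by linarith) (by linarith) (by linarith)
      linarith
    have B1 : (b : ℤ) + 1 < r12 := by
      by_contra h
      push Not at h
      have := N3e_min hz hx hy m3 (D1 := c3 - (c + 1)) (D2 := a + 1) (D3 := b + 1 - r12)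
        (by linear_combination T4 - T3) (by linarith) (by linarith) (by linarith)
      linarith
    have := N3e_min hy hx hz m2 (D1 := b + 1) (D2 := c1 - (a + 1)) (D3 := r23 - (c + 1))
      (by linear_combination T1 - T4) (by linarith) (by linarith) (by linarith)
    linarith

end Pool.Agent.LibCov74
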