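import Pool.Agent.LibCov74.N3c
import Pool.Agent.LibCov74.N3d
import Pool.Agent.LibCov74.N3e
import Pool.Agent.LibCov74.D1

/-!
# Three generators have at most three pure labels (helper24)
-/

set_option autoImplicit false

namespace Pool.Agent.LibCov74

open Finset

variable {ι κ : Type} [Fintype ι] [Fintype κ] [DecidableEq ι] [DecidableEq κ]

omit [Fintype ι] in
theorem N3f_mem3 (g : ι → ℕ) {i k l : ι} (hik : i ≠ k) (hil : i ≠ l) (hkl : k ≠ l) {n : ℕ}
    (h : n ∈ Mon g {i, k, l}) : ∃ a b c, n = a * g i + b * g k + c * g l := by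
  obtain ⟨x, hx⟩ := (mem_Mon_iff g _ n).1 h
  rw [Finset.sum_insert (by simp [hik, hil]), Finset.sum_pair hkl] at hx
  exact ⟨x i, x k, x l, by omega⟩

omit [Fintype ι] in
theorem N3f_mem2 (g : ι → ℕ) (k l : ι) (a b : ℕ) : a * g k + b * g l ∈ Mon g {k, l} := by
  have h1 : g k ∈ Mon g {k, l} := AddSubmonoid.subset_closure ⟨k, by simp, rfl⟩
  have h2 : g l ∈ Mon g {k, l} := AddSubmonoid.subset_closure ⟨l, by simp, rfl⟩
  have h3 := AddSubmonoid.nsmul_mem _ h1 a
  have h4 := AddSubmonoid.nsmul_mem _ h2 b
  rw [smul_eq_mul] at h3 h4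
  exact AddSubmonoid.add_mem _ h3 h4

omit [DecidableEq ι] [DecidableEq κ] in
theorem N3f_S (D : Dt ι κ) (i k l : ι) (a b c : ℕ) :
    a * D.g i + b * D.g k + c * D.g l ∈ D.S := by
  have h1 := D.S.nsmul_mem (g_mem D i) a
  have h2 := D.S.nsmul_mem (g_mem D k) b
  have h3 := D.S.nsmul_mem (g_mem D l) c
  rw [smul_eq_mul] at h1 h2 h3
  exact D.S.add_mem (D.S.add_mem h1 h2) h3

omit [DecidableEq κ] in
/-- `n = s + (g k + g l)`, and no edge at `i`: the factorization does not use `g i` -/
theorem N3f_edge (D : Dt ι κ) {i k l : ι} (hik : i ≠ k) (hil : i ≠ l) (hkl : k ≠ l) {n : ℕ}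
    (hn : ∀ x, x ∉ ({i, k, l} : Finset ι) → ¬ D.Tch x n) (h : D.Ed k l n) (h' : ¬ D.Ed i k n) :
    ∃ r r', n = (r + 1) * D.g k + (r' + 1) * D.g l := by
  obtain ⟨s, hs, rfl⟩ := h
  have hsM : s ∈ Mon D.g {i, k, l} := mem_Mon_of_pure D _ hs fun x hx h1 => hn x hx
    (tch_add D x h1 (D.S.add_mem (g_mem D k) (g_mem D l)))
  obtain ⟨a, b, c, rfl⟩ := N3f_mem3 D.g hik hil hkl hsM
  rcases Nat.eq_zero_or_pos a with ha | ha
  · subst ha
    exact ⟨b, c, by ring⟩
  · exfalso
    obtain ⟨a, rfl⟩ := Nat.exists_eq_succ_of_ne_zero ha.ne'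
    apply h'
    refine ⟨a * D.g i + b * D.g k + (c + 1) * D.g l, N3f_S D i k l a b (c + 1), ?_⟩
    rw [Nat.succ_eq_add_one]
    ring

/-- two generators isolated at `b p` -/
theorem N3f_A (D : Dt ι κ) {Z : Finset ι} (hZ : Z.card = 3) (h4 : 4 ≤ (D.P Z).card) {p q : κ}
    (hp : p ∈ D.P Z) (hq : q ∈ D.P Z) (hpq : p ≠ q)
    (hcp : PowerSeries.coeff (D.b p)
        (∏ j ∈ D.P Z, (1 - (PowerSeries.X : PowerSeries ℤ) ^ D.b j)) =
      - (((D.P Z).filter (fun r => D.b r = D.b p)).card : ℤ))
    (hcq : PowerSeries.coeff (D.b q)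
        (∏ j ∈ D.P Z, (1 - (PowerSeries.X : PowerSeries ℤ) ^ D.b j)) =
      - (((D.P Z).filter (fun r => D.b r = D.b q)).card : ℤ))
    {i k l : ι} (hik : i ≠ k) (hil : i ≠ l) (hkl : k ≠ l) (hZe : Z = {i, k, l})
    (hI : D.Iso i k l (D.b p)) (hK : D.Iso k i l (D.b p))
    (hL : PowerSeries.coeff (D.b p)
        (∏ j ∈ D.P Z, (1 - (PowerSeries.X : PowerSeries ℤ) ^ D.b j)) = -1 ∨
      D.Iso l i k (D.b p)) : False := by
  have hp' := (mem_P D Z p).1 hp
  have hq' := (mem_P D Z q).1 hq
  -- the case of equal labels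
  have hEq : D.b p = D.b q → D.Iso l i k (D.b q) := by
    intro h
    rcases hL with hL | hL
    · exfalso
      have h1 : 2 ≤ ((D.P Z).filter (fun r => D.b r = D.b p)).card := by
        rw [← Finset.card_pair hpq]
        refine Finset.card_le_card fun r hr => ?_
        rw [Finset.mem_insert, Finset.mem_singleton] at hr
        rcases hr with rfl | rfl
        · exact Finset.mem_filter.2 ⟨hp, rfl⟩
        · exact Finset.mem_filter.2 ⟨hq, h.symm⟩
      rw [hcp] at hL
      omega
    · rw [← h]
      exact hL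
  have hneg : PowerSeries.coeff (D.b q)
      (∏ j ∈ D.P Z, (1 - (PowerSeries.X : PowerSeries ℤ) ^ D.b j)) < 0 := by
    rw [hcq]
    have h1 : 0 < ((D.P Z).filter (fun r => D.b r = D.b q)).card :=
      Finset.card_pos.2 ⟨q, Finset.mem_filter.2 ⟨hq, rfl⟩⟩
    omega
  obtain ⟨i', k', l', hik', hil', hkl', hZ', hc⟩ :=
    neg_cases D hZ (D.bpos q) (b_mem D q) hq' hneg
  have hI' : D.Iso i' k' l' (D.b q) := by
    rcases hc with ⟨_, h, _⟩ | ⟨_, h, _⟩ | ⟨_, h, _⟩ <;> exact h
  have hpn : ∀ x, x ∉ ({i, k, l} : Finset ι) → ¬ D.Tch x (D.b p) := by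
    rw [← hZe]; exact hp'
  have hqn : ∀ x, x ∉ ({i, k, l} : Finset ι) → ¬ D.Tch x (D.b q) := by
    rw [← hZe]; exact hq'
  have hset : ({i', k', l'} : Finset ι) = {i, k, l} := by rw [← hZ', ← hZe]
  have mi : i' ∈ ({i, k, l} : Finset ι) := by rw [← hset]; simp
  have mk : k' ∈ ({i, k, l} : Finset ι) := by rw [← hset]; simp
  have ml : l' ∈ ({i, k, l} : Finset ι) := by rw [← hset]; simp
  simp only [Finset.mem_insert, Finset.mem_singleton] at mi mk ml
  have hL' : D.Iso l i k (D.b q) := by
    have e1 : ({k, i, l} : Finset ι) = {i, k, l} := Finset.insert_comm k i {l}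
    rcases mi with h | h | h
    · subst h
      have h5 : D.Iso i' k l (D.b q) := by
        rcases mk with h | h | h
        · exact absurd h.symm hik'
        · subst h
          rcases ml with h | h | h
          · exact absurd h.symm hil'
          · exact absurd h.symm hkl'
          · subst h
            exact hI'
        · subst h
          rcases ml with h | h | h
          · exact absurd h.symm hil'
          · subst h
            exact Iso.symm D hI'
          · exact absurd h.symm hkl'
      exact hEq (iso_unique D hik hil hkl hpn hqn hI h5)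
    · subst h
      have h5 : D.Iso i' i l (D.b q) := by
        rcases mk with h | h | h
        · subst h
          rcases ml with h | h | h
          · exact absurd h.symm hkl'
          · exact absurd h.symm hil'
          · subst h
            exact hI'
        · exact absurd h.symm hik'
        · subst h
          rcases ml with h | h | h
          · subst h
            exact Iso.symm D hI'
          · exact absurd h.symm hil'
          · exact absurd h.symm hkl'
      exact hEq (iso_unique D hik.symm hkl hil (by rw [e1]; exact hpn) (by rw [e1]; exact hqn)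
        hK h5)
    · subst h
      rcases mk with h | h | h
      · subst h
        rcases ml with h | h | h
        · exact absurd h.symm hkl'
        · subst h
          exact hI'
        · exact absurd h.symm hil'
      · subst h
        rcases ml with h | h | h
        · subst h
          exact Iso.symm D hI'
        · exact absurd h.symm hkl'
        · exact absurd h.symm hil'
      · exact absurd h.symm hik'
  have h6 := card_P_of_ltr D (case_A D hik hil hkl hpq hpn hqn hI hK hL')
  rw [← hZe, hZ] at h6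
  omega

/-- one edge and one isolated generator at both labels, different generators -/
theorem N3f_B (D : Dt ι κ) {Z : Finset ι} {p q : κ}
    (hp : p ∈ D.P Z) (hq : q ∈ D.P Z)
    (hpure : ∀ x, x ∉ Z → ¬ D.Tch x (D.b p + D.b q))
    (hcoef : ∀ t, 0 < t → t < D.b p + D.b q → (∀ x, x ∉ Z → ¬ D.Tch x t) →
      PowerSeries.coeff t (∏ j ∈ D.P Z, (1 - (PowerSeries.X : PowerSeries ℤ) ^ D.b j)) ≤ 0)
    {i k l : ι} (hik : i ≠ k) (hil : i ≠ l) (hkl : k ≠ l) (hZe : Z = {i, k, l})
    (hI : D.Iso i k l (D.b p)) (hE : D.Ed k l (D.b p)) (hK : D.Iso k i l (D.b q))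
    (hF : D.Ed i l (D.b q)) : False := by
  subst hZe
  have hp' := (mem_P D _ p).1 hp
  have hq' := (mem_P D _ q).1 hq
  have e1 : ({k, i, l} : Finset ι) = {i, k, l} := Finset.insert_comm k i {l}
  have hq'' : ∀ x, x ∉ ({k, i, l} : Finset ι) → ¬ D.Tch x (D.b q) := by rw [e1]; exact hq'
  obtain ⟨c1, hc1, hb1, -, hm1⟩ := iso_spec D hik hil hkl hp' hI
  obtain ⟨c2, hc2, hb2, -, hm2⟩ := iso_spec D hik.symm hkl hil hq'' hK
  obtain ⟨r12, r13, hr1⟩ := N3f_edge D hik hil hkl hp' hE hI.2.2.1
  obtain ⟨r21, r23, hr2⟩ := N3f_edge D hik.symm hkl hil hq'' hF hK.2.2.1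
  obtain ⟨t, ht0, ht, hab, hac, hbc, hno⟩ := case_B (D.gpos i) (D.gpos k) (D.gpos l)
    (c1 := c1) (c2 := c2) (r12 := r12 + 1) (r13 := r13 + 1) (r21 := r21 + 1) (r23 := r23 + 1)
    (Nat.succ_pos _) (Nat.succ_pos _) (Nat.succ_pos _) (Nat.succ_pos _)
    (by rw [← hb1, hr1]) (by rw [← hb2, hr2])
    (fun c a b hc h => hm1 c hc (by rw [h]; exact N3f_mem2 D.g k l a b))
    (fun c a b hc h => hm2 c hc (by rw [h]; exact N3f_mem2 D.g i l a b))
  have hsum : t + (r21 + 1) * D.g i = D.b p + D.b q := by rw [ht, hb1, hb2]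
  have hlt : t < D.b p + D.b q := by
    have : 0 < (r21 + 1) * D.g i := Nat.mul_pos (Nat.succ_pos _) (D.gpos i)
    omega
  have htp : ∀ x, x ∉ ({i, k, l} : Finset ι) → ¬ D.Tch x t := by
    intro x hx h
    apply hpure x hx
    rw [← hsum]
    refine tch_add D x h ?_
    have := D.S.nsmul_mem (g_mem D i) (r21 + 1)
    rwa [smul_eq_mul] at this
  obtain ⟨a1, b1, c1', h1⟩ := hab
  obtain ⟨a2, b2, c2', h2⟩ := hac
  obtain ⟨a3, b3, c3', h3⟩ := hbc
  have htS : t ∈ D.S := by
    rw [h1]
    exact N3f_S D i k l _ _ _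
  have E1 : D.Ed i k t := ⟨a1 * D.g i + b1 * D.g k + c1' * D.g l, N3f_S D i k l _ _ _, by
    rw [h1]; ring⟩
  have E2 : D.Ed i l t := ⟨a2 * D.g i + b2 * D.g k + c2' * D.g l, N3f_S D i k l _ _ _, by
    rw [h2]; ring⟩
  have E3 : D.Ed k l t := ⟨a3 * D.g i + b3 * D.g k + c3' * D.g l, N3f_S D i k l _ _ _, by
    rw [h3]; ring⟩
  have T1 : D.Tch i t := ⟨a1 * D.g i + (b1 + 1) * D.g k + c1' * D.g l, N3f_S D i k l _ _ _, by
    rw [h1]; ring⟩
  have T2 : D.Tch k t := ⟨(a1 + 1) * D.g i + b1 * D.g k + c1' * D.g l, N3f_S D i k l _ _ _, by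
    rw [h1]; ring⟩
  have T3 : D.Tch l t := ⟨(a2 + 1) * D.g i + b2 * D.g k + c2' * D.g l, N3f_S D i k l _ _ _, by
    rw [h2]; ring⟩
  have hN : ¬ ∃ s ∈ D.S, t = s + (D.g i + D.g k + D.g l) := by
    rintro ⟨s, hs, rfl⟩
    have hsM : s ∈ Mon D.g {i, k, l} := mem_Mon_of_pure D _ hs fun x hx h4 => htp x hx
      (tch_add D x h4 (D.S.add_mem (D.S.add_mem (g_mem D i) (g_mem D k)) (g_mem D l)))
    obtain ⟨a, b, c, rfl⟩ := N3f_mem3 D.g hik hil hkl hsM
    exact hno ⟨a, b, c, by ring⟩
  have h4 := hcoef t ht0 hlt htp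
  rw [coeff_P_three D hik hil hkl htS htp, if_pos T1, if_pos T2, if_pos T3, if_pos E1,
    if_pos E2, if_pos E3, if_neg hN] at h4
  norm_num at h4

/-- Suppose `4 ≤ (D.P Z).card`; take `p, q` from `exists_min_pair`. By `coeff_below` the coefficients at `b p` and at
`b q` are negative, so `neg_cases` applies to both.
(A) Two generators `i, k` are isolated at one of the two, say at `b p`; let `l` be the third. Some generator is
isolated at `b q`. If it is `i` or `k` then `b q = b p` (`iso_unique`), at least two labels have this value, the coefficient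
is `-2` and `l` is isolated at `b p = b q`. So `l` is isolated at `b q` in any case: `case_A` and `card_P_of_ltr`:
contradiction.
(B) Exactly one generator is isolated at `b p` and exactly one at `b q`, the other two form an edge. They are different
generators, say `i` at `b p` and `k` at `b q` (if `i` is isolated at both, `b p = b q` and the coefficient is `≤ -2`). So
`b p = c1 g i = r12 g k + r13 g l` with `r12, r13 ≥ 1` (from the edge `k, l` of `b p`; the factorization does not use `g i`),
`b q = c2 g k = r21 g i + r23 g l`, with `c1`, `c2` least (`iso_spec`). `case_B` gives `t`, a divisor of `b p + b q`, so pure,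
`0 < t < b p + b q`, with all three edges and no triangle (a triangle `t = s + (g i + g k + g l)` has `s ∈ S` pure, so
`s ∈ Mon D.g {i, k, l}`), so the coefficient at `t` is `1 - 3 + 3 = 1` by `coeff_P_three`: contradiction to `coeff_below`. -/
theorem card_P_three (D : Dt ι κ) {Z : Finset ι} (hZ : Z.card = 3) : (D.P Z).card ≤ 3 := by
  by_contra hcon
  have h4 : 4 ≤ (D.P Z).card := by omega
  obtain ⟨p, q, hp, hq, hpq, hpure, hmin⟩ := exists_min_pair D hZ h4
  have hp' := (mem_P D Z p).1 hp
  have hq' := (mem_P D Z q).1 hq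
  have hcp := coeff_below D hmin (D.bpos p) (Nat.lt_add_of_pos_right (D.bpos q)) hp'
  have hcq := coeff_below D hmin (D.bpos q) (Nat.lt_add_of_pos_left (D.bpos p)) hq'
  have hnp : PowerSeries.coeff (D.b p)
      (∏ j ∈ D.P Z, (1 - (PowerSeries.X : PowerSeries ℤ) ^ D.b j)) < 0 := by
    rw [hcp]
    have h1 : 0 < ((D.P Z).filter (fun r => D.b r = D.b p)).card :=
      Finset.card_pos.2 ⟨p, Finset.mem_filter.2 ⟨hp, rfl⟩⟩
    omega
  have hnq : PowerSeries.coeff (D.b q)
      (∏ j ∈ D.P Z, (1 - (PowerSeries.X : PowerSeries ℤ) ^ D.b j)) < 0 := by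
    rw [hcq]
    have h1 : 0 < ((D.P Z).filter (fun r => D.b r = D.b q)).card :=
      Finset.card_pos.2 ⟨q, Finset.mem_filter.2 ⟨hq, rfl⟩⟩
    omega
  obtain ⟨i, k, l, hik, hil, hkl, hZe, hc⟩ :=
    neg_cases D hZ (D.bpos p) (b_mem D p) hp' hnp
  rcases hc with ⟨hc1, hI, hE⟩ | ⟨hc1, hI, hK, _⟩ | ⟨_, hI, hK, hL⟩
  · obtain ⟨i', k', l', hik', hil', hkl', hZ', hc'⟩ :=
      neg_cases D hZ (D.bpos q) (b_mem D q) hq' hnq
    rcases hc' with ⟨hc2, hI', hE'⟩ | ⟨hc2, hI', hK', _⟩ | ⟨_, hI', hK', hL'⟩
    · have hcoef : ∀ t, 0 < t → t < D.b p + D.b q → (∀ x, x ∉ Z → ¬ D.Tch x t) →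
          PowerSeries.coeff t (∏ j ∈ D.P Z, (1 - (PowerSeries.X : PowerSeries ℤ) ^ D.b j)) ≤
            0 := by
        intro t ht0 ht htp
        rw [coeff_below D hmin ht0 ht htp]
        omega
      have hset : ({i', k', l'} : Finset ι) = {i, k, l} := by rw [← hZ', ← hZe]
      have mi : i' ∈ ({i, k, l} : Finset ι) := by rw [← hset]; simp
      have mk : k' ∈ ({i, k, l} : Finset ι) := by rw [← hset]; simp
      have ml : l' ∈ ({i, k, l} : Finset ι) := by rw [← hset]; simp
      simp only [Finset.mem_insert, Finset.mem_singleton] at mi mk ml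
      have hsymE : ∀ x y n, D.Ed x y n → D.Ed y x n := by
        rintro x y n ⟨s, hs, h⟩
        exact ⟨s, hs, by rw [h, add_comm (D.g x)]⟩
      rcases mi with h | h | h
      · subst h
        have h5 : D.Iso i' k l (D.b q) := by
          rcases mk with h | h | h
          · exact absurd h.symm hik'
          · subst h
            rcases ml with h | h | h
            · exact absurd h.symm hil'
            · exact absurd h.symm hkl'
            · subst h
              exact hI'
          · subst h
            rcases ml with h | h | h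
            · exact absurd h.symm hil'
            · subst h
              exact Iso.symm D hI'
            · exact absurd h.symm hkl'
        have hpn : ∀ x, x ∉ ({i', k, l} : Finset ι) → ¬ D.Tch x (D.b p) := by
          rw [← hZe]; exact hp'
        have hqn : ∀ x, x ∉ ({i', k, l} : Finset ι) → ¬ D.Tch x (D.b q) := by
          rw [← hZe]; exact hq'
        have h6 := iso_unique D hik hil hkl hpn hqn hI h5
        have h7 : 2 ≤ ((D.P Z).filter (fun r => D.b r = D.b p)).card := by
          rw [← Finset.card_pair hpq]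
          refine Finset.card_le_card fun r hr => ?_
          rw [Finset.mem_insert, Finset.mem_singleton] at hr
          rcases hr with rfl | rfl
          · exact Finset.mem_filter.2 ⟨hp, rfl⟩
          · exact Finset.mem_filter.2 ⟨hq, h6.symm⟩
        rw [hcp] at hc1
        omega
      · subst h
        have h5 : D.Iso i' i l (D.b q) ∧ D.Ed i l (D.b q) := by
          rcases mk with h | h | h
          · subst h
            rcases ml with h | h | h
            · exact absurd h.symm hkl'
            · exact absurd h.symm hil'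
            · subst h
              exact ⟨hI', hE'⟩
          · exact absurd h.symm hik'
          · subst h
            rcases ml with h | h | h
            · subst h
              exact ⟨Iso.symm D hI', hsymE _ _ _ hE'⟩
            · exact absurd h.symm hil'
            · exact absurd h.symm hkl'
        exact N3f_B D hp hq hpure hcoef hik hil hkl hZe hI hE h5.1 h5.2
      · subst h
        have h5 : D.Iso i' i k (D.b q) ∧ D.Ed i k (D.b q) := by
          rcases mk with h | h | h
          · subst h
            rcases ml with h | h | h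
            · exact absurd h.symm hkl'
            · subst h
              exact ⟨hI', hE'⟩
            · exact absurd h.symm hil'
          · subst h
            rcases ml with h | h | h
            · subst h
              exact ⟨Iso.symm D hI', hsymE _ _ _ hE'⟩
            · exact absurd h.symm hkl'
            · exact absurd h.symm hil'
          · exact absurd h.symm hik'
        have hZs : Z = {i, i', k} := by
          rw [hZe, Finset.pair_comm k i']
        exact N3f_B D hp hq hpure hcoef hil hik hkl.symm hZs (Iso.symm D hI) (hsymE _ _ _ hE)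
          h5.1 h5.2
    · exact N3f_A D hZ h4 hq hp hpq.symm hcq hcp hik' hil' hkl' hZ' hI' hK' (Or.inl hc2)
    · exact N3f_A D hZ h4 hq hp hpq.symm hcq hcp hik' hil' hkl' hZ' hI' hK' (Or.inr hL')
  · exact N3f_A D hZ h4 hp hq hpq hcp hcq hik hil hkl hZe hI hK (Or.inl hc1)
  · exact N3f_A D hZ h4 hp hq hpq hcp hcq hik hil hkl hZe hI hK (Or.inr hL)

end Pool.Agent.LibCov74
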