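import Pool.Agent.LibCov74.N1
import Pool.Agent.LibCov74.N2

/-!
# Three generators outside, one label outside
-/

set_option autoImplicit false

namespace Pool.Agent.LibCov74

open Finset
open Pool.Agent.LibTP76 (CI)

variable {ι κ : Type} [Fintype ι] [Fintype κ] [DecidableEq ι] [DecidableEq κ]

theorem N4a_cnt3 {α : Type} [DecidableEq α] (n : ℕ) (a : α → ℕ) {i k l : α} (hik : i ≠ k)
    (hil : i ≠ l) (hkl : k ≠ l) : cnt n {i, k, l} a =
      (if n ∣ a i then 1 else 0) + ((if n ∣ a k then 1 else 0) + (if n ∣ a l then 1 else 0)) := by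
  unfold cnt
  rw [Finset.card_filter, Finset.sum_insert, Finset.sum_insert, Finset.sum_singleton]
  · rw [Finset.mem_singleton]
    exact hkl
  · rw [Finset.mem_insert, Finset.mem_singleton]
    exact fun h => h.elim hik hil

theorem N4a_cnt4 {α : Type} [DecidableEq α] (n : ℕ) (a : α → ℕ) {y i k l : α} (hyi : y ≠ i)
    (hyk : y ≠ k) (hyl : y ≠ l) (hik : i ≠ k) (hil : i ≠ l) (hkl : k ≠ l) :
    cnt n {y, i, k, l} a = (if n ∣ a y then 1 else 0) +
      ((if n ∣ a i then 1 else 0) + ((if n ∣ a k then 1 else 0) + (if n ∣ a l then 1 else 0))) := by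
  unfold cnt
  rw [Finset.card_filter, Finset.sum_insert, Finset.sum_insert, Finset.sum_insert,
    Finset.sum_singleton]
  · rw [Finset.mem_singleton]
    exact hkl
  · rw [Finset.mem_insert, Finset.mem_singleton]
    exact fun h => h.elim hik hil
  · rw [Finset.mem_insert, Finset.mem_insert, Finset.mem_singleton]
    rintro (h | h | h)
    · exact hyi h
    · exact hyk h
    · exact hyl h

theorem N4a_mem_P {D : Dt ι κ} {Z : Finset ι} {y p : κ} (hY : (D.P Z)ᶜ = {y}) (h1 : p ≠ y) :
    p ∈ D.P Z := by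
  by_contra h
  have h3 : p ∈ (D.P Z)ᶜ := Finset.mem_compl.2 h
  rw [hY, Finset.mem_singleton] at h3
  exact h1 h3

theorem N4a_y {D : Dt ι κ} {Z : Finset ι} {y : κ} (hY : (D.P Z)ᶜ = {y}) {r : κ}
    (hr : r ∈ D.P Z) : y ≠ r := by
  rintro rfl
  have h : y ∈ (D.P Z)ᶜ := by
    rw [hY]
    exact Finset.mem_singleton_self y
  exact (Finset.mem_compl.1 h) hr

/-- a label which is divisible by `n` outside a small set -/
theorem N4a_many (D : Dt ι κ) {n : ℕ} (hn : 2 ≤ n) (X : Finset ι) (hX : ∀ i ∈ X, n ∣ D.g i)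
    (T : Finset κ) (hT : T.card < X.card) : ∃ r, r ∉ T ∧ n ∣ D.b r := by
  by_contra hcon
  push Not at hcon
  have h1 : X.card ≤ cnt n Finset.univ D.g := by
    apply Finset.card_le_card
    intro i hi
    exact Finset.mem_filter.mpr ⟨Finset.mem_univ _, hX i hi⟩
  have h2 : cnt n Finset.univ D.b ≤ T.card := by
    apply Finset.card_le_card
    intro r hr
    by_contra hrT
    exact hcon r hrT (Finset.mem_filter.mp hr).2
  have h3 := cnt_le D hn
  omega

theorem N4a_sum_ne {b : κ → ℕ} (hb : ∀ j, 0 < b j) {W : Finset κ} {p : κ} (hp : p ∈ W)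
    (h2 : 2 ≤ W.card) : ∑ r ∈ W, b r ≠ b p := by
  rw [← Finset.add_sum_erase W b hp]
  have h3 : (W.erase p).Nonempty := by
    rw [← Finset.card_pos, Finset.card_erase_of_mem hp]
    omega
  have h4 : 0 < ∑ r ∈ W.erase p, b r := Finset.sum_pos (fun r _ => hb r) h3
  omega

/-- a label of `D.P Z` divisible by the gcd `h` of two generators outside: if `h ≥ 2` there are at least two labels
divisible by `h` (`cnt_le`), one of them is not `y`; if `h = 1` any label of `D.P Z` -/
theorem exists_P_two (D : Dt ι κ) {Z : Finset ι} {i k : ι} (hik : i ≠ k) {y : κ}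
    (hY : (D.P Z)ᶜ = {y}) (hne : (D.P Z).Nonempty) :
    ∃ r ∈ D.P Z, Nat.gcd (D.g i) (D.g k) ∣ D.b r := by
  have hpos : 0 < Nat.gcd (D.g i) (D.g k) := Nat.gcd_pos_of_pos_left _ (D.gpos i)
  by_cases h1 : Nat.gcd (D.g i) (D.g k) = 1
  · obtain ⟨r, hr⟩ := hne
    exact ⟨r, hr, by rw [h1]; exact one_dvd _⟩
  · obtain ⟨r, hr, hd⟩ := N4a_many D (n := Nat.gcd (D.g i) (D.g k)) (by omega) {i, k} (by
      intro x hx
      rw [Finset.mem_insert, Finset.mem_singleton] at hx
      rcases hx with rfl | rfl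
      · exact Nat.gcd_dvd_left _ _
      · exact Nat.gcd_dvd_right _ _) {y} (by
        rw [Finset.card_pair hik, Finset.card_singleton]
        omega)
    rw [Finset.mem_singleton] at hr
    exact ⟨r, N4a_mem_P hY hr, hd⟩

/-- two labels of `D.P Z` divisible by the gcd of three generators, one of them different from a given `r` -/
theorem exists_P_three (D : Dt ι κ) {Z : Finset ι} {i k l : ι} (hik : i ≠ k) (hil : i ≠ l)
    (hkl : k ≠ l) {y : κ} (hY : (D.P Z)ᶜ = {y}) (h2 : 2 ≤ (D.P Z).card) (r : κ) :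
    ∃ r' ∈ D.P Z, r' ≠ r ∧ Nat.gcd (D.g i) (Nat.gcd (D.g k) (D.g l)) ∣ D.b r' := by
  have hpos : 0 < Nat.gcd (D.g i) (Nat.gcd (D.g k) (D.g l)) := Nat.gcd_pos_of_pos_left _ (D.gpos i)
  by_cases h1 : Nat.gcd (D.g i) (Nat.gcd (D.g k) (D.g l)) = 1
  · obtain ⟨r', hr', hne⟩ := Finset.exists_mem_ne (by omega : 1 < (D.P Z).card) r
    exact ⟨r', hr', hne, by rw [h1]; exact one_dvd _⟩
  · obtain ⟨r', hr', hd⟩ := N4a_many D (n := Nat.gcd (D.g i) (Nat.gcd (D.g k) (D.g l))) (by omega)
      {i, k, l} (by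
        intro x hx
        rw [Finset.mem_insert, Finset.mem_insert, Finset.mem_singleton] at hx
        rcases hx with rfl | rfl | rfl
        · exact Nat.gcd_dvd_left _ _
        · exact (Nat.gcd_dvd_right _ _).trans (Nat.gcd_dvd_left _ _)
        · exact (Nat.gcd_dvd_right _ _).trans (Nat.gcd_dvd_right _ _)) {y, r} (by
          have h3 : ({i, k, l} : Finset ι).card = 3 :=
            Finset.card_eq_three.mpr ⟨i, k, l, hik, hil, hkl, rfl⟩
          have h4 := Finset.card_le_two (a := y) (b := r)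
          omega)
    rw [Finset.mem_insert, Finset.mem_singleton, not_or] at hr'
    exact ⟨r', N4a_mem_P hY hr'.1, hr'.2, hd⟩

/-- No label `r ∈ D.P Z` is divisible by two of the gcds of pairs (if all single labels are removable).
Choose `r' ∈ D.P Z`, `r' ≠ r`: if some label `r' ≠ r` of `D.P Z` is divisible by `gcd (g k) (g l)`, take it; otherwise
`r` is divisible by it, too (`exists_P_two`), and take `r'` divisible by `gcd (g i, g k, g l)` (`exists_P_three`). In both
cases `cnt n {i, k, l} g ≤ cnt n ({y} ∪ {r, r'}) b` for all `n ≥ 1`: an `n` dividing exactly one of the three divides `b y`;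
an `n` dividing exactly two divides `b y` and `b r` or `b r'`; an `n` dividing all three divides all three labels.
`good_of_cure2` with `X' = Zᶜ`, `Y = {y}`, `R = {r, r'}`, `p = r` (`b r` is touched by no generator outside `Z`; `b r = s + b y`
would be touched by `i`, as `g i ∣ b y`; `b r + b r' ≠ b r`) gives `D.Good Zᶜ {y, r'}`: contradiction to
`not_good_of_rem` for `{r'}`. -/
theorem false_of_two_dvd (D : Dt ι κ) {Z : Finset ι} {i k l : ι} (hik : i ≠ k) (hil : i ≠ l)
    (hkl : k ≠ l) (hZ : Zᶜ = {i, k, l}) {y : κ} (hY : (D.P Z)ᶜ = {y}) (hi : D.g i ∣ D.b y)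
    (hk : D.g k ∣ D.b y) (hl : D.g l ∣ D.b y) (h2 : 2 ≤ (D.P Z).card)
    (hrem : ∀ r ∈ D.P Z, D.Good Z (D.P Z \ {r})) {r : κ} (hr : r ∈ D.P Z)
    (h3 : Nat.gcd (D.g i) (D.g k) ∣ D.b r) (h4 : Nat.gcd (D.g i) (D.g l) ∣ D.b r) : False := by
  have hiZ : i ∉ Z := by
    rw [← Finset.mem_compl, hZ]
    simp
  obtain ⟨r', hr', hne, hd⟩ : ∃ r' ∈ D.P Z, r' ≠ r ∧ ∀ n : ℕ,
      (n ∣ D.g k → n ∣ D.g l → n ∣ D.b r ∨ n ∣ D.b r') ∧
      (n ∣ D.g i → n ∣ D.g k → n ∣ D.g l → n ∣ D.b r') := by
    by_cases h5 : ∃ r' ∈ D.P Z, r' ≠ r ∧ Nat.gcd (D.g k) (D.g l) ∣ D.b r'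
    · obtain ⟨r', hr', hne, hd⟩ := h5
      exact ⟨r', hr', hne, fun n => ⟨fun a1 a2 => Or.inr ((Nat.dvd_gcd a1 a2).trans hd),
        fun _ a1 a2 => (Nat.dvd_gcd a1 a2).trans hd⟩⟩
    · push Not at h5
      obtain ⟨r1, hr1, hd1⟩ := exists_P_two D hkl hY ⟨r, hr⟩
      have h6 : r1 = r := by
        by_contra h6
        exact h5 r1 hr1 h6 hd1
      subst h6
      obtain ⟨r', hr', hne, hd⟩ := exists_P_three D hik hil hkl hY h2 r1
      exact ⟨r', hr', hne, fun n => ⟨fun a1 a2 => Or.inl ((Nat.dvd_gcd a1 a2).trans hd1),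
        fun a0 a1 a2 => (Nat.dvd_gcd a0 (Nat.dvd_gcd a1 a2)).trans hd⟩⟩
  have hyr : y ≠ r := N4a_y hY hr
  have hyr' : y ≠ r' := N4a_y hY hr'
  have hg := good_of_cure2 D {i, k, l} {y} {r, r'} (by
      rw [Finset.disjoint_singleton_left, Finset.mem_insert, Finset.mem_singleton]
      rintro (h | h)
      · exact hyr h
      · exact hyr' h) (by
      intro n _
      have e1 : ({y} : Finset κ) ∪ {r, r'} = {y, r, r'} := by
        rw [← Finset.insert_eq]
      rw [e1, N4a_cnt3 n D.g hik hil hkl, N4a_cnt3 n D.b hyr hyr' hne.symm]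
      obtain ⟨hd1, hd2⟩ := hd n
      have q1 : n ∣ D.g i → n ∣ D.b y := fun h => h.trans hi
      have q2 : n ∣ D.g k → n ∣ D.b y := fun h => h.trans hk
      have q3 : n ∣ D.g l → n ∣ D.b y := fun h => h.trans hl
      have q4 : n ∣ D.g i → n ∣ D.g k → n ∣ D.b r := fun a1 a2 => (Nat.dvd_gcd a1 a2).trans h3
      have q5 : n ∣ D.g i → n ∣ D.g l → n ∣ D.b r := fun a1 a2 => (Nat.dvd_gcd a1 a2).trans h4
      by_cases c1 : n ∣ D.g i <;> by_cases c2 : n ∣ D.g k <;> by_cases c3 : n ∣ D.g l <;>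
        by_cases c4 : n ∣ D.b y <;> by_cases c5 : n ∣ D.b r <;> by_cases c6 : n ∣ D.b r' <;>
        simp only [c1, c2, c3, c4, c5, c6, if_true, if_false] <;> first | omega | tauto) r
      (Finset.mem_insert_self _ _) (by
      intro x hx
      rw [← hZ, Finset.mem_compl] at hx
      exact (mem_P D Z r).1 hr x hx) (by
      intro j hj
      rw [Finset.mem_singleton] at hj
      subst hj
      rintro ⟨s, hs, he⟩
      have h5 := tch_add D i (tch_of_dvd D i hi (D.bpos j)) hs
      rw [add_comm, ← he] at h5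
      exact (mem_P D Z r).1 hr i hiZ h5) (by
      intro W hW hc
      have h5 : W = {r, r'} := Finset.eq_of_subset_of_card_le hW (by
        rw [Finset.card_pair hne.symm]
        exact hc)
      rw [h5]
      exact N4a_sum_ne D.bpos (Finset.mem_insert_self _ _) (by rw [Finset.card_pair hne.symm]))
  have e2 : ({r, r'} : Finset κ).erase r = {r'} := by
    rw [Finset.erase_insert]
    rw [Finset.mem_singleton]
    exact hne.symm
  rw [e2] at hg
  refine not_good_of_rem D Z {r'} (Finset.singleton_subset_iff.2 hr') (hrem r' hr') ?_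
  rw [hZ, hY]
  exact hg

/-- Three different labels `r1, r2, r3 ∈ D.P Z` divisible by the gcds of the pairs; if `{r1, r2}` is removable then
`b r1 + b r2 = b r3`. Otherwise `good_of_cure2` with `Y = {y}`, `R = {r1, r2, r3}`, `p = r3` gives `D.Good Zᶜ {y, r1, r2}`,
contradiction to `not_good_of_rem`. (`h2` of `good_of_cure2`: a `W ⊆ R` with at least two elements and
`∑_W b = b r3` does not contain `r3`, so it is `{r1, r2}`. The counting hypothesis: an `n` dividing exactly two of the three
generators divides one of the three labels, an `n` dividing all three divides all.) -/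
theorem label_sum (D : Dt ι κ) {Z : Finset ι} {i k l : ι} (hik : i ≠ k) (hil : i ≠ l)
    (hkl : k ≠ l) (hZ : Zᶜ = {i, k, l}) {y : κ} (hY : (D.P Z)ᶜ = {y}) (hi : D.g i ∣ D.b y)
    (hk : D.g k ∣ D.b y) (hl : D.g l ∣ D.b y) {r1 r2 r3 : κ} (hr1 : r1 ∈ D.P Z)
    (hr2 : r2 ∈ D.P Z) (hr3 : r3 ∈ D.P Z) (h12 : r1 ≠ r2) (h13 : r1 ≠ r3) (h23 : r2 ≠ r3)
    (d1 : Nat.gcd (D.g k) (D.g l) ∣ D.b r1) (d2 : Nat.gcd (D.g i) (D.g l) ∣ D.b r2)
    (d3 : Nat.gcd (D.g i) (D.g k) ∣ D.b r3) (hrem : D.Good Z (D.P Z \ {r1, r2})) :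
    D.b r1 + D.b r2 = D.b r3 := by
  by_contra hcon
  have hiZ : i ∉ Z := by
    rw [← Finset.mem_compl, hZ]
    simp
  have hy1 : y ≠ r1 := N4a_y hY hr1
  have hy2 : y ≠ r2 := N4a_y hY hr2
  have hy3 : y ≠ r3 := N4a_y hY hr3
  have hg := good_of_cure2 D {i, k, l} {y} {r1, r2, r3} (by
      rw [Finset.disjoint_singleton_left, Finset.mem_insert, Finset.mem_insert,
        Finset.mem_singleton]
      rintro (h | h | h)
      · exact hy1 h
      · exact hy2 h
      · exact hy3 h) (by
      intro n _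
      have e1 : ({y} : Finset κ) ∪ {r1, r2, r3} = {y, r1, r2, r3} := by
        rw [← Finset.insert_eq]
      rw [e1, N4a_cnt3 n D.g hik hil hkl, N4a_cnt4 n D.b hy1 hy2 hy3 h12 h13 h23]
      have q1 : n ∣ D.g i → n ∣ D.b y := fun h => h.trans hi
      have q2 : n ∣ D.g k → n ∣ D.b y := fun h => h.trans hk
      have q3 : n ∣ D.g l → n ∣ D.b y := fun h => h.trans hl
      have q4 : n ∣ D.g i → n ∣ D.g k → n ∣ D.b r3 := fun a1 a2 => (Nat.dvd_gcd a1 a2).trans d3
      have q5 : n ∣ D.g i → n ∣ D.g l → n ∣ D.b r2 := fun a1 a2 => (Nat.dvd_gcd a1 a2).trans d2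
      have q6 : n ∣ D.g k → n ∣ D.g l → n ∣ D.b r1 := fun a1 a2 => (Nat.dvd_gcd a1 a2).trans d1
      by_cases c1 : n ∣ D.g i <;> by_cases c2 : n ∣ D.g k <;> by_cases c3 : n ∣ D.g l
      · have := q1 c1
        have := q4 c1 c2
        have := q5 c1 c3
        have := q6 c2 c3
        simp only [*, if_true]
        omega
      · have := q1 c1
        have := q4 c1 c2
        simp only [*, if_true, if_false]
        omega
      · have := q1 c1
        have := q5 c1 c3
        simp only [*, if_true, if_false]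
        omega
      · have := q1 c1
        simp only [*, if_true, if_false]
        omega
      · have := q2 c2
        have := q6 c2 c3
        simp only [*, if_true, if_false]
        omega
      · have := q2 c2
        simp only [*, if_true, if_false]
        omega
      · have := q3 c3
        simp only [*, if_true, if_false]
        omega
      · simp only [c1, c2, c3, if_false]
        omega) r3 (by simp) (by
      intro x hx
      rw [← hZ, Finset.mem_compl] at hx
      exact (mem_P D Z r3).1 hr3 x hx) (by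
      intro j hj
      rw [Finset.mem_singleton] at hj
      subst hj
      rintro ⟨s, hs, he⟩
      have h5 := tch_add D i (tch_of_dvd D i hi (D.bpos j)) hs
      rw [add_comm, ← he] at h5
      exact (mem_P D Z r3).1 hr3 i hiZ h5) (by
      intro W hW hc
      by_cases h5 : r3 ∈ W
      · exact N4a_sum_ne D.bpos h5 hc
      · have h6 : W ⊆ {r1, r2} := by
          intro x hx
          have h7 := hW hx
          rw [Finset.mem_insert, Finset.mem_insert, Finset.mem_singleton] at h7
          rw [Finset.mem_insert, Finset.mem_singleton]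
          rcases h7 with h7 | h7 | h7
          · exact Or.inl h7
          · exact Or.inr h7
          · rw [h7] at hx
            exact absurd hx h5
        have h7 : W = {r1, r2} := Finset.eq_of_subset_of_card_le h6 (by
          rw [Finset.card_pair h12]
          exact hc)
        rw [h7, Finset.sum_pair h12]
        exact hcon)
  have e2 : ({r1, r2, r3} : Finset κ).erase r3 = {r1, r2} := by
    ext x
    simp only [Finset.mem_erase, Finset.mem_insert, Finset.mem_singleton]
    constructor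
    · rintro ⟨h5, h6 | h6 | h6⟩
      · exact Or.inl h6
      · exact Or.inr h6
      · exact absurd h6 h5
    · rintro (rfl | rfl)
      · exact ⟨h13, Or.inl rfl⟩
      · exact ⟨h23, Or.inr (Or.inl rfl)⟩
  rw [e2] at hg
  refine not_good_of_rem D Z {r1, r2} ?_ hrem ?_
  · intro x hx
    rw [Finset.mem_insert, Finset.mem_singleton] at hx
    rcases hx with rfl | rfl
    · exact hr1
    · exact hr2
  · rw [hZ, hY]
    exact hg

end Pool.Agent.LibCov74
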