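import Pool.Agent.LibCov74.N4a
import Pool.Agent.LibCov74.N3f

/-!
# Three generators outside, four inside
-/

set_option autoImplicit false

namespace Pool.Agent.LibCov74

open Finset
open Pool.Agent.LibTP76 (CI)

variable {ι κ : Type} [Fintype ι] [Fintype κ] [DecidableEq ι] [DecidableEq κ]

theorem N4b_card (D : Dt ι κ) (U : Finset ι) :
    (U.card = 0 → (D.P U).card = 0) ∧ (U.card = 1 → (D.P U).card = 0) ∧
      (U.card = 2 → (D.P U).card ≤ 1) ∧ (U.card = 3 → (D.P U).card ≤ 3) := by
  refine ⟨fun h => ?_, fun h => ?_, fun h => ?_, fun h => card_P_three D h⟩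
  · rw [Finset.card_eq_zero.1 h, P_empty]
    rfl
  · obtain ⟨i, rfl⟩ := Finset.card_eq_one.1 h
    rw [card_P_one]
    rfl
  · obtain ⟨i, k, hik, rfl⟩ := Finset.card_eq_two.1 h
    exact card_P_two D hik

/-- `Z.card = 4`, `(D.P Z).card = 5`: single labels are removable. `good_of_hall` for `J = D.P Z \ {r}`, `J.card = 4`: for
`W = Z` the set `D.P ∅` is empty (`P_empty`); for `W.card = 1, 2, 3` the set `Z \ W` has `3, 2, 1` elements and at most
`3, 1, 0` pure labels (`card_P_three`, `card_P_two`, `card_P_one`). -/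
theorem rem_one (D : Dt ι κ) {Z : Finset ι} (h4 : Z.card = 4) (h5 : (D.P Z).card = 5) {r : κ}
    (hr : r ∈ D.P Z) : D.Good Z (D.P Z \ {r}) := by
  have hJ : (D.P Z \ {r}).card = 4 := by
    rw [Finset.card_sdiff_of_subset (Finset.singleton_subset_iff.2 hr), h5, Finset.card_singleton]
  refine good_of_hall D Z _ Finset.sdiff_subset fun W hW => ?_
  have h1 : (Z \ W).card = 4 - W.card := by rw [Finset.card_sdiff_of_subset hW, h4]
  have h2 : W.card ≤ 4 := h4 ▸ Finset.card_le_card hW
  have h3 := Finset.le_card_sdiff (D.P (Z \ W)) (D.P Z \ {r})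
  rw [hJ] at h3
  obtain ⟨c0, c1, c2, c3⟩ := N4b_card D (Z \ W)
  have h6 : W.card = 0 ∨ W.card = 1 ∨ W.card = 2 ∨ W.card = 3 ∨ W.card = 4 := by omega
  rcases h6 with h | h | h | h | h
  · omega
  · have := c3 (by omega)
    omega
  · have := c2 (by omega)
    omega
  · have := c1 (by omega)
    omega
  · have := c0 (by omega)
    omega

/-- A pair is removable or it is disjoint from `D.P U` for some `U ⊆ Z` with `U.card = 3`, `(D.P U).card = 3`:
`good_gen` for `J = D.P Z \ {r, r'}`, `J.card = 3`. -/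
theorem rem_two (D : Dt ι κ) {Z : Finset ι} (h4 : Z.card = 4) (h5 : (D.P Z).card = 5) {r r' : κ}
    (hr : r ∈ D.P Z) (hr' : r' ∈ D.P Z) (hrr' : r ≠ r') (hn : ¬ D.Good Z (D.P Z \ {r, r'})) :
    ∃ U, U ⊆ Z ∧ U.card = 3 ∧ (D.P U).card = 3 ∧ r ∉ D.P U ∧ r' ∉ D.P U := by
  by_contra hcon
  apply hn
  have hsub : ({r, r'} : Finset κ) ⊆ D.P Z := by
    intro x hx
    rcases Finset.mem_insert.1 hx with rfl | hx
    · exact hr
    · rw [Finset.mem_singleton.1 hx]
      exact hr'
  have hJ : (D.P Z \ {r, r'}).card = 3 := by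
    rw [Finset.card_sdiff_of_subset hsub, h5, Finset.card_pair hrr']
  refine good_gen D Z (Finset.card_pos.1 (by omega)) (by omega) _ Finset.sdiff_subset (by omega)
    fun U hU hne hU0 => ?_
  by_contra hlt
  push Not at hlt
  have hle : ((D.P Z \ {r, r'}) ∩ D.P U).card ≤ (D.P U).card :=
    Finset.card_le_card Finset.inter_subset_right
  have hlt4 : U.card < 4 := by
    rw [← h4]
    exact Finset.card_lt_card (Finset.ssubset_iff_subset_ne.2 ⟨hU, hne⟩)
  have hpos := Finset.card_pos.2 hU0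
  obtain ⟨c0, c1, c2, c3⟩ := N4b_card D U
  have h6 : U.card = 1 ∨ U.card = 2 ∨ U.card = 3 := by omega
  rcases h6 with h | h | h
  · have := c1 h
    omega
  · have := c2 h
    omega
  · have h7 := c3 h
    have h8 : (D.P Z \ {r, r'}) ∩ D.P U = D.P U :=
      Finset.eq_of_subset_of_card_le Finset.inter_subset_right (by omega)
    have h9 : ∀ x, x ∈ D.P U → x ∉ ({r, r'} : Finset κ) := by
      intro x hx
      rw [← h8] at hx
      exact (Finset.mem_sdiff.1 (Finset.mem_inter.1 hx).1).2
    exact hcon ⟨U, hU, h, by omega, fun hx => h9 r hx (by simp), fun hx => h9 r' hx (by simp)⟩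

/-- Two pairs with a common label are not both non-removable: `U, U'` from `rem_two`; `D.P Z \ D.P U = {r, r'}`,
`D.P Z \ D.P U' = {r, r''}` (`P_mono`; cardinalities), so `U ≠ U'`, `(D.P U ∩ D.P U').card = 2`; but
`D.P U ∩ D.P U' = D.P (U ∩ U')` (`P_inter`), `(U ∩ U').card = 2`, contradiction to `card_P_two`. -/
theorem rem_two_or (D : Dt ι κ) {Z : Finset ι} (h4 : Z.card = 4) (h5 : (D.P Z).card = 5)
    {r r' r'' : κ} (hr : r ∈ D.P Z) (hr' : r' ∈ D.P Z) (hr'' : r'' ∈ D.P Z) (h1 : r ≠ r')
    (h2 : r ≠ r'') (h3 : r' ≠ r'') :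
    D.Good Z (D.P Z \ {r, r'}) ∨ D.Good Z (D.P Z \ {r, r''}) := by
  by_contra hcon
  push Not at hcon
  obtain ⟨U, hU, hU3, hPU, hrU, hrU'⟩ := rem_two D h4 h5 hr hr' h1 hcon.1
  obtain ⟨V, hV, hV3, hPV, hrV, hrV'⟩ := rem_two D h4 h5 hr hr'' h2 hcon.2
  have hUe : D.P U = D.P Z \ {r, r'} := by
    refine Finset.eq_of_subset_of_card_le (fun x hx => ?_) ?_
    · refine Finset.mem_sdiff.2 ⟨P_mono D hU hx, fun hx' => ?_⟩
      rcases Finset.mem_insert.1 hx' with rfl | hx'
      · exact hrU hx
      · rw [Finset.mem_singleton.1 hx'] at hx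
        exact hrU' hx
    · rw [Finset.card_sdiff_of_subset (by
        intro x hx
        rcases Finset.mem_insert.1 hx with rfl | hx
        · exact hr
        · rw [Finset.mem_singleton.1 hx]
          exact hr'), h5, Finset.card_pair h1, hPU]
  have hVe : D.P V = D.P Z \ {r, r''} := by
    refine Finset.eq_of_subset_of_card_le (fun x hx => ?_) ?_
    · refine Finset.mem_sdiff.2 ⟨P_mono D hV hx, fun hx' => ?_⟩
      rcases Finset.mem_insert.1 hx' with rfl | hx'
      · exact hrV hx
      · rw [Finset.mem_singleton.1 hx'] at hx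
        exact hrV' hx
    · rw [Finset.card_sdiff_of_subset (by
        intro x hx
        rcases Finset.mem_insert.1 hx with rfl | hx
        · exact hr
        · rw [Finset.mem_singleton.1 hx]
          exact hr''), h5, Finset.card_pair h2, hPV]
  have hne : U ≠ V := by
    intro h
    have h6 : r'' ∈ D.P U := by
      rw [hUe]
      refine Finset.mem_sdiff.2 ⟨hr'', fun h7 => ?_⟩
      rcases Finset.mem_insert.1 h7 with h7 | h7
      · exact h2 h7.symm
      · exact h3 (Finset.mem_singleton.1 h7).symm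
    rw [h] at h6
    exact hrV' h6
  have hi : D.P Z \ {r, r', r''} ⊆ D.P (U ∩ V) := by
    intro x hx
    rw [← P_inter, hUe, hVe]
    obtain ⟨hx1, hx2⟩ := Finset.mem_sdiff.1 hx
    simp only [Finset.mem_insert, Finset.mem_singleton, not_or] at hx2
    refine Finset.mem_inter.2 ⟨Finset.mem_sdiff.2 ⟨hx1, ?_⟩, Finset.mem_sdiff.2 ⟨hx1, ?_⟩⟩
    · simp only [Finset.mem_insert, Finset.mem_singleton, not_or]
      exact ⟨hx2.1, hx2.2.1⟩
    · simp only [Finset.mem_insert, Finset.mem_singleton, not_or]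
      exact ⟨hx2.1, hx2.2.2⟩
  have hc1 := Finset.card_le_card hi
  have hc2 := Finset.le_card_sdiff ({r, r', r''} : Finset κ) (D.P Z)
  have hc3 : ({r, r', r''} : Finset κ).card ≤ 3 := Finset.card_le_three
  have hc4 := Finset.card_union_add_card_inter U V
  have hc5 : (U ∪ V).card ≤ 4 := by
    rw [← h4]
    exact Finset.card_le_card (Finset.union_subset hU hV)
  have hc6 : (U ∩ V).card < 3 := by
    by_contra h7
    push Not at h7
    have h8 : U ∩ V = U := Finset.eq_of_subset_of_card_le Finset.inter_subset_left (by omega)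
    have h9 : U ∩ V = V := Finset.eq_of_subset_of_card_le Finset.inter_subset_right (by omega)
    exact hne (h8.symm.trans h9)
  have hc7 := (N4b_card D (U ∩ V)).2.2.1 (by omega)
  omega

/-- Complement with three elements `i, k, l`, `m = 1`, `Z.card = 4`. `(D.P Z).card = 5`, `(D.P Z)ᶜ = {y}` (`Top.card_compl`),
all three generators divide `b y` (`Top.exists_label`). `exists_P_two` gives `r1, r2, r3 ∈ D.P Z` divisible by the gcds of
`{k, l}`, `{i, l}`, `{i, k}`; they are different by `false_of_two_dvd` (`rem_one`). By `rem_two_or` at least two of the three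
pairs are removable (three times: of any two pairs one is removable), and two pairs have a common element; if these are
`{r1, r2}` and `{r1, r3}` then `label_sum` gives `b r1 + b r2 = b r3` and `b r1 + b r3 = b r2`, so `b r1 = 0`: contradiction. The
other two cases are the same after renaming. -/
theorem Top.false_four {D : Dt ι κ} {Z : Finset ι} (t : Top D Z 1) (h : (Zᶜ).card = 3)
    (h' : Z.card = 4) : False := by
  have h5 : (D.P Z).card = 5 := by
    rw [t.eq, h']
  have hcc := t.card_compl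
  rw [h] at hcc
  obtain ⟨y, hY⟩ := Finset.card_eq_one.1 (show ((D.P Z)ᶜ).card = 1 by omega)
  obtain ⟨i, k, l, hik, hil, hkl, hZ⟩ := Finset.card_eq_three.1 h
  have hlab : ∀ x, x ∈ Zᶜ → D.g x ∣ D.b y := by
    intro x hx
    obtain ⟨j, hj, hj'⟩ := t.exists_label (Finset.mem_compl.1 hx)
    have h2 : j ∈ (D.P Z)ᶜ := Finset.mem_compl.2 hj
    rw [hY, Finset.mem_singleton] at h2
    rw [← h2]
    exact hj'
  have hi := hlab i (by rw [hZ]; simp)
  have hk := hlab k (by rw [hZ]; simp)
  have hl := hlab l (by rw [hZ]; simp)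
  have hne : (D.P Z).Nonempty := Finset.card_pos.1 (by omega)
  have h2 : 2 ≤ (D.P Z).card := by omega
  have hrem : ∀ r ∈ D.P Z, D.Good Z (D.P Z \ {r}) := fun r hr => rem_one D h' h5 hr
  have hZ1 : Zᶜ = {i, l, k} := by
    rw [hZ]
    ext x
    simp only [Finset.mem_insert, Finset.mem_singleton]
    tauto
  have hZ2 : Zᶜ = {k, l, i} := by
    rw [hZ]
    ext x
    simp only [Finset.mem_insert, Finset.mem_singleton]
    tauto
  have hZ3 : Zᶜ = {k, i, l} := by
    rw [hZ]
    ext x
    simp only [Finset.mem_insert, Finset.mem_singleton]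
    tauto
  have hZ4 : Zᶜ = {l, i, k} := by
    rw [hZ]
    ext x
    simp only [Finset.mem_insert, Finset.mem_singleton]
    tauto
  obtain ⟨r1, hr1, d1⟩ := exists_P_two D hkl hY hne
  obtain ⟨r2, hr2, d2⟩ := exists_P_two D hil hY hne
  obtain ⟨r3, hr3, d3⟩ := exists_P_two D hik hY hne
  have h12 : r1 ≠ r2 := by
    rintro rfl
    exact false_of_two_dvd D hil.symm hkl.symm hik hZ4 hY hl hi hk h2 hrem hr1
      (by rw [Nat.gcd_comm]; exact d2) (by rw [Nat.gcd_comm]; exact d1)
  have h13 : r1 ≠ r3 := by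
    rintro rfl
    exact false_of_two_dvd D hik.symm hkl hil hZ3 hY hk hi hl h2 hrem hr1
      (by rw [Nat.gcd_comm]; exact d3) d1
  have h23 : r2 ≠ r3 := by
    rintro rfl
    exact false_of_two_dvd D hik hil hkl hZ hY hi hk hl h2 hrem hr2 d3 d2
  have A : D.Good Z (D.P Z \ {r1, r2}) → D.b r1 + D.b r2 = D.b r3 := fun hg =>
    label_sum D hik hil hkl hZ hY hi hk hl hr1 hr2 hr3 h12 h13 h23 d1 d2 d3 hg
  have B : D.Good Z (D.P Z \ {r1, r3}) → D.b r1 + D.b r3 = D.b r2 := fun hg =>
    label_sum D hil hik hkl.symm hZ1 hY hi hl hk hr1 hr3 hr2 h13 h12 h23.symm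
      (by rw [Nat.gcd_comm]; exact d1) d3 d2 hg
  have C : D.Good Z (D.P Z \ {r2, r3}) → D.b r2 + D.b r3 = D.b r1 := fun hg =>
    label_sum D hkl hik.symm hil.symm hZ2 hY hk hl hi hr2 hr3 hr1 h23 h12.symm h13.symm
      (by rw [Nat.gcd_comm]; exact d2) (by rw [Nat.gcd_comm]; exact d3) d1 hg
  have o1 := rem_two_or D h' h5 hr1 hr2 hr3 h12 h13 h23
  have o2 := rem_two_or D h' h5 hr2 hr1 hr3 h12.symm h23 h13
  have o3 := rem_two_or D h' h5 hr3 hr1 hr2 h13.symm h23.symm h12
  rw [Finset.pair_comm r2 r1] at o2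
  rw [Finset.pair_comm r3 r1, Finset.pair_comm r3 r2] at o3
  have b1 := D.bpos r1
  have b2 := D.bpos r2
  have b3 := D.bpos r3
  rcases o1 with o1 | o1 <;> rcases o2 with o2 | o2 <;> rcases o3 with o3 | o3
  · have := A o1
    have := B o3
    omega
  · have := A o1
    have := C o3
    omega
  · have := A o1
    have := C o2
    omega
  · have := A o1
    have := C o2
    omega
  · have := B o1
    have := A o2
    omega
  · have := B o1
    have := A o2
    omega
  · have := B o1
    have := C o2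
    omega
  · have := B o1
    have := C o2
    omega

end Pool.Agent.LibCov74
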