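import Pool.Agent.LibCov74.N4b
import Pool.Agent.LibCov74.X2
import Pool.Agent.LibCov74.H1a
import Pool.Agent.LibCov74.R1c
import Pool.Agent.LibTP76.P3

/-!
# At most seven denominators
-/

set_option autoImplicit false

namespace Pool.Agent.LibCov74

open Finset
open Pool.Agent.LibTP76 (CI)

/-- **At most seven denominators.** `exists_top`: `Z, m`. `m = 0`: `Top.false_zero`. `m ≥ 1`: `Z.card ≥ 3` (`three_le`), and
`Z.card ≠ 3` by `card_P_three`, so `Z.card ≥ 4` and `Zᶜ.card ≤ 3`; `(D.P Z)ᶜ` is nonempty (`Top.exists_label`), so by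
`Top.card_compl` `Zᶜ.card = 3`, `m = 1`, and `Z.card = 4`: `Top.false_four`. -/
theorem ci_seven {ι κ : Type} [Fintype ι] [Fintype κ] [DecidableEq ι] [DecidableEq κ] (D : Dt ι κ)
    (h : Fintype.card ι ≤ 7) : CI D.S := by
  by_contra hcon
  obtain ⟨Z, m, t⟩ := exists_top D hcon
  rcases Nat.eq_zero_or_pos m with rfl | hm
  · exact t.false_zero
  have he := t.eq
  have h3 := three_le D Z t.ne (by omega)
  have hc := Finset.card_add_card_compl Z
  have hcc := t.card_compl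
  have hne3 : Z.card ≠ 3 := by
    intro h0
    have := card_P_three D h0
    omega
  obtain ⟨i, hi⟩ : ∃ i, i ∉ Z := by
    by_contra h0
    push Not at h0
    exact t.ne' (Finset.eq_univ_iff_forall.2 h0)
  obtain ⟨j, hj, -⟩ := t.exists_label hi
  have hpos : 0 < ((D.P Z)ᶜ).card := Finset.card_pos.2 ⟨j, Finset.mem_compl.2 hj⟩
  have hm1 : m = 1 := by omega
  subst hm1
  exact t.false_four (by omega) (by omega)

/-- the same proof as `result6` in `Final6` -/
theorem result7 (S : AddSubmonoid ℕ) (hS : ((S : Set ℕ)ᶜ).Finite) (e : ℕ) (g : Fin e → ℕ)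
    (hmono : StrictMono g)
    (hg : Set.range g = {x : ℕ | x ∈ S ∧ x ≠ 0 ∧ ∀ a ∈ S, ∀ b ∈ S, a + b = x → a = 0 ∨ b = 0})
    (n : ℕ) (hn : n ≤ 6) (a : Fin (n + 1) → ℕ) (b : Fin n → ℕ) (ha : ∀ i, 0 < a i)
    (hb : ∀ j, 0 < b j)
    (h : (1 - (1 - Polynomial.X) * ∑ n ∈ hS.toFinset, Polynomial.X ^ n : Polynomial ℤ) *
        ∏ i, (1 - Polynomial.X ^ a i) = (1 - Polynomial.X) * ∏ j, (1 - Polynomial.X ^ b j)) :
    ∃ s : Finset (MvPolynomial (Fin e) ℚ), s.card ≤ e - 1 ∧
      Ideal.span (s : Set (MvPolynomial (Fin e) ℚ))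
        = RingHom.ker (MvPolynomial.aeval (R := ℚ)
            (fun i : Fin e => (Polynomial.X : Polynomial ℚ) ^ g i)) := by
  obtain ⟨m, D, hm, rfl⟩ := exists_dt S hS n a b ha hb
    (Pool.Agent.LibVol74.series_of_poly S hS a b h)
  have hci := ci_seven D (by simp; omega)
  exact Pool.Agent.LibTP76.ideal_of_ci D.S hci e g hmono hg

end Pool.Agent.LibCov74
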