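import Pool.Agent.LibCov74.R1c
import Pool.Agent.LibTP76.S4

/-!
# Cyclotomic numerical semigroups have a product formula
-/

set_option autoImplicit false

namespace Pool.Agent.LibCov74

open Finset
open Pool.Agent.LibVol74 (HS)

/-- The polynomial `f` is a quotient of two products of the same number of factors `1 - z^a`. -/
def R2a_P (f : Polynomial ℤ) : Prop :=
  ∃ A B : Multiset ℕ, (∀ a ∈ A, 0 < a) ∧ (∀ b ∈ B, 0 < b) ∧ A.card = B.card ∧
    f * (A.map (fun a => (1 - Polynomial.X ^ a : Polynomial ℤ))).prod =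
      (B.map (fun b => (1 - Polynomial.X ^ b : Polynomial ℤ))).prod

theorem R2a_one : R2a_P 1 := ⟨0, 0, by simp, by simp, rfl, by simp⟩

theorem R2a_mul {f g : Polynomial ℤ} (hf : R2a_P f) (hg : R2a_P g) : R2a_P (f * g) := by
  obtain ⟨A, B, hA, hB, hc, h⟩ := hf
  obtain ⟨A', B', hA', hB', hc', h'⟩ := hg
  refine ⟨A + A', B + B', ?_, ?_, ?_, ?_⟩
  · intro a ha
    rcases Multiset.mem_add.1 ha with ha | ha
    · exact hA a ha
    · exact hA' a ha
  · intro b hb
    rcases Multiset.mem_add.1 hb with hb | hb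
    · exact hB b hb
    · exact hB' b hb
  · rw [Multiset.card_add, Multiset.card_add, hc, hc']
  · rw [Multiset.map_add, Multiset.map_add, Multiset.prod_add, Multiset.prod_add, ← h, ← h']
    ring

theorem R2a_prod (s : Finset ℕ) (f : ℕ → Polynomial ℤ) (h : ∀ d ∈ s, R2a_P (f d)) :
    R2a_P (∏ d ∈ s, f d) := by
  induction s using Finset.induction_on with
  | empty => rw [Finset.prod_empty]; exact R2a_one
  | insert a s ha ih =>
    rw [Finset.prod_insert ha]
    exact R2a_mul (h a (Finset.mem_insert_self a s))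
      (ih fun d hd => h d (Finset.mem_insert_of_mem hd))

/-- For `k ≥ 2`: `Φ_k ∏_A (1 - z^a) = ∏_B (1 - z^b)` for some multisets `A, B` of positive numbers with the same
number of elements. Strong induction: `X^k - 1 = (X - 1) Φ_k ∏_{d ∣ k, 1 < d < k} Φ_d`. -/
theorem cyc_formula (k : ℕ) (hk : 2 ≤ k) :
    ∃ A B : Multiset ℕ, (∀ a ∈ A, 0 < a) ∧ (∀ b ∈ B, 0 < b) ∧ A.card = B.card ∧
      Polynomial.cyclotomic k ℤ * (A.map (fun a => (1 - Polynomial.X ^ a : Polynomial ℤ))).prod =
        (B.map (fun b => (1 - Polynomial.X ^ b : Polynomial ℤ))).prod := by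
  change R2a_P (Polynomial.cyclotomic k ℤ)
  induction k using Nat.strong_induction_on with
  | _ k ih =>
    have h1 : ∏ d ∈ Nat.divisors k, Polynomial.cyclotomic d ℤ = Polynomial.X ^ k - 1 :=
      Polynomial.prod_cyclotomic_eq_X_pow_sub_one (by omega) ℤ
    have hk0 : k ≠ 0 := by omega
    have hkm : k ∈ Nat.divisors k := Nat.mem_divisors_self k hk0
    have h1m : 1 ∈ (Nat.divisors k).erase k :=
      Finset.mem_erase.2 ⟨by omega, Nat.one_mem_divisors.2 hk0⟩
    rw [← Finset.mul_prod_erase _ _ hkm, ← Finset.mul_prod_erase _ _ h1m,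
      Polynomial.cyclotomic_one] at h1
    obtain ⟨A, B, hA, hB, hc, h⟩ := R2a_prod (((Nat.divisors k).erase k).erase 1)
      (fun d => Polynomial.cyclotomic d ℤ) (by
        intro d hd
        rw [Finset.mem_erase, Finset.mem_erase, Nat.mem_divisors] at hd
        have h2 : d ≤ k := Nat.le_of_dvd (by omega) hd.2.2.1
        have h3 : 0 < d := Nat.pos_of_dvd_of_pos hd.2.2.1 (by omega)
        exact ih d (by omega) (by omega))
    refine ⟨1 ::ₘ B, k ::ₘ A, ?_, ?_, ?_, ?_⟩
    · intro a ha
      rcases Multiset.mem_cons.1 ha with rfl | ha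
      · exact one_pos
      · exact hB a ha
    · intro b hb
      rcases Multiset.mem_cons.1 hb with rfl | hb
      · omega
      · exact hA b hb
    · rw [Multiset.card_cons, Multiset.card_cons, hc]
    · rw [Multiset.map_cons, Multiset.map_cons, Multiset.prod_cons, Multiset.prod_cons, ← h]
      linear_combination (-(A.map (fun a => (1 - Polynomial.X ^ a : Polynomial ℤ))).prod) * h1

end Pool.Agent.LibCov74
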