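import Pool.Agent.LibCov74.R1c
import Pool.Agent.LibTP76.S4
import Pool.Agent.LibCov74.R2a

/-!
# Cyclotomic numerical semigroups have a product formula
-/

set_option autoImplicit false

namespace Pool.Agent.LibCov74

open Finset
open Pool.Agent.LibVol74 (HS)

private theorem R2b_fn (B : Multiset ℕ) : ∃ b : Fin B.card → ℕ, (∀ j, b j ∈ B) ∧
    ∀ f : ℕ → Polynomial ℤ, ∏ j, f (b j) = (B.map f).prod := by
  induction B using Quotient.inductionOn with
  | h l =>
    refine ⟨fun j => l.get j, fun j => List.get_mem l j, fun f => ?_⟩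
    show ∏ j : Fin l.length, f (l.get j) = ((l : Multiset ℕ).map f).prod
    rw [Multiset.map_coe, Multiset.prod_coe]
    exact Fin.prod_univ_fun_getElem l f

private theorem R2b_ms (M : Multiset ℕ) (hM : 1 ∉ M) :
    ∃ A B : Multiset ℕ, (∀ a ∈ A, 0 < a) ∧ (∀ b ∈ B, 0 < b) ∧ A.card = B.card ∧
      (M.map (fun k => Polynomial.cyclotomic k ℤ)).prod *
        (A.map (fun a => (1 - Polynomial.X ^ a : Polynomial ℤ))).prod =
        (B.map (fun b => (1 - Polynomial.X ^ b : Polynomial ℤ))).prod := by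
  induction M using Multiset.induction_on with
  | empty => exact ⟨0, 0, by simp, by simp, rfl, by simp⟩
  | cons k M ih =>
    rw [Multiset.mem_cons, not_or] at hM
    obtain ⟨A, B, hA, hB, hc, h⟩ := ih hM.2
    have hk1 := hM.1
    rcases Nat.lt_or_ge k 2 with hk | hk
    · have hk0 : k = 0 := by omega
      subst hk0
      refine ⟨A, B, hA, hB, hc, ?_⟩
      rw [Multiset.map_cons, Multiset.prod_cons, Polynomial.cyclotomic_zero, one_mul]
      exact h
    · obtain ⟨A', B', hA', hB', hc', h'⟩ := cyc_formula k hk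
      refine ⟨A' + A, B' + B, ?_, ?_, ?_, ?_⟩
      · intro a ha
        rcases Multiset.mem_add.1 ha with h1 | h1
        · exact hA' a h1
        · exact hA a h1
      · intro a ha
        rcases Multiset.mem_add.1 ha with h1 | h1
        · exact hB' a h1
        · exact hB a h1
      · rw [Multiset.card_add, Multiset.card_add, hc, hc']
      · rw [Multiset.map_cons, Multiset.prod_cons, Multiset.map_add, Multiset.map_add,
          Multiset.prod_add, Multiset.prod_add, ← h, ← h']
        ring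

/-- the product formula: `1 ∉ M` by `LibTP76.one_not_mem` (`PP S hS` is the polynomial on the left); `Φ_0 = 1` -/
theorem exists_formula (S : AddSubmonoid ℕ) (hS : ((S : Set ℕ)ᶜ).Finite) (M : Multiset ℕ)
    (hM : (1 - (1 - Polynomial.X) * ∑ n ∈ hS.toFinset, Polynomial.X ^ n : Polynomial ℤ)
        = (M.map (fun k => Polynomial.cyclotomic k ℤ)).prod) :
    ∃ (n : ℕ) (a : Fin (n + 1) → ℕ) (b : Fin n → ℕ), (∀ i, 0 < a i) ∧ (∀ j, 0 < b j) ∧
      HS S * ∏ i, (1 - (PowerSeries.X : PowerSeries ℤ) ^ a i) =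
        ∏ j, (1 - (PowerSeries.X : PowerSeries ℤ) ^ b j) := by
  have h1 : 1 ∉ M := Pool.Agent.LibTP76.one_not_mem S hS M hM
  obtain ⟨A, B, hA, hB, hc, h⟩ := R2b_ms M h1
  obtain ⟨b, hb, hbp⟩ := R2b_fn B
  obtain ⟨a, ha, hap⟩ := R2b_fn A
  revert a b
  rw [hc]
  intro b hb hbp a ha hap
  refine ⟨B.card, Fin.cons 1 a, b, ?_, fun j => hB _ (hb j), ?_⟩
  · intro i
    refine Fin.cases ?_ (fun j => ?_) i
    · rw [Fin.cons_zero]
      exact Nat.one_pos
    · rw [Fin.cons_succ]
      exact hA _ (ha j)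
  · apply Pool.Agent.LibVol74.series_of_poly S hS
    rw [Fin.prod_univ_succ]
    simp only [Fin.cons_zero, Fin.cons_succ, pow_one]
    rw [hap (fun a => 1 - Polynomial.X ^ a), hbp (fun b => 1 - Polynomial.X ^ b), ← h, hM]
    ring

end Pool.Agent.LibCov74
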