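import Mathlib

/-!
# Exposed vertices and alternating moves

`N c` is the set of vertices touched by the label `c`. A pair `(x, μ)` is a matching pair for
`(O, C)` if `μ` maps `C` injectively into `O \ x`, `μ c ∈ N c`.
-/

set_option autoImplicit false

namespace Pool.Agent.LibCov74

open Finset

variable {α β : Type} [DecidableEq α] [DecidableEq β]

/-- matching pair: `x` is the exposed vertex -/
structure MP (O : Finset α) (C : Finset β) (N : β → Finset α) (x : α) (μ : β → α) : Prop where
  hx : x ∈ O
  mem : ∀ c ∈ C, μ c ∈ O ∧ μ c ∈ N c ∧ μ c ≠ x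
  inj : Set.InjOn μ (C : Set β)

/-- alternating moves with labels in `L`, starting from `(x, μ)`: a label touching the exposed
vertex is moved to it, its old place is exposed -/
inductive Rch (N : β → Finset α) (L : Finset β) (x : α) (μ : β → α) : α → (β → α) → Prop
  | refl : Rch N L x μ x μ
  | step {r : α} {ν : β → α} (c : β) : Rch N L x μ r ν → c ∈ L → r ∈ N c →
      Rch N L x μ (ν c) (Function.update ν c r)

variable {O : Finset α} {C L : Finset β} {N : β → Finset α} {x r : α} {μ ν : β → α}

theorem Rch.mp (h : MP O C N x μ) (hL : L ⊆ C) (hr : Rch N L x μ r ν) : MP O C N r ν := by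
  induction hr with
  | refl => exact h
  | step c hr hc hrc ih =>
    rename_i r ν
    refine ⟨(ih.mem c (hL hc)).1, fun c' hc' => ?_, ?_⟩
    · by_cases hcc : c' = c
      · subst hcc
        rw [Function.update_self]
        exact ⟨ih.hx, hrc, (ih.mem c' (hL hc)).2.2.symm⟩
      · rw [Function.update_of_ne hcc]
        exact ⟨(ih.mem c' hc').1, (ih.mem c' hc').2.1,
          fun he => hcc (ih.inj hc' (Finset.mem_coe.2 (hL hc)) he)⟩
    · intro a ha b hb hab
      by_cases hac : a = c
      · by_cases hbc : b = c
        · rw [hac, hbc]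
        · subst hac
          rw [Function.update_self, Function.update_of_ne hbc] at hab
          exact absurd hab.symm (ih.mem b hb).2.2
      · by_cases hbc : b = c
        · subst hbc
          rw [Function.update_self, Function.update_of_ne hac] at hab
          exact absurd hab (ih.mem a ha).2.2
        · rw [Function.update_of_ne hac, Function.update_of_ne hbc] at hab
          exact ih.inj ha hb hab

theorem Rch.eq_of_notMem (hr : Rch N L x μ r ν) {c : β} (hc : c ∉ L) : ν c = μ c := by
  induction hr with
  | refl => rfl
  | step c' hr hc' hrc ih =>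
    have hne : c ≠ c' := fun he => hc (he ▸ hc')
    rw [Function.update_of_ne hne]
    exact ih

theorem Rch.image (hL : Set.InjOn μ (L : Set β)) (hx : ∀ c ∈ L, μ c ≠ x) (hr : Rch N L x μ r ν) :
    insert r (L.image ν) = insert x (L.image μ) := by
  induction hr with
  | refl => rfl
  | step c hr hc hrc ih =>
    rename_i r ν
    rw [← ih]
    have hLc : L = insert c (L.erase c) := (Finset.insert_erase hc).symm
    have h1 : L.image (Function.update ν c r) = insert r ((L.erase c).image ν) := by
      conv_lhs => rw [hLc]
      rw [Finset.image_insert, Function.update_self]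
      congr 1
      refine Finset.image_congr fun a ha => ?_
      exact Function.update_of_ne (Finset.ne_of_mem_erase (Finset.mem_coe.1 ha)) _ _
    have h2 : L.image ν = insert (ν c) ((L.erase c).image ν) := by
      conv_lhs => rw [hLc]
      rw [Finset.image_insert]
    rw [h1, h2, Finset.insert_comm]

/-- a label of `L` is still in its old place, or its old place was exposed at some time -/
theorem Rch.orig (hr : Rch N L x μ r ν) {c : β} (hc : c ∈ L) :
    ν c = μ c ∨ ∃ ν', Rch N L x μ (μ c) ν' := by
  induction hr with
  | refl => exact Or.inl rfl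
  | step c' hr hc' hrc ih =>
    rename_i r ν
    by_cases hcc : c = c'
    · subst hcc
      rcases ih with h | h
      · right
        have h1 := Rch.step c hr hc' hrc
        rw [h] at h1
        exact ⟨_, h1⟩
      · exact Or.inr h
    · rw [Function.update_of_ne hcc]
      exact ih

/-- a label of `L` touching a vertex which can be exposed has its old place exposed, too -/
theorem Rch.closed (hr : Rch N L x μ r ν) {c : β} (hc : c ∈ L) (hrc : r ∈ N c) :
    ∃ ν', Rch N L x μ (μ c) ν' := by
  rcases hr.orig hc with h | h
  · have h1 := Rch.step c hr hc hrc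
    rw [h] at h1
    exact ⟨_, h1⟩
  · exact h

open Classical in
/-- the set of vertices which can be exposed -/
noncomputable def RR (O : Finset α) (N : β → Finset α) (L : Finset β) (x : α) (μ : β → α) :
    Finset α := O.filter (fun r => ∃ ν, Rch N L x μ r ν)

/-- counting: the labels of `L` touching `RR` are exactly those `c ∈ L` with `μ c ∈ RR`; `μ` is a
bijection from them to `RR \ x` (`Rch.image` shows that `RR ⊆ insert x (L.image μ)`) -/
theorem RR_card (h : MP O C N x μ) (hL : L ⊆ C) :
    (L.filter (fun c => ∃ r ∈ RR O N L x μ, r ∈ N c)).card + 1 = (RR O N L x μ).card := by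
  classical
  have hmemRR : ∀ r, r ∈ RR O N L x μ ↔ r ∈ O ∧ ∃ ν, Rch N L x μ r ν := by
    intro r
    unfold RR
    rw [Finset.mem_filter]
  have hx : x ∈ RR O N L x μ := (hmemRR x).2 ⟨h.hx, μ, Rch.refl⟩
  have hcard : (L.filter (fun c => ∃ r ∈ RR O N L x μ, r ∈ N c)).card =
      ((RR O N L x μ).erase x).card := by
    refine Finset.card_bij (fun c _ => μ c) ?_ ?_ ?_
    · intro c hc
      obtain ⟨hcL, r, hr, hrc⟩ := Finset.mem_filter.1 hc
      obtain ⟨_, ν, hν⟩ := (hmemRR r).1 hr
      have hm := h.mem c (hL hcL)
      exact Finset.mem_erase.2 ⟨hm.2.2, (hmemRR _).2 ⟨hm.1, hν.closed hcL hrc⟩⟩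
    · intro a ha b hb hab
      exact h.inj (hL (Finset.mem_filter.1 ha).1) (hL (Finset.mem_filter.1 hb).1) hab
    · intro r hr
      obtain ⟨hrx, hrR⟩ := Finset.mem_erase.1 hr
      obtain ⟨_, ν, hν⟩ := (hmemRR r).1 hrR
      have him := hν.image (h.inj.mono (Finset.coe_subset.2 hL)) fun c hc => (h.mem c (hL hc)).2.2
      have hrm : r ∈ insert x (L.image μ) := by
        rw [← him]
        exact Finset.mem_insert_self _ _
      rcases Finset.mem_insert.1 hrm with h1 | h1
      · exact absurd h1 hrx
      · obtain ⟨c, hcL, hcr⟩ := Finset.mem_image.1 h1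
        refine ⟨c, Finset.mem_filter.2 ⟨hcL, r, hrR, ?_⟩, hcr⟩
        rw [← hcr]
        exact (h.mem c (hL hcL)).2.1
  rw [hcard, Finset.card_erase_add_one hx]

end Pool.Agent.LibCov74
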