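import Pool.Agent.LibCov74.S1

/-!
# Closures

`own c` is an up-closed family of sets, generated by nonempty subsets of `N c`.
-/

set_option autoImplicit false

namespace Pool.Agent.LibCov74

open Finset

variable {α β : Type} [DecidableEq α] [DecidableEq β]

/-- the hypotheses on the families `own` -/
structure OwnSys (N : β → Finset α) (own : β → Set (Finset α)) : Prop where
  up : ∀ c X X', X ⊆ X' → X ∈ own c → X' ∈ own c
  gen : ∀ c, ∀ X ∈ own c, ∃ U ∈ own c, U.Nonempty ∧ U ⊆ X ∧ U ⊆ N c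

open Classical in
/-- the labels owning `X` -/
noncomputable def EE (C : Finset β) (own : β → Set (Finset α)) (X : Finset α) : Finset β :=
  C.filter (fun c => X ∈ own c)

/-- `X` is the closure of `(x, μ)`: the smallest set containing `x` with `μ (EE X) ⊆ X` -/
structure IsCl (C : Finset β) (own : β → Set (Finset α)) (x : α) (μ : β → α) (X : Finset α) :
    Prop where
  mem : x ∈ X
  cl : ∀ c ∈ C, X ∈ own c → μ c ∈ X
  min : ∀ X', x ∈ X' → (∀ c ∈ C, X' ∈ own c → μ c ∈ X') → X ⊆ X'

variable {O : Finset α} {C : Finset β} {N : β → Finset α} {own : β → Set (Finset α)} {x : α}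
  {μ : β → α} {X : Finset α}

theorem S2_mem_EE {c : β} : c ∈ EE C own X ↔ c ∈ C ∧ X ∈ own c := by
  classical
  unfold EE
  exact Finset.mem_filter

theorem S2_image (hs : OwnSys N own) (h : MP O C N x μ) (hc : IsCl C own x μ X) :
    (EE C own X).image μ = X.erase x := by
  ext y
  rw [Finset.mem_image, Finset.mem_erase]
  constructor
  · rintro ⟨c, hcE, rfl⟩
    obtain ⟨h1, h2⟩ := S2_mem_EE.1 hcE
    exact ⟨(h.mem c h1).2.2, hc.cl c h1 h2⟩
  · rintro ⟨hyx, hyX⟩
    by_contra hno
    have hsub : X ⊆ X.erase y := by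
      apply hc.min
      · exact Finset.mem_erase.2 ⟨fun h => hyx h.symm, hc.mem⟩
      · intro c hcC hown
        have hX : X ∈ own c := hs.up c _ _ (Finset.erase_subset y X) hown
        refine Finset.mem_erase.2 ⟨fun he => hno ⟨c, S2_mem_EE.2 ⟨hcC, hX⟩, he⟩, hc.cl c hcC hX⟩
    exact absurd rfl (Finset.mem_erase.1 (hsub hyX)).1

/-- closed sets are closed under intersection (`OwnSys.up`); `O` is closed -/
theorem exists_cl (hs : OwnSys N own) (h : MP O C N x μ) : ∃ X, X ⊆ O ∧ IsCl C own x μ X := by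
  classical
  have hmem : ∀ z, z ∈ O.filter (fun z => ∀ X' : Finset α, x ∈ X' →
      (∀ c ∈ C, X' ∈ own c → μ c ∈ X') → z ∈ X') ↔ z ∈ O ∧ ∀ X' : Finset α, x ∈ X' →
      (∀ c ∈ C, X' ∈ own c → μ c ∈ X') → z ∈ X' := fun z => Finset.mem_filter
  refine ⟨O.filter (fun z => ∀ X' : Finset α, x ∈ X' →
      (∀ c ∈ C, X' ∈ own c → μ c ∈ X') → z ∈ X'), Finset.filter_subset _ _, ?_, ?_, ?_⟩
  · rw [hmem]
    exact ⟨h.hx, fun X' hx _ => hx⟩
  · intro c hcC hown
    rw [hmem]
    refine ⟨(h.mem c hcC).1, fun X' hx hcl => hcl c hcC (hs.up c _ _ ?_ hown)⟩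
    intro z hz
    exact ((hmem z).1 hz).2 X' hx hcl
  · intro X' hx hcl z hz
    exact ((hmem z).1 hz).2 X' hx hcl

/-- `μ` is a bijection `EE X → X \ x`: if `y ∈ X \ x` is not in the image of `EE X` then `X \ y` is
closed -/
theorem IsCl.card (hs : OwnSys N own) (h : MP O C N x μ) (hc : IsCl C own x μ X) :
    (EE C own X).card + 1 = X.card := by
  have hinj : Set.InjOn μ ((EE C own X : Finset β) : Set β) := by
    intro a ha b hb hab
    exact h.inj (S2_mem_EE.1 ha).1 (S2_mem_EE.1 hb).1 hab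
  rw [← Finset.card_image_of_injOn hinj, S2_image hs h hc]
  exact Finset.card_erase_add_one hc.mem

theorem IsCl.image (hs : OwnSys N own) (h : MP O C N x μ) (hc : IsCl C own x μ X) :
    (EE C own X).image μ = X.erase x :=
  S2_image hs h hc

/-- every vertex of `X` can be exposed by moves with labels owning `X`: the set
`R` of the vertices exposed by such moves is inside `X` (`Rch.image`, `IsCl.image`), contains `x` and is
closed: if `c ∈ C` owns `R` then it owns `X` and touches a vertex of `R` (`OwnSys.gen`), so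
`μ c ∈ R` by `Rch.closed`. -/
theorem IsCl.reach (hs : OwnSys N own) (h : MP O C N x μ) (hc : IsCl C own x μ X) {z : α}
    (hz : z ∈ X) : ∃ ν, Rch N (EE C own X) x μ z ν := by
  classical
  have hmem : ∀ r, r ∈ X.filter (fun r => ∃ ν, Rch N (EE C own X) x μ r ν) ↔
      r ∈ X ∧ ∃ ν, Rch N (EE C own X) x μ r ν := fun r => Finset.mem_filter
  have hsub : X ⊆ X.filter (fun r => ∃ ν, Rch N (EE C own X) x μ r ν) := by
    apply hc.min
    · rw [hmem]
      exact ⟨hc.mem, μ, Rch.refl⟩
    · intro c hcC hown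
      have hX : X ∈ own c := hs.up c _ _ (Finset.filter_subset _ _) hown
      obtain ⟨U, _, ⟨r, hr⟩, hU1, hU2⟩ := hs.gen c _ hown
      obtain ⟨-, ν, hν⟩ := (hmem r).1 (hU1 hr)
      rw [hmem]
      exact ⟨hc.cl c hcC hX, Rch.closed hν (S2_mem_EE.2 ⟨hcC, hX⟩) (hU2 hr)⟩
  exact ((hmem z).1 (hsub hz)).2

end Pool.Agent.LibCov74
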