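import Pool.Agent.LibCov74.S2

/-!
# The main combinatorial claim
-/

set_option autoImplicit false

namespace Pool.Agent.LibCov74

open Finset

variable {α β : Type} [DecidableEq α] [DecidableEq β]

theorem S3_mono {N : β → Finset α} {L L' : Finset β} (hL : L ⊆ L') {x r : α} {μ ν : β → α}
    (h : Rch N L x μ r ν) : Rch N L' x μ r ν := by
  induction h with
  | refl => exact Rch.refl
  | step c _ hc hr ih => exact Rch.step c ih (hL hc) hr

/-- Let `(X, C)` have matching pairs (`hex`), every `c ∈ C` own `X`, and suppose that the closure of EVERY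
matching pair is all of `X` (`hcl`, stated as: every closed set of a matching pair contains `X`). Then
`Z.card ≤ (EE C own Z).card` for all nonempty proper subsets `Z` of `X`.

Proof (helper27). `C.card + 1 = X.card` (`hcard`), so a matching pair is a bijection `C → X \ x`. Put
`d(Z) = Z.card - (EE Z).card` and suppose `D = max d(Z) ≥ 1` over the proper nonempty `Z`; take `Z` with
`d(Z) = D`. Matching pairs `(z, μ)` with `z ∈ Z` exist (`X` is the closure of any pair: `IsCl.reach`).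
Among all of them take one with `A.card` maximal, `A = {c ∈ EE Z | μ c ∈ Z}`. Let
`C_Z = {c ∈ C | μ c ∈ Z}` and `W` the closure of `(z, μ)` for `C_Z` (`exists_cl` for `(X, C_Z)`); `W ⊆ Z`
because `Z` is closed for `C_Z`.
(1) If every `c ∈ C` owning `W` has `μ c ∈ Z` then `W` is closed for `(z, μ)`, so `X ⊆ W ⊆ Z` by `hcl`:
contradiction.
(2) Otherwise some `c₀ ∈ C` owns `W` and `μ c₀ ∉ Z`. `c₀` touches some `w ∈ W` (`OwnSys.gen`). By `IsCl.reach`
for `(X, C_Z)` there is a state `(w, ν)` reached with labels `L = EE C_Z W`; `c₀ ∉ L`. Then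
`(o₁, μ₁) = (μ c₀, update ν c₀ w)` is a matching pair of `(X, C)` (one more step of `Rch` with
`insert c₀ L`). `A₁ = {c ∈ EE Z | μ₁ c ∈ Z}` contains `A` (labels of `L` stay in
`insert z (L.image μ) ⊆ Z`, `Rch.image`; the others do not move) and `c₀` (`c₀` owns `W ⊆ Z`), so
`A₁.card ≥ A.card + 1`. Let `L' = C \ A₁` and `R = RR X N L' o₁ μ₁`. If some `r ∈ R` is in `Z`, the state
exposing `r` contradicts the maximality of `A.card` (labels of `A₁` do not move). So `R` and `Z` are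
disjoint. By `RR_card` exactly `R.card - 1` labels of `L'` touch `R`. Put `Y = X \ R ⊇ Z`,
`Z' = Z ∪ R`. The labels of `L'` not touching `R` are `(X.card - 1) - A₁.card - (R.card - 1) = Y.card - A₁.card`
many; at least `Y.card - (EE Z).card` of them are not in `EE Z` (`A₁ ⊆ EE Z`), and such a label `c` does not
own `Z'` (a generating own set inside `Z' ∩ N c` would be inside `Z`). So
`(EE Z').card ≤ X.card - 1 - (Y.card - (EE Z).card) = R.card - 1 + (EE Z).card` and `d(Z') ≥ D + 1`. If `Z' ≠ X` this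
contradicts the choice of `D`; if `Z' = X` then `1 = d(X) ≥ D + 1 ≥ 2`. -/
theorem strong_claim (X : Finset α) (C : Finset β) (N : β → Finset α) (own : β → Set (Finset α))
    (hs : OwnSys N own) (hown : ∀ c ∈ C, X ∈ own c) (hcard : C.card + 1 = X.card)
    (hex : ∃ x μ, MP X C N x μ)
    (hcl : ∀ x μ, MP X C N x μ → ∀ W, x ∈ W → (∀ c ∈ C, W ∈ own c → μ c ∈ W) → X ⊆ W)
    (Z : Finset α) (hZ : Z ⊆ X) (hne : Z.Nonempty) (hZX : Z ≠ X) :
    Z.card ≤ (EE C own Z).card := by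
  classical
  by_contra hcon
  have hlt : (EE C own Z).card < Z.card := not_le.mp hcon
  -- the maximal defect
  obtain ⟨Z₀, hZ₀S, hZ₀max⟩ := Finset.exists_max_image
    (X.powerset.filter (fun Z => Z.Nonempty ∧ Z ≠ X))
    (fun Z => (Z.card : ℤ) - ((EE C own Z).card : ℤ))
    ⟨Z, by simp only [Finset.mem_filter, Finset.mem_powerset]; exact ⟨hZ, hne, hZX⟩⟩
  simp only [Finset.mem_filter, Finset.mem_powerset] at hZ₀S hZ₀max
  obtain ⟨hZ₀, hne₀, hZX₀⟩ := hZ₀S
  have hD : (1 : ℤ) ≤ (Z₀.card : ℤ) - ((EE C own Z₀).card : ℤ) := by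
    have := hZ₀max Z ⟨hZ, hne, hZX⟩
    have h2 : ((EE C own Z).card : ℤ) + 1 ≤ (Z.card : ℤ) := by exact_mod_cast hlt
    linarith
  -- matching pairs with exposed vertex in `Z₀`
  have hexZ : ∃ z ∈ Z₀, ∃ μ, MP X C N z μ := by
    obtain ⟨x, μ, hm⟩ := hex
    obtain ⟨W, hWX, hW⟩ := exists_cl hs hm
    have hXW : X ⊆ W := hcl x μ hm W hW.mem hW.cl
    obtain ⟨z, hz⟩ := hne₀
    obtain ⟨ν, hν⟩ := hW.reach hs hm (hXW (hZ₀ hz))
    exact ⟨z, hz, ν, hν.mp hm (Finset.filter_subset _ _)⟩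
  obtain ⟨n, ⟨z, hz, μ, hm, hn⟩, hmax⟩ : ∃ n, (∃ z ∈ Z₀, ∃ μ, MP X C N z μ ∧
      ((EE C own Z₀).filter (fun c => μ c ∈ Z₀)).card = n) ∧
      ∀ z ∈ Z₀, ∀ μ, MP X C N z μ →
        ((EE C own Z₀).filter (fun c => μ c ∈ Z₀)).card ≤ n := by
    let T : Set ℕ := {n | ∃ z ∈ Z₀, ∃ μ, MP X C N z μ ∧
      ((EE C own Z₀).filter (fun c => μ c ∈ Z₀)).card = n}
    have hb : BddAbove T := by
      refine ⟨(EE C own Z₀).card, ?_⟩
      rintro m ⟨z, _, μ, _, rfl⟩
      exact Finset.card_le_card (Finset.filter_subset _ _)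
    have hT : T.Nonempty := by
      obtain ⟨z, hz, μ, hm⟩ := hexZ
      exact ⟨_, z, hz, μ, hm, rfl⟩
    refine ⟨sSup T, Nat.sSup_mem hT hb, ?_⟩
    intro z hz μ hm
    exact le_csSup hb ⟨z, hz, μ, hm, rfl⟩
  -- the closure for the labels placed inside `Z₀`
  have hCZ : C.filter (fun c => μ c ∈ Z₀) ⊆ C := Finset.filter_subset _ _
  have hm' : MP X (C.filter (fun c => μ c ∈ Z₀)) N z μ :=
    ⟨hm.hx, fun c hc => hm.mem c (hCZ hc), hm.inj.mono (by exact_mod_cast hCZ)⟩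
  obtain ⟨W, hWX, hW⟩ := exists_cl hs hm'
  have hWZ : W ⊆ Z₀ := hW.min Z₀ hz (fun c hc _ => (Finset.mem_filter.mp hc).2)
  by_cases hall : ∀ c ∈ C, W ∈ own c → μ c ∈ Z₀
  · have hXW : X ⊆ W := hcl z μ hm W hW.mem
      (fun c hc hcW => hW.cl c (Finset.mem_filter.mpr ⟨hc, hall c hc hcW⟩) hcW)
    exact hZX₀ (Finset.Subset.antisymm hZ₀ (hXW.trans hWZ))
  push Not at hall
  obtain ⟨c₀, hc₀, hc₀W, hc₀Z⟩ := hall
  obtain ⟨U, hU, ⟨w, hwU⟩, hUW, hUN⟩ := hs.gen c₀ W hc₀W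
  have hwW : w ∈ W := hUW hwU
  obtain ⟨ν, hν⟩ := hW.reach hs hm' hwW
  have hLCZ : EE (C.filter (fun c => μ c ∈ Z₀)) own W ⊆ C.filter (fun c => μ c ∈ Z₀) :=
    Finset.filter_subset _ _
  have hc₀L : c₀ ∉ EE (C.filter (fun c => μ c ∈ Z₀)) own W := fun h =>
    hc₀Z (Finset.mem_filter.mp (hLCZ h)).2
  have hνc₀ : ν c₀ = μ c₀ := hν.eq_of_notMem hc₀L
  have hR1 : Rch N (insert c₀ (EE (C.filter (fun c => μ c ∈ Z₀)) own W)) z μ (ν c₀)
      (Function.update ν c₀ w) :=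
    Rch.step c₀ (S3_mono (Finset.subset_insert _ _) hν) (Finset.mem_insert_self _ _) (hUN hwU)
  have hm₁ : MP X C N (ν c₀) (Function.update ν c₀ w) := by
    refine hR1.mp hm ?_
    intro c hc
    rcases Finset.mem_insert.mp hc with rfl | hc
    · exact hc₀
    · exact hCZ (hLCZ hc)
  set μ₁ : β → α := Function.update ν c₀ w with hμ₁
  have himg := hν.image (hm'.inj.mono (by exact_mod_cast hLCZ))
    (fun c hc => (hm'.mem c (hLCZ hc)).2.2)
  -- `A ⊂ A₁`
  have hAA₁ : (EE C own Z₀).filter (fun c => μ c ∈ Z₀) ⊆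
      (EE C own Z₀).filter (fun c => μ₁ c ∈ Z₀) := by
    intro c hc
    obtain ⟨hcE, hcZ⟩ := Finset.mem_filter.mp hc
    refine Finset.mem_filter.mpr ⟨hcE, ?_⟩
    have hne' : c ≠ c₀ := by
      rintro rfl
      exact hc₀Z hcZ
    rw [hμ₁, Function.update_of_ne hne']
    by_cases hcL : c ∈ EE (C.filter (fun c => μ c ∈ Z₀)) own W
    · have h1 : ν c ∈ insert w ((EE (C.filter (fun c => μ c ∈ Z₀)) own W).image ν) :=
        Finset.mem_insert_of_mem (Finset.mem_image_of_mem ν hcL)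
      rw [himg] at h1
      rcases Finset.mem_insert.mp h1 with h | h
      · rw [h]; exact hz
      · obtain ⟨c', hc', h'⟩ := Finset.mem_image.mp h
        rw [← h']
        exact (Finset.mem_filter.mp (hLCZ hc')).2
    · rw [hν.eq_of_notMem hcL]
      exact hcZ
  have hc₀A₁ : c₀ ∈ (EE C own Z₀).filter (fun c => μ₁ c ∈ Z₀) := by
    refine Finset.mem_filter.mpr ⟨Finset.mem_filter.mpr ⟨hc₀, hs.up c₀ W Z₀ hWZ hc₀W⟩, ?_⟩
    rw [hμ₁, Function.update_self]
    exact hWZ hwW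
  have hc₀A : c₀ ∉ (EE C own Z₀).filter (fun c => μ c ∈ Z₀) := fun h =>
    hc₀Z (Finset.mem_filter.mp h).2
  have hA₁card : n + 1 ≤ ((EE C own Z₀).filter (fun c => μ₁ c ∈ Z₀)).card := by
    have h1 := Finset.card_le_card (Finset.insert_subset hc₀A₁ hAA₁)
    rw [Finset.card_insert_of_notMem hc₀A, hn] at h1
    exact h1
  -- the second walk
  have hL' : C \ (EE C own Z₀).filter (fun c => μ₁ c ∈ Z₀) ⊆ C := Finset.sdiff_subset
  have hRZ : ∀ r ∈ RR X N (C \ (EE C own Z₀).filter (fun c => μ₁ c ∈ Z₀)) (ν c₀) μ₁,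
      r ∉ Z₀ := by
    intro r hr hrZ
    obtain ⟨_, ν', hν'⟩ := Finset.mem_filter.mp hr
    have h1 := hmax r hrZ ν' (hν'.mp hm₁ hL')
    have h2 : (EE C own Z₀).filter (fun c => μ₁ c ∈ Z₀) ⊆
        (EE C own Z₀).filter (fun c => ν' c ∈ Z₀) := by
      intro c hc
      obtain ⟨hcE, hcZ⟩ := Finset.mem_filter.mp hc
      refine Finset.mem_filter.mpr ⟨hcE, ?_⟩
      rw [hν'.eq_of_notMem (fun h => (Finset.mem_sdiff.mp h).2 hc)]
      exact hcZ
    have h3 := Finset.card_le_card h2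
    omega
  have hRcard := RR_card hm₁ hL'
  set R := RR X N (C \ (EE C own Z₀).filter (fun c => μ₁ c ∈ Z₀)) (ν c₀) μ₁ with hR
  have hRX : R ⊆ X := Finset.filter_subset _ _
  have hEsub : EE C own (Z₀ ∪ R) ⊆ EE C own Z₀ ∪
      (C \ (EE C own Z₀).filter (fun c => μ₁ c ∈ Z₀)).filter (fun c => ∃ r ∈ R, r ∈ N c) := by
    intro c hc
    obtain ⟨hcC, hcZ⟩ := Finset.mem_filter.mp hc
    by_cases hcE : c ∈ EE C own Z₀
    · exact Finset.mem_union_left _ hcE
    refine Finset.mem_union_right _ (Finset.mem_filter.mpr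
      ⟨Finset.mem_sdiff.mpr ⟨hcC, fun h => hcE (Finset.mem_filter.mp h).1⟩, ?_⟩)
    by_contra hno
    push Not at hno
    obtain ⟨U', hU', _, hUZ, hUN'⟩ := hs.gen c _ hcZ
    refine hcE (Finset.mem_filter.mpr ⟨hcC, hs.up c U' Z₀ ?_ hU'⟩)
    intro u hu
    rcases Finset.mem_union.mp (hUZ hu) with h | h
    · exact h
    · exact absurd (hUN' hu) (hno u h)
  have hcard1 : (EE C own (Z₀ ∪ R)).card + 1 ≤ (EE C own Z₀).card + R.card := by
    have h1 := Finset.card_le_card hEsub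
    have h2 := Finset.card_union_le (EE C own Z₀)
      ((C \ (EE C own Z₀).filter (fun c => μ₁ c ∈ Z₀)).filter (fun c => ∃ r ∈ R, r ∈ N c))
    omega
  have hcard2 : (Z₀ ∪ R).card = Z₀.card + R.card := by
    refine Finset.card_union_of_disjoint ?_
    rw [Finset.disjoint_left]
    intro a ha hr
    exact hRZ a hr ha
  by_cases hX : Z₀ ∪ R = X
  · have h1 : EE C own (Z₀ ∪ R) = C := by
      rw [hX]
      exact Finset.filter_true_of_mem hown
    rw [h1] at hcard1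
    rw [hX] at hcard2
    omega
  · have h1 := hZ₀max (Z₀ ∪ R) ⟨Finset.union_subset hZ₀ hRX,
      hne₀.mono Finset.subset_union_left, hX⟩
    omega

end Pool.Agent.LibCov74
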