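import Pool.Agent.LibCov74.E2b

/-!
# Labels inside `⟨X⟩` (EX1)
-/

set_option autoImplicit false

namespace Pool.Agent.LibCov74

open Finset
open Pool.Agent.LibTP76 (CI)

variable {ι κ : Type} [Fintype ι] [Fintype κ] [DecidableEq ι] [DecidableEq κ]

open Classical in
/-- the labels in `⟨X⟩` -/
noncomputable def Dt.E (D : Dt ι κ) (X : Finset ι) : Finset κ :=
  Finset.univ.filter (fun j => D.b j ∈ Mon D.g X)

theorem mem_E (D : Dt ι κ) (X : Finset ι) (j : κ) : j ∈ D.E X ↔ D.b j ∈ Mon D.g X := by
  unfold Dt.E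
  simp

/-- `b j ∈ ⟨X⟩` iff a factorization has its support inside `X` -/
theorem mem_E_iff (D : Dt ι κ) (X : Finset ι) (j : κ) : j ∈ D.E X ↔ ∃ u ∈ D.F j, u ⊆ X := by
  classical
  rw [mem_E, mem_Mon_iff]
  constructor
  · rintro ⟨x, hx⟩
    refine ⟨Finset.univ.filter (fun i => (if i ∈ X then x i else 0) ≠ 0),
      ⟨fun i => if i ∈ X then x i else 0, ?_, ?_⟩, ?_⟩
    · rw [← hx]
      rw [← Finset.sum_subset (Finset.subset_univ X)]
      · exact Finset.sum_congr rfl (fun i hi => by simp [hi])
      · intro i _ hi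
        simp [hi]
    · ext i
      simp
    · intro i hi
      have h1 := (Finset.mem_filter.mp hi).2
      by_contra hX
      simp [hX] at h1
  · rintro ⟨u, ⟨x, hx, rfl⟩, hu⟩
    refine ⟨x, ?_⟩
    rw [← hx]
    refine Finset.sum_subset (Finset.subset_univ X) ?_
    intro i _ hi
    have : x i = 0 := by
      by_contra h0
      exact hi (hu (by simp [h0]))
    simp [this]

theorem X1_nonempty (D : Dt ι κ) {j : κ} {u : Finset ι} (hu : u ∈ D.F j) : u.Nonempty := by
  obtain ⟨x, hx, rfl⟩ := hu
  by_contra h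
  rw [Finset.not_nonempty_iff_eq_empty, Finset.filter_eq_empty_iff] at h
  have h0 : ∑ i, x i * D.g i = 0 := by
    refine Finset.sum_eq_zero (fun i hi => ?_)
    have := h hi
    push Not at this
    simp [this]
  have := D.bpos j
  omega

/-- (EX1) Let `X` be proper, nonempty, `(D.E X).card + 1 = X.card` and `Z.card ≤ (D.E Z).card` for all nonempty
proper `Z ⊆ X`. Then `(X, D.E X)` is good.
Proof. For `j ∈ D.E X` let `F' j = {u ∈ D.F j | u ⊆ X}` (nonempty), for the other `j` let `F' j = D.F j`. Let `J`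
be the largest autarky of `(X; D.E X)` for `F'` (`exists_max_aut`), `V = Nb F' X J`. If `V = X`: the choice
covers `X`: `good_of_cov`, `Good.mono`. If `V ≠ X` and `J` is nonempty (then `V` is nonempty), `O = X \ V`
is a nonempty proper subset of `X`; `(O; D.E X \ J)` is lean (`ln_of_max`), so
`(D.E X \ J).card + 1 ≤ O.card` (`ln_card`); but `D.E O ⊆ D.E X \ J` (a label of `J` has all its `F'`-values
inside `V`, so none inside `O`) and `O.card ≤ (D.E O).card`: contradiction. So `J = ∅`, `(X; D.E X)` is lean for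
`F'`, `ln_tree` gives `Tr F' X (D.E X)`, so `Tr D.F X (D.E X)` (`Tr.mono`) and `NTr` (`Tr.ntr`). If
`(X, D.E X)` is not good: with `h = gcd X`, `NTr.mem_of_not_good`: every label divisible by `h` is in
`D.E X`. If `h ≥ 2`: `cnt_le` gives at least `X.card` such labels: contradiction. If `h = 1` all labels are
in `D.E X`: `X.card = (D.E X).card + 1 = #κ + 1 = #ι` and `X` is not proper: contradiction. -/
theorem good_E (D : Dt ι κ) (X : Finset ι) (hX : X ≠ Finset.univ) (hne : X.Nonempty)
    (h1 : (D.E X).card + 1 = X.card)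
    (h2 : ∀ Z, Z ⊆ X → Z.Nonempty → Z ≠ X → Z.card ≤ (D.E Z).card) : D.Good X (D.E X) := by
  classical
  let F' : κ → Set (Finset ι) := fun j => if j ∈ D.E X then {u | u ∈ D.F j ∧ u ⊆ X} else D.F j
  have hF'in : ∀ j ∈ D.E X, F' j = {u | u ∈ D.F j ∧ u ⊆ X} := fun j hj => if_pos hj
  have hF'sub : ∀ j, F' j ⊆ D.F j := by
    intro j u hu
    by_cases hj : j ∈ D.E X
    · rw [hF'in j hj] at hu
      exact hu.1
    · have : F' j = D.F j := if_neg hj
      rw [this] at hu
      exact hu
  have hF'ne : ∀ j, (F' j).Nonempty := by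
    intro j
    by_cases hj : j ∈ D.E X
    · obtain ⟨u, hu, huX⟩ := (mem_E_iff D X j).mp hj
      refine ⟨u, ?_⟩
      rw [hF'in j hj]
      exact ⟨hu, huX⟩
    · have : F' j = D.F j := if_neg hj
      rw [this]
      exact F_nonempty D j
  obtain ⟨J, hJE, hJa, hJmax⟩ := exists_max_aut F' X (D.E X)
  by_cases hV : Nb F' X J = X
  · obtain ⟨c, hc, hcov⟩ := hJa
    rw [hV] at hcov
    exact Good.mono D (Finset.Subset.refl X) hJE
      (good_of_cov D X J c (fun j hj => hF'sub j (hc j hj)) hcov)
  have hVX : Nb F' X J ⊆ X := fun x hx => ((mem_Nb F' X J x).mp hx).1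
  have hln := ln_of_max F' X (D.E X) J hJE hJa hJmax
  have hOne : (X \ Nb F' X J).Nonempty := by
    rw [Finset.sdiff_nonempty]
    exact fun h => hV (Finset.Subset.antisymm hVX h)
  rcases J.eq_empty_or_nonempty with rfl | hJne
  · -- `(X; E X)` is lean
    have hNb : Nb F' X (∅ : Finset κ) = ∅ := by
      ext x
      rw [mem_Nb]
      simp
    rw [hNb, Finset.sdiff_empty, Finset.sdiff_empty] at hln
    have ht := ln_tree F' hF'ne X (D.E X) (fun j hj u hu => by
      rw [hF'in j hj] at hu
      exact hu.2) hln h1.symm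
    have hn : NTr D.g D.b X (D.E X) := Tr.ntr D (ht.mono (fun j _ => hF'sub j))
    by_contra hng
    have hmem : ∀ j, X.gcd D.g ∣ D.b j → j ∈ D.E X := fun j hj =>
      (mem_E D X j).mpr (hn.mem_of_not_good D hng (b_mem D j) hj)
    have hpos : 0 < X.gcd D.g := hn.gcd_pos D.gpos
    rcases Nat.lt_or_ge 1 (X.gcd D.g) with hgt | hle
    · have hc := cnt_le D (n := X.gcd D.g) hgt
      have hc1 : X.card ≤ cnt (X.gcd D.g) Finset.univ D.g := by
        refine Finset.card_le_card ?_
        intro i hi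
        exact Finset.mem_filter.mpr ⟨Finset.mem_univ i, Finset.gcd_dvd hi⟩
      have hc2 : cnt (X.gcd D.g) Finset.univ D.b ≤ (D.E X).card := by
        refine Finset.card_le_card ?_
        intro j hj
        exact hmem j (Finset.mem_filter.mp hj).2
      omega
    · have h11 : X.gcd D.g = 1 := by omega
      have hE : D.E X = Finset.univ := by
        refine Finset.eq_univ_of_forall (fun j => hmem j ?_)
        rw [h11]
        exact one_dvd _
      apply hX
      rw [← Finset.card_eq_iff_eq_univ, ← h1, hE, Finset.card_univ]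
      exact D.card
  · -- `V` is nonempty
    exfalso
    have hVne : (Nb F' X J).Nonempty := by
      obtain ⟨j, hj⟩ := hJne
      obtain ⟨u, hu⟩ := hF'ne j
      obtain ⟨x, hx⟩ := X1_nonempty D (hF'sub j hu)
      have huX : u ⊆ X := by
        have := hu
        rw [hF'in j (hJE hj)] at this
        exact this.2
      exact ⟨x, (mem_Nb F' X J x).mpr ⟨huX hx, j, hj, u, hu, hx⟩⟩
    have hOX : X \ Nb F' X J ≠ X := by
      obtain ⟨x, hx⟩ := hVne
      intro h
      have : x ∈ X \ Nb F' X J := by rw [h]; exact hVX hx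
      exact (Finset.mem_sdiff.mp this).2 hx
    have hc1 := ln_card F' hF'ne _ _ hOne hln
    have hc2 := h2 _ Finset.sdiff_subset hOne hOX
    have hsub : D.E (X \ Nb F' X J) ⊆ D.E X \ J := by
      intro j hj
      obtain ⟨u, hu, huO⟩ := (mem_E_iff D _ j).mp hj
      have huX : u ⊆ X := huO.trans Finset.sdiff_subset
      have hjE : j ∈ D.E X := (mem_E_iff D X j).mpr ⟨u, hu, huX⟩
      refine Finset.mem_sdiff.mpr ⟨hjE, fun hjJ => ?_⟩
      obtain ⟨x, hx⟩ := X1_nonempty D hu
      have hu' : u ∈ F' j := by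
        rw [hF'in j hjE]
        exact ⟨hu, huX⟩
      exact (Finset.mem_sdiff.mp (huO hx)).2
        ((mem_Nb F' X J x).mpr ⟨huX hx, j, hjJ, u, hu', hx⟩)
    have hc3 := Finset.card_le_card hsub
    omega

end Pool.Agent.LibCov74
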